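import Pool.Agent.Helper72.BA.Defs
import Pool.Agent.Helper72.BAM.KE1

/-!
# Module KE2 of MP_3dd6d4_an: dilations of the kernels and the bound of the low pass kernels
-/

set_option autoImplicit false

open MeasureTheory Complex FourierTransform Filter Topology
open scoped ENNReal NNReal ComplexConjugate

noncomputable section

namespace Helper72.BA.P

open Helper72.BA

theorem ke2_Psi (j i : ℤ) (η : ℂ) : Psi (j + i) ((2:ℝ) ^ i • η) = Psi j η := by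
  unfold Psi
  congr 1
  rw [norm_smul, Real.norm_of_nonneg (by positivity), ← mul_assoc, ← zpow_add₀ (by norm_num)]
  congr 2
  ring

theorem ke2_chi (j i : ℤ) (η : ℂ) : chi (j + i) ((2:ℝ) ^ i • η) = chi j η := by
  unfold chi
  rw [show j + i - 1 = (j - 1) + i by ring, ke2_Psi, ke2_Psi]

theorem ke2_mult (n : ℕ) (i : ℤ) (η : ℂ) : mult n ((2:ℝ) ^ i • η) = mult n η := by
  unfold mult
  congr 1
  have h : (((2:ℝ) ^ i : ℝ) : ℂ) ≠ 0 := by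
    rw [ofReal_ne_zero]
    positivity
  rw [real_smul, map_mul, conj_ofReal, mul_div_mul_left _ _ h]

/-- Fourier inversion integrals and dilations. -/
theorem ke2_inv (i : ℤ) (F G : ℂ → ℂ) (h : ∀ η, F ((2:ℝ) ^ i • η) = G η) (z : ℂ) :
    𝓕⁻ F z = (2:ℂ) ^ (2 * i) * 𝓕⁻ G ((2:ℂ) ^ i * z) := by
  rw [Real.fourierInv_eq, Real.fourierInv_eq]
  have h1 := Measure.integral_comp_smul (μ := (volume : Measure ℂ))
    (fun v : ℂ => Real.fourierChar (inner ℝ v z) • F v) ((2:ℝ) ^ i)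
  rw [Complex.finrank_real_complex] at h1
  have h2 : ∀ v : ℂ, Real.fourierChar (inner ℝ ((2:ℝ) ^ i • v) z) • F ((2:ℝ) ^ i • v)
      = Real.fourierChar (inner ℝ v ((2:ℂ) ^ i * z)) • G v := by
    intro v
    rw [h, real_inner_smul_left]
    congr 2
    have h3 : (2:ℂ) ^ i * z = (2:ℝ) ^ i • z := by
      rw [real_smul]
      push_cast
      rfl
    rw [h3, real_inner_smul_right]
  simp only [h2] at h1
  rw [h1, real_smul]
  have h4 : |(((2:ℝ) ^ i) ^ 2)⁻¹| = ((2:ℝ) ^ (2 * i))⁻¹ := by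
    rw [abs_of_nonneg (by positivity)]
    congr 1
    rw [← zpow_natCast, ← zpow_mul]
    congr 1
    push_cast
    ring
  rw [h4, ← mul_assoc]
  have h5 : (2:ℂ) ^ (2 * i) * (((((2:ℝ) ^ (2 * i))⁻¹ : ℝ)) : ℂ) = 1 := by
    push_cast
    exact mul_inv_cancel₀ (zpow_ne_zero _ (by norm_num))
  rw [h5, one_mul]

/-- dilation -/
theorem KK_scale (n : ℕ) (j i : ℤ) (z : ℂ) :
    KK n (j + i) z = (2:ℂ) ^ (2 * i) * KK n j ((2:ℂ) ^ i * z) := by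
  unfold KK
  apply ke2_inv
  intro η
  rw [ke2_mult, ke2_chi]

theorem kap_scale (i : ℤ) (z : ℂ) :
    kap i z = (2:ℂ) ^ (2 * i) * kap 0 ((2:ℂ) ^ i * z) := by
  unfold kap
  apply ke2_inv
  intro η
  have := ke2_Psi 0 i η
  rw [zero_add] at this
  rw [this]

theorem gW_scale (n : ℕ) (a b : ℤ) (f : ℂ → ℂ) (z : ℂ) :
    gW n (Finset.Ico a b) f z =
      gW n (Finset.Ico 0 (b - a)) (fun w => f (w / (2:ℂ) ^ a)) ((2:ℂ) ^ a * z) := by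
  unfold gW
  have h0 : Finset.Ico a b = (Finset.Ico 0 (b - a)).map (addRightEmbedding a) := by
    rw [Finset.map_add_right_Ico]
    congr 1 <;> ring
  rw [h0, Finset.sum_map]
  refine Finset.sum_congr rfl fun j _ => ?_
  rw [addRightEmbedding_apply]
  unfold gj cv
  have h1 := Measure.integral_comp_smul (μ := (volume : Measure ℂ))
    (fun w : ℂ => KK n j ((2:ℂ) ^ a * z - w) * f (w / (2:ℂ) ^ a)) ((2:ℝ) ^ a)
  rw [Complex.finrank_real_complex] at h1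
  have hne : (2:ℂ) ^ a ≠ 0 := zpow_ne_zero _ (by norm_num)
  have h3 : ∀ w : ℂ, (2:ℝ) ^ a • w = (2:ℂ) ^ a * w := by
    intro w
    rw [real_smul]
    push_cast
    rfl
  have h2 : ∀ w : ℂ, KK n (j + a) (z - w) * f w =
      (2:ℂ) ^ (2 * a) * (KK n j ((2:ℂ) ^ a * z - (2:ℝ) ^ a • w)
        * f (((2:ℝ) ^ a • w) / (2:ℂ) ^ a)) := by
    intro w
    rw [KK_scale, h3, mul_div_cancel_left₀ _ hne, mul_sub, mul_assoc]
  simp only [h2]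
  rw [integral_const_mul, h1, real_smul]
  have h4 : |(((2:ℝ) ^ a) ^ 2)⁻¹| = ((2:ℝ) ^ (2 * a))⁻¹ := by
    rw [abs_of_nonneg (by positivity)]
    congr 1
    rw [← zpow_natCast, ← zpow_mul]
    congr 1
    push_cast
    ring
  rw [h4, ← mul_assoc]
  have h5 : (2:ℂ) ^ (2 * a) * (((((2:ℝ) ^ (2 * a))⁻¹ : ℝ)) : ℂ) = 1 := by
    push_cast
    exact mul_inv_cancel₀ (zpow_ne_zero _ (by norm_num))
  rw [h5, one_mul]

/-- Schwartz decay. -/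
theorem ke2_decay (s : SchwartzMap ℂ ℂ) : ∃ C : ℝ, 0 < C ∧ ∀ w : ℂ,
    (1 + ‖w‖ ^ 2) ^ 2 * ‖s w‖ ≤ C := by
  obtain ⟨C0, h0, hC0⟩ := s.decay 0 0
  obtain ⟨C2, h2, hC2⟩ := s.decay 2 0
  obtain ⟨C4, h4, hC4⟩ := s.decay 4 0
  refine ⟨C0 + 2 * C2 + C4, by positivity, fun w => ?_⟩
  have a0 := hC0 w
  have a2 := hC2 w
  have a4 := hC4 w
  rw [norm_iteratedFDeriv_zero] at a0 a2 a4
  rw [pow_zero, one_mul] at a0
  nlinarith

theorem kap_bound : ∃ C : ℝ, 0 < C ∧ ∀ i : ℤ, ∀ z : ℂ,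
    ‖kap i z‖ ≤ C * gam ((2:ℝ) ^ (-i)) z := by
  obtain ⟨s, hs⟩ := ker_kap 0
  obtain ⟨C, hC, h⟩ := ke2_decay s
  refine ⟨C, hC, fun i z => ?_⟩
  rw [kap_scale, norm_mul, hs]
  have h1 := h ((2:ℂ) ^ i * z)
  have hn : ‖(2:ℂ) ^ i * z‖ = (2:ℝ) ^ i * ‖z‖ := by
    rw [norm_mul, norm_zpow]
    norm_num
  have hn2 : ‖(2:ℂ) ^ (2 * i)‖ = (2:ℝ) ^ (2 * i) := by
    rw [norm_zpow]
    norm_num
  rw [hn] at h1
  rw [hn2]
  unfold gam
  have e1 : (((2:ℝ) ^ (-i)) ^ 2)⁻¹ = (2:ℝ) ^ (2 * i) := by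
    rw [← zpow_natCast, ← zpow_mul, ← zpow_neg]
    congr 1
    push_cast
    ring
  have e2 : ‖z‖ ^ 2 / ((2:ℝ) ^ (-i)) ^ 2 = ((2:ℝ) ^ i * ‖z‖) ^ 2 := by
    rw [zpow_neg, inv_pow, div_inv_eq_mul, mul_pow, mul_comm]
  rw [e1, e2]
  have hpos : 0 < (1 + ((2:ℝ) ^ i * ‖z‖) ^ 2) ^ 2 := by positivity
  have h2 : ‖s ((2:ℂ) ^ i * z)‖ ≤ C * ((1 + ((2:ℝ) ^ i * ‖z‖) ^ 2) ^ 2)⁻¹ := by
    rw [← div_eq_mul_inv, le_div_iff₀ hpos, mul_comm]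
    exact h1
  calc (2:ℝ) ^ (2 * i) * ‖s ((2:ℂ) ^ i * z)‖
      ≤ (2:ℝ) ^ (2 * i) * (C * ((1 + ((2:ℝ) ^ i * ‖z‖) ^ 2) ^ 2)⁻¹) :=
        mul_le_mul_of_nonneg_left h2 (by positivity)
    _ = C * ((2:ℝ) ^ (2 * i) * ((1 + ((2:ℝ) ^ i * ‖z‖) ^ 2) ^ 2)⁻¹) := by ring

end Helper72.BA.P


namespace Helper72.BA
alias KK_scale := P.KK_scale
alias kap_bound := P.kap_bound
alias gW_scale := P.gW_scale
end Helper72.BA
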