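import Pool.Agent.Helper72.BA.Defs
import Pool.Agent.Helper72.BAM.FB1
import Pool.Agent.Helper72.BAM.FB2
import Pool.Agent.Helper72.BAM.KE1

/-!
# Orthogonality
-/

set_option autoImplicit false

open MeasureTheory Complex FourierTransform Filter Topology
open scoped ENNReal NNReal ComplexConjugate

noncomputable section

namespace Helper72.BA.P

open Helper72.BA

lemma l2_norm_mult (n : ℕ) (ξ : ℂ) : ‖mult n ξ‖ ≤ 1 := by
  unfold mult
  rw [norm_pow]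
  apply pow_le_one₀ (norm_nonneg _)
  rw [norm_div, RCLike.norm_conj]
  exact div_self_le_one _

lemma l2_nice_gj (n : ℕ) (j : ℤ) {f : ℂ → ℂ} (hf : Nice f) : Nice (gj n j f) :=
  nice_cv (ker_KK n j) hf

lemma l2_nice_gW (n : ℕ) (W : Finset ℤ) {f : ℂ → ℂ} (hf : Nice f) : Nice (gW n W f) := by
  classical
  unfold gW
  induction W using Finset.induction_on with
  | empty =>
    refine ⟨by simp, by simp, 0, by simp⟩
  | insert j W hj ih =>
    have h1 := l2_nice_gj n j hf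
    simp only [Finset.sum_insert hj]
    obtain ⟨C1, hC1⟩ := h1.bdd
    obtain ⟨C2, hC2⟩ := ih.bdd
    exact ⟨h1.meas.add ih.meas, h1.int.add ih.int, C1 + C2,
      fun z => (norm_add_le _ _).trans (add_le_add (hC1 z) (hC2 z))⟩

lemma l2_fourier_gW (n : ℕ) (W : Finset ℤ) {f : ℂ → ℂ} (hf : Nice f) (ξ : ℂ) :
    𝓕 (gW n W f) ξ = mult n ξ * ((∑ j ∈ W, chi j ξ : ℝ) : ℂ) * 𝓕 f ξ := by
  have h1 : 𝓕 (gW n W f) ξ = ∑ j ∈ W, 𝓕 (gj n j f) ξ := by
    rw [Real.fourier_eq]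
    unfold gW
    simp only [Finset.smul_sum]
    rw [integral_finsetSum]
    · rfl
    · intro j _
      exact (Real.fourierIntegral_convergent_iff ξ).2 (l2_nice_gj n j hf).int
  rw [h1]
  have h2 : ∀ j ∈ W, 𝓕 (gj n j f) ξ = mult n ξ * (chi j ξ : ℂ) * 𝓕 f ξ := by
    intro j _
    unfold gj
    rw [fourier_cv (ker_KK n j) hf, fourier_KK]
  rw [Finset.sum_congr rfl h2, ← Finset.sum_mul, ← Finset.mul_sum]
  push_cast
  rfl

lemma l2_sum_lintegral_le {ι : Type*} (s : Finset ι) (F : ι → ℂ → ℝ≥0∞) :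
    ∑ i ∈ s, ∫⁻ z, F i z ≤ ∫⁻ z, ∑ i ∈ s, F i z := by
  classical
  induction s using Finset.induction_on with
  | empty => simp
  | insert a s ha ih =>
    simp only [Finset.sum_insert ha]
    exact (add_le_add le_rfl ih).trans (le_lintegral_add _ _)

theorem sum_nrm_two_windows (n : ℕ) {ι : Type*} (s : Finset ι) (W : ι → Finset ℤ)
    (hW : ∀ i ∈ s, ∀ j ∈ s, i ≠ j → Disjoint (W i) (W j)) (f : ℂ → ℂ) (hf : Nice f) :
    ∑ i ∈ s, nrm 2 (gW n (W i) f) ≤ nrm 2 f := by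
  classical
  have h1 : ∀ i, nrm 2 (gW n (W i) f) ≤
      ∫⁻ ξ, ENNReal.ofReal (∑ j ∈ W i, chi j ξ) * ‖𝓕 f ξ‖ₑ ^ 2 := by
    intro i
    unfold nrm
    rw [← plancherel (l2_nice_gW n (W i) hf)]
    refine lintegral_mono fun ξ => ?_
    rw [l2_fourier_gW n (W i) hf, enorm_mul, mul_pow]
    apply mul_le_mul_left
    set c : ℝ := ∑ j ∈ W i, chi j ξ with hc
    have hc0 : 0 ≤ c := Finset.sum_nonneg fun j _ => chi_nonneg j ξ
    have hc1 : c ≤ 1 := sum_chi_le_one (W i) ξ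
    have h2 : ‖mult n ξ * (c : ℂ)‖ ≤ c := by
      rw [norm_mul, Complex.norm_real, Real.norm_of_nonneg hc0]
      have := l2_norm_mult n ξ
      nlinarith
    have h3 : ‖mult n ξ * (c : ℂ)‖ₑ ≤ ENNReal.ofReal c := by
      rw [← ofReal_norm]
      exact ENNReal.ofReal_le_ofReal h2
    have h4 : ENNReal.ofReal c ≤ 1 := by
      rw [← ENNReal.ofReal_one]
      exact ENNReal.ofReal_le_ofReal hc1
    calc ‖mult n ξ * (c : ℂ)‖ₑ ^ 2 ≤ (ENNReal.ofReal c) ^ 2 := by gcongr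
      _ = ENNReal.ofReal c * ENNReal.ofReal c := sq _
      _ ≤ ENNReal.ofReal c * 1 := by gcongr
      _ = _ := mul_one _
  calc ∑ i ∈ s, nrm 2 (gW n (W i) f) ≤
        ∑ i ∈ s, ∫⁻ ξ, ENNReal.ofReal (∑ j ∈ W i, chi j ξ) * ‖𝓕 f ξ‖ₑ ^ 2 :=
        Finset.sum_le_sum fun i _ => h1 i
    _ ≤ ∫⁻ ξ, ∑ i ∈ s, ENNReal.ofReal (∑ j ∈ W i, chi j ξ) * ‖𝓕 f ξ‖ₑ ^ 2 :=
        l2_sum_lintegral_le s _
    _ ≤ ∫⁻ ξ, ‖𝓕 f ξ‖ₑ ^ 2 := by
        refine lintegral_mono fun ξ => ?_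
        simp only
        rw [← Finset.sum_mul, ← ENNReal.ofReal_sum_of_nonneg
          (fun i _ => Finset.sum_nonneg fun j _ => chi_nonneg j ξ), ← Finset.sum_biUnion hW]
        have h2 : ENNReal.ofReal (∑ j ∈ s.biUnion W, chi j ξ) ≤ 1 := by
          rw [← ENNReal.ofReal_one]
          exact ENNReal.ofReal_le_ofReal (sum_chi_le_one _ ξ)
        calc _ ≤ 1 * ‖𝓕 f ξ‖ₑ ^ 2 := by gcongr
          _ = _ := one_mul _
    _ = nrm 2 f := plancherel hf

theorem sum_nrm_two_le (n : ℕ) (A : Finset ℤ) (f : ℂ → ℂ) (hf : Nice f) :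
    ∑ j ∈ A, nrm 2 (gj n j f) ≤ nrm 2 f := by
  have h := sum_nrm_two_windows n A (fun j => {j}) (by
    intro i _ j _ hij
    rw [Finset.disjoint_singleton]
    exact hij) f hf
  refine le_trans (le_of_eq (Finset.sum_congr rfl fun j _ => ?_)) h
  congr 1
  funext z
  simp [gW]

end Helper72.BA.P


namespace Helper72.BA
alias sum_nrm_two_le := P.sum_nrm_two_le
alias sum_nrm_two_windows := P.sum_nrm_two_windows
end Helper72.BA
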