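import Pool.Agent.Helper72.BA.Defs
import Pool.Agent.Helper72.BAM.GF

set_option autoImplicit false

open MeasureTheory Complex FourierTransform Filter Topology
open scoped ENNReal NNReal ComplexConjugate

noncomputable section

namespace Helper72.BA.P

open Helper72.BA

/-- Product integrability from a bound independent of the first variable. -/
lemma int_prod_of_bound (a c : ℝ) (f : ℝ → ℂ → ℂ) (B : ℂ → ℝ) (hB : Integrable B)
    (hf : Measurable (Function.uncurry f)) (hb : ∀ t ∈ Set.Icc a c, ∀ ξ, ‖f t ξ‖ ≤ B ξ) :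
    Integrable (Function.uncurry f) ((volume.restrict (Set.Icc a c)).prod volume) := by
  have h1 : Integrable (fun p : ℝ × ℂ => (1 : ℝ) * B p.2)
      ((volume.restrict (Set.Icc a c)).prod volume) :=
    (integrable_const (1 : ℝ)).mul_prod hB
  refine h1.mono' hf.aestronglyMeasurable ?_
  have h2 : (volume.restrict (Set.Icc a c)).prod (volume : Measure ℂ) =
      (volume.prod volume).restrict (Set.Icc a c ×ˢ Set.univ) := by
    rw [← Measure.prod_restrict, Measure.restrict_univ]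
  rw [h2]
  refine ae_restrict_of_forall_mem (measurableSet_Icc.prod MeasurableSet.univ) ?_
  rintro ⟨t, ξ⟩ h
  rw [one_mul]
  exact hb t h.1 ξ

/-- The change of variables `x = K / t`. -/
lemma cov_inv (n : ℕ) (β : ℝ → ℝ) (K : ℝ) (hK : 0 < K) :
    ∫ x in Set.Ioi (0:ℝ), β (K / x) * x ^ n * Real.exp (-x) =
      K ^ (n + 1) * ∫ t in Set.Ioi (0:ℝ), β t * (t ^ (n + 2))⁻¹ * Real.exp (-(K / t)) := by
  have h1 := integral_comp_rpow_Ioi (fun y : ℝ => β (K * y) * (y ^ (n + 2))⁻¹ * Real.exp (-(1 / y)))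
    (p := -1) (by norm_num)
  have h2 : ∫ x in Set.Ioi (0:ℝ), β (K / x) * x ^ n * Real.exp (-x) =
      ∫ x in Set.Ioi (0:ℝ), (|(-1 : ℝ)| * x ^ ((-1 : ℝ) - 1)) •
        (fun y : ℝ => β (K * y) * (y ^ (n + 2))⁻¹ * Real.exp (-(1 / y))) (x ^ (-1 : ℝ)) := by
    apply setIntegral_congr_fun measurableSet_Ioi
    intro x hx
    have hx0 : (0 : ℝ) < x := hx
    have e1 : x ^ ((-1 : ℝ) - 1) = (x ^ 2)⁻¹ := by
      rw [show ((-1 : ℝ) - 1) = -((2 : ℕ) : ℝ) by norm_num, Real.rpow_neg hx0.le, Real.rpow_natCast]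
    simp only [smul_eq_mul]
    rw [Real.rpow_neg_one, e1, abs_neg, abs_one, one_mul, one_div, inv_inv, inv_pow, inv_inv,
      ← div_eq_mul_inv K x, pow_add]
    field_simp
  rw [h2, h1]
  have h3 := integral_comp_mul_left_Ioi' (fun t : ℝ => β t * (t ^ (n + 2))⁻¹ *
    Real.exp (-(K / t))) 0 hK
  rw [mul_zero] at h3
  rw [← h3, smul_eq_mul, ← mul_assoc, ← integral_const_mul]
  apply setIntegral_congr_fun measurableSet_Ioi
  intro y hy
  have hy0 : (0 : ℝ) < y := hy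
  simp only
  have e2 : K / (K * y) = 1 / y := by field_simp
  rw [e2, mul_pow]
  field_simp
  ring

/-- integrand in the frequency variable -/
def Hh (n : ℕ) (β : ℝ → ℝ) (t : ℝ) (ξ : ℂ) : ℂ :=
  (((Real.Gamma n)⁻¹ * (β t * t ^ (n - 1)) : ℝ) : ℂ) * gm t (2 * n) ξ

/-- integrand in the space variable -/
def Jj (n : ℕ) (β : ℝ → ℝ) (t : ℝ) (z : ℂ) : ℂ :=
  (((Real.Gamma n)⁻¹ * (β t * t ^ (n - 1)) : ℝ) : ℂ) *
    ((Real.pi / t : ℝ) * ((Real.pi * I * conj z) / t) ^ (2 * n) *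
      Complex.exp (-(Real.pi ^ 2 * ‖z‖ ^ 2 / t : ℝ)))

lemma measurable_Hh (n : ℕ) (β : ℝ → ℝ) (hβ : Measurable β) :
    Measurable (Function.uncurry (Hh n β)) := by
  unfold Function.uncurry Hh gm
  fun_prop

lemma measurable_Jj (n : ℕ) (β : ℝ → ℝ) (hβ : Measurable β) :
    Measurable (Function.uncurry (Jj n β)) := by
  unfold Function.uncurry Jj
  fun_prop

lemma int_Hh (n : ℕ) (β : ℝ → ℝ) (hβ : Measurable β) (a c : ℝ) (ha : 0 < a)
    (hβ1 : ∀ t, |β t| ≤ 1) :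
    Integrable (Function.uncurry (Hh n β)) ((volume.restrict (Set.Icc a c)).prod volume) := by
  have hB := (integrable_pow_gauss a ha (2 * n)).const_mul (|(Real.Gamma n)⁻¹| * c ^ (n - 1))
  refine int_prod_of_bound a c (Hh n β) _ hB (measurable_Hh n β hβ) ?_
  intro t ht ξ
  have ht0 : 0 < t := lt_of_lt_of_le ha ht.1
  unfold Hh
  rw [norm_mul, norm_gm, Complex.norm_real, Real.norm_eq_abs, abs_mul, abs_mul,
    abs_of_pos (pow_pos ht0 (n - 1))]
  have h1 : |β t| * t ^ (n - 1) ≤ c ^ (n - 1) := by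
    calc |β t| * t ^ (n - 1) ≤ 1 * c ^ (n - 1) := by
          apply mul_le_mul (hβ1 t) (pow_le_pow_left₀ ht0.le ht.2 _) (by positivity) zero_le_one
      _ = _ := one_mul _
  have h2 : Real.exp (-(t * ‖ξ‖ ^ 2)) ≤ Real.exp (-(a * ‖ξ‖ ^ 2)) := by
    apply Real.exp_le_exp.2
    have := mul_le_mul_of_nonneg_right ht.1 (sq_nonneg ‖ξ‖)
    linarith
  have hc0 : 0 ≤ c := ht0.le.trans ht.2
  gcongr

lemma int_Jj (n : ℕ) (β : ℝ → ℝ) (hβ : Measurable β) (a c : ℝ) (ha : 0 < a)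
    (hac : a < c) (hβ1 : ∀ t, |β t| ≤ 1) :
    Integrable (Function.uncurry (Jj n β)) ((volume.restrict (Set.Icc a c)).prod volume) := by
  have hc : 0 < c := ha.trans hac
  have hB := (integrable_pow_gauss (Real.pi ^ 2 / c) (by positivity) (2 * n)).const_mul
    (|(Real.Gamma n)⁻¹| * c ^ (n - 1) * (Real.pi / a * (Real.pi / a) ^ (2 * n)))
  refine int_prod_of_bound a c (Jj n β) _ hB (measurable_Jj n β hβ) ?_
  intro t ht z
  have ht0 : 0 < t := lt_of_lt_of_le ha ht.1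
  unfold Jj
  have n1 : ‖(Real.pi * I * conj z) / (t : ℂ)‖ = Real.pi * ‖z‖ / t := by
    rw [norm_div, norm_mul, norm_mul, Complex.norm_I, RCLike.norm_conj, Complex.norm_real,
      Complex.norm_real, Real.norm_of_nonneg ht0.le, Real.norm_of_nonneg Real.pi_pos.le, mul_one]
  have n2 : ‖((Real.pi / t : ℝ) : ℂ)‖ = Real.pi / t := by
    rw [Complex.norm_real, Real.norm_of_nonneg (div_pos Real.pi_pos ht0).le]
  have n3 : ‖Complex.exp (-(Real.pi ^ 2 * ‖z‖ ^ 2 / t : ℝ))‖ =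
      Real.exp (-(Real.pi ^ 2 * ‖z‖ ^ 2 / t)) := by
    rw [Complex.norm_exp, ← ofReal_neg, ofReal_re]
  rw [norm_mul, Complex.norm_real, Real.norm_eq_abs, abs_mul, abs_mul,
    abs_of_pos (pow_pos ht0 (n - 1)), norm_mul, norm_mul, norm_pow, n1, n2, n3]
  have h1 : |β t| * t ^ (n - 1) ≤ c ^ (n - 1) := by
    calc |β t| * t ^ (n - 1) ≤ 1 * c ^ (n - 1) := by
          apply mul_le_mul (hβ1 t) (pow_le_pow_left₀ ht0.le ht.2 _) (by positivity) zero_le_one
      _ = _ := one_mul _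
  have h2 : Real.exp (-(Real.pi ^ 2 * ‖z‖ ^ 2 / t)) ≤ Real.exp (-(Real.pi ^ 2 / c * ‖z‖ ^ 2)) := by
    apply Real.exp_le_exp.2
    have : Real.pi ^ 2 * ‖z‖ ^ 2 / c ≤ Real.pi ^ 2 * ‖z‖ ^ 2 / t :=
      div_le_div_of_nonneg_left (by positivity) ht0 ht.2
    have e : Real.pi ^ 2 / c * ‖z‖ ^ 2 = Real.pi ^ 2 * ‖z‖ ^ 2 / c := by ring
    rw [e]
    linarith
  have h3 : Real.pi / t ≤ Real.pi / a := div_le_div_of_nonneg_left Real.pi_pos.le ha ht.1
  have h4 : (Real.pi * ‖z‖ / t) ^ (2 * n) ≤ (Real.pi / a) ^ (2 * n) * ‖z‖ ^ (2 * n) := by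
    rw [← mul_pow]
    apply pow_le_pow_left₀ (by positivity)
    have := mul_le_mul_of_nonneg_right h3 (norm_nonneg z)
    calc Real.pi * ‖z‖ / t = Real.pi / t * ‖z‖ := by ring
      _ ≤ _ := this
  calc |(Real.Gamma n)⁻¹| * (|β t| * t ^ (n - 1)) *
        (Real.pi / t * (Real.pi * ‖z‖ / t) ^ (2 * n) * Real.exp (-(Real.pi ^ 2 * ‖z‖ ^ 2 / t)))
      ≤ |(Real.Gamma n)⁻¹| * c ^ (n - 1) *
        (Real.pi / a * ((Real.pi / a) ^ (2 * n) * ‖z‖ ^ (2 * n)) *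
          Real.exp (-(Real.pi ^ 2 / c * ‖z‖ ^ 2))) := by gcongr
    _ = _ := by ring

/-- The multiplier as an integral of Gaussians. -/
lemma mult_Eg (n : ℕ) (hn : 1 ≤ n) (β : ℝ → ℝ) (a c : ℝ) (ha : 0 < a)
    (hβ2 : ∀ t, t < a ∨ c < t → β t = 0) (ξ : ℂ) :
    mult n ξ * (Eg n (fun y => β (y / ‖ξ‖ ^ 2)) : ℂ) = ∫ t in Set.Icc a c, Hh n β t ξ := by
  rcases eq_or_ne ξ 0 with h0 | h0
  · subst h0
    have e1 : mult n 0 = 0 := by
      unfold mult
      rw [map_zero, div_zero, zero_pow (by omega)]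
    have e2 : ∀ t, Hh n β t 0 = 0 := by
      intro t
      unfold Hh gm
      rw [map_zero, zero_pow (by omega)]
      simp
    rw [e1, zero_mul]
    simp [e2]
  · have hx : 0 < ‖ξ‖ := norm_pos_iff.2 h0
    have hx2 : 0 < ‖ξ‖ ^ 2 := by positivity
    have h1 := integral_comp_mul_right_Ioi' (fun y : ℝ => β (y / ‖ξ‖ ^ 2) * y ^ (n - 1) *
      Real.exp (-y)) 0 hx2
    rw [zero_mul] at h1
    unfold Eg
    rw [← h1, smul_eq_mul]
    have h2 : ∫ x in Set.Ioi (0:ℝ), β (x * ‖ξ‖ ^ 2 / ‖ξ‖ ^ 2) * (x * ‖ξ‖ ^ 2) ^ (n - 1) *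
        Real.exp (-(x * ‖ξ‖ ^ 2)) =
        ∫ t in Set.Icc a c, β t * (t * ‖ξ‖ ^ 2) ^ (n - 1) * Real.exp (-(t * ‖ξ‖ ^ 2)) := by
      rw [setIntegral_eq_of_subset_of_forall_sdiff_eq_zero (s := Set.Icc a c) measurableSet_Ioi
        (fun t ht => lt_of_lt_of_le ha ht.1)]
      · apply setIntegral_congr_fun measurableSet_Icc
        intro t _
        simp only
        rw [mul_div_assoc, div_self hx2.ne', mul_one]
      · intro t ht
        have hb : β t = 0 := by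
          apply hβ2
          by_contra hcon
          push Not at hcon
          exact ht.2 ⟨hcon.1, hcon.2⟩
        rw [mul_div_assoc, div_self hx2.ne', mul_one, hb, zero_mul, zero_mul]
    rw [h2, ← integral_const_mul, ← integral_const_mul, ← integral_complex_ofReal,
      ← integral_const_mul]
    apply setIntegral_congr_fun measurableSet_Icc
    intro t _
    simp only
    unfold mult Hh gm
    have hc0 : (conj ξ : ℂ) * ξ = ((‖ξ‖ ^ 2 : ℝ) : ℂ) := by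
      rw [mul_comm, Complex.mul_conj, Complex.normSq_eq_norm_sq]
    have hξn : ξ ^ n ≠ 0 := pow_ne_zero _ h0
    have e3 : (conj ξ / ξ) ^ n * ((‖ξ‖ ^ 2 : ℝ) : ℂ) ^ n = (conj ξ) ^ (2 * n) := by
      rw [← hc0, mul_pow, div_pow, two_mul, pow_add]
      field_simp
    have e4 : ((‖ξ‖ ^ 2 : ℝ) : ℂ) ^ n = ((‖ξ‖ ^ 2 : ℝ) : ℂ) * ((‖ξ‖ ^ 2 : ℝ) : ℂ) ^ (n - 1) := by
      rw [← pow_succ']
      congr 1
      omega
    rw [← e3, e4, mul_pow]
    push_cast
    ring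

/-- The kernel as an integral of Gaussians. -/
lemma Kn_Eg (n : ℕ) (hn : 1 ≤ n) (β : ℝ → ℝ) (a c : ℝ) (ha : 0 < a)
    (hβ2 : ∀ t, t < a ∨ c < t → β t = 0) (z : ℂ) (hz : z ≠ 0) :
    ∫ t in Set.Icc a c, Jj n β t z =
      Kn n z * (Eg' n (fun x => β (Real.pi ^ 2 * ‖z‖ ^ 2 / x)) : ℂ) := by
  have hx : 0 < ‖z‖ := norm_pos_iff.2 hz
  set K : ℝ := Real.pi ^ 2 * ‖z‖ ^ 2 with hK
  have hK0 : 0 < K := by positivity
  have h1 := cov_inv n β K hK0
  have h2 : ∫ t in Set.Ioi (0:ℝ), β t * (t ^ (n + 2))⁻¹ * Real.exp (-(K / t)) =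
      ∫ t in Set.Icc a c, β t * (t ^ (n + 2))⁻¹ * Real.exp (-(K / t)) := by
    rw [setIntegral_eq_of_subset_of_forall_sdiff_eq_zero (s := Set.Icc a c) measurableSet_Ioi
      (fun t ht => lt_of_lt_of_le ha ht.1)]
    intro t ht
    have hb : β t = 0 := by
      apply hβ2
      by_contra hcon
      push Not at hcon
      exact ht.2 ⟨hcon.1, hcon.2⟩
    rw [hb, zero_mul, zero_mul]
  unfold Eg'
  rw [h1, h2, ← integral_const_mul, ← integral_const_mul, ← integral_complex_ofReal,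
    ← integral_const_mul]
  apply setIntegral_congr_fun measurableSet_Icc
  intro t ht
  have ht0 : 0 < t := lt_of_lt_of_le ha ht.1
  simp only
  unfold Jj Kn
  have hG : Real.Gamma (n + 1) = n * Real.Gamma n :=
    Real.Gamma_add_one (by exact_mod_cast (by omega : n ≠ 0))
  have hGn : Real.Gamma n ≠ 0 := (Real.Gamma_pos_of_pos (by exact_mod_cast hn)).ne'
  have hr0 : ((‖z‖ ^ 2 : ℝ) : ℂ) ≠ 0 := by
    have : (‖z‖ ^ 2 : ℝ) ≠ 0 := by positivity
    exact_mod_cast this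
  have hcz : (conj z : ℂ) * z = ((‖z‖ ^ 2 : ℝ) : ℂ) := by
    rw [mul_comm, Complex.mul_conj, Complex.normSq_eq_norm_sq]
  have hzn : z ^ n ≠ 0 := pow_ne_zero _ hz
  have e3 : (conj z / z) ^ n = (conj z) ^ (2 * n) / ((‖z‖ ^ 2 : ℝ) : ℂ) ^ n := by
    rw [← hcz, mul_pow, div_pow, two_mul, pow_add]
    have : (conj z) ^ n ≠ 0 := pow_ne_zero _ (by simpa using hz)
    field_simp
  have htc : (t : ℂ) ≠ 0 := by exact_mod_cast ht0.ne'
  have e5 : ((Real.pi * I * conj z) / (t : ℂ)) ^ (2 * n) =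
      (Real.pi : ℂ) ^ (2 * n) * (-1) ^ n * (conj z) ^ (2 * n) / ((t : ℂ) ^ n * (t : ℂ) ^ n) := by
    rw [div_pow, mul_pow, mul_pow, pow_mul I, I_sq, ← pow_add, ← two_mul]
  have e6 : (t : ℂ) ^ (n - 1) * t = (t : ℂ) ^ n := by
    rw [← pow_succ]; congr 1; omega
  have e7 : (t : ℂ) ^ (n - 1) = (t : ℂ) ^ n / t := by
    rw [← e6]; field_simp
  have hpc : (Real.pi : ℂ) ≠ 0 := by exact_mod_cast Real.pi_ne_zero
  have hnc : (n : ℂ) ≠ 0 := by exact_mod_cast (by omega : n ≠ 0)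
  have hGc : (Real.Gamma n : ℂ) ≠ 0 := by exact_mod_cast hGn
  rw [hG, e3, e5]
  push_cast
  rw [e7, hK]
  push_cast
  have e8 : ((‖z‖ : ℂ)) ≠ 0 := by exact_mod_cast hx.ne'
  generalize Complex.exp (-(↑Real.pi ^ 2 * ↑‖z‖ ^ 2 / ↑t)) = E
  generalize (conj z) ^ (2 * n) = W
  generalize (-1 : ℂ) ^ n = S
  field_simp
  ring

/-- Gaussian subordination. -/
theorem subordination (n : ℕ) (hn : 1 ≤ n) (β : ℝ → ℝ) (hβ : Measurable β) (a c : ℝ) (ha : 0 < a)
    (hac : a < c) (hβ1 : ∀ t, |β t| ≤ 1) (hβ2 : ∀ t, t < a ∨ c < t → β t = 0) (z : ℂ) (hz : z ≠ 0) :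
    𝓕⁻ (fun ξ : ℂ => mult n ξ * (Eg n (fun y => β (y / ‖ξ‖ ^ 2)) : ℂ)) z =
      Kn n z * (Eg' n (fun x => β (Real.pi ^ 2 * ‖z‖ ^ 2 / x)) : ℂ) := by
  rw [← Kn_Eg n hn β a c ha hβ2 z hz]
  have h1 : (fun ξ : ℂ => mult n ξ * (Eg n (fun y => β (y / ‖ξ‖ ^ 2)) : ℂ)) =
      fun ξ => ∫ t in Set.Icc a c, Hh n β t ξ := funext (mult_Eg n hn β a c ha hβ2)
  rw [h1, Real.fourierInv_eq']
  have h2 : ∀ ξ : ℂ, Complex.exp ((↑(2 * Real.pi * inner ℝ ξ z)) * Complex.I) •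
      ∫ t in Set.Icc a c, Hh n β t ξ =
      ∫ t in Set.Icc a c, Complex.exp ((↑(2 * Real.pi * inner ℝ ξ z)) * Complex.I) •
        Hh n β t ξ := fun ξ => (integral_smul _ _).symm
  simp_rw [h2]
  have h3 := int_Hh n β hβ a c ha hβ1
  have h4 : Integrable (Function.uncurry (fun (t : ℝ) (ξ : ℂ) =>
      Complex.exp ((↑(2 * Real.pi * inner ℝ ξ z)) * Complex.I) • Hh n β t ξ))
      ((volume.restrict (Set.Icc a c)).prod volume) := by
    have hcont : Continuous (fun p : ℝ × ℂ =>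
        Complex.exp ((↑(2 * Real.pi * inner ℝ p.2 z)) * Complex.I)) := by fun_prop
    refine h3.norm.mono' (hcont.aestronglyMeasurable.smul h3.aestronglyMeasurable)
      (Eventually.of_forall ?_)
    rintro ⟨t, ξ⟩
    simp only [Function.uncurry_apply_pair, norm_smul]
    rw [Complex.norm_exp_ofReal_mul_I, one_mul]
  rw [← integral_integral_swap h4]
  apply setIntegral_congr_fun measurableSet_Icc
  intro t ht
  have ht0 : 0 < t := lt_of_lt_of_le ha ht.1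
  simp only
  have h5 := gaussian_moment t ht0 (2 * n) z
  rw [Real.fourierInv_eq'] at h5
  unfold Jj
  rw [← h5, ← integral_const_mul]
  apply integral_congr_ae
  refine Eventually.of_forall fun ξ => ?_
  simp only [smul_eq_mul]
  unfold Hh gm
  ring

/-- integrability of the multiplier and of the kernel -/
theorem subordination_int (n : ℕ) (hn : 1 ≤ n) (β : ℝ → ℝ) (hβ : Measurable β) (a c : ℝ) (ha : 0 < a)
    (hac : a < c) (hβ1 : ∀ t, |β t| ≤ 1) (hβ2 : ∀ t, t < a ∨ c < t → β t = 0) :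
    Integrable (fun ξ : ℂ => mult n ξ * (Eg n (fun y => β (y / ‖ξ‖ ^ 2)) : ℂ)) ∧
    Integrable (fun z : ℂ => Kn n z * (Eg' n (fun x => β (Real.pi ^ 2 * ‖z‖ ^ 2 / x)) : ℂ)) := by
  constructor
  · have h := (int_Hh n β hβ a c ha hβ1).integral_prod_right
    refine h.congr (Eventually.of_forall fun ξ => ?_)
    exact (mult_Eg n hn β a c ha hβ2 ξ).symm
  · have h := (int_Jj n β hβ a c ha hac hβ1).integral_prod_right
    refine h.congr ?_
    have h0 : ∀ᵐ z : ℂ, z ≠ 0 := by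
      rw [ae_iff]
      simp
    filter_upwards [h0] with z hz
    exact Kn_Eg n hn β a c ha hβ2 z hz

end Helper72.BA.P


namespace Helper72.BA
alias subordination := P.subordination
alias subordination_int := P.subordination_int
end Helper72.BA
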