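import Pool.Agent.Helper72.BA.Defs
import Pool.Agent.Helper72.BAM.KE1

/-! Module KE3: weighted kernel bounds on the Fourier side. -/

set_option autoImplicit false

open MeasureTheory Complex FourierTransform Filter Topology
open scoped ENNReal NNReal ComplexConjugate SchwartzMap LineDeriv

noncomputable section

namespace Helper72.BA.P

open Helper72.BA

/-- multiplication of a Schwartz function with the linear form `⟨·, v⟩` -/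
def ke3xm (v : ℂ) (s : SchwartzMap ℂ ℂ) : SchwartzMap ℂ ℂ :=
  SchwartzMap.smulLeftCLM ℂ (fun z : ℂ => inner ℝ z v) s

theorem ke3xm_apply (v : ℂ) (s : SchwartzMap ℂ ℂ) (z : ℂ) :
    ke3xm v s z = ((inner ℝ z v : ℝ) : ℂ) * s z := by
  have ht : (fun z : ℂ => inner ℝ z v).HasTemperateGrowth :=
    ((innerSL ℝ).flip v).hasTemperateGrowth
  have h := SchwartzMap.smulLeftCLM_apply_apply (F := ℂ) ht s z
  rw [ke3xm, h, Complex.real_smul]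

theorem ke3_fourier_xm (v : ℂ) (s : SchwartzMap ℂ ℂ) :
    𝓕 (ke3xm v s) = (I / (2 * Real.pi)) • ∂_{v} (𝓕 s) := by
  have h1 := SchwartzMap.lineDerivOp_fourier_eq s v
  have h2 : 𝓕 (-(2 * Real.pi * Complex.I) • SchwartzMap.smulLeftCLM ℂ (fun z : ℂ => inner ℝ z v) s)
      = -(2 * Real.pi * Complex.I) • 𝓕 (ke3xm v s) := by
    rw [FourierTransform.fourier_smul]
    rfl
  rw [h1, h2, smul_smul]
  have h3 : (I / (2 * Real.pi)) * -(2 * Real.pi * Complex.I) = 1 := by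
    have : (Real.pi : ℂ) ≠ 0 := by exact_mod_cast Real.pi_ne_zero
    field_simp
    rw [Complex.I_sq]; ring
  rw [h3, one_smul]

/-- directional derivative -/
def ke3d (v : ℂ) (f : ℂ → ℂ) : ℂ → ℂ := fun ξ => fderiv ℝ f ξ v

theorem ke3d_schwartz (v : ℂ) (s : SchwartzMap ℂ ℂ) : ((∂_{v} s : SchwartzMap ℂ ℂ) : ℂ → ℂ) = ke3d v s := by
  ext ξ
  rw [SchwartzMap.lineDerivOp_apply_eq_fderiv]
  rfl

theorem ke3_fourier_xm_apply (v : ℂ) (s : SchwartzMap ℂ ℂ) (ξ : ℂ) :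
    𝓕 (ke3xm v s) ξ = (I / (2 * Real.pi)) * ke3d v (𝓕 (s : ℂ → ℂ)) ξ := by
  rw [ke3_fourier_xm, _root_.smul_apply, smul_eq_mul, ke3d_schwartz]
  rfl

theorem ke3_fourier_xm2_apply (v : ℂ) (s : SchwartzMap ℂ ℂ) (ξ : ℂ) :
    𝓕 (ke3xm v (ke3xm v s)) ξ = (I / (2 * Real.pi)) ^ 2 * ke3d v (ke3d v (𝓕 (s : ℂ → ℂ))) ξ := by
  rw [ke3_fourier_xm_apply]
  have h : 𝓕 ((ke3xm v s : SchwartzMap ℂ ℂ) : ℂ → ℂ) = fun ξ => (I / (2 * Real.pi)) * ke3d v (𝓕 (s : ℂ → ℂ)) ξ := by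
    ext ξ
    rw [← ke3_fourier_xm_apply]
    rfl
  rw [h]
  have h2 : ke3d v (fun ξ => (I / (2 * Real.pi)) * ke3d v (𝓕 (s : ℂ → ℂ)) ξ) ξ =
      (I / (2 * Real.pi)) * ke3d v (ke3d v (𝓕 (s : ℂ → ℂ))) ξ := by
    unfold ke3d
    have h3 : DifferentiableAt ℝ (fun ξ => fderiv ℝ (𝓕 (s : ℂ → ℂ)) ξ v) ξ := by
      have h4 : (fun ξ => fderiv ℝ (𝓕 (s : ℂ → ℂ)) ξ v) = ((∂_{v} (𝓕 s) : SchwartzMap ℂ ℂ) : ℂ → ℂ) := by
        rw [ke3d_schwartz]; rfl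
      rw [h4]
      exact (SchwartzMap.differentiable _).differentiableAt
    rw [fderiv_const_mul h3]
    rfl
  rw [h2]; ring

theorem ke3_fourier_z (s : SchwartzMap ℂ ℂ) (ξ : ℂ) :
    𝓕 (fun z : ℂ => z * s z) ξ =
      (I / (2 * Real.pi)) * (ke3d 1 (𝓕 (s : ℂ → ℂ)) ξ + I * ke3d I (𝓕 (s : ℂ → ℂ)) ξ) := by
  have h : (fun z : ℂ => z * s z) = ((ke3xm 1 s + I • ke3xm I s : SchwartzMap ℂ ℂ) : ℂ → ℂ) := by
    ext z
    simp only [_root_.add_apply, _root_.smul_apply, ke3xm_apply, smul_eq_mul]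
    rw [← mul_assoc, ← add_mul]
    congr 1
    apply Complex.ext <;> simp [Complex.inner]
  rw [h, ← SchwartzMap.fourier_coe, FourierTransform.fourier_add, FourierTransform.fourier_smul,
    _root_.add_apply, _root_.smul_apply, ke3_fourier_xm_apply, ke3_fourier_xm_apply,
    smul_eq_mul]
  ring

theorem ke3_fourier_conj (s : SchwartzMap ℂ ℂ) (ξ : ℂ) :
    𝓕 (fun z : ℂ => conj z * s z) ξ =
      (I / (2 * Real.pi)) * (ke3d 1 (𝓕 (s : ℂ → ℂ)) ξ - I * ke3d I (𝓕 (s : ℂ → ℂ)) ξ) := by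
  have h : (fun z : ℂ => conj z * s z) = ((ke3xm 1 s + (-I) • ke3xm I s : SchwartzMap ℂ ℂ) : ℂ → ℂ) := by
    ext z
    simp only [_root_.add_apply, _root_.smul_apply, ke3xm_apply, smul_eq_mul]
    rw [← mul_assoc, ← add_mul]
    congr 1
    apply Complex.ext <;> simp [Complex.inner]
  rw [h, ← SchwartzMap.fourier_coe, FourierTransform.fourier_add, FourierTransform.fourier_smul,
    _root_.add_apply, _root_.smul_apply, ke3_fourier_xm_apply, ke3_fourier_xm_apply,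
    smul_eq_mul]
  ring

theorem ke3_fourier_sq (s : SchwartzMap ℂ ℂ) (ξ : ℂ) :
    𝓕 (fun z : ℂ => (‖z‖ ^ 2 : ℝ) * s z) ξ =
      (I / (2 * Real.pi)) ^ 2 * (ke3d 1 (ke3d 1 (𝓕 (s : ℂ → ℂ))) ξ +
        ke3d I (ke3d I (𝓕 (s : ℂ → ℂ))) ξ) := by
  have h : (fun z : ℂ => ((‖z‖ ^ 2 : ℝ) : ℂ) * s z) =
      ((ke3xm 1 (ke3xm 1 s) + ke3xm I (ke3xm I s) : SchwartzMap ℂ ℂ) : ℂ → ℂ) := by
    ext z
    simp only [_root_.add_apply, ke3xm_apply]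
    rw [← mul_assoc, ← mul_assoc, ← add_mul]
    congr 1
    rw [Complex.sq_norm, Complex.normSq_apply]
    apply Complex.ext <;> simp [Complex.inner]
  rw [h, ← SchwartzMap.fourier_coe, FourierTransform.fourier_add,
    _root_.add_apply, ke3_fourier_xm2_apply, ke3_fourier_xm2_apply]
  ring

/-! ### smoothness -/

/-- the smoothness exponent infinity -/
abbrev ke3inf : WithTop ℕ∞ := ((⊤ : ℕ∞) : WithTop ℕ∞)

theorem ke3_psi_contDiff : ContDiff ℝ ke3inf psi := by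
  unfold psi
  exact Real.smoothTransition.contDiff.comp (contDiff_const.sub contDiff_id)

theorem ke3_psi_one {t : ℝ} (h : t ≤ 1) : psi t = 1 := by
  unfold psi
  exact Real.smoothTransition.one_of_one_le (by linarith)

theorem ke3_Psi_contDiff (i : ℤ) : ContDiff ℝ ke3inf (fun ξ : ℂ => (Psi i ξ : ℂ)) := by
  rw [contDiff_iff_contDiffAt]
  intro ξ
  by_cases hξ : ξ = 0
  · subst hξ
    have : (fun ξ : ℂ => (Psi i ξ : ℂ)) =ᶠ[𝓝 0] fun _ => 1 := by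
      have h1 : ∀ᶠ ξ : ℂ in 𝓝 0, ‖ξ‖ < (2:ℝ) ^ i := by
        have := Metric.ball_mem_nhds (0:ℂ) (show (0:ℝ) < (2:ℝ) ^ i by positivity)
        filter_upwards [this] with ξ hξ
        simpa using hξ
      filter_upwards [h1] with ξ h
      have := Psi_eq_one (i := i) h.le
      simp [this]
    exact contDiffAt_const.congr_of_eventuallyEq this
  · have h1 : ContDiffAt ℝ ke3inf (fun ξ : ℂ => Psi i ξ) ξ := by
      unfold Psi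
      have h2 : ContDiffAt ℝ ke3inf (fun ξ : ℂ => (2:ℝ) ^ (-i) * ‖ξ‖) ξ :=
        contDiffAt_const.mul (contDiffAt_norm ℝ hξ)
      exact ke3_psi_contDiff.contDiffAt.comp ξ h2
    exact Complex.ofRealCLM.contDiff.contDiffAt.comp ξ h1

/-- smooth version of `conj ξ / ξ` -/
def ke3u (ξ : ℂ) : ℂ := (1 - (Psi (-2) ξ : ℂ)) * (conj ξ / ξ)

theorem ke3u_contDiff : ContDiff ℝ ke3inf ke3u := by
  rw [contDiff_iff_contDiffAt]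
  intro ξ
  by_cases hξ : ξ = 0
  · subst hξ
    have : ke3u =ᶠ[𝓝 0] fun _ => 0 := by
      have h1 : ∀ᶠ ξ : ℂ in 𝓝 0, ‖ξ‖ < (2:ℝ) ^ (-2 : ℤ) := by
        have := Metric.ball_mem_nhds (0:ℂ) (show (0:ℝ) < (2:ℝ) ^ (-2:ℤ) by positivity)
        filter_upwards [this] with ξ hξ
        simpa using hξ
      filter_upwards [h1] with ξ h
      have := Psi_eq_one (i := -2) h.le
      simp [ke3u, this]
    exact contDiffAt_const.congr_of_eventuallyEq this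
  · unfold ke3u
    have h1 : ContDiffAt ℝ ke3inf (fun ξ : ℂ => (1 - (Psi (-2) ξ : ℂ))) ξ :=
      contDiffAt_const.sub (ke3_Psi_contDiff (-2)).contDiffAt
    have h2 : ContDiffAt ℝ ke3inf (fun ξ : ℂ => conj ξ) ξ := Complex.conjCLE.contDiff.contDiffAt
    have h3 : ContDiffAt ℝ ke3inf (fun ξ : ℂ => ξ⁻¹) ξ := contDiffAt_inv ℝ hξ
    have h4 : (fun ξ : ℂ => (1 - (Psi (-2) ξ : ℂ)) * (conj ξ / ξ)) =
        fun ξ : ℂ => (1 - (Psi (-2) ξ : ℂ)) * (conj ξ * ξ⁻¹) := by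
      ext ξ; rw [div_eq_mul_inv]
    rw [h4]
    exact h1.mul (h2.mul h3)

theorem ke3u_norm_le (ξ : ℂ) : ‖ke3u ξ‖ ≤ 1 := by
  unfold ke3u
  rw [norm_mul, norm_div, Complex.norm_conj]
  have h1 : ‖(1 - (Psi (-2) ξ : ℂ))‖ ≤ 1 := by
    have : (1 - (Psi (-2) ξ : ℂ)) = ((1 - Psi (-2) ξ : ℝ) : ℂ) := by push_cast; ring
    rw [this, Complex.norm_real, Real.norm_eq_abs, abs_of_nonneg (by linarith [Psi_le_one (-2) ξ])]
    linarith [Psi_nonneg (-2) ξ]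
  have h2 : ‖ξ‖ / ‖ξ‖ ≤ 1 := div_self_le_one _
  have h3 : 0 ≤ ‖ξ‖ / ‖ξ‖ := by positivity
  calc _ ≤ 1 * 1 := mul_le_mul h1 h2 h3 (by norm_num)
    _ = 1 := by norm_num

/-- the multiplier of the `j`-th annulus -/
def ke3M (n : ℕ) (j : ℤ) (ξ : ℂ) : ℂ := mult n ξ * (chi j ξ : ℂ)

theorem ke3M_zero (n : ℕ) (ξ : ℂ) : ke3M n 0 ξ = ke3u ξ ^ n * (chi 0 ξ : ℂ) := by
  unfold ke3M mult ke3u
  by_cases h : ‖ξ‖ ≤ (2:ℝ) ^ ((0:ℤ) - 1)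
  · rw [chi_eq_zero_left h]; simp
  · have h1 : Psi (-2) ξ = 0 := by
      apply Psi_eq_zero
      push Not at h
      exact h.le
    rw [h1]; simp

theorem ke3_chi_contDiff : ContDiff ℝ ke3inf (fun ξ : ℂ => (chi 0 ξ : ℂ)) := by
  have : (fun ξ : ℂ => (chi 0 ξ : ℂ)) = fun ξ => (Psi 0 ξ : ℂ) - (Psi (-1) ξ : ℂ) := by
    ext ξ; unfold chi; push_cast; norm_num
  rw [this]
  exact (ke3_Psi_contDiff 0).sub (ke3_Psi_contDiff (-1))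

theorem ke3d_contDiff (v : ℂ) {f : ℂ → ℂ} (hf : ContDiff ℝ ke3inf f) : ContDiff ℝ ke3inf (ke3d v f) := by
  unfold ke3d
  have h1 : ContDiff ℝ ke3inf (fderiv ℝ f) := hf.fderiv_right (m := ke3inf) (by simp)
  exact h1.clm_apply contDiff_const

theorem ke3d_mul (v : ℂ) {f g : ℂ → ℂ} (hf : ContDiff ℝ ke3inf f) (hg : ContDiff ℝ ke3inf g) (ξ : ℂ) :
    ke3d v (fun ξ => f ξ * g ξ) ξ = ke3d v f ξ * g ξ + f ξ * ke3d v g ξ := by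
  unfold ke3d
  have h1 := (hf.differentiable (by simp) ξ)
  have h2 := (hg.differentiable (by simp) ξ)
  rw [fderiv_fun_mul h1 h2]
  simp [mul_comm]
  ring

theorem ke3d_pow (v : ℂ) {f : ℂ → ℂ} (hf : ContDiff ℝ ke3inf f) (n : ℕ) (ξ : ℂ) :
    ke3d v (fun ξ => f ξ ^ n) ξ = n * f ξ ^ (n - 1) * ke3d v f ξ := by
  unfold ke3d
  have h1 := (hf.differentiable (by simp) ξ)
  rw [fderiv_fun_pow n h1]
  simp

/-- the profile -/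
def ke3p (ξ : ℂ) : ℂ := (chi 0 ξ : ℂ)

theorem ke3p_contDiff : ContDiff ℝ ke3inf ke3p := ke3_chi_contDiff

theorem ke3M_eq (n : ℕ) : ke3M n 0 = fun ξ => ke3u ξ ^ n * ke3p ξ := by
  ext ξ; exact ke3M_zero n ξ

theorem ke3d_M (v : ℂ) (n : ℕ) : ke3d v (ke3M n 0) = fun ξ =>
    (n : ℂ) * (ke3u ξ ^ (n - 1) * (ke3d v ke3u ξ * ke3p ξ)) + ke3u ξ ^ n * ke3d v ke3p ξ := by
  ext ξ
  rw [ke3M_eq, ke3d_mul v (ke3u_contDiff.pow n) ke3p_contDiff, ke3d_pow v ke3u_contDiff]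
  ring

theorem ke3d_add (v : ℂ) {f g : ℂ → ℂ} (hf : ContDiff ℝ ke3inf f) (hg : ContDiff ℝ ke3inf g)
    (ξ : ℂ) : ke3d v (fun ξ => f ξ + g ξ) ξ = ke3d v f ξ + ke3d v g ξ := by
  unfold ke3d
  have h1 := (hf.differentiable (by simp) ξ)
  have h2 := (hg.differentiable (by simp) ξ)
  rw [fderiv_fun_add h1 h2]
  simp

theorem ke3d_const_mul (v c : ℂ) {f : ℂ → ℂ} (hf : ContDiff ℝ ke3inf f)
    (ξ : ℂ) : ke3d v (fun ξ => c * f ξ) ξ = c * ke3d v f ξ := by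
  unfold ke3d
  have h1 := (hf.differentiable (by simp) ξ)
  rw [fderiv_const_mul h1]
  simp

theorem ke3dd_M (v : ℂ) (n : ℕ) (ξ : ℂ) : ke3d v (ke3d v (ke3M n 0)) ξ =
    (n : ℂ) * (((n - 1 : ℕ) : ℂ) * ke3u ξ ^ (n - 1 - 1) * ke3d v ke3u ξ * (ke3d v ke3u ξ * ke3p ξ)
      + ke3u ξ ^ (n - 1) * (ke3d v (ke3d v ke3u) ξ * ke3p ξ + ke3d v ke3u ξ * ke3d v ke3p ξ))
      + ((n : ℂ) * ke3u ξ ^ (n - 1) * ke3d v ke3u ξ * ke3d v ke3p ξ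
        + ke3u ξ ^ n * ke3d v (ke3d v ke3p) ξ) := by
  have hu := ke3u_contDiff
  have hp := ke3p_contDiff
  have hdu := ke3d_contDiff v hu
  have hdp := ke3d_contDiff v hp
  rw [ke3d_M, ke3d_add v (contDiff_const.mul ((hu.pow _).mul (hdu.mul hp))) ((hu.pow _).mul hdp),
    ke3d_const_mul v _ ((hu.pow _).mul (hdu.mul hp)), ke3d_mul v (hu.pow _) (hdu.mul hp),
    ke3d_mul v hdu hp, ke3d_mul v (hu.pow _) hdp, ke3d_pow v hu, ke3d_pow v hu]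

theorem ke3_bound_ball {f : ℂ → ℂ} (hf : ContDiff ℝ ke3inf f) :
    ∃ C : ℝ, ∀ ξ : ℂ, ‖ξ‖ ≤ 2 → ‖f ξ‖ ≤ C := by
  obtain ⟨C, hC⟩ := (isCompact_closedBall (0:ℂ) 2).exists_bound_of_continuousOn
    (f := f) hf.continuous.continuousOn
  exact ⟨C, fun ξ h => hC ξ (by simpa using h)⟩

theorem ke3_bounds (v : ℂ) : ∃ A : ℝ, 1 ≤ A ∧ ∀ ξ : ℂ, ‖ξ‖ ≤ 2 →
    ‖ke3d v ke3u ξ‖ ≤ A ∧ ‖ke3d v (ke3d v ke3u) ξ‖ ≤ A ∧ ‖ke3p ξ‖ ≤ A ∧ ‖ke3d v ke3p ξ‖ ≤ A ∧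
      ‖ke3d v (ke3d v ke3p) ξ‖ ≤ A := by
  obtain ⟨A1, h1⟩ := ke3_bound_ball (ke3d_contDiff v ke3u_contDiff)
  obtain ⟨A2, h2⟩ := ke3_bound_ball (ke3d_contDiff v (ke3d_contDiff v ke3u_contDiff))
  obtain ⟨A3, h3⟩ := ke3_bound_ball ke3p_contDiff
  obtain ⟨A4, h4⟩ := ke3_bound_ball (ke3d_contDiff v ke3p_contDiff)
  obtain ⟨A5, h5⟩ := ke3_bound_ball (ke3d_contDiff v (ke3d_contDiff v ke3p_contDiff))
  refine ⟨1 + |A1| + |A2| + |A3| + |A4| + |A5|, ?_, fun ξ hξ => ?_⟩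
  · have := abs_nonneg A1; have := abs_nonneg A2; have := abs_nonneg A3; have := abs_nonneg A4
    have := abs_nonneg A5; linarith
  · have a1 := abs_nonneg A1; have a2 := abs_nonneg A2; have a3 := abs_nonneg A3
    have a4 := abs_nonneg A4; have a5 := abs_nonneg A5
    have b1 := le_abs_self A1; have b2 := le_abs_self A2; have b3 := le_abs_self A3
    have b4 := le_abs_self A4; have b5 := le_abs_self A5
    refine ⟨(h1 ξ hξ).trans ?_, (h2 ξ hξ).trans ?_, (h3 ξ hξ).trans ?_, (h4 ξ hξ).trans ?_,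
      (h5 ξ hξ).trans ?_⟩ <;> linarith

theorem ke3u_pow_norm_le (n : ℕ) (ξ : ℂ) : ‖ke3u ξ ^ n‖ ≤ 1 := by
  rw [norm_pow]
  exact pow_le_one₀ (norm_nonneg _) (ke3u_norm_le ξ)

theorem ke3_norm_mul_le {a b : ℂ} {x y : ℝ} (ha : ‖a‖ ≤ x) (hb : ‖b‖ ≤ y) :
    ‖a * b‖ ≤ x * y := by
  rw [norm_mul]
  exact mul_le_mul ha hb (norm_nonneg _) ((norm_nonneg _).trans ha)

theorem ke3_norm_add_le {a b : ℂ} {x y : ℝ} (ha : ‖a‖ ≤ x) (hb : ‖b‖ ≤ y) :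
    ‖a + b‖ ≤ x + y := (norm_add_le _ _).trans (add_le_add ha hb)

theorem ke3_M_bounds (v : ℂ) : ∃ C : ℝ, 1 ≤ C ∧ ∀ n : ℕ, 1 ≤ n → ∀ ξ : ℂ, ‖ξ‖ ≤ 2 →
    ‖ke3d v (ke3M n 0) ξ‖ ≤ C * n ∧ ‖ke3d v (ke3d v (ke3M n 0)) ξ‖ ≤ C * n ^ 2 := by
  obtain ⟨A, hA, h⟩ := ke3_bounds v
  refine ⟨5 * A ^ 3, ?_, fun n hn ξ hξ => ?_⟩
  · have : 1 ≤ A ^ 3 := one_le_pow₀ hA
    linarith
  obtain ⟨h1, h2, h3, h4, h5⟩ := h ξ hξ
  have hn' : (1:ℝ) ≤ n := by exact_mod_cast hn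
  have hN : ‖(n : ℂ)‖ ≤ (n:ℝ) := by simp
  have hN1 : ‖((n - 1 : ℕ) : ℂ)‖ ≤ (n:ℝ) := by
    simp only [Complex.norm_natCast]
    exact_mod_cast Nat.sub_le n 1
  have hA0 : 0 ≤ A := by linarith
  have hA2 : A ≤ A ^ 2 := by nlinarith
  have hA3 : A ^ 2 ≤ A ^ 3 := by nlinarith [sq_nonneg A]
  have hn2 : (n:ℝ) ≤ (n:ℝ) ^ 2 := by nlinarith
  have hA30 : 0 ≤ A ^ 3 := by positivity
  constructor
  · rw [ke3d_M]
    refine (ke3_norm_add_le (ke3_norm_mul_le hN (ke3_norm_mul_le (ke3u_pow_norm_le (n - 1) ξ)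
      (ke3_norm_mul_le h1 h3))) (ke3_norm_mul_le (ke3u_pow_norm_le n ξ) h4)).trans ?_
    have e1 : (n:ℝ) * (1 * (A * A)) ≤ A ^ 3 * n := by
      have : A * A ≤ A ^ 3 := by nlinarith
      nlinarith
    have e2 : 1 * A ≤ A ^ 3 * n := by
      have : A ≤ A ^ 3 := by linarith
      nlinarith
    nlinarith
  · rw [ke3dd_M]
    refine (ke3_norm_add_le (ke3_norm_mul_le hN (ke3_norm_add_le
      (ke3_norm_mul_le (ke3_norm_mul_le (ke3_norm_mul_le hN1 (ke3u_pow_norm_le (n - 1 - 1) ξ)) h1)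
        (ke3_norm_mul_le h1 h3))
      (ke3_norm_mul_le (ke3u_pow_norm_le (n - 1) ξ)
        (ke3_norm_add_le (ke3_norm_mul_le h2 h3) (ke3_norm_mul_le h1 h4)))))
      (ke3_norm_add_le (ke3_norm_mul_le (ke3_norm_mul_le (ke3_norm_mul_le hN
        (ke3u_pow_norm_le (n - 1) ξ)) h1) h4)
        (ke3_norm_mul_le (ke3u_pow_norm_le n ξ) h5))).trans ?_
    have f0 : A * A ≤ A ^ 3 := by nlinarith
    have f1 : (n:ℝ) * (n * 1 * A * (A * A)) = A ^ 3 * n ^ 2 := by ring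
    have f2 : (n:ℝ) * (1 * (A * A + A * A)) ≤ 2 * (A ^ 3 * n ^ 2) := by
      have : (n:ℝ) * (A * A) ≤ n ^ 2 * A ^ 3 := mul_le_mul hn2 f0 (by positivity) (by positivity)
      nlinarith
    have f3 : (n:ℝ) * 1 * A * A ≤ A ^ 3 * n ^ 2 := by
      have : (n:ℝ) * (A * A) ≤ n ^ 2 * A ^ 3 := mul_le_mul hn2 f0 (by positivity) (by positivity)
      nlinarith
    have f4 : 1 * A ≤ A ^ 3 * n ^ 2 := by
      have h7 : A ≤ A ^ 3 := by linarith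
      have h8 : (1:ℝ) ≤ n ^ 2 := by nlinarith
      nlinarith
    rw [mul_add, f1]
    linarith

theorem ke3M_scale (n : ℕ) (j : ℤ) : ke3M n j = fun ξ => ke3M n 0 ((2:ℝ) ^ (-j) • ξ) := by
  ext ξ
  have h2 : (0:ℝ) < (2:ℝ) ^ (-j) := by positivity
  unfold ke3M
  congr 1
  · unfold mult
    congr 1
    rw [Complex.real_smul, map_mul, Complex.conj_ofReal]
    by_cases hξ : ξ = 0
    · simp [hξ]
    · have : (((2:ℝ) ^ (-j) : ℝ) : ℂ) ≠ 0 := by exact_mod_cast h2.ne'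
      field_simp
  · congr 1
    unfold chi Psi
    have hn : ‖(2:ℝ) ^ (-j) • ξ‖ = (2:ℝ) ^ (-j) * ‖ξ‖ := by
      rw [norm_smul, Real.norm_eq_abs, abs_of_pos h2]
    rw [hn]
    congr 2
    · simp
    · have : (2:ℝ) ^ (-(j - 1)) = (2:ℝ) ^ (-((0:ℤ) - 1)) * (2:ℝ) ^ (-j) := by
        rw [← zpow_add₀ (by norm_num)]; congr 1; ring
      rw [this]; ring

theorem ke3d_scale (v : ℂ) (f : ℂ → ℂ) (c : ℝ) (ξ : ℂ) :
    ke3d v (fun ξ => f (c • ξ)) ξ = (c : ℂ) * ke3d v f (c • ξ) := by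
  unfold ke3d
  rw [fderiv_comp_smul]
  simp

theorem ke3d_scale' (v : ℂ) (f : ℂ → ℂ) (c : ℝ) :
    ke3d v (fun ξ => f (c • ξ)) = fun ξ => (c : ℂ) * ke3d v f (c • ξ) := by
  ext ξ; exact ke3d_scale v f c ξ

theorem ke3dd_scale (v : ℂ) {f : ℂ → ℂ} (hf : ContDiff ℝ ke3inf f) (c : ℝ) (ξ : ℂ) :
    ke3d v (ke3d v (fun ξ => f (c • ξ))) ξ = (c : ℂ) ^ 2 * ke3d v (ke3d v f) (c • ξ) := by
  rw [ke3d_scale']
  have hs : ContDiff ℝ ke3inf (fun ξ => ke3d v f (c • ξ)) :=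
    (ke3d_contDiff v hf).comp (contDiff_const_smul c)
  rw [ke3d_const_mul v _ hs, ke3d_scale v (ke3d v f) c ξ]
  ring

theorem ke3M_contDiff (n : ℕ) : ContDiff ℝ ke3inf (ke3M n 0) := by
  rw [ke3M_eq]
  exact (ke3u_contDiff.pow n).mul ke3p_contDiff

/-- complement of the closed annulus -/
def ke3O (j : ℤ) : Set ℂ := {ξ | ‖ξ‖ < (2:ℝ) ^ (j - 1) ∨ (2:ℝ) ^ (j + 1) < ‖ξ‖}

theorem ke3O_open (j : ℤ) : IsOpen (ke3O j) :=
  (isOpen_lt continuous_norm continuous_const).union (isOpen_lt continuous_const continuous_norm)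

theorem ke3M_zero_on (n : ℕ) (j : ℤ) (ξ : ℂ) (h : ξ ∈ ke3O j) : ke3M n j ξ = 0 := by
  unfold ke3M
  rcases h with h | h
  · rw [chi_eq_zero_left h.le]; simp
  · rw [chi_eq_zero_right h.le]; simp

theorem ke3d_zero_on (v : ℂ) {f : ℂ → ℂ} {O : Set ℂ} (hO : IsOpen O) (h : ∀ ξ ∈ O, f ξ = 0) :
    ∀ ξ ∈ O, ke3d v f ξ = 0 := by
  intro ξ hξ
  have h1 : f =ᶠ[𝓝 ξ] fun _ => 0 := by
    filter_upwards [hO.mem_nhds hξ] with x hx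
    exact h x hx
  unfold ke3d
  rw [h1.fderiv_eq]
  simp

theorem ke3_M_bounds_j (v : ℂ) : ∃ C : ℝ, 1 ≤ C ∧ ∀ n : ℕ, 1 ≤ n → ∀ j : ℤ, ∀ ξ : ℂ,
    ‖ke3d v (ke3M n j) ξ‖ ≤ C * (n * (2:ℝ) ^ (-j)) ∧
    ‖ke3d v (ke3d v (ke3M n j)) ξ‖ ≤ C * (n * (2:ℝ) ^ (-j)) ^ 2 ∧
    (ξ ∈ ke3O j → ke3d v (ke3M n j) ξ = 0 ∧ ke3d v (ke3d v (ke3M n j)) ξ = 0) := by
  obtain ⟨C, hC1, hC⟩ := ke3_M_bounds v
  refine ⟨C, hC1, fun n hn j ξ => ?_⟩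
  have h2 : (0:ℝ) < (2:ℝ) ^ (-j) := by positivity
  have hz : ξ ∈ ke3O j → ke3d v (ke3M n j) ξ = 0 ∧ ke3d v (ke3d v (ke3M n j)) ξ = 0 := by
    intro h
    have e1 := ke3d_zero_on v (ke3O_open j) (ke3M_zero_on n j)
    exact ⟨e1 ξ h, ke3d_zero_on v (ke3O_open j) e1 ξ h⟩
  by_cases hξ : (2:ℝ) ^ (j + 1) < ‖ξ‖
  · obtain ⟨z1, z2⟩ := hz (Or.inr hξ)
    have hC0 : 0 ≤ C := by linarith
    refine ⟨?_, ?_, hz⟩
    · rw [z1]; simp; positivity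
    · rw [z2]; simp; positivity
  · push Not at hξ
    have hn2 : ‖(2:ℝ) ^ (-j) • ξ‖ ≤ 2 := by
      rw [norm_smul, Real.norm_eq_abs, abs_of_pos h2]
      calc (2:ℝ) ^ (-j) * ‖ξ‖ ≤ (2:ℝ) ^ (-j) * (2:ℝ) ^ (j + 1) := by gcongr
        _ = 2 := by rw [← zpow_add₀ (by norm_num)]; simp
    obtain ⟨b1, b2⟩ := hC n hn _ hn2
    refine ⟨?_, ?_, hz⟩
    · rw [ke3M_scale, ke3d_scale, norm_mul, Complex.norm_real, Real.norm_eq_abs, abs_of_pos h2]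
      calc (2:ℝ) ^ (-j) * ‖ke3d v (ke3M n 0) ((2:ℝ) ^ (-j) • ξ)‖ ≤ (2:ℝ) ^ (-j) * (C * n) := by
            gcongr
        _ = C * (n * (2:ℝ) ^ (-j)) := by ring
    · rw [ke3M_scale, ke3dd_scale v (ke3M_contDiff n), norm_mul, norm_pow, Complex.norm_real,
        Real.norm_eq_abs, abs_of_pos h2]
      calc ((2:ℝ) ^ (-j)) ^ 2 * ‖ke3d v (ke3d v (ke3M n 0)) ((2:ℝ) ^ (-j) • ξ)‖
          ≤ ((2:ℝ) ^ (-j)) ^ 2 * (C * n ^ 2) := by gcongr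
        _ = C * (n * (2:ℝ) ^ (-j)) ^ 2 := by ring

theorem ke3_const_norm : ‖(I / (2 * Real.pi) : ℂ)‖ ≤ 1 := by
  rw [norm_div, Complex.norm_I, norm_mul, Complex.norm_real, Real.norm_eq_abs,
    abs_of_pos Real.pi_pos, Complex.norm_two, div_le_one (by positivity)]
  linarith [Real.pi_gt_three]

theorem kernel_fourier_bounds : ∃ C : ℝ, 0 < C ∧ ∀ n : ℕ, 1 ≤ n → ∀ j : ℤ, ∀ ξ : ℂ,
    ‖𝓕 (fun z => z * KK n j z) ξ‖ ≤ C * (n * (2:ℝ) ^ (-j)) ∧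
    ‖𝓕 (fun z => conj z * KK n j z) ξ‖ ≤ C * (n * (2:ℝ) ^ (-j)) ∧
    ‖𝓕 (fun z => (‖z‖ ^ 2 : ℝ) * KK n j z) ξ‖ ≤ C * (n * (2:ℝ) ^ (-j)) ^ 2 ∧
    ((‖ξ‖ < (2:ℝ) ^ (j - 1) ∨ (2:ℝ) ^ (j + 1) < ‖ξ‖) →
      𝓕 (fun z => z * KK n j z) ξ = 0 ∧ 𝓕 (fun z => conj z * KK n j z) ξ = 0 ∧
      𝓕 (fun z => (‖z‖ ^ 2 : ℝ) * KK n j z) ξ = 0) := by
  obtain ⟨C1, hC1, h1⟩ := ke3_M_bounds_j 1
  obtain ⟨C2, hC2, h2⟩ := ke3_M_bounds_j I
  refine ⟨C1 + C2, by linarith, fun n hn j ξ => ?_⟩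
  obtain ⟨s, hs⟩ := ker_KK n j
  have hF : 𝓕 (s : ℂ → ℂ) = ke3M n j := by
    rw [← hs]; ext ξ; rw [fourier_KK]; rfl
  obtain ⟨a1, a2, a3⟩ := h1 n hn j ξ
  obtain ⟨b1, b2, b3⟩ := h2 n hn j ξ
  rw [hs, ke3_fourier_z, ke3_fourier_conj, ke3_fourier_sq, hF]
  refine ⟨?_, ?_, ?_, ?_⟩
  · rw [norm_mul]
    have e : ‖ke3d 1 (ke3M n j) ξ + I * ke3d I (ke3M n j) ξ‖ ≤
        C1 * (n * (2:ℝ) ^ (-j)) + C2 * (n * (2:ℝ) ^ (-j)) := by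
      refine (norm_add_le _ _).trans (add_le_add a1 ?_)
      rw [norm_mul, Complex.norm_I, one_mul]; exact b1
    calc _ ≤ 1 * (C1 * (n * (2:ℝ) ^ (-j)) + C2 * (n * (2:ℝ) ^ (-j))) :=
          mul_le_mul ke3_const_norm e (norm_nonneg _) (by norm_num)
      _ = _ := by ring
  · rw [norm_mul]
    have e : ‖ke3d 1 (ke3M n j) ξ - I * ke3d I (ke3M n j) ξ‖ ≤
        C1 * (n * (2:ℝ) ^ (-j)) + C2 * (n * (2:ℝ) ^ (-j)) := by
      refine (norm_sub_le _ _).trans (add_le_add a1 ?_)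
      rw [norm_mul, Complex.norm_I, one_mul]; exact b1
    calc _ ≤ 1 * (C1 * (n * (2:ℝ) ^ (-j)) + C2 * (n * (2:ℝ) ^ (-j))) :=
          mul_le_mul ke3_const_norm e (norm_nonneg _) (by norm_num)
      _ = _ := by ring
  · rw [norm_mul, norm_pow]
    have e : ‖ke3d 1 (ke3d 1 (ke3M n j)) ξ + ke3d I (ke3d I (ke3M n j)) ξ‖ ≤
        C1 * (n * (2:ℝ) ^ (-j)) ^ 2 + C2 * (n * (2:ℝ) ^ (-j)) ^ 2 :=
      (norm_add_le _ _).trans (add_le_add a2 b2)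
    have e2 : ‖(I / (2 * Real.pi) : ℂ)‖ ^ 2 ≤ 1 := pow_le_one₀ (norm_nonneg _) ke3_const_norm
    calc _ ≤ 1 * (C1 * (n * (2:ℝ) ^ (-j)) ^ 2 + C2 * (n * (2:ℝ) ^ (-j)) ^ 2) :=
          mul_le_mul e2 e (norm_nonneg _) (by norm_num)
      _ = _ := by ring
  · intro hξ
    obtain ⟨z1, z2⟩ := a3 hξ
    obtain ⟨y1, y2⟩ := b3 hξ
    rw [z1, z2, y1, y2]
    simp

end Helper72.BA.P


namespace Helper72.BA
alias kernel_fourier_bounds := P.kernel_fourier_bounds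
end Helper72.BA
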