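import Pool.Agent.Helper72.BA.Defs
import Pool.Agent.Helper72.BAM.FB2
import Pool.Agent.Helper72.BAM.KE1
import Pool.Agent.Helper72.BAM.KE3
import Pool.Agent.Helper72.BAM.MT

/-!
# MP_3dd6d4_an : module KE4 (L1 norm and tail of the kernels)
-/

set_option autoImplicit false

open MeasureTheory Complex FourierTransform Filter Topology
open scoped ENNReal NNReal ComplexConjugate

noncomputable section

namespace Helper72.BA.P

/-- scaled weight integral -/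
theorem weight_int : ∃ c0 : ℝ, 0 < c0 ∧ ∀ ρ : ℝ, 0 < ρ →
    ∫⁻ z : ℂ, ENNReal.ofReal (((1 + ‖z‖ ^ 2 / ρ ^ 2) ^ 2)⁻¹) ≤ ENNReal.ofReal (c0 * ρ ^ 2) := by
  have hint : Integrable (fun z : ℂ => ((1 : ℝ) + ‖z‖ ^ 2) ^ (-(4:ℝ) / 2)) := by
    refine integrable_rpow_neg_one_add_norm_sq ?_
    rw [Complex.finrank_real_complex]
    norm_num
  have e0 : ∀ z : ℂ, ((1 : ℝ) + ‖z‖ ^ 2) ^ (-(4:ℝ) / 2) = (((1 : ℝ) + ‖z‖ ^ 2) ^ 2)⁻¹ := by
    intro z
    rw [show -(4:ℝ) / 2 = -((2:ℕ) : ℝ) by norm_num, Real.rpow_neg (by positivity),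
      Real.rpow_natCast]
  simp_rw [e0] at hint
  set I := ∫ z : ℂ, (((1 : ℝ) + ‖z‖ ^ 2) ^ 2)⁻¹ with hI
  have hI0 : 0 ≤ I := integral_nonneg fun z => by positivity
  refine ⟨I + 1, by linarith, fun ρ hρ => ?_⟩
  have h1 : ∫ z : ℂ, ((1 + ‖z‖ ^ 2 / ρ ^ 2) ^ 2)⁻¹ = ρ ^ 2 * I := by
    have := Measure.integral_comp_inv_smul_of_nonneg (volume : Measure ℂ)
      (fun z : ℂ => (((1 : ℝ) + ‖z‖ ^ 2) ^ 2)⁻¹) hρ.le
    rw [Complex.finrank_real_complex, smul_eq_mul] at this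
    rw [hI, ← this]
    refine integral_congr_ae (Eventually.of_forall fun z => ?_)
    dsimp only
    rw [norm_smul, norm_inv, Real.norm_of_nonneg hρ.le]
    congr 3
    field_simp
  have h2 : Integrable (fun z : ℂ => ((1 + ‖z‖ ^ 2 / ρ ^ 2) ^ 2)⁻¹) := by
    have := hint.comp_smul (inv_ne_zero hρ.ne')
    refine this.congr (Eventually.of_forall fun z => ?_)
    dsimp only
    rw [norm_smul, norm_inv, Real.norm_of_nonneg hρ.le]
    congr 3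
    field_simp
  rw [← ofReal_integral_eq_lintegral_ofReal h2 (Eventually.of_forall fun z => by positivity), h1]
  refine ENNReal.ofReal_le_ofReal ?_
  nlinarith [sq_nonneg ρ]

/-- weighted `L²` bound of the kernels -/
theorem kernel_L2w : ∃ C : ℝ, 0 < C ∧ ∀ n : ℕ, 1 ≤ n → ∀ j : ℤ,
    ∫⁻ z, ENNReal.ofReal ((1 + ‖z‖ ^ 2 / (n * (2:ℝ) ^ (-j)) ^ 2) ^ 2) * ‖KK n j z‖ₑ ^ 2 ≤
      ENNReal.ofReal (C * ((2:ℝ) ^ j) ^ 2) := by
  obtain ⟨C, hC, hb⟩ := kernel_fourier_bounds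
  refine ⟨(1 + C) ^ 2 * (4 * Real.pi), by have := Real.pi_pos; positivity, fun n hn j => ?_⟩
  have hn0 : (0:ℝ) < n := by exact_mod_cast hn
  set R : ℝ := n * (2:ℝ) ^ (-j) with hR
  have hR0 : 0 < R := by positivity
  obtain ⟨s, hs⟩ := ker_KK n j
  have hKm : Measurable (KK n j) := by
    rw [hs]
    exact s.continuous.measurable
  have hKi : Integrable (KK n j) := by
    rw [hs]
    exact s.integrable
  have hK2 : Integrable (fun z => ((‖z‖ ^ 2 : ℝ) : ℂ) * KK n j z) := by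
    have h1 := s.integrable_pow_mul volume 2
    refine h1.mono' ?_ (Eventually.of_forall fun z => ?_)
    · exact (by fun_prop : Measurable fun z => ((‖z‖ ^ 2 : ℝ) : ℂ) * KK n j z).aestronglyMeasurable
    · rw [norm_mul, Complex.norm_real, Real.norm_of_nonneg (by positivity), hs]
  obtain ⟨B0, hB0⟩ := s.decay 0 0
  obtain ⟨B2, hB2⟩ := s.decay 2 0
  simp only [pow_zero, one_mul, norm_iteratedFDeriv_zero] at hB0 hB2
  set g : ℂ → ℂ := fun z => KK n j z + (((R ^ 2)⁻¹ : ℝ) : ℂ) * (((‖z‖ ^ 2 : ℝ) : ℂ) * KK n j z)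
    with hg
  have hgN : Nice g := by
    refine ⟨?_, hKi.add (hK2.const_mul _), B0 + (R ^ 2)⁻¹ * B2, fun z => ?_⟩
    · rw [hg]
      fun_prop
    · rw [hg]
      dsimp only
      refine (norm_add_le _ _).trans (add_le_add ?_ ?_)
      · rw [hs]
        exact hB0.2 z
      · rw [norm_mul, norm_mul, Complex.norm_real, Complex.norm_real,
          Real.norm_of_nonneg (by positivity), Real.norm_of_nonneg (by positivity), hs]
        exact mul_le_mul_of_nonneg_left (hB2.2 z) (by positivity)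
  have hFg : ∀ ξ, 𝓕 g ξ = 𝓕 (KK n j) ξ +
      (((R ^ 2)⁻¹ : ℝ) : ℂ) * 𝓕 (fun z => (((‖z‖ ^ 2 : ℝ) : ℂ) * KK n j z)) ξ := by
    intro ξ
    rw [Real.fourier_eq, Real.fourier_eq, Real.fourier_eq, ← integral_const_mul, ← integral_add]
    · refine integral_congr_ae (Eventually.of_forall fun z => ?_)
      dsimp only
      rw [hg]
      dsimp only
      rw [smul_add, mul_smul_comm]
    · exact (Real.fourierIntegral_convergent_iff ξ).2 hKi
    · exact ((Real.fourierIntegral_convergent_iff ξ).2 hK2).const_mul _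
  have hFb : ∀ ξ, ‖𝓕 g ξ‖ₑ ^ 2 ≤
      Set.indicator (Metric.closedBall (0:ℂ) ((2:ℝ) ^ (j + 1)))
        (fun _ => ENNReal.ofReal ((1 + C) ^ 2)) ξ := by
    intro ξ
    by_cases h : ξ ∈ Metric.closedBall (0:ℂ) ((2:ℝ) ^ (j + 1))
    · rw [Set.indicator_of_mem h, ← ofReal_norm, ← ENNReal.ofReal_pow (norm_nonneg _)]
      refine ENNReal.ofReal_le_ofReal (pow_le_pow_left₀ (norm_nonneg _) ?_ 2)
      rw [hFg]
      refine (norm_add_le _ _).trans (add_le_add ?_ ?_)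
      · rw [fourier_KK, norm_mul]
        have h1 : ‖mult n ξ‖ ≤ 1 := by
          unfold mult
          rw [norm_pow, norm_div, RCLike.norm_conj]
          exact pow_le_one₀ (by positivity) (div_self_le_one _)
        have h2 : ‖((chi j ξ : ℝ) : ℂ)‖ ≤ 1 := by
          rw [Complex.norm_real, Real.norm_of_nonneg (chi_nonneg j ξ)]
          have := sum_chi_le_one {j} ξ
          simpa using this
        calc ‖mult n ξ‖ * ‖((chi j ξ : ℝ) : ℂ)‖ ≤ 1 * 1 :=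
              mul_le_mul h1 h2 (norm_nonneg _) zero_le_one
          _ = 1 := one_mul 1
      · rw [norm_mul, Complex.norm_real, Real.norm_of_nonneg (by positivity)]
        have h3 := (hb n hn j ξ).2.2.1
        rw [← hR] at h3
        calc (R ^ 2)⁻¹ * ‖𝓕 (fun z => (((‖z‖ ^ 2 : ℝ) : ℂ) * KK n j z)) ξ‖
            ≤ (R ^ 2)⁻¹ * (C * R ^ 2) := mul_le_mul_of_nonneg_left h3 (by positivity)
          _ = C := by field_simp
    · rw [Set.indicator_of_notMem h]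
      have h1 : (2:ℝ) ^ (j + 1) < ‖ξ‖ := by
        rwa [Metric.mem_closedBall, dist_zero_right, not_le] at h
      rw [hFg, fourier_KK, chi_eq_zero_right h1.le, ((hb n hn j ξ).2.2.2 (Or.inr h1)).2.2]
      simp
  have hpl := plancherel hgN
  have e1 : ∀ z, ENNReal.ofReal ((1 + ‖z‖ ^ 2 / R ^ 2) ^ 2) * ‖KK n j z‖ₑ ^ 2 = ‖g z‖ₑ ^ 2 := by
    intro z
    have : g z = ((1 + ‖z‖ ^ 2 / R ^ 2 : ℝ) : ℂ) * KK n j z := by
      rw [hg]
      push_cast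
      field_simp
    have h5 : ‖((1 + ‖z‖ ^ 2 / R ^ 2 : ℝ) : ℂ)‖ₑ = ENNReal.ofReal (1 + ‖z‖ ^ 2 / R ^ 2) := by
      rw [← ofReal_norm (((1 + ‖z‖ ^ 2 / R ^ 2 : ℝ) : ℂ)), Complex.norm_real,
        Real.norm_of_nonneg (by positivity)]
    rw [this, enorm_mul, h5, ENNReal.ofReal_pow (by positivity)]
    exact (mul_pow (ENNReal.ofReal (1 + ‖z‖ ^ 2 / R ^ 2)) (‖KK n j z‖ₑ) 2).symm
  simp_rw [e1]
  rw [← hpl]
  refine (lintegral_mono hFb).trans ?_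
  rw [lintegral_indicator Metric.isClosed_closedBall.measurableSet, setLIntegral_const,
    Complex.volume_closedBall]
  rw [← ENNReal.ofReal_pow (by positivity), ← ENNReal.ofReal_coe_nnreal,
    ← ENNReal.ofReal_mul (by positivity), ← ENNReal.ofReal_mul (by positivity)]
  refine ENNReal.ofReal_le_ofReal (le_of_eq ?_)
  have : (2:ℝ) ^ (j + 1) = 2 * (2:ℝ) ^ j := by
    rw [zpow_add_one₀ two_ne_zero]
    ring
  rw [this]
  change (1 + C) ^ 2 * ((2 * (2:ℝ) ^ j) ^ 2 * Real.pi) = (1 + C) ^ 2 * (4 * Real.pi) * ((2:ℝ) ^ j) ^ 2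
  ring

/-- Cauchy-Schwarz on a set -/
theorem kernel_set {C : ℝ} (hC : 0 < C) {n : ℕ} (hn : 1 ≤ n) {j : ℤ}
    (hL : ∫⁻ z, ENNReal.ofReal ((1 + ‖z‖ ^ 2 / (n * (2:ℝ) ^ (-j)) ^ 2) ^ 2) * ‖KK n j z‖ₑ ^ 2 ≤
      ENNReal.ofReal (C * ((2:ℝ) ^ j) ^ 2)) {S : Set ℂ} {M : ℝ} (hM : 0 ≤ M)
    (hW : ∫⁻ z in S, ENNReal.ofReal (((1 + ‖z‖ ^ 2 / (n * (2:ℝ) ^ (-j)) ^ 2) ^ 2)⁻¹) ≤
      ENNReal.ofReal M) :
    ∫⁻ z in S, ‖KK n j z‖ₑ ≤ ENNReal.ofReal (Real.sqrt (M * C) * (2:ℝ) ^ j) := by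
  have hhalf : (0:ℝ) ≤ 1 / 2 := by norm_num
  have hn0 : (0:ℝ) < n := by exact_mod_cast hn
  set R : ℝ := n * (2:ℝ) ^ (-j) with hR
  have hR0 : 0 < R := by positivity
  obtain ⟨s, hs⟩ := ker_KK n j
  have hKm : Measurable (KK n j) := by
    rw [hs]
    exact s.continuous.measurable
  have h := ENNReal.lintegral_mul_le_Lp_mul_Lq (volume.restrict S) Real.HolderConjugate.two_two
    (f := fun z : ℂ => ENNReal.ofReal ((1 + ‖z‖ ^ 2 / R ^ 2)⁻¹))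
    (g := fun z : ℂ => ENNReal.ofReal (1 + ‖z‖ ^ 2 / R ^ 2) * ‖KK n j z‖ₑ)
    (by fun_prop) (by fun_prop)
  have e1 : ∫⁻ z in S, ((fun z : ℂ => ENNReal.ofReal ((1 + ‖z‖ ^ 2 / R ^ 2)⁻¹)) *
      fun z : ℂ => ENNReal.ofReal (1 + ‖z‖ ^ 2 / R ^ 2) * ‖KK n j z‖ₑ) z =
      ∫⁻ z in S, ‖KK n j z‖ₑ := by
    refine lintegral_congr fun z => ?_
    change ENNReal.ofReal ((1 + ‖z‖ ^ 2 / R ^ 2)⁻¹) *
      (ENNReal.ofReal (1 + ‖z‖ ^ 2 / R ^ 2) * ‖KK n j z‖ₑ) = _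
    rw [← mul_assoc, ← ENNReal.ofReal_mul (by positivity), inv_mul_cancel₀ (by positivity),
      ENNReal.ofReal_one, one_mul]
  have e2 : ∫⁻ z in S, ENNReal.ofReal ((1 + ‖z‖ ^ 2 / R ^ 2)⁻¹) ^ (2:ℝ) ≤ ENNReal.ofReal M := by
    refine le_trans (le_of_eq ?_) hW
    refine lintegral_congr fun z => ?_
    rw [ENNReal.ofReal_rpow_of_nonneg (by positivity) (by norm_num)]
    congr 1
    rw [show (2:ℝ) = ((2:ℕ):ℝ) by norm_num, Real.rpow_natCast, inv_pow]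
  have e3 : ∫⁻ z in S, (ENNReal.ofReal (1 + ‖z‖ ^ 2 / R ^ 2) * ‖KK n j z‖ₑ) ^ (2:ℝ) ≤
      ENNReal.ofReal (C * ((2:ℝ) ^ j) ^ 2) := by
    refine (setLIntegral_le_lintegral _ _).trans (le_trans (le_of_eq ?_) hL)
    refine lintegral_congr fun z => ?_
    rw [ENNReal.mul_rpow_of_nonneg _ _ (by norm_num),
      ENNReal.ofReal_rpow_of_nonneg (by positivity) (by norm_num),
      show (2:ℝ) = ((2:ℕ):ℝ) by norm_num, Real.rpow_natCast, ENNReal.rpow_natCast]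
  rw [e1] at h
  refine h.trans ?_
  refine (mul_le_mul' (ENNReal.rpow_le_rpow e2 hhalf) (ENNReal.rpow_le_rpow e3 hhalf)).trans ?_
  rw [ENNReal.ofReal_rpow_of_nonneg hM hhalf, ENNReal.ofReal_rpow_of_nonneg (by positivity) hhalf,
    ← ENNReal.ofReal_mul (by positivity), ← Real.sqrt_eq_rpow, ← Real.sqrt_eq_rpow]
  refine ENNReal.ofReal_le_ofReal (le_of_eq ?_)
  rw [Real.sqrt_mul hM, Real.sqrt_mul hC.le, Real.sqrt_sq (by positivity)]
  ring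

theorem kernel_L1 : ∃ C : ℝ, 0 < C ∧ ∀ n : ℕ, 1 ≤ n → ∀ j : ℤ,
    ∫⁻ z, ‖KK n j z‖ₑ ≤ ENNReal.ofReal (C * n) := by
  obtain ⟨C, hC, hL⟩ := kernel_L2w
  obtain ⟨c0, hc0, hw⟩ := weight_int
  refine ⟨Real.sqrt (c0 * C), by positivity, fun n hn j => ?_⟩
  have hn0 : (0:ℝ) < n := by exact_mod_cast hn
  have hR0 : 0 < (n:ℝ) * (2:ℝ) ^ (-j) := by positivity
  have h := kernel_set hC hn (hL n hn j) (S := Set.univ) (M := c0 * (n * (2:ℝ) ^ (-j)) ^ 2)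
    (by positivity) (by
      rw [Measure.restrict_univ]
      exact hw _ hR0)
  rw [Measure.restrict_univ] at h
  refine h.trans (ENNReal.ofReal_le_ofReal (le_of_eq ?_))
  rw [show c0 * ((n:ℝ) * (2:ℝ) ^ (-j)) ^ 2 * C = c0 * C * ((n:ℝ) * (2:ℝ) ^ (-j)) ^ 2 by ring,
    Real.sqrt_mul (by positivity), Real.sqrt_sq hR0.le, zpow_neg]
  field_simp

theorem kernel_tail : ∃ C : ℝ, 0 < C ∧ ∀ n : ℕ, 1 ≤ n → ∀ j : ℤ, ∀ L : ℝ, 0 < L →
    ∫⁻ z in {z : ℂ | L * n * (2:ℝ) ^ (-j) < ‖z‖}, ‖KK n j z‖ₑ ≤ ENNReal.ofReal (C * n / L) := by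
  obtain ⟨C, hC, hL⟩ := kernel_L2w
  obtain ⟨c0, hc0, hw⟩ := weight_int
  refine ⟨Real.sqrt (4 * c0 * C), by positivity, fun n hn j L hL0 => ?_⟩
  have hn0 : (0:ℝ) < n := by exact_mod_cast hn
  set R : ℝ := n * (2:ℝ) ^ (-j) with hR
  have hR0 : 0 < R := by positivity
  have hLR : L * n * (2:ℝ) ^ (-j) = L * R := by rw [hR]; ring
  rw [hLR]
  have hS : MeasurableSet {z : ℂ | L * R < ‖z‖} := measurableSet_lt measurable_const measurable_norm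
  have hM : ∫⁻ z in {z : ℂ | L * R < ‖z‖}, ENNReal.ofReal (((1 + ‖z‖ ^ 2 / R ^ 2) ^ 2)⁻¹) ≤
      ENNReal.ofReal (4 * c0 * R ^ 2 / L ^ 2) := by
    have h1 : ∫⁻ z in {z : ℂ | L * R < ‖z‖}, ENNReal.ofReal (((1 + ‖z‖ ^ 2 / R ^ 2) ^ 2)⁻¹) ≤
        ∫⁻ z in {z : ℂ | L * R < ‖z‖}, ENNReal.ofReal (4 / L ^ 4) *
          ENNReal.ofReal (((1 + ‖z‖ ^ 2 / (L * R) ^ 2) ^ 2)⁻¹) := by
      refine setLIntegral_mono' hS fun z hz => ?_
      have hz' : L * R < ‖z‖ := hz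
      rw [← ENNReal.ofReal_mul (by positivity)]
      refine ENNReal.ofReal_le_ofReal ?_
      have hLR0 : 0 < L * R := by positivity
      have hz0 : 0 < ‖z‖ := hLR0.trans hz'
      have h2 : (L * R) ^ 2 ≤ ‖z‖ ^ 2 := pow_le_pow_left₀ hLR0.le hz'.le 2
      have h3 : (1 + ‖z‖ ^ 2 / (L * R) ^ 2) * L ^ 2 ≤ 2 * (1 + ‖z‖ ^ 2 / R ^ 2) := by
        have e : (1 + ‖z‖ ^ 2 / (L * R) ^ 2) * L ^ 2 = L ^ 2 + ‖z‖ ^ 2 / R ^ 2 := by
          field_simp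
        have e2 : L ^ 2 ≤ ‖z‖ ^ 2 / R ^ 2 := by
          rw [le_div_iff₀ (by positivity)]
          calc L ^ 2 * R ^ 2 = (L * R) ^ 2 := by ring
            _ ≤ ‖z‖ ^ 2 := h2
        rw [e]
        linarith
      have h4 : ((1 + ‖z‖ ^ 2 / (L * R) ^ 2) * L ^ 2) ^ 2 ≤ (2 * (1 + ‖z‖ ^ 2 / R ^ 2)) ^ 2 :=
        pow_le_pow_left₀ (by positivity) h3 2
      rw [← div_eq_mul_inv, inv_eq_one_div, div_div,
        div_le_div_iff₀ (by positivity) (by positivity)]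
      nlinarith [h4]
    refine h1.trans ?_
    rw [lintegral_const_mul' _ _ ENNReal.ofReal_ne_top]
    refine (mul_le_mul_right ((setLIntegral_le_lintegral _ _).trans
      (hw (L * R) (by positivity))) _).trans ?_
    rw [← ENNReal.ofReal_mul (by positivity)]
    refine ENNReal.ofReal_le_ofReal (le_of_eq ?_)
    field_simp
  have h := kernel_set hC hn (hL n hn j) (M := 4 * c0 * R ^ 2 / L ^ 2) (by positivity) hM
  refine h.trans (ENNReal.ofReal_le_ofReal (le_of_eq ?_))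
  rw [show 4 * c0 * R ^ 2 / L ^ 2 * C = 4 * c0 * C * (R / L) ^ 2 by field_simp,
    Real.sqrt_mul (by positivity), Real.sqrt_sq (by positivity), hR, zpow_neg]
  field_simp

end Helper72.BA.P


namespace Helper72.BA
alias kernel_L1 := P.kernel_L1
alias kernel_tail := P.kernel_tail
end Helper72.BA
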