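import Pool.Agent.Helper72.BA.Defs

/-!
# Linearisation of the phase of the kernel of `T^n` (module PH)
-/

set_option autoImplicit false

open MeasureTheory Complex FourierTransform Filter Topology
open scoped ENNReal NNReal ComplexConjugate

noncomputable section

namespace Helper72.BA.P
open Helper72.BA

/-- modulus (with sign) of the rescaled kernel -/
def mm (b : ℕ) (v : ℂ) : ℝ := cW b (1 / (Real.pi * ‖v‖)) / (Real.pi * ‖v‖ ^ 2)

/-- rescaled kernel -/
def kk (n b : ℕ) (v : ℂ) : ℂ := (mm b v : ℂ) * ((-1) ^ n * (conj v / v) ^ n)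

lemma psi_cont : Continuous psi := by
  unfold psi
  exact Real.smoothTransition.continuous.comp (by fun_prop)

lemma cW_cont (b : ℕ) : Continuous (cW b) := by
  unfold cW
  exact (psi_cont.comp (by fun_prop)).sub (psi_cont.comp (by fun_prop))

lemma ph_psi_nonneg (t : ℝ) : 0 ≤ psi t := Real.smoothTransition.nonneg _
lemma ph_psi_le_one (t : ℝ) : psi t ≤ 1 := Real.smoothTransition.le_one _
lemma psi_one {t : ℝ} (h : t ≤ 1) : psi t = 1 :=
  Real.smoothTransition.one_of_one_le (by linarith)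
lemma psi_zero {t : ℝ} (h : 2 ≤ t) : psi t = 0 :=
  Real.smoothTransition.zero_of_nonpos (by linarith)

lemma cW_abs_le (b : ℕ) (t : ℝ) : |cW b t| ≤ 1 := by
  unfold cW
  rw [abs_le]
  constructor <;> linarith [ph_psi_nonneg ((2:ℝ) ^ (1 - (b : ℤ)) * t), ph_psi_nonneg (2 * t),
    ph_psi_le_one ((2:ℝ) ^ (1 - (b : ℤ)) * t), ph_psi_le_one (2 * t)]

lemma two_zpow_le_one {b : ℕ} (hb : 1 ≤ b) : (2:ℝ) ^ (1 - (b : ℤ)) ≤ 1 := by
  apply zpow_le_one_of_nonpos₀ (by norm_num)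
  omega

lemma cW_small {b : ℕ} (hb : 1 ≤ b) {t : ℝ} (h : t ≤ 1 / 2) : cW b t = 0 := by
  unfold cW
  have h1 : (2:ℝ) ^ (1 - (b : ℤ)) * t ≤ 1 := by
    have h2 := two_zpow_le_one hb
    have h3 : (0:ℝ) < (2:ℝ) ^ (1 - (b : ℤ)) := by positivity
    nlinarith
  rw [psi_one h1, psi_one (by linarith), sub_self]

lemma cW_large {b : ℕ} (hb : 1 ≤ b) {t : ℝ} (h : (2:ℝ) ^ b ≤ t) : cW b t = 0 := by
  unfold cW
  have h0 : (2:ℝ) ≤ (2:ℝ) ^ b := by
    calc (2:ℝ) = 2 ^ 1 := by norm_num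
      _ ≤ 2 ^ b := pow_le_pow_right₀ (by norm_num) hb
  have h1 : 2 ≤ (2:ℝ) ^ (1 - (b : ℤ)) * t := by
    have h3 : (0:ℝ) < (2:ℝ) ^ (1 - (b : ℤ)) := by positivity
    calc (2:ℝ) = (2:ℝ) ^ (1 - (b : ℤ)) * (2:ℝ) ^ b := by
          rw [← zpow_natCast (2:ℝ) b, ← zpow_add₀ (by norm_num)]; simp
      _ ≤ _ := mul_le_mul_of_nonneg_left h h3.le
  rw [psi_zero h1, psi_zero (by linarith), sub_self]

lemma mm_zero_of_large {b : ℕ} (hb : 1 ≤ b) {v : ℂ} (h : 1 ≤ ‖v‖) : mm b v = 0 := by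
  unfold mm
  rw [cW_small hb, zero_div]
  rw [div_le_div_iff₀ (by positivity) (by norm_num)]
  nlinarith [Real.pi_gt_three]

lemma mm_abs_le {b : ℕ} (hb : 1 ≤ b) (v : ℂ) : |mm b v| ≤ Real.pi * 4 ^ b := by
  rcases eq_or_ne v 0 with rfl | hv
  · unfold mm
    simp only [norm_zero, mul_zero, div_zero, ne_eq, OfNat.ofNat_ne_zero, not_false_eq_true,
      zero_pow, abs_zero]
    positivity
  have hv' : 0 < ‖v‖ := norm_pos_iff.2 hv
  rcases le_or_gt ‖v‖ (1 / (Real.pi * 2 ^ b)) with h | h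
  · unfold mm
    rw [cW_large hb, zero_div, abs_zero]
    · positivity
    · rw [le_div_iff₀ (by positivity)]
      rw [le_div_iff₀ (by positivity)] at h
      linarith
  · unfold mm
    rw [abs_div, abs_of_pos (by positivity : 0 < Real.pi * ‖v‖ ^ 2)]
    rw [div_le_iff₀ (by positivity)]
    have h1 : 1 ≤ ‖v‖ * (Real.pi * 2 ^ b) := by
      rw [div_lt_iff₀ (by positivity)] at h
      exact h.le
    have h4 : (4:ℝ) ^ b = 2 ^ b * 2 ^ b := by
      rw [← mul_pow]; norm_num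
    calc |cW b (1 / (Real.pi * ‖v‖))| ≤ 1 := cW_abs_le _ _
      _ ≤ (‖v‖ * (Real.pi * 2 ^ b)) * (‖v‖ * (Real.pi * 2 ^ b)) := by nlinarith
      _ = _ := by rw [h4]; ring

lemma mm_measurable (b : ℕ) : Measurable (mm b) := by
  unfold mm
  apply Measurable.div
  · exact (cW_cont b).measurable.comp (by fun_prop)
  · fun_prop

lemma kk_measurable (n b : ℕ) : Measurable (kk n b) := by
  unfold kk
  have := mm_measurable b
  fun_prop

lemma kk_norm_le {n b : ℕ} (v : ℂ) : ‖kk n b v‖ ≤ |mm b v| := by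
  unfold kk
  rw [norm_mul, norm_mul, norm_pow, norm_pow, norm_div, RCLike.norm_conj, norm_neg, norm_one,
    one_pow, one_mul, Complex.norm_real, Real.norm_eq_abs]
  have : (‖v‖ / ‖v‖) ^ n ≤ 1 := pow_le_one₀ (by positivity) (div_self_le_one _)
  calc |mm b v| * (‖v‖ / ‖v‖) ^ n ≤ |mm b v| * 1 := by gcongr
    _ = _ := mul_one _

lemma ch_norm (z η : ℂ) : ‖ch z η‖ = 1 := by
  unfold ch
  rw [show (2 * Real.pi * I * ((z.re * η.re + z.im * η.im : ℝ) : ℂ)) =
    ((2 * Real.pi * (z.re * η.re + z.im * η.im) : ℝ) : ℂ) * I by push_cast; ring]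
  exact Complex.norm_exp_ofReal_mul_I _

lemma Kt_scale {n b : ℕ} (hn : 1 ≤ n) (v : ℂ) : Kt n b (n * v) = (n : ℂ)⁻¹ * kk n b v := by
  have hn' : (n : ℝ) ≠ 0 := by positivity
  have hn'' : (n : ℂ) ≠ 0 := by exact_mod_cast hn'
  have hpi : (Real.pi : ℂ) ≠ 0 := by exact_mod_cast Real.pi_ne_zero
  unfold Kt Kn kk mm
  have e1 : (n : ℝ) / (Real.pi * ‖(n : ℂ) * v‖) = 1 / (Real.pi * ‖v‖) := by
    rw [norm_mul, Complex.norm_natCast]
    rcases eq_or_ne v 0 with rfl | hv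
    · simp
    have hv' : ‖v‖ ≠ 0 := norm_ne_zero_iff.2 hv
    field_simp
  have e2 : conj ((n : ℂ) * v) / ((n : ℂ) * v) = conj v / v := by
    rw [map_mul, Complex.conj_natCast, mul_div_mul_left _ _ hn'']
  rw [e1, e2, norm_mul, Complex.norm_natCast]
  rcases eq_or_ne v 0 with rfl | hv
  · simp
  have hv' : (‖v‖ : ℂ) ≠ 0 := by exact_mod_cast norm_ne_zero_iff.2 hv
  push_cast
  field_simp

lemma etaw_scale {n : ℕ} (hn : 1 ≤ n) (v : ℂ) : etaw n (n * v) = etaw 1 v := by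
  have hn' : (n : ℝ) ≠ 0 := by positivity
  have hn'' : (n : ℂ) ≠ 0 := by exact_mod_cast hn'
  unfold etaw
  rw [map_mul, Complex.conj_natCast]
  rcases eq_or_ne v 0 with rfl | hv
  · simp
  have hv' : (starRingEnd ℂ) v ≠ 0 := by simpa using hv
  push_cast
  field_simp

lemma ph_lint_scale {r : ℝ} (hr : 0 < r) (f : ℂ → ℝ≥0∞) (hf : Measurable f) :
    ∫⁻ w, f w = ENNReal.ofReal (r ^ 2) * ∫⁻ w : ℂ, f ((r : ℂ) * w) := by
  have h1 : ∫⁻ w : ℂ, f ((r : ℂ) * w) = ∫⁻ w, f w ∂(Measure.map (fun x : ℂ => r • x) volume) := by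
    rw [lintegral_map hf (by fun_prop)]
    rfl
  rw [h1, Measure.map_addHaar_smul _ hr.ne', lintegral_smul_measure, Complex.finrank_real_complex,
    smul_eq_mul, ← mul_assoc, ← ENNReal.ofReal_mul (by positivity), abs_of_pos (by positivity),
    mul_inv_cancel₀ (by positivity), ENNReal.ofReal_one, one_mul]

/-- the integrand after rescaling -/
def FF (b n : ℕ) (z ω : ℂ) : ℂ := kk n b (z / n - ω) - kk n b (-ω) * ch z (etaw 1 ω)

lemma ch_etaw (z ω : ℂ) : ch z (etaw 1 ω) = Complex.exp (z / ω - conj (z / ω)) := by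
  unfold ch etaw
  congr 1
  have hre : ∀ x y : ℂ, x.re * y.re + x.im * y.im = (conj x * y).re := by
    intro x y; simp
  rw [hre]
  have h2 : conj z * (((1 : ℕ) / Real.pi : ℝ) * I / conj ω) =
      ((Real.pi⁻¹ : ℝ) : ℂ) * (I * conj (z / ω)) := by
    rw [map_div₀]; push_cast; ring
  rw [h2, Complex.re_ofReal_mul]
  have h3 : ∀ q : ℂ, (I * conj q).re = q.im := by intro q; simp
  rw [h3]
  have h4 : z / ω - conj (z / ω) = 2 * I * ((z / ω).im : ℂ) := by
    rw [Complex.sub_conj]; push_cast; ring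
  rw [h4]
  have hpi : (Real.pi : ℂ) ≠ 0 := by exact_mod_cast Real.pi_ne_zero
  push_cast
  field_simp

lemma FF_measurable (b n : ℕ) : Measurable (Function.uncurry (FF b n)) := by
  unfold FF Function.uncurry
  have h1 := kk_measurable n b
  have h2 : Measurable fun p : ℂ × ℂ => ch p.1 (etaw 1 p.2) := by
    simp_rw [ch_etaw]
    fun_prop
  refine (h1.comp (by fun_prop)).sub ((h1.comp (by fun_prop)).mul h2)

lemma norm_div_nat_le (z : ℂ) (n : ℕ) : ‖z / (n : ℂ)‖ ≤ ‖z‖ := by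
  rcases Nat.eq_zero_or_pos n with rfl | hn
  · simp
  · rw [norm_div, Complex.norm_natCast]
    exact div_le_self (norm_nonneg _) (by exact_mod_cast hn)

lemma kk_norm_le' {n b : ℕ} (hb : 1 ≤ b) (v : ℂ) :
    ‖kk n b v‖ₑ ≤ (Metric.ball (0 : ℂ) 1).indicator (fun _ => ENNReal.ofReal (Real.pi * 4 ^ b)) v := by
  by_cases hv : v ∈ Metric.ball (0 : ℂ) 1
  · rw [Set.indicator_of_mem hv, ← ofReal_norm]
    exact ENNReal.ofReal_le_ofReal ((kk_norm_le v).trans (mm_abs_le hb v))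
  · rw [Set.indicator_of_notMem hv]
    have h1 : 1 ≤ ‖v‖ := by simpa using hv
    have h2 : kk n b v = 0 := by unfold kk; rw [mm_zero_of_large hb h1]; simp
    rw [h2]; simp

lemma FF_bound {b : ℕ} (hb : 1 ≤ b) (n : ℕ) (z ω : ℂ) : ‖FF b n z ω‖ₑ ≤
    (Metric.ball (0 : ℂ) 1).indicator (fun _ => ENNReal.ofReal (Real.pi * 4 ^ b)) (z / n - ω) +
    (Metric.ball (0 : ℂ) 1).indicator (fun _ => ENNReal.ofReal (Real.pi * 4 ^ b)) (-ω) := by
  unfold FF
  refine (enorm_sub_le).trans (add_le_add (kk_norm_le' hb _) ?_)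
  rw [enorm_mul]
  have : ‖ch z (etaw 1 ω)‖ₑ = 1 := by
    rw [← ofReal_norm, ch_norm, ENNReal.ofReal_one]
  rw [this, mul_one]
  exact kk_norm_le' hb _

lemma lint_ball (C : ℝ≥0∞) : ∫⁻ v : ℂ, (Metric.ball (0 : ℂ) 1).indicator (fun _ => C) v
    = C * volume (Metric.ball (0 : ℂ) 1) := by
  rw [lintegral_indicator measurableSet_ball, setLIntegral_const]

lemma int_FF_le {b : ℕ} (hb : 1 ≤ b) (n : ℕ) (z : ℂ) : ∫⁻ ω, ‖FF b n z ω‖ₑ ≤
    2 * (ENNReal.ofReal (Real.pi * 4 ^ b) * volume (Metric.ball (0 : ℂ) 1)) := by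
  set h : ℂ → ℝ≥0∞ := (Metric.ball (0 : ℂ) 1).indicator
    (fun _ => ENNReal.ofReal (Real.pi * 4 ^ b)) with hh
  have hm : Measurable h := measurable_const.indicator measurableSet_ball
  calc ∫⁻ ω, ‖FF b n z ω‖ₑ ≤ ∫⁻ ω, (h (z / n - ω) + h (-ω)) :=
        lintegral_mono fun ω => FF_bound hb n z ω
    _ = (∫⁻ ω, h (z / n - ω)) + ∫⁻ ω, h (-ω) :=
        lintegral_add_left (f := fun ω : ℂ => h (z / n - ω))
          (hm.comp (measurable_const.sub measurable_id)) _
    _ = (∫⁻ ω, h ω) + ∫⁻ ω, h ω := by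
        congr 1
        · exact lintegral_sub_left_eq_self (μ := (volume : Measure ℂ)) h (z / n)
        · exact lintegral_neg_eq_self (μ := (volume : Measure ℂ)) h
    _ = _ := by rw [two_mul]; congr 1 <;> exact lint_ball _

lemma bound_fin (b : ℕ) :
    2 * (ENNReal.ofReal (Real.pi * 4 ^ b) * volume (Metric.ball (0 : ℂ) 1)) ≠ ∞ :=
  ENNReal.mul_ne_top (by norm_num) (ENNReal.mul_ne_top ENNReal.ofReal_ne_top
    measure_ball_lt_top.ne)

lemma mm_contAt (b : ℕ) {v : ℂ} (hv : v ≠ 0) : ContinuousAt (mm b) v := by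
  unfold mm
  have hv' : ‖v‖ ≠ 0 := norm_ne_zero_iff.2 hv
  refine ContinuousAt.div ?_ (by fun_prop) (by positivity)
  refine ContinuousAt.comp (cW_cont b).continuousAt ?_
  refine ContinuousAt.div (by fun_prop) (by fun_prop) (by positivity)

lemma FF_lim (b : ℕ) (z : ℂ) {ω : ℂ} (hω : ω ≠ 0) :
    Tendsto (fun n : ℕ => FF b n z ω) atTop (𝓝 0) := by
  rw [tendsto_zero_iff_norm_tendsto_zero]
  -- the point `v n = z / n - ω`
  have hv : Tendsto (fun n : ℕ => z / (n : ℂ) - ω) atTop (𝓝 (-ω)) := by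
    have h1 : Tendsto (fun n : ℕ => z / (n : ℂ)) atTop (𝓝 0) := by
      simpa using tendsto_const_div_atTop_nhds_zero_nat z
    simpa using h1.sub_const ω
  have hmlim : Tendsto (fun n : ℕ => mm b (z / (n : ℂ) - ω)) atTop (𝓝 (mm b (-ω))) :=
    (mm_contAt b (neg_ne_zero.2 hω)).tendsto.comp hv
  set a : ℂ := z / ω with ha
  have hpow : Tendsto (fun n : ℕ => (1 + -(conj a) / (n : ℂ)) ^ n / (1 + -a / (n : ℂ)) ^ n)
      atTop (𝓝 (Complex.exp (-(conj a)) / Complex.exp (-a))) :=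
    (Complex.tendsto_one_add_div_pow_exp _).div (Complex.tendsto_one_add_div_pow_exp _)
      (Complex.exp_ne_zero _)
  have hexp : Complex.exp (-(conj a)) / Complex.exp (-a) = ch z (etaw 1 ω) := by
    rw [ch_etaw, ← Complex.exp_sub]; congr 1; ring
  rw [hexp] at hpow
  -- comparison
  have hbound : ∀ n : ℕ, 1 ≤ n → z / (n : ℂ) - ω ≠ 0 → ‖FF b n z ω‖ ≤
      |mm b (z / (n : ℂ) - ω) - mm b (-ω)| + |mm b (-ω)| *
        ‖(1 + -(conj a) / (n : ℂ)) ^ n / (1 + -a / (n : ℂ)) ^ n - ch z (etaw 1 ω)‖ := by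
    intro n hn hne
    have hn'' : (n : ℂ) ≠ 0 := by
      have : (n : ℝ) ≠ 0 := by positivity
      exact_mod_cast this
    set v := z / (n : ℂ) - ω with hvd
    have hcw : conj ω ≠ 0 := by simpa using hω
    have hcv : conj v ≠ 0 := by simpa using hne
    have hratio : (conj v / v) = (conj (-ω) / (-ω)) *
        ((1 + -(conj a) / (n : ℂ)) / (1 + -a / (n : ℂ))) := by
      have h1 : 1 + -a / (n : ℂ) = v / (-ω) := by
        rw [ha, hvd]; field_simp; ring
      have h2 : 1 + -(conj a) / (n : ℂ) = conj v / conj (-ω) := by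
        rw [ha, hvd]
        simp only [map_div₀, map_sub, map_neg, Complex.conj_natCast]
        field_simp; ring
      rw [h1, h2, map_neg]
      field_simp
    have hu1 : ‖(conj v / v) ^ n‖ = 1 := by
      rw [norm_pow, norm_div, RCLike.norm_conj, div_self (norm_ne_zero_iff.2 hne), one_pow]
    have hu2 : ‖(conj (-ω) / (-ω)) ^ n‖ = 1 := by
      rw [norm_pow, norm_div, RCLike.norm_conj,
        div_self (norm_ne_zero_iff.2 (neg_ne_zero.2 hω)), one_pow]
    have e1 : FF b n z ω = (-1) ^ n * (((mm b v - mm b (-ω) : ℝ) : ℂ) * (conj v / v) ^ n +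
        (mm b (-ω) : ℂ) * ((conj (-ω) / (-ω)) ^ n *
          ((1 + -(conj a) / (n : ℂ)) ^ n / (1 + -a / (n : ℂ)) ^ n - ch z (etaw 1 ω)))) := by
      have h3 : (conj v / v) ^ n = (conj (-ω) / (-ω)) ^ n *
          ((1 + -(conj a) / (n : ℂ)) ^ n / (1 + -a / (n : ℂ)) ^ n) := by
        rw [hratio, mul_pow, div_pow (1 + -(conj a) / (n : ℂ))]
      unfold FF kk
      rw [← hvd, h3]
      push_cast
      ring
    rw [e1, norm_mul, norm_pow, norm_neg, norm_one, one_pow, one_mul]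
    refine (norm_add_le _ _).trans (add_le_add ?_ ?_)
    · rw [norm_mul, hu1, mul_one, Complex.norm_real, Real.norm_eq_abs]
    · rw [norm_mul, norm_mul, hu2, one_mul, Complex.norm_real, Real.norm_eq_abs]
  have hev : ∀ᶠ n : ℕ in atTop, z / (n : ℂ) - ω ≠ 0 :=
    hv.eventually_ne (neg_ne_zero.2 hω)
  refine squeeze_zero' (Eventually.of_forall fun n => norm_nonneg _)
    ((hev.and (eventually_ge_atTop 1)).mono fun n hn => hbound n hn.2 hn.1) ?_
  have h5 : Tendsto (fun n : ℕ => |mm b (z / (n : ℂ) - ω) - mm b (-ω)|) atTop (𝓝 0) := by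
    have := (hmlim.sub_const (mm b (-ω))).abs
    simpa using this
  have h6 : Tendsto (fun n : ℕ => |mm b (-ω)| *
      ‖(1 + -(conj a) / (n : ℂ)) ^ n / (1 + -a / (n : ℂ)) ^ n - ch z (etaw 1 ω)‖)
      atTop (𝓝 0) := by
    have := ((hpow.sub_const (ch z (etaw 1 ω))).norm).const_mul |mm b (-ω)|
    simpa using this
  simpa using h5.add h6

theorem phase_lin (b : ℕ) (hb : 1 ≤ b) : ∃ e : ℕ → ℂ → ℝ, (∀ z, Tendsto (fun n => e n z) atTop (𝓝 0)) ∧
    (∃ C : ℝ, ∀ n z, 0 ≤ e n z ∧ e n z ≤ C) ∧ (∀ n, Measurable (e n)) ∧ ∀ n : ℕ, 1 ≤ n → ∀ z : ℂ,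
    ∫⁻ w, ‖Kt n b (z - w) - Kt n b (-w) * ch z (etaw n w)‖ₑ ≤ ENNReal.ofReal (n * e n z) := by
  refine ⟨fun n z => (∫⁻ ω, ‖FF b n z ω‖ₑ).toReal, fun z => ?_,
    ⟨(2 * (ENNReal.ofReal (Real.pi * 4 ^ b) * volume (Metric.ball (0 : ℂ) 1))).toReal,
      fun n z => ⟨ENNReal.toReal_nonneg, ENNReal.toReal_mono (bound_fin b) (int_FF_le hb n z)⟩⟩,
    fun n => ?_, fun n hn z => ?_⟩
  · -- dominated convergence
    set G : ℂ → ℝ≥0∞ := (Metric.ball (0 : ℂ) (1 + ‖z‖)).indicator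
      (fun _ => 2 * ENNReal.ofReal (Real.pi * 4 ^ b)) with hG
    have h1 : Tendsto (fun n : ℕ => ∫⁻ ω, ‖FF b n z ω‖ₑ) atTop (𝓝 (∫⁻ _ : ℂ, 0)) := by
      refine tendsto_lintegral_of_dominated_convergence G (fun n => ?_) (fun n => ?_) ?_ ?_
      · exact ((FF_measurable b n).comp (measurable_const.prodMk measurable_id)).enorm
      · refine Eventually.of_forall fun ω => ?_
        refine (FF_bound hb n z ω).trans ?_
        rw [hG]
        by_cases hω : ω ∈ Metric.ball (0 : ℂ) (1 + ‖z‖)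
        · rw [Set.indicator_of_mem hω, two_mul]
          refine add_le_add ?_ ?_
          · exact Set.indicator_le_self' (fun _ _ => zero_le) _
          · exact Set.indicator_le_self' (fun _ _ => zero_le) _
        · rw [Set.indicator_of_notMem hω]
          have hω' : 1 + ‖z‖ ≤ ‖ω‖ := by simpa using hω
          have h3 := norm_div_nat_le z n
          have h4 : ‖ω‖ ≤ ‖z / (n : ℂ) - ω‖ + ‖z / (n : ℂ)‖ := by
            have := norm_sub_norm_le ω (z / (n : ℂ))
            rw [norm_sub_rev] at this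
            linarith
          rw [Set.indicator_of_notMem, Set.indicator_of_notMem, add_zero]
          · simp only [Metric.mem_ball, dist_zero_right, norm_neg, not_lt]
            linarith [norm_nonneg z]
          · simp only [Metric.mem_ball, dist_zero_right, not_lt]
            linarith
      · rw [hG, lintegral_indicator measurableSet_ball, setLIntegral_const]
        exact ENNReal.mul_ne_top (ENNReal.mul_ne_top (by norm_num) ENNReal.ofReal_ne_top)
          measure_ball_lt_top.ne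
      · have h0 : ∀ᵐ ω : ℂ, ω ≠ 0 := by
          rw [ae_iff]
          simp
        filter_upwards [h0] with ω hω
        have := (FF_lim b z hω).enorm
        simpa using this
    rw [lintegral_zero] at h1
    have h2 := (ENNReal.tendsto_toReal ENNReal.zero_ne_top).comp h1
    simpa [Function.comp_def] using h2
  · have h1 : Measurable fun z : ℂ => ∫⁻ ω, ‖FF b n z ω‖ₑ :=
      Measurable.lintegral_prod_right' (f := fun p : ℂ × ℂ => ‖FF b n p.1 p.2‖ₑ)
        (FF_measurable b n).enorm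
    exact h1.ennreal_toReal
  · have hn' : (0 : ℝ) < n := by positivity
    have hn'' : (n : ℂ) ≠ 0 := by exact_mod_cast hn'.ne'
    have hKm : Measurable (Kt n b) := by
      unfold Kt Kn
      have := (cW_cont b).measurable
      refine Measurable.mul ?_ ?_
      · exact Complex.measurable_ofReal.comp (this.comp (by fun_prop))
      · fun_prop
    have hchm : Measurable fun w : ℂ => ch z (etaw n w) := by
      unfold ch etaw
      fun_prop
    rw [ph_lint_scale hn' _ (by fun_prop : Measurable fun w : ℂ =>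
      ‖Kt n b (z - w) - Kt n b (-w) * ch z (etaw n w)‖ₑ)]
    have e1 : ∀ ω : ℂ, ‖Kt n b (z - ((n : ℝ) : ℂ) * ω) - Kt n b (-(((n : ℝ) : ℂ) * ω)) *
        ch z (etaw n (((n : ℝ) : ℂ) * ω))‖ₑ = ENNReal.ofReal (n : ℝ)⁻¹ * ‖FF b n z ω‖ₑ := by
      intro ω
      rw [Complex.ofReal_natCast]
      have h1 : z - (n : ℂ) * ω = n * (z / n - ω) := by field_simp
      have h2 : -((n : ℂ) * ω) = n * (-ω) := by ring
      rw [h1, h2, Kt_scale hn, Kt_scale hn, etaw_scale hn]
      have h3 : (n : ℂ)⁻¹ * kk n b (z / n - ω) - (n : ℂ)⁻¹ * kk n b (-ω) * ch z (etaw 1 ω) =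
          (n : ℂ)⁻¹ * FF b n z ω := by unfold FF; ring
      rw [h3, enorm_mul]
      congr 1
      rw [← ofReal_norm, norm_inv, Complex.norm_natCast]
    simp_rw [e1]
    rw [lintegral_const_mul' _ _ ENNReal.ofReal_ne_top, ← mul_assoc,
      ← ENNReal.ofReal_mul (by positivity), ENNReal.ofReal_mul hn'.le,
      ENNReal.ofReal_toReal (ne_top_of_le_ne_top (bound_fin b) (int_FF_le hb n z))]
    gcongr
    rw [pow_two, mul_assoc, mul_inv_cancel₀ hn'.ne', mul_one]

end Helper72.BA.P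


namespace Helper72.BA
alias phase_lin := P.phase_lin
end Helper72.BA
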