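import Pool.Agent.Helper72.BA.Defs
import Pool.Agent.Helper72.BAM.FB2
import Pool.Agent.Helper72.BAM.GC
import Pool.Agent.Helper72.BAM.GS
import Pool.Agent.Helper72.BAM.KE1
import Pool.Agent.Helper72.BAM.KE4
import Pool.Agent.Helper72.BAM.PH

/-!
# The kernel of a window is explicit up to `o(n)` in `L¹` (module KL)
-/

set_option autoImplicit false

open MeasureTheory Complex FourierTransform Filter Topology
open scoped ENNReal NNReal ComplexConjugate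

noncomputable section

namespace Helper72.BA.P
open Helper72.BA

/-- the weight in the subordination formula -/
def bet (n b : ℕ) (t : ℝ) : ℝ := cW b (Real.sqrt (n / t))

lemma bet_measurable (n b : ℕ) : Measurable (bet n b) := by
  unfold bet
  exact (cW_cont b).measurable.comp (by fun_prop)

lemma bet_abs_le (n b : ℕ) (t : ℝ) : |bet n b t| ≤ 1 := cW_abs_le _ _

lemma bet_supp {n b : ℕ} (hn : 1 ≤ n) (hb : 1 ≤ b) (t : ℝ)
    (ht : t < n / 4 ^ b ∨ 4 * n < t) : bet n b t = 0 := by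
  have hn' : (0:ℝ) < n := by positivity
  unfold bet
  rcases ht with h | h
  · rcases le_or_gt t 0 with h0 | h0
    · rw [Real.sqrt_eq_zero_of_nonpos (div_nonpos_of_nonneg_of_nonpos hn'.le h0)]
      exact cW_small hb (by norm_num)
    · apply cW_large hb
      rw [show (2:ℝ) ^ b = Real.sqrt (4 ^ b) by
        rw [show (4:ℝ) ^ b = (2 ^ b) ^ 2 by rw [← pow_mul, mul_comm, pow_mul]; norm_num,
          Real.sqrt_sq (by positivity)]]
      apply Real.sqrt_le_sqrt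
      rw [le_div_iff₀ h0]
      rw [lt_div_iff₀ (by positivity)] at h
      linarith
  · have h0 : 0 < t := by linarith
    apply cW_small hb
    rw [show (1:ℝ) / 2 = Real.sqrt (1 / 4) by
      rw [show (1:ℝ) / 4 = (1 / 2) ^ 2 by norm_num, Real.sqrt_sq (by norm_num)]]
    apply Real.sqrt_le_sqrt
    rw [div_le_div_iff₀ h0 (by norm_num)]
    linarith

lemma bet_le_one_side {n b : ℕ} (hn : 1 ≤ n) (hb : 1 ≤ b) (t : ℝ) (ht : 0 ≤ t) :
    |bet n b t| ≤ 4 ^ b * t / n := by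
  have hn' : (0:ℝ) < n := by positivity
  by_cases h : t < n / 4 ^ b
  · rw [bet_supp hn hb t (Or.inl h), abs_zero]; positivity
  · push Not at h
    refine (bet_abs_le n b t).trans ?_
    rw [div_le_iff₀ (by positivity)] at h
    rw [le_div_iff₀ hn']
    linarith

lemma bet_le_other {n b : ℕ} (hn : 1 ≤ n) (hb : 1 ≤ b) (t : ℝ) (ht : 0 < t) :
    |bet n b t| ≤ 4 * n / t := by
  have hn' : (0:ℝ) < n := by positivity
  by_cases h : 4 * n < t
  · rw [bet_supp hn hb t (Or.inr h), abs_zero]; positivity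
  · push Not at h
    refine (bet_abs_le n b t).trans ?_
    rw [le_div_iff₀ ht]
    linarith

/-! Gamma integrals -/

lemma pow_exp_int (m : ℕ) : IntegrableOn (fun y : ℝ => y ^ m * Real.exp (-y)) (Set.Ioi 0) := by
  have h := Real.GammaIntegral_convergent (s := (m : ℝ) + 1) (by positivity)
  refine h.congr_fun (fun y hy => ?_) measurableSet_Ioi
  simp only [add_sub_cancel_right, Real.rpow_natCast]
  ring

lemma pow_exp_val (m : ℕ) : ∫ y in Set.Ioi (0:ℝ), y ^ m * Real.exp (-y) = (m.factorial : ℝ) := by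
  have h := Real.Gamma_eq_integral (s := (m : ℝ) + 1) (by positivity)
  rw [Real.Gamma_nat_eq_factorial] at h
  rw [h]
  refine setIntegral_congr_fun measurableSet_Ioi (fun y hy => ?_)
  simp only [add_sub_cancel_right, Real.rpow_natCast]
  ring

lemma avg_bound {m k : ℕ} {h : ℝ → ℝ} {A : ℝ} (hA : ∀ y, 0 < y → |h y * y ^ m| ≤ A * y ^ k) :
    |∫ y in Set.Ioi (0:ℝ), h y * y ^ m * Real.exp (-y)| ≤ A * (k.factorial : ℝ) := by
  rw [← pow_exp_val k, ← integral_const_mul, ← Real.norm_eq_abs]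
  refine norm_integral_le_of_norm_le ((pow_exp_int k).const_mul A) ?_
  filter_upwards [ae_restrict_mem measurableSet_Ioi] with y hy
  rw [Real.norm_eq_abs, abs_mul, abs_of_pos (Real.exp_pos _), ← mul_assoc]
  exact mul_le_mul_of_nonneg_right (hA y hy) (Real.exp_pos _).le

lemma Eg_bound_zero {n : ℕ} (hn : 1 ≤ n) {h : ℝ → ℝ} {A : ℝ} (hA : ∀ y, 0 < y → |h y| ≤ A) :
    |Eg n h| ≤ A := by
  obtain ⟨m, rfl⟩ : ∃ m, n = m + 1 := ⟨n - 1, by omega⟩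
  unfold Eg
  have h1 : |∫ y in Set.Ioi (0:ℝ), h y * y ^ m * Real.exp (-y)| ≤ A * (m.factorial : ℝ) := by
    apply avg_bound
    intro y hy
    rw [abs_mul, abs_of_pos (pow_pos hy m)]
    exact mul_le_mul_of_nonneg_right (hA y hy) (pow_pos hy m).le
  rw [Nat.add_sub_cancel, Nat.cast_add_one, Real.Gamma_nat_eq_factorial, abs_mul, abs_inv,
    abs_of_pos (by positivity : (0:ℝ) < m.factorial), inv_mul_le_iff₀ (by positivity)]
  linarith

lemma Eg_bound_one {n : ℕ} (hn : 1 ≤ n) {h : ℝ → ℝ} {A : ℝ} (hA : ∀ y, 0 < y → |h y| ≤ A * y) :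
    |Eg n h| ≤ A * n := by
  obtain ⟨m, rfl⟩ : ∃ m, n = m + 1 := ⟨n - 1, by omega⟩
  unfold Eg
  have h1 : |∫ y in Set.Ioi (0:ℝ), h y * y ^ m * Real.exp (-y)| ≤
      A * ((m + 1).factorial : ℝ) := by
    apply avg_bound
    intro y hy
    rw [abs_mul, abs_of_pos (pow_pos hy m), pow_succ']
    calc |h y| * y ^ m ≤ A * y * y ^ m := mul_le_mul_of_nonneg_right (hA y hy) (pow_pos hy m).le
      _ = _ := by ring
  rw [Nat.factorial_succ] at h1
  push_cast at h1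
  rw [Nat.add_sub_cancel, Nat.cast_add_one, Real.Gamma_nat_eq_factorial, abs_mul, abs_inv,
    abs_of_pos (by positivity : (0:ℝ) < m.factorial), inv_mul_le_iff₀ (by positivity)]
  linarith

lemma Eg'_bound_zero {n : ℕ} {h : ℝ → ℝ} {A : ℝ} (hA : ∀ y, 0 < y → |h y| ≤ A) :
    |Eg' n h| ≤ A := by
  unfold Eg'
  have h1 : |∫ y in Set.Ioi (0:ℝ), h y * y ^ n * Real.exp (-y)| ≤ A * (n.factorial : ℝ) := by
    apply avg_bound
    intro y hy
    rw [abs_mul, abs_of_pos (pow_pos hy n)]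
    exact mul_le_mul_of_nonneg_right (hA y hy) (pow_pos hy n).le
  rw [Real.Gamma_nat_eq_factorial, abs_mul, abs_inv,
    abs_of_pos (by positivity : (0:ℝ) < n.factorial), inv_mul_le_iff₀ (by positivity)]
  linarith

lemma Eg'_bound_one {n : ℕ} {h : ℝ → ℝ} {A : ℝ} (hA : ∀ y, 0 < y → |h y| ≤ A * y) :
    |Eg' n h| ≤ A * (n + 1) := by
  unfold Eg'
  have h1 : |∫ y in Set.Ioi (0:ℝ), h y * y ^ n * Real.exp (-y)| ≤
      A * ((n + 1).factorial : ℝ) := by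
    apply avg_bound
    intro y hy
    rw [abs_mul, abs_of_pos (pow_pos hy n), pow_succ']
    calc |h y| * y ^ n ≤ A * y * y ^ n := mul_le_mul_of_nonneg_right (hA y hy) (pow_pos hy n).le
      _ = _ := by ring
  rw [Nat.factorial_succ] at h1
  push_cast at h1
  rw [Real.Gamma_nat_eq_factorial, abs_mul, abs_inv,
    abs_of_pos (by positivity : (0:ℝ) < n.factorial), inv_mul_le_iff₀ (by positivity)]
  linarith

lemma Eg'_bound_neg {n : ℕ} (hn : 1 ≤ n) {h : ℝ → ℝ} {A : ℝ} (hA : ∀ y, 0 < y → |h y| ≤ A / y) :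
    |Eg' n h| ≤ A / n := by
  obtain ⟨m, rfl⟩ : ∃ m, n = m + 1 := ⟨n - 1, by omega⟩
  unfold Eg'
  have h1 : |∫ y in Set.Ioi (0:ℝ), h y * y ^ (m + 1) * Real.exp (-y)| ≤
      A * (m.factorial : ℝ) := by
    apply avg_bound
    intro y hy
    rw [abs_mul, abs_of_pos (pow_pos hy (m + 1)), pow_succ']
    calc |h y| * (y * y ^ m) ≤ A / y * (y * y ^ m) :=
          mul_le_mul_of_nonneg_right (hA y hy) (by positivity)
      _ = _ := by field_simp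
  have hm : (0:ℝ) < m.factorial := by positivity
  rw [Real.Gamma_nat_eq_factorial, abs_mul, abs_inv,
    abs_of_pos (by positivity : (0:ℝ) < (m + 1).factorial), inv_mul_le_iff₀ (by positivity),
    Nat.factorial_succ]
  push_cast
  calc _ ≤ A * (m.factorial : ℝ) := h1
    _ = _ := by field_simp

/-! The multiplier side -/

lemma bet_scale (n b : ℕ) (y q : ℝ) : bet n b (y / q) = cW b (Real.sqrt (q / (y / n))) := by
  unfold bet
  congr 2
  rw [div_div_eq_mul_div, div_div_eq_mul_div, mul_comm]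

lemma cW_sqrt_meas (b : ℕ) (q : ℝ) : Measurable fun x : ℝ => cW b (Real.sqrt (q / x)) :=
  (cW_cont b).measurable.comp (by fun_prop)

lemma Eg_lim (b : ℕ) (ξ : ℂ) :
    Tendsto (fun n : ℕ => Eg n (fun y => bet n b (y / ‖ξ‖ ^ 2))) atTop (𝓝 (cW b ‖ξ‖)) := by
  have h := (gamma_conc (fun x => cW b (Real.sqrt (‖ξ‖ ^ 2 / x))) (cW_sqrt_meas b _) 1
    (fun x hx => (cW_abs_le _ _).trans (by linarith)) ?_).1
  · simp only [div_one] at h
    rw [Real.sqrt_sq (norm_nonneg _)] at h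
    simpa only [bet_scale] using h
  · refine (cW_cont b).continuousAt.comp (Real.continuous_sqrt.continuousAt.comp ?_)
    exact continuousAt_const.div continuousAt_id one_ne_zero

/-- the smoothed multiplier -/
def Mn (n b : ℕ) (ξ : ℂ) : ℝ := Eg n (fun y => bet n b (y / ‖ξ‖ ^ 2))

lemma Mn_measurable (n b : ℕ) : Measurable (Mn n b) := by
  unfold Mn Eg
  refine Measurable.const_mul ?_ _
  have h1 : Measurable fun p : ℂ × ℝ => bet n b (p.2 / ‖p.1‖ ^ 2) * p.2 ^ (n - 1) *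
      Real.exp (-p.2) := by
    have := (bet_measurable n b).comp (by fun_prop : Measurable fun p : ℂ × ℝ => p.2 / ‖p.1‖ ^ 2)
    refine (this.mul (by fun_prop)).mul (by fun_prop)
  exact (h1.stronglyMeasurable.integral_prod_right (ν := volume.restrict (Set.Ioi (0:ℝ)))).measurable

lemma Mn_le {n b : ℕ} (hn : 1 ≤ n) (hb : 1 ≤ b) (ξ : ℂ) :
    |Mn n b ξ| ≤ 2 * 4 ^ b / (1 + ‖ξ‖ ^ 2) := by
  have hn' : (0:ℝ) < n := by positivity
  have h4 : (1:ℝ) ≤ 4 ^ b := one_le_pow₀ (by norm_num)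
  rcases le_or_gt ‖ξ‖ 1 with h | h
  · refine (Eg_bound_zero hn (fun y _ => bet_abs_le n b _)).trans ?_
    rw [le_div_iff₀ (by positivity)]
    nlinarith [norm_nonneg ξ]
  · have h0 : 0 < ‖ξ‖ ^ 2 := by positivity
    have h2 : |Mn n b ξ| ≤ 4 ^ b / (‖ξ‖ ^ 2 * n) * n := by
      refine Eg_bound_one hn (fun y hy => (bet_le_one_side hn hb _ (by positivity)).trans ?_)
      apply le_of_eq
      field_simp
    refine h2.trans ?_
    rw [show (4:ℝ) ^ b / (‖ξ‖ ^ 2 * n) * n = 4 ^ b / ‖ξ‖ ^ 2 by field_simp,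
      div_le_div_iff₀ h0 (by positivity)]
    have h5 : 0 ≤ ‖ξ‖ ^ 2 - 1 := by nlinarith
    nlinarith [mul_nonneg (by positivity : (0:ℝ) ≤ 4 ^ b) h5]

lemma cW_le {b : ℕ} (hb : 1 ≤ b) {t : ℝ} (ht : 0 ≤ t) : |cW b t| ≤ 2 * 4 ^ b / (1 + t ^ 2) := by
  have h4 : (1:ℝ) ≤ 4 ^ b := one_le_pow₀ (by norm_num)
  rcases le_or_gt ((2:ℝ) ^ b) t with h | h
  · rw [cW_large hb h, abs_zero]; positivity
  · refine (cW_abs_le b t).trans ?_
    rw [le_div_iff₀ (by positivity)]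
    have : t ^ 2 ≤ 4 ^ b := by
      rw [show (4:ℝ) ^ b = (2 ^ b) ^ 2 by rw [← pow_mul, mul_comm, pow_mul]; norm_num]
      exact pow_le_pow_left₀ ht h.le 2
    linarith

/-- difference of the multipliers -/
def Dn (n b : ℕ) (ξ : ℂ) : ℂ := mult n ξ * ((cW b ‖ξ‖ - Mn n b ξ : ℝ) : ℂ)

lemma mult_measurable (n : ℕ) : Measurable (mult n) := by
  unfold mult
  fun_prop

lemma mult_norm_le (n : ℕ) (ξ : ℂ) : ‖mult n ξ‖ ≤ 1 := by
  unfold mult
  rw [norm_pow, norm_div, RCLike.norm_conj]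
  exact pow_le_one₀ (by positivity) (div_self_le_one _)

lemma Dn_measurable (n b : ℕ) : Measurable (Dn n b) := by
  unfold Dn
  refine (mult_measurable n).mul (Complex.measurable_ofReal.comp ?_)
  exact ((cW_cont b).measurable.comp measurable_norm).sub (Mn_measurable n b)

lemma Dn_norm_le {n b : ℕ} (hn : 1 ≤ n) (hb : 1 ≤ b) (ξ : ℂ) :
    ‖Dn n b ξ‖ ≤ 4 * 4 ^ b / (1 + ‖ξ‖ ^ 2) := by
  unfold Dn
  rw [norm_mul, Complex.norm_real, Real.norm_eq_abs]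
  calc ‖mult n ξ‖ * |cW b ‖ξ‖ - Mn n b ξ| ≤ 1 * (|cW b ‖ξ‖| + |Mn n b ξ|) :=
        mul_le_mul (mult_norm_le n ξ) (abs_sub _ _) (abs_nonneg _) zero_le_one
    _ ≤ 1 * (2 * 4 ^ b / (1 + ‖ξ‖ ^ 2) + 2 * 4 ^ b / (1 + ‖ξ‖ ^ 2)) := by
        gcongr
        · exact cW_le hb (norm_nonneg _)
        · exact Mn_le hn hb ξ
    _ = _ := by ring

/-- the dominating function -/
def dom (C : ℝ) (ξ : ℂ) : ℝ≥0∞ := ENNReal.ofReal (C * (1 + ‖ξ‖ ^ 2) ^ (-(4:ℝ) / 2))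

lemma dom_fin (C : ℝ) : ∫⁻ ξ, dom C ξ ≠ ∞ := by
  unfold dom
  have h : Integrable (fun ξ : ℂ => C * (1 + ‖ξ‖ ^ 2) ^ (-(4:ℝ) / 2)) := by
    refine Integrable.const_mul ?_ _
    apply integrable_rpow_neg_one_add_norm_sq
    rw [Complex.finrank_real_complex]
    norm_num
  exact h.lintegral_lt_top.ne

lemma rpow_four (ξ : ℂ) : (1 + ‖ξ‖ ^ 2) ^ (-(4:ℝ) / 2) = ((1 + ‖ξ‖ ^ 2) ^ 2)⁻¹ := by
  rw [show (-(4:ℝ) / 2) = -((2 : ℕ) : ℝ) by norm_num, Real.rpow_neg (by positivity),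
    Real.rpow_natCast]

lemma Dn_sq_le {n b : ℕ} (hn : 1 ≤ n) (hb : 1 ≤ b) (ξ : ℂ) :
    ‖Dn n b ξ‖ₑ ^ 2 ≤ dom ((4 * 4 ^ b) ^ 2) ξ := by
  unfold dom
  rw [← ofReal_norm, ← ENNReal.ofReal_pow (norm_nonneg _)]
  apply ENNReal.ofReal_le_ofReal
  rw [rpow_four]
  calc ‖Dn n b ξ‖ ^ 2 ≤ (4 * 4 ^ b / (1 + ‖ξ‖ ^ 2)) ^ 2 :=
        pow_le_pow_left₀ (norm_nonneg _) (Dn_norm_le hn hb ξ) 2
    _ = _ := by rw [div_pow]; rfl

lemma Dn_sq_tendsto {b : ℕ} (hb : 1 ≤ b) :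
    Tendsto (fun n : ℕ => ∫⁻ ξ, ‖Dn (n + 1) b ξ‖ₑ ^ 2) atTop (𝓝 0) := by
  have h1 : Tendsto (fun n : ℕ => ∫⁻ ξ, ‖Dn (n + 1) b ξ‖ₑ ^ 2) atTop (𝓝 (∫⁻ _ : ℂ, 0)) := by
    refine tendsto_lintegral_of_dominated_convergence (dom ((4 * 4 ^ b) ^ 2)) (fun n => ?_)
      (fun n => ?_) (dom_fin _) ?_
    · exact (Dn_measurable _ b).enorm.pow_const 2
    · exact Eventually.of_forall fun ξ => Dn_sq_le (by omega) hb ξ
    · refine Eventually.of_forall fun ξ => ?_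
      have h2 : Tendsto (fun n : ℕ => cW b ‖ξ‖ - Mn (n + 1) b ξ) atTop (𝓝 0) := by
        have := (((tendsto_add_atTop_iff_nat 1).2 (Eg_lim b ξ)).const_sub (cW b ‖ξ‖))
        simpa [Mn] using this
      have h3 : Tendsto (fun n : ℕ => ‖Dn (n + 1) b ξ‖) atTop (𝓝 0) := by
        refine squeeze_zero (fun n => norm_nonneg _) (fun n => ?_)
          (by simpa using h2.abs : Tendsto (fun n : ℕ => |cW b ‖ξ‖ - Mn (n + 1) b ξ|) atTop (𝓝 0))
        unfold Dn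
        rw [norm_mul, Complex.norm_real, Real.norm_eq_abs]
        exact mul_le_of_le_one_left (abs_nonneg _) (mult_norm_le _ ξ)
      have h4 : Tendsto (fun n : ℕ => ENNReal.ofReal (‖Dn (n + 1) b ξ‖ ^ 2)) atTop (𝓝 0) := by
        have := ENNReal.tendsto_ofReal (h3.pow 2)
        simpa using this
      refine h4.congr fun n => ?_
      rw [← ofReal_norm, ← ENNReal.ofReal_pow (norm_nonneg _)]
  simpa using h1

lemma Dn_int {n b : ℕ} (hn : 1 ≤ n) (hb : 1 ≤ b) : ∫⁻ ξ, ‖Dn n b ξ‖ₑ ^ 2 ≠ ∞ :=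
  ne_top_of_le_ne_top (dom_fin _) (lintegral_mono fun ξ => Dn_sq_le hn hb ξ)

/-! The kernel side -/

/-- the smoothed kernel -/
def Kb (n b : ℕ) (z : ℂ) : ℂ :=
  Kn n z * (Eg' n (fun x => bet n b (Real.pi ^ 2 * ‖z‖ ^ 2 / x)) : ℂ)

/-- rescaled mean -/
def Mk (n b : ℕ) (ζ : ℂ) : ℝ := Eg' n (fun x => bet n b (Real.pi ^ 2 * (n * ‖ζ‖) ^ 2 / x))

lemma bet_scale' {n : ℕ} (hn : 1 ≤ n) (b : ℕ) (x r : ℝ) :
    bet n b (Real.pi ^ 2 * (n * r) ^ 2 / x) = cW b (Real.sqrt ((x / n) / (Real.pi ^ 2 * r ^ 2))) := by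
  have hn' : (n : ℝ) ≠ 0 := by positivity
  unfold bet
  congr 2
  rcases eq_or_ne r 0 with rfl | hr
  · simp
  have := Real.pi_ne_zero
  rcases eq_or_ne x 0 with rfl | hx
  · simp
  field_simp

lemma Mk_lim (b : ℕ) (ζ : ℂ) :
    Tendsto (fun n : ℕ => Mk (n + 1) b ζ) atTop (𝓝 (cW b (1 / (Real.pi * ‖ζ‖)))) := by
  have h := (gamma_conc (fun x => cW b (Real.sqrt (x / (Real.pi ^ 2 * ‖ζ‖ ^ 2))))
    ((cW_cont b).measurable.comp (by fun_prop)) 1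
    (fun x hx => (cW_abs_le _ _).trans (by linarith)) ?_).2
  · have h1 : Real.sqrt (1 / (Real.pi ^ 2 * ‖ζ‖ ^ 2)) = 1 / (Real.pi * ‖ζ‖) := by
      rw [← mul_pow, show (1:ℝ) / (Real.pi * ‖ζ‖) ^ 2 = (1 / (Real.pi * ‖ζ‖)) ^ 2 by
        rw [div_pow, one_pow], Real.sqrt_sq (by positivity)]
    simp only [h1] at h
    refine ((tendsto_add_atTop_iff_nat 1).2 h).congr fun n => ?_
    unfold Mk
    congr 1
    funext x
    rw [bet_scale' (by omega)]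
  · refine (cW_cont b).continuousAt.comp (Real.continuous_sqrt.continuousAt.comp ?_)
    fun_prop

lemma Mk_measurable (n b : ℕ) : Measurable (Mk n b) := by
  unfold Mk Eg'
  refine Measurable.const_mul ?_ _
  have h1 : Measurable fun p : ℂ × ℝ => bet n b (Real.pi ^ 2 * (n * ‖p.1‖) ^ 2 / p.2) * p.2 ^ n *
      Real.exp (-p.2) := by
    have := (bet_measurable n b).comp
      (by fun_prop : Measurable fun p : ℂ × ℝ => Real.pi ^ 2 * (n * ‖p.1‖) ^ 2 / p.2)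
    refine (this.mul (by fun_prop)).mul (by fun_prop)
  exact (h1.stronglyMeasurable.integral_prod_right (ν := volume.restrict (Set.Ioi (0:ℝ)))).measurable

lemma Mk_le_left {n b : ℕ} (hn : 1 ≤ n) (hb : 1 ≤ b) (ζ : ℂ) :
    |Mk n b ζ| ≤ 4 ^ b * Real.pi ^ 2 * ‖ζ‖ ^ 2 := by
  have hn' : (0:ℝ) < n := by positivity
  have h : |Mk n b ζ| ≤ (4 ^ b * Real.pi ^ 2 * ‖ζ‖ ^ 2 * n) / n := by
    refine Eg'_bound_neg hn (fun y hy => (bet_le_one_side hn hb _ (by positivity)).trans ?_)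
    apply le_of_eq
    field_simp
  refine h.trans (le_of_eq ?_)
  field_simp

lemma Mk_le_right {n b : ℕ} (hn : 1 ≤ n) (hb : 1 ≤ b) {ζ : ℂ} (hζ : ζ ≠ 0) :
    |Mk n b ζ| ≤ 8 / (Real.pi ^ 2 * ‖ζ‖ ^ 2) := by
  have hn' : (1:ℝ) ≤ n := by exact_mod_cast hn
  have hz : 0 < ‖ζ‖ := norm_pos_iff.2 hζ
  have hpi := Real.pi_pos
  have h : |Mk n b ζ| ≤ 4 / (Real.pi ^ 2 * ‖ζ‖ ^ 2 * n) * (n + 1) := by
    refine Eg'_bound_one (fun y hy => (bet_le_other hn hb _ (by positivity)).trans ?_)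
    apply le_of_eq
    field_simp
  refine h.trans ?_
  rw [div_mul_eq_mul_div, div_le_div_iff₀ (by positivity) (by positivity)]
  have : 0 ≤ Real.pi ^ 2 * ‖ζ‖ ^ 2 := by positivity
  nlinarith

lemma cW_inv_le_left {b : ℕ} (hb : 1 ≤ b) {r : ℝ} (hr : 0 < r) :
    |cW b (1 / (Real.pi * r))| ≤ 4 ^ b * Real.pi ^ 2 * r ^ 2 := by
  have h := bet_le_one_side (le_refl 1) hb (Real.pi ^ 2 * r ^ 2) (by positivity)
  have e : bet 1 b (Real.pi ^ 2 * r ^ 2) = cW b (1 / (Real.pi * r)) := by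
    unfold bet
    congr 1
    rw [← mul_pow, Nat.cast_one, show (1:ℝ) / (Real.pi * r) ^ 2 = (1 / (Real.pi * r)) ^ 2 by
      rw [div_pow, one_pow], Real.sqrt_sq (by positivity)]
  rw [e] at h
  refine h.trans (le_of_eq ?_)
  push_cast; ring

lemma cW_inv_le_right {b : ℕ} (hb : 1 ≤ b) {r : ℝ} (hr : 0 < r) :
    |cW b (1 / (Real.pi * r))| ≤ 8 / (Real.pi ^ 2 * r ^ 2) := by
  have h := bet_le_other (le_refl 1) hb (Real.pi ^ 2 * r ^ 2) (by positivity)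
  have e : bet 1 b (Real.pi ^ 2 * r ^ 2) = cW b (1 / (Real.pi * r)) := by
    unfold bet
    congr 1
    rw [← mul_pow, Nat.cast_one, show (1:ℝ) / (Real.pi * r) ^ 2 = (1 / (Real.pi * r)) ^ 2 by
      rw [div_pow, one_pow], Real.sqrt_sq (by positivity)]
  rw [e] at h
  refine h.trans ?_
  gcongr
  norm_num

/-- the rescaled integrand of the kernel difference -/
def RR (n b : ℕ) (ζ : ℂ) : ℝ := (Real.pi * ‖ζ‖ ^ 2)⁻¹ * |Mk n b ζ - cW b (1 / (Real.pi * ‖ζ‖))|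

lemma RR_le {n b : ℕ} (hn : 1 ≤ n) (hb : 1 ≤ b) {ζ : ℂ} (hζ : ζ ≠ 0) :
    RR n b ζ ≤ 64 * Real.pi * 4 ^ b * ((1 + ‖ζ‖ ^ 2) ^ 2)⁻¹ := by
  have hr : 0 < ‖ζ‖ := norm_pos_iff.2 hζ
  have hpi := Real.pi_gt_three
  have h4 : (1:ℝ) ≤ 4 ^ b := one_le_pow₀ (by norm_num)
  unfold RR
  have hd : ∀ A : ℝ, |Mk n b ζ| ≤ A → |cW b (1 / (Real.pi * ‖ζ‖))| ≤ A →
      |Mk n b ζ - cW b (1 / (Real.pi * ‖ζ‖))| ≤ 2 * A := by
    intro A h1 h2
    have := abs_sub (Mk n b ζ) (cW b (1 / (Real.pi * ‖ζ‖)))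
    linarith
  rcases le_or_gt ‖ζ‖ 1 with h | h
  · have h1 := hd _ (Mk_le_left hn hb ζ) (cW_inv_le_left hb hr)
    have h6 : ‖ζ‖ ^ 2 ≤ 1 := by nlinarith
    have h2 : (1 + ‖ζ‖ ^ 2) ^ 2 ≤ 4 := by nlinarith [sq_nonneg ‖ζ‖]
    have h3 : (1:ℝ) / 4 ≤ ((1 + ‖ζ‖ ^ 2) ^ 2)⁻¹ := by
      rw [one_div]
      exact inv_anti₀ (by positivity) h2
    calc (Real.pi * ‖ζ‖ ^ 2)⁻¹ * |Mk n b ζ - cW b (1 / (Real.pi * ‖ζ‖))|
        ≤ (Real.pi * ‖ζ‖ ^ 2)⁻¹ * (2 * (4 ^ b * Real.pi ^ 2 * ‖ζ‖ ^ 2)) := by gcongr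
      _ = 2 * Real.pi * 4 ^ b := by field_simp
      _ ≤ 64 * Real.pi * 4 ^ b * (1 / 4) := by nlinarith [mul_pos Real.pi_pos (lt_of_lt_of_le one_pos h4)]
      _ ≤ _ := by gcongr
  · have h1 := hd _ (Mk_le_right hn hb hζ) (cW_inv_le_right hb hr)
    have h5 : 1 ≤ ‖ζ‖ ^ 2 := by nlinarith
    have h2 : (1 + ‖ζ‖ ^ 2) ^ 2 ≤ 4 * (‖ζ‖ ^ 2) ^ 2 := by nlinarith
    calc (Real.pi * ‖ζ‖ ^ 2)⁻¹ * |Mk n b ζ - cW b (1 / (Real.pi * ‖ζ‖))|
        ≤ (Real.pi * ‖ζ‖ ^ 2)⁻¹ * (2 * (8 / (Real.pi ^ 2 * ‖ζ‖ ^ 2))) := by gcongr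
      _ = 64 * (Real.pi ^ 3)⁻¹ * (4 * (‖ζ‖ ^ 2) ^ 2)⁻¹ := by field_simp; norm_num
      _ ≤ 64 * (Real.pi * 4 ^ b) * ((1 + ‖ζ‖ ^ 2) ^ 2)⁻¹ := by
          gcongr
          have : (Real.pi ^ 3)⁻¹ ≤ 1 := inv_le_one_of_one_le₀ (by nlinarith [pow_pos Real.pi_pos 2])
          nlinarith
      _ = _ := by ring

lemma RR_measurable (n b : ℕ) : Measurable (RR n b) := by
  unfold RR
  have h1 := Mk_measurable n b
  have h2 : Measurable fun ζ : ℂ => cW b (1 / (Real.pi * ‖ζ‖)) :=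
    (cW_cont b).measurable.comp (by fun_prop)
  have h3 : Measurable fun ζ : ℂ => |Mk n b ζ - cW b (1 / (Real.pi * ‖ζ‖))| :=
    measurable_norm.comp (h1.sub h2)
  exact (by fun_prop : Measurable fun ζ : ℂ => (Real.pi * ‖ζ‖ ^ 2)⁻¹).mul h3

lemma ae_ne_zero' : ∀ᵐ z : ℂ, z ≠ 0 := by
  rw [ae_iff]
  simp

/-- the rescaled `L¹` distance -/
def dK (n b : ℕ) : ℝ≥0∞ := ∫⁻ ζ, ENNReal.ofReal (RR n b ζ)

lemma dK_ne_top {n b : ℕ} (hn : 1 ≤ n) (hb : 1 ≤ b) : dK n b ≠ ∞ := by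
  refine ne_top_of_le_ne_top (dom_fin (64 * Real.pi * 4 ^ b)) (lintegral_mono_ae ?_)
  filter_upwards [ae_ne_zero'] with ζ hζ
  unfold dom
  rw [rpow_four]
  exact ENNReal.ofReal_le_ofReal (RR_le hn hb hζ)

lemma dK_tendsto {b : ℕ} (hb : 1 ≤ b) : Tendsto (fun n : ℕ => dK (n + 1) b) atTop (𝓝 0) := by
  have h1 : Tendsto (fun n : ℕ => ∫⁻ ζ, ENNReal.ofReal (RR (n + 1) b ζ)) atTop
      (𝓝 (∫⁻ _ : ℂ, 0)) := by
    refine tendsto_lintegral_of_dominated_convergence (dom (64 * Real.pi * 4 ^ b)) (fun n => ?_)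
      (fun n => ?_) (dom_fin _) ?_
    · exact (RR_measurable _ b).ennreal_ofReal
    · filter_upwards [ae_ne_zero'] with ζ hζ
      unfold dom
      rw [rpow_four]
      exact ENNReal.ofReal_le_ofReal (RR_le (by omega) hb hζ)
    · refine Eventually.of_forall fun ζ => ?_
      have h2 : Tendsto (fun n : ℕ => RR (n + 1) b ζ) atTop (𝓝 0) := by
        unfold RR
        have := ((Mk_lim b ζ).sub_const (cW b (1 / (Real.pi * ‖ζ‖)))).abs.const_mul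
          ((Real.pi * ‖ζ‖ ^ 2)⁻¹)
        simpa using this
      simpa using ENNReal.tendsto_ofReal h2
  simpa [dK] using h1

lemma Kb_measurable (n b : ℕ) : Measurable (Kb n b) := by
  unfold Kb Kn
  have h1 : Measurable fun p : ℂ × ℝ => bet n b (Real.pi ^ 2 * ‖p.1‖ ^ 2 / p.2) * p.2 ^ n *
      Real.exp (-p.2) := by
    have := (bet_measurable n b).comp
      (by fun_prop : Measurable fun p : ℂ × ℝ => Real.pi ^ 2 * ‖p.1‖ ^ 2 / p.2)
    refine (this.mul (by fun_prop)).mul (by fun_prop)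
  have h2 : Measurable fun z : ℂ => Eg' n (fun x => bet n b (Real.pi ^ 2 * ‖z‖ ^ 2 / x)) := by
    unfold Eg'
    refine Measurable.const_mul ?_ _
    exact (h1.stronglyMeasurable.integral_prod_right
      (ν := volume.restrict (Set.Ioi (0:ℝ)))).measurable
  exact (by fun_prop : Measurable fun z : ℂ => (-1 : ℂ) ^ n * ((n / Real.pi : ℝ) : ℂ) *
    (starRingEnd ℂ z / z) ^ n / ((‖z‖ ^ 2 : ℝ) : ℂ)).mul (Complex.measurable_ofReal.comp h2)

lemma Kt_measurable (n b : ℕ) : Measurable (Kt n b) := by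
  unfold Kt Kn
  have := (cW_cont b).measurable
  refine Measurable.mul ?_ ?_
  · exact Complex.measurable_ofReal.comp (this.comp (by fun_prop))
  · fun_prop

lemma Kn_norm_le {n : ℕ} (hn : 1 ≤ n) (z : ℂ) : ‖Kn n z‖ ≤ n / (Real.pi * ‖z‖ ^ 2) := by
  unfold Kn
  rw [norm_div, norm_mul, norm_mul, norm_pow, norm_neg, norm_one, one_pow, one_mul, norm_pow,
    norm_div, RCLike.norm_conj, Complex.norm_real, Complex.norm_real, Real.norm_eq_abs,
    Real.norm_eq_abs, abs_of_nonneg (by positivity : 0 ≤ (n:ℝ) / Real.pi),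
    abs_of_nonneg (by positivity : 0 ≤ ‖z‖ ^ 2), ← div_div]
  gcongr
  calc (n:ℝ) / Real.pi * (‖z‖ / ‖z‖) ^ n ≤ (n:ℝ) / Real.pi * 1 := by
        gcongr
        exact pow_le_one₀ (by positivity) (div_self_le_one _)
    _ = _ := mul_one _

lemma Kb_sub_Kt {n b : ℕ} (hn : 1 ≤ n) : ∫⁻ z, ‖Kb n b z - Kt n b z‖ₑ ≤ n * dK n b := by
  have hn' : (0 : ℝ) < n := by positivity
  rw [ph_lint_scale hn' (fun z => ‖Kb n b z - Kt n b z‖ₑ)
    ((Kb_measurable n b).sub (Kt_measurable n b)).enorm]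
  have h1 : ∀ ζ : ℂ, ‖Kb n b (((n:ℝ):ℂ) * ζ) - Kt n b (((n:ℝ):ℂ) * ζ)‖ₑ ≤
      ENNReal.ofReal (n:ℝ)⁻¹ * ENNReal.ofReal (RR n b ζ) := by
    intro ζ
    rw [← ENNReal.ofReal_mul (by positivity), ← ofReal_norm]
    apply ENNReal.ofReal_le_ofReal
    have hnorm : ‖((n:ℝ):ℂ) * ζ‖ = n * ‖ζ‖ := by
      rw [norm_mul, Complex.norm_real, Real.norm_eq_abs, abs_of_pos hn']
    have e1 : Kb n b (((n:ℝ):ℂ) * ζ) - Kt n b (((n:ℝ):ℂ) * ζ) =
        Kn n (((n:ℝ):ℂ) * ζ) * ((Mk n b ζ - cW b (1 / (Real.pi * ‖ζ‖)) : ℝ) : ℂ) := by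
      unfold Kb Kt Mk
      rw [hnorm]
      have : (n:ℝ) / (Real.pi * (n * ‖ζ‖)) = 1 / (Real.pi * ‖ζ‖) := by
        rcases eq_or_ne ‖ζ‖ 0 with h | h
        · rw [h]; simp
        · field_simp
      rw [this]
      push_cast
      ring
    rw [e1, norm_mul, Complex.norm_real, Real.norm_eq_abs]
    unfold RR
    rw [← mul_assoc]
    refine mul_le_mul_of_nonneg_right ((Kn_norm_le hn _).trans ?_) (abs_nonneg _)
    rw [hnorm]
    rcases eq_or_ne ‖ζ‖ 0 with h | h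
    · rw [h]; simp
    · apply le_of_eq; field_simp
  calc ENNReal.ofReal ((n:ℝ) ^ 2) * ∫⁻ ζ : ℂ, ‖Kb n b (((n:ℝ):ℂ) * ζ) - Kt n b (((n:ℝ):ℂ) * ζ)‖ₑ
      ≤ ENNReal.ofReal ((n:ℝ) ^ 2) * ∫⁻ ζ : ℂ, ENNReal.ofReal (n:ℝ)⁻¹ * ENNReal.ofReal (RR n b ζ) := by
        gcongr with ζ
        exact h1 ζ
    _ = n * dK n b := by
        rw [lintegral_const_mul' _ _ ENNReal.ofReal_ne_top, ← mul_assoc,
          ← ENNReal.ofReal_mul (by positivity)]
        congr 1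
        rw [pow_two, mul_assoc, mul_inv_cancel₀ hn'.ne', mul_one, ENNReal.ofReal_natCast]

/-! Fourier side of the window kernel -/

lemma fourier_sub' {f g : ℂ → ℂ} (hf : Integrable f) (hg : Integrable g) (w : ℂ) :
    𝓕 (fun v => f v - g v) w = 𝓕 f w - 𝓕 g w := by
  rw [Real.fourier_eq, Real.fourier_eq, Real.fourier_eq,
    ← integral_sub ((Real.fourierIntegral_convergent_iff w).2 hf)
      ((Real.fourierIntegral_convergent_iff w).2 hg)]
  simp only [smul_sub]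

lemma fourier_sum' {ι : Type*} (s : Finset ι) {f : ι → ℂ → ℂ} (hf : ∀ i ∈ s, Integrable (f i))
    (w : ℂ) : 𝓕 (fun v => ∑ i ∈ s, f i v) w = ∑ i ∈ s, 𝓕 (f i) w := by
  simp only [Real.fourier_eq]
  rw [← integral_finsetSum s fun i hi => (Real.fourierIntegral_convergent_iff w).2 (hf i hi)]
  simp only [Finset.smul_sum]

lemma int_mult_chi (n : ℕ) (j : ℤ) : Integrable (fun ξ : ℂ => mult n ξ * (chi j ξ : ℂ)) := by
  obtain ⟨s, hs⟩ := ker_KK n j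
  have h : (fun ξ : ℂ => mult n ξ * (chi j ξ : ℂ)) = ⇑(𝓕 s : SchwartzMap ℂ ℂ) := by
    funext ξ
    rw [← fourier_KK, hs]
    rfl
  rw [h]
  exact (𝓕 s : SchwartzMap ℂ ℂ).integrable

lemma sum_chi_cW (b : ℕ) (ξ : ℂ) : ∑ j ∈ Finset.Ico (0:ℤ) b, chi j ξ = cW b ‖ξ‖ := by
  rw [sum_chi_Ico 0 b (by positivity)]
  unfold Psi cW
  rw [neg_sub, zero_sub, neg_neg, zpow_one]

lemma int_mult_cW (n b : ℕ) : Integrable (fun ξ : ℂ => mult n ξ * (cW b ‖ξ‖ : ℂ)) := by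
  have h : (fun ξ : ℂ => mult n ξ * (cW b ‖ξ‖ : ℂ)) =
      fun ξ => ∑ j ∈ Finset.Ico (0:ℤ) b, mult n ξ * (chi j ξ : ℂ) := by
    funext ξ
    rw [← sum_chi_cW, Complex.ofReal_sum, Finset.mul_sum]
  rw [h]
  exact integrable_finsetSum _ fun j _ => int_mult_chi n j

lemma KWn_eq (n b : ℕ) (z : ℂ) : KWn n b z = 𝓕⁻ (fun ξ : ℂ => mult n ξ * (cW b ‖ξ‖ : ℂ)) z := by
  have h : (fun ξ : ℂ => mult n ξ * (cW b ‖ξ‖ : ℂ)) =
      fun ξ => ∑ j ∈ Finset.Ico (0:ℤ) b, mult n ξ * (chi j ξ : ℂ) := by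
    funext ξ
    rw [← sum_chi_cW, Complex.ofReal_sum, Finset.mul_sum]
  rw [h, Real.fourierInv_eq_fourier_neg, fourier_sum' _ fun j _ => int_mult_chi n j]
  unfold KWn KK
  simp only [Real.fourierInv_eq_fourier_neg]

lemma KWn_sub_Kb {n b : ℕ} (hn : 1 ≤ n) (hb : 1 ≤ b) {z : ℂ} (hz : z ≠ 0) :
    KWn n b z - Kb n b z = 𝓕 (Dn n b) (-z) := by
  have hn' : (0:ℝ) < n := by positivity
  have h4 : (1:ℝ) ≤ 4 ^ b := one_le_pow₀ (by norm_num)
  have hac : (n:ℝ) / 4 ^ b < 4 * n := by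
    rw [div_lt_iff₀ (by positivity)]; nlinarith
  have h1 := subordination n hn (bet n b) (bet_measurable n b) (n / 4 ^ b) (4 * n) (by positivity)
    hac (bet_abs_le n b) (fun t ht => bet_supp hn hb t ht) z hz
  have h2 : Integrable (fun ξ : ℂ => mult n ξ * (Mn n b ξ : ℂ)) :=
    (subordination_int n hn (bet n b) (bet_measurable n b) (n / 4 ^ b) (4 * n)
    (by positivity) hac (bet_abs_le n b) (fun t ht => bet_supp hn hb t ht)).1
  have h3 : Kb n b z = 𝓕⁻ (fun ξ : ℂ => mult n ξ * (Mn n b ξ : ℂ)) z := h1.symm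
  rw [h3, KWn_eq, Real.fourierInv_eq_fourier_neg, Real.fourierInv_eq_fourier_neg,
    ← fourier_sub' (int_mult_cW n b) h2]
  have h5 : (fun v : ℂ => mult n v * (cW b ‖v‖ : ℂ) - mult n v * (Mn n b v : ℂ)) = Dn n b := by
    funext ξ
    unfold Dn
    push_cast
    ring
  rw [h5]

lemma Dn_nice {n b : ℕ} (hn : 1 ≤ n) (hb : 1 ≤ b) : Nice (Dn n b) := by
  have hn' : (0:ℝ) < n := by positivity
  have h4 : (1:ℝ) ≤ 4 ^ b := one_le_pow₀ (by norm_num)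
  have hac : (n:ℝ) / 4 ^ b < 4 * n := by
    rw [div_lt_iff₀ (by positivity)]; nlinarith
  have h2 := (subordination_int n hn (bet n b) (bet_measurable n b) (n / 4 ^ b) (4 * n)
    (by positivity) hac (bet_abs_le n b) (fun t ht => bet_supp hn hb t ht)).1
  refine ⟨Dn_measurable n b, ?_, ⟨4 * 4 ^ b, fun ξ => (Dn_norm_le hn hb ξ).trans ?_⟩⟩
  · have h3 : Dn n b = fun ξ => mult n ξ * (cW b ‖ξ‖ : ℂ) - mult n ξ * (Mn n b ξ : ℂ) := by
      funext ξ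
      unfold Dn
      push_cast
      ring
    rw [h3]
    exact (int_mult_cW n b).sub h2
  · apply div_le_self (by positivity)
    have := norm_nonneg ξ
    nlinarith

lemma KWn_continuous (n b : ℕ) : Continuous (KWn n b) := by
  unfold KWn
  refine continuous_finsetSum _ fun j _ => ?_
  obtain ⟨s, hs⟩ := ker_KK n j
  rw [hs]
  exact s.continuous

lemma L2_diff {n b : ℕ} (hn : 1 ≤ n) (hb : 1 ≤ b) :
    ∫⁻ z, ‖KWn n b z - Kb n b z‖ₑ ^ 2 = ∫⁻ ξ, ‖Dn n b ξ‖ₑ ^ 2 := by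
  rw [← plancherel (Dn_nice hn hb)]
  have h1 : ∫⁻ z, ‖KWn n b z - Kb n b z‖ₑ ^ 2 = ∫⁻ z, ‖𝓕 (Dn n b) (-z)‖ₑ ^ 2 := by
    refine lintegral_congr_ae ?_
    filter_upwards [ae_ne_zero'] with z hz
    rw [KWn_sub_Kb hn hb hz]
  rw [h1]
  exact lintegral_neg_eq_self (μ := (volume : Measure ℂ)) (fun z => ‖𝓕 (Dn n b) z‖ₑ ^ 2)

lemma cs_ball (g : ℂ → ℂ) (hg : Measurable g) (R : ℝ) (hR : 0 ≤ R) :
    ∫⁻ z in Metric.closedBall (0:ℂ) R, ‖g z‖ₑ ≤
      (∫⁻ z, ‖g z‖ₑ ^ 2) ^ (1 / 2 : ℝ) * ENNReal.ofReal (R * Real.sqrt Real.pi) := by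
  have h := ENNReal.lintegral_mul_le_Lp_mul_Lq (volume.restrict (Metric.closedBall (0:ℂ) R))
    Real.HolderConjugate.two_two (f := fun z => ‖g z‖ₑ) (g := fun _ => 1)
    hg.enorm.aemeasurable aemeasurable_const
  simp only [Pi.mul_apply, mul_one, ENNReal.rpow_ofNat, one_pow, lintegral_const,
    Measure.restrict_apply MeasurableSet.univ, Set.univ_inter, one_mul] at h
  refine h.trans (mul_le_mul' (ENNReal.rpow_le_rpow (setLIntegral_le_lintegral _ _) (by norm_num)) ?_)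
  rw [Complex.volume_closedBall]
  have e : ENNReal.ofReal R ^ 2 * (NNReal.pi : ℝ≥0∞) = ENNReal.ofReal ((R * Real.sqrt Real.pi) ^ 2) := by
    rw [mul_pow, Real.sq_sqrt Real.pi_pos.le, ENNReal.ofReal_mul (by positivity),
      ENNReal.ofReal_pow hR]
    congr 1
    rw [← NNReal.coe_real_pi, ENNReal.ofReal_coe_nnreal]
  rw [e, ENNReal.ofReal_rpow_of_nonneg (by positivity) (by norm_num), ← Real.sqrt_eq_rpow,
    Real.sqrt_sq (by positivity)]

lemma tail_sum {b : ℕ} {C : ℝ} (hC : 0 < C)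
    (hCt : ∀ n : ℕ, 1 ≤ n → ∀ j : ℤ, ∀ L : ℝ, 0 < L →
      ∫⁻ z in {z : ℂ | L * n * (2:ℝ) ^ (-j) < ‖z‖}, ‖KK n j z‖ₑ ≤ ENNReal.ofReal (C * n / L))
    {n : ℕ} (hn : 1 ≤ n) {L : ℝ} (hL : 0 < L) :
    ∫⁻ z in (Metric.closedBall (0:ℂ) (L * n))ᶜ, ‖KWn n b z‖ₑ ≤ ENNReal.ofReal (b * (C * n / L)) := by
  have hn' : (0:ℝ) < n := by positivity
  have hmeas : ∀ j, Measurable fun z => ‖KK n j z‖ₑ := by
    intro j
    obtain ⟨s, hs⟩ := ker_KK n j
    rw [hs]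
    exact s.continuous.measurable.enorm
  calc ∫⁻ z in (Metric.closedBall (0:ℂ) (L * n))ᶜ, ‖KWn n b z‖ₑ
      ≤ ∫⁻ z in (Metric.closedBall (0:ℂ) (L * n))ᶜ, ∑ j ∈ Finset.Ico (0:ℤ) b, ‖KK n j z‖ₑ :=
        lintegral_mono fun z => enorm_sum_le _ _
    _ = ∑ j ∈ Finset.Ico (0:ℤ) b, ∫⁻ z in (Metric.closedBall (0:ℂ) (L * n))ᶜ, ‖KK n j z‖ₑ :=
        lintegral_finsetSum _ fun j _ => hmeas j
    _ ≤ ∑ j ∈ Finset.Ico (0:ℤ) b, ENNReal.ofReal (C * n / L) := by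
        refine Finset.sum_le_sum fun j hj => ?_
        have h1 := hCt n hn j (L * 2 ^ j) (by positivity)
        have e : {z : ℂ | L * 2 ^ j * n * (2:ℝ) ^ (-j) < ‖z‖} =
            (Metric.closedBall (0:ℂ) (L * n))ᶜ := by
          ext z
          have : L * 2 ^ j * n * (2:ℝ) ^ (-j) = L * n := by
            rw [zpow_neg]; field_simp
          simp only [Set.mem_ofPred_eq, this, Set.mem_compl_iff, Metric.mem_closedBall,
            dist_zero_right, not_le]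
        rw [e] at h1
        refine h1.trans (ENNReal.ofReal_le_ofReal ?_)
        have h2 : (1:ℝ) ≤ 2 ^ j := by
          have hj0 : 0 ≤ j := (Finset.mem_Ico.1 hj).1
          exact one_le_zpow₀ (by norm_num) hj0
        gcongr
        nlinarith
    _ = _ := by
        rw [Finset.sum_const, Int.card_Ico, nsmul_eq_mul, ENNReal.ofReal_mul (by positivity)]
        simp

lemma main_split {b : ℕ} (hb : 1 ≤ b) {C : ℝ} (hC : 0 < C)
    (hCt : ∀ n : ℕ, 1 ≤ n → ∀ j : ℤ, ∀ L : ℝ, 0 < L →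
      ∫⁻ z in {z : ℂ | L * n * (2:ℝ) ^ (-j) < ‖z‖}, ‖KK n j z‖ₑ ≤ ENNReal.ofReal (C * n / L))
    {n : ℕ} (hn : 1 ≤ n) {L : ℝ} (hL : 1 ≤ L) :
    ∫⁻ u, ‖KWn n b u - Kt n b u‖ₑ ≤
      n * ((∫⁻ ξ, ‖Dn n b ξ‖ₑ ^ 2) ^ (1 / 2 : ℝ) * ENNReal.ofReal (L * Real.sqrt Real.pi) +
        dK n b + ENNReal.ofReal (b * (C / L))) := by
  have hn' : (0:ℝ) < n := by positivity
  have hL0 : 0 < L := by linarith
  rw [← lintegral_add_compl _ (Metric.isClosed_closedBall.measurableSet :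
    MeasurableSet (Metric.closedBall (0:ℂ) (L * n)))]
  have h1 : ∫⁻ u in Metric.closedBall (0:ℂ) (L * n), ‖KWn n b u - Kt n b u‖ₑ ≤
      n * ((∫⁻ ξ, ‖Dn n b ξ‖ₑ ^ 2) ^ (1 / 2 : ℝ) * ENNReal.ofReal (L * Real.sqrt Real.pi)) +
        n * dK n b := by
    have hm : Measurable fun u => ‖KWn n b u - Kb n b u‖ₑ :=
      ((KWn_continuous n b).measurable.sub (Kb_measurable n b)).enorm
    calc ∫⁻ u in Metric.closedBall (0:ℂ) (L * n), ‖KWn n b u - Kt n b u‖ₑ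
        ≤ ∫⁻ u in Metric.closedBall (0:ℂ) (L * n),
            (‖KWn n b u - Kb n b u‖ₑ + ‖Kb n b u - Kt n b u‖ₑ) := by
          refine lintegral_mono fun u => ?_
          have : KWn n b u - Kt n b u = (KWn n b u - Kb n b u) + (Kb n b u - Kt n b u) := by ring
          rw [this]
          exact enorm_add_le _ _
      _ = (∫⁻ u in Metric.closedBall (0:ℂ) (L * n), ‖KWn n b u - Kb n b u‖ₑ) +
            ∫⁻ u in Metric.closedBall (0:ℂ) (L * n), ‖Kb n b u - Kt n b u‖ₑ :=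
          lintegral_add_left hm _
      _ ≤ (∫⁻ z, ‖KWn n b z - Kb n b z‖ₑ ^ 2) ^ (1 / 2 : ℝ) *
            ENNReal.ofReal (L * n * Real.sqrt Real.pi) + n * dK n b := by
          gcongr
          · exact cs_ball _ ((KWn_continuous n b).measurable.sub (Kb_measurable n b)) _
              (by positivity)
          · exact (setLIntegral_le_lintegral _ _).trans (Kb_sub_Kt hn)
      _ = _ := by
          rw [L2_diff hn hb, show L * n * Real.sqrt Real.pi = n * (L * Real.sqrt Real.pi) by ring,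
            ENNReal.ofReal_mul hn'.le, ENNReal.ofReal_natCast]
          ring
  have h2 : ∫⁻ u in (Metric.closedBall (0:ℂ) (L * n))ᶜ, ‖KWn n b u - Kt n b u‖ₑ ≤
      n * ENNReal.ofReal (b * (C / L)) := by
    have e : ∫⁻ u in (Metric.closedBall (0:ℂ) (L * n))ᶜ, ‖KWn n b u - Kt n b u‖ₑ =
        ∫⁻ u in (Metric.closedBall (0:ℂ) (L * n))ᶜ, ‖KWn n b u‖ₑ := by
      refine setLIntegral_congr_fun Metric.isClosed_closedBall.measurableSet.compl fun u hu => ?_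
      have hu' : L * n < ‖u‖ := by simpa using hu
      have h0 : Kt n b u = 0 := by
        unfold Kt
        rw [cW_small hb, Complex.ofReal_zero, zero_mul]
        have hu0 : 0 < ‖u‖ := lt_of_le_of_lt (by positivity) hu'
        rw [div_le_div_iff₀ (by positivity) (by norm_num)]
        have : (n:ℝ) ≤ ‖u‖ := by nlinarith
        nlinarith [Real.pi_gt_three]
      simp only [h0, sub_zero]
    rw [e]
    refine (tail_sum hC hCt hn hL0).trans (le_of_eq ?_)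
    rw [show (b:ℝ) * (C * n / L) = n * (b * (C / L)) by ring, ENNReal.ofReal_mul hn'.le,
      ENNReal.ofReal_natCast]
  calc _ ≤ (n * ((∫⁻ ξ, ‖Dn n b ξ‖ₑ ^ 2) ^ (1 / 2 : ℝ) * ENNReal.ofReal (L * Real.sqrt Real.pi)) +
        n * dK n b) + n * ENNReal.ofReal (b * (C / L)) := add_le_add h1 h2
    _ = _ := by ring

theorem kernel_close (b : ℕ) (hb : 1 ≤ b) : ∃ e : ℕ → ℝ, Tendsto e atTop (𝓝 0) ∧ ∀ n : ℕ, 1 ≤ n →
    ∫⁻ u, ‖KWn n b u - Kt n b u‖ₑ ≤ ENNReal.ofReal (n * e n) := by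
  obtain ⟨C, hC, hCt⟩ := kernel_tail
  set E : ℕ → ℝ≥0∞ := fun n => (n : ℝ≥0∞)⁻¹ * ∫⁻ u, ‖KWn n b u - Kt n b u‖ₑ with hE
  have hEle : ∀ n : ℕ, 1 ≤ n → ∀ L : ℝ, 1 ≤ L → E n ≤
      (∫⁻ ξ, ‖Dn n b ξ‖ₑ ^ 2) ^ (1 / 2 : ℝ) * ENNReal.ofReal (L * Real.sqrt Real.pi) +
        dK n b + ENNReal.ofReal (b * (C / L)) := by
    intro n hn L hL
    have hn0 : (n : ℝ≥0∞) ≠ 0 := by
      have : n ≠ 0 := by omega
      exact_mod_cast this
    rw [hE]
    simp only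
    calc (n : ℝ≥0∞)⁻¹ * ∫⁻ u, ‖KWn n b u - Kt n b u‖ₑ ≤ (n : ℝ≥0∞)⁻¹ * (n *
        ((∫⁻ ξ, ‖Dn n b ξ‖ₑ ^ 2) ^ (1 / 2 : ℝ) * ENNReal.ofReal (L * Real.sqrt Real.pi) +
        dK n b + ENNReal.ofReal (b * (C / L)))) := by
          gcongr
          exact main_split hb hC hCt hn hL
      _ = _ := by
          rw [← mul_assoc, ENNReal.inv_mul_cancel hn0 (ENNReal.natCast_ne_top n), one_mul]
  have hEfin : ∀ n : ℕ, 1 ≤ n → E n ≠ ∞ := by
    intro n hn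
    refine ne_top_of_le_ne_top ?_ (hEle n hn 1 le_rfl)
    refine ENNReal.add_ne_top.2 ⟨ENNReal.add_ne_top.2 ⟨ENNReal.mul_ne_top ?_ ENNReal.ofReal_ne_top,
      dK_ne_top hn hb⟩, ENNReal.ofReal_ne_top⟩
    exact ENNReal.rpow_ne_top_of_nonneg (by norm_num) (Dn_int hn hb)
  have hElim : Tendsto (fun n => E (n + 1)) atTop (𝓝 0) := by
    rw [ENNReal.tendsto_nhds_zero]
    intro ε hε
    have hL : Tendsto (fun L : ℝ => ENNReal.ofReal (b * (C / L))) atTop (𝓝 0) := by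
      have h1 : Tendsto (fun L : ℝ => (b:ℝ) * (C / L)) atTop (𝓝 0) := by
        have := (tendsto_const_nhds (x := C)).div_atTop (tendsto_id (α := ℝ) (x := atTop))
        simpa using this.const_mul (b:ℝ)
      simpa using ENNReal.tendsto_ofReal h1
    obtain ⟨L, hLε, hL1⟩ := ((hL.eventually (gt_mem_nhds hε)).and (eventually_ge_atTop 1)).exists
    have h2 : Tendsto (fun n : ℕ => (∫⁻ ξ, ‖Dn (n + 1) b ξ‖ₑ ^ 2) ^ (1 / 2 : ℝ) *
        ENNReal.ofReal (L * Real.sqrt Real.pi) + dK (n + 1) b + ENNReal.ofReal (b * (C / L)))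
        atTop (𝓝 (0 + 0 + ENNReal.ofReal (b * (C / L)))) := by
      refine (Tendsto.add ?_ (dK_tendsto hb)).add_const _
      have h3 : Tendsto (fun n : ℕ => (∫⁻ ξ, ‖Dn (n + 1) b ξ‖ₑ ^ 2) ^ (1 / 2 : ℝ)) atTop (𝓝 0) := by
        have := ((ENNReal.continuous_rpow_const (y := (1 / 2 : ℝ))).tendsto 0).comp
          (Dn_sq_tendsto hb)
        simpa [Function.comp_def] using this
      have := ENNReal.Tendsto.mul_const h3 (b := ENNReal.ofReal (L * Real.sqrt Real.pi))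
        (Or.inr ENNReal.ofReal_ne_top)
      simpa using this
    rw [zero_add, zero_add] at h2
    filter_upwards [h2.eventually (gt_mem_nhds hLε)] with n hn
    exact (hEle (n + 1) (by omega) L hL1).trans hn.le
  refine ⟨fun n => (E n).toReal, ?_, fun n hn => ?_⟩
  · rw [← tendsto_add_atTop_iff_nat 1]
    have := (ENNReal.tendsto_toReal ENNReal.zero_ne_top).comp hElim
    simpa [Function.comp_def] using this
  · have hn0 : (n : ℝ≥0∞) ≠ 0 := by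
      have : n ≠ 0 := by omega
      exact_mod_cast this
    rw [ENNReal.ofReal_mul (by positivity), ENNReal.ofReal_toReal (hEfin n hn),
      ENNReal.ofReal_natCast, hE]
    simp only
    rw [← mul_assoc, ENNReal.mul_inv_cancel hn0 (ENNReal.natCast_ne_top n), one_mul]

end Helper72.BA.P


namespace Helper72.BA
alias kernel_close := P.kernel_close
end Helper72.BA
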