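import Pool.Agent.Helper72.BA.Defs
import Pool.Agent.Helper72.BAM.KE2
import Pool.Agent.Helper72.BAM.LE

/-!
# Module LG of MP_3dd6d4_an: the `L^∞` endpoint for a general window, by dilation
-/

set_option autoImplicit false

open MeasureTheory Complex FourierTransform Filter Topology
open scoped ENNReal NNReal ComplexConjugate

noncomputable section

namespace Helper72.BA.P

open Helper72.BA

theorem LG_fourier_scale (L : ℝ) (hL : 0 < L) (u : ℂ → ℂ) (η : ℂ) :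
    𝓕 (fun z : ℂ => u ((L : ℂ) * z)) η = ((L ^ 2 : ℝ) : ℂ)⁻¹ * 𝓕 u (η / L) := by
  rw [Real.fourier_eq, Real.fourier_eq]
  have h1 : ∀ v : ℂ, Real.fourierChar (-(inner ℝ v η)) • u ((L : ℂ) * v) =
      (fun w : ℂ => Real.fourierChar (-(inner ℝ w (η / L))) • u w) (L • v) := by
    intro v
    simp only [Complex.real_smul]
    congr 2
    congr 1
    have : (L : ℂ) ≠ 0 := by exact_mod_cast hL.ne'
    rw [Complex.inner, Complex.inner]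
    have h2 : (η / L) * (starRingEnd ℂ) ((L : ℂ) * v) = η * (starRingEnd ℂ) v := by
      rw [map_mul, Complex.conj_ofReal]
      field_simp
    rw [h2]
  have h3 := Measure.integral_comp_smul (volume : Measure ℂ)
    (fun w : ℂ => Real.fourierChar (-(inner ℝ w (η / L))) • u w) L
  rw [Complex.finrank_real_complex, abs_of_pos (by positivity), Complex.real_smul] at h3
  rw [integral_congr_ae (Filter.Eventually.of_forall h1), h3]
  push_cast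
  rfl

theorem LG_lintegral_scale (L : ℝ) (hL : 0 < L) (g : ℂ → ℝ≥0∞) :
    ∫⁻ z : ℂ, g (z / L) = ENNReal.ofReal (L ^ 2) * ∫⁻ z, g z := by
  have h1 : (fun z : ℂ => g (z / L)) = fun z : ℂ => g (L⁻¹ • z) := by
    funext z
    congr 1
    rw [Complex.real_smul]
    push_cast
    rw [div_eq_inv_mul]
  have h2 : ∫⁻ z : ℂ, g (L⁻¹ • z) = ∫⁻ z, g z ∂(Measure.map (fun z : ℂ => L⁻¹ • z) volume) := by
    have e : MeasurableEmbedding (fun z : ℂ => L⁻¹ • z) :=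
      (Homeomorph.smulOfNeZero L⁻¹ (inv_pos.2 hL).ne').measurableEmbedding
    rw [e.lintegral_map]
  rw [h1, h2]
  have h3 := Measure.map_addHaar_smul (volume : Measure ℂ) (inv_pos.2 hL).ne'
  have h4 : Measure.map (fun z : ℂ => L⁻¹ • z) volume =
      ENNReal.ofReal |((L⁻¹) ^ Module.finrank ℝ ℂ)⁻¹| • (volume : Measure ℂ) := h3
  rw [h4, lintegral_smul_measure, Complex.finrank_real_complex]
  rw [abs_of_pos (by positivity), inv_pow, inv_inv]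
  rfl

theorem LG_nice_scale (L : ℝ) (hL : 0 < L) (f : ℂ → ℂ) (hf : Nice f) :
    Nice (fun w => f (w / L)) := by
  have hfun : (fun w : ℂ => f (w / L)) = fun w : ℂ => f (L⁻¹ • w) := by
    funext z
    congr 1
    rw [Complex.real_smul]
    push_cast
    rw [div_eq_inv_mul]
  refine ⟨hf.meas.comp (measurable_id.div_const _), ?_, ?_⟩
  · rw [hfun]
    exact (integrable_comp_smul_iff volume f (inv_pos.2 hL).ne').2 hf.int
  · obtain ⟨C, hC⟩ := hf.bdd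
    exact ⟨C, fun z => hC _⟩

theorem Linf_general (b : ℕ) (hb : 1 ≤ b) (φ : SchwartzMap ℂ ℂ) (hφ : ∀ z, ‖φ z‖ ≤ 1) (ρ₀ : ℝ)
    (hφs : ∀ ξ, ρ₀ < ‖ξ‖ → 𝓕 (φ : ℂ → ℂ) ξ = 0) (θ : SchwartzMap ℂ ℂ)
    (hθs : ∀ ξ, 1 ≤ ‖ξ‖ → θ ξ = 0) (hθ1 : nrm 2 θ = 1) (ε : ℝ) (hε : 0 < ε) :
    ∃ κ r : ℝ, 0 < κ ∧ κ ≤ 1 / 8 ∧ 1 ≤ r ∧ ρ₀ / r ≤ 1 / 8 ∧ ∃ n0 : ℕ, ∀ n : ℕ, n0 ≤ n → ∀ a : ℤ,
      ∀ f : ℂ → ℂ, Nice f → (∀ z, ‖f z‖ ≤ 1) → ∀ z₀ ξ : ℂ,
      ENNReal.ofReal (‖ξ‖ ^ 4) * ∫⁻ η, ‖((κ * 2 ^ a : ℝ) : ℂ)⁻¹ * θ ((ξ - η) / (κ * 2 ^ a : ℝ)) *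
          𝓕 (fun z => φ ((z - z₀) / (r * 2 ^ (-a) : ℝ)) * gW n (Finset.Ico a (a + b)) f z) η‖ₑ ^ 2
        ≤ ENNReal.ofReal (((1 + ε) * n / Real.pi) ^ 2) := by
  obtain ⟨κ, r, hκ0, hκ1, hr1, hρ, n0, hmain⟩ := Linf_bound b hb φ hφ ρ₀ hφs θ hθs hθ1 ε hε
  refine ⟨κ, r, hκ0, hκ1, hr1, hρ, n0, ?_⟩
  intro n hn a f hf hf1 z₀ ξ
  set L : ℝ := (2 : ℝ) ^ a with hLdef
  have hL : 0 < L := by positivity
  have hLc : (L : ℂ) ≠ 0 := by exact_mod_cast hL.ne'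
  have hLa : (2 : ℂ) ^ a = (L : ℂ) := by rw [hLdef]; push_cast; rfl
  have hLinv : (2 : ℝ) ^ (-a) = L⁻¹ := by rw [hLdef, zpow_neg]
  have hκc : (κ : ℂ) ≠ 0 := by exact_mod_cast hκ0.ne'
  have hrc : (r : ℂ) ≠ 0 := by
    have : r ≠ 0 := by linarith
    exact_mod_cast this
  have hb := hmain n hn (fun w => f (w / L)) (LG_nice_scale L hL f hf) (fun z => hf1 _)
    ((L : ℂ) * z₀) (ξ / L)
  -- the scaled function
  set u : ℂ → ℂ := fun z => φ ((z - (L : ℂ) * z₀) / r) *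
    gW n (Finset.Ico (0:ℤ) b) (fun w => f (w / L)) z with hu
  have hfun : (fun z : ℂ => φ ((z - z₀) / (r * 2 ^ (-a) : ℝ)) *
      gW n (Finset.Ico a (a + b)) f z) = fun z : ℂ => u ((L : ℂ) * z) := by
    funext z
    rw [hu]
    simp only []
    rw [gW_scale n a (a + b) f z]
    have e1 : (a + (b : ℤ) - a) = b := by ring
    rw [e1, hLa, hLinv]
    congr 2
    push_cast
    field_simp
  rw [hfun]
  have hpt : ∀ η : ℂ, ‖((κ * L : ℝ) : ℂ)⁻¹ * θ ((ξ - η) / (κ * L : ℝ)) *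
      𝓕 (fun z : ℂ => u ((L : ℂ) * z)) η‖ₑ ^ 2 =
      ENNReal.ofReal ((L ^ 6)⁻¹) * (fun η' : ℂ => ‖(κ : ℂ)⁻¹ * θ ((ξ / L - η') / κ) * 𝓕 u η'‖ₑ ^ 2)
        (η / L) := by
    intro η
    rw [LG_fourier_scale L hL u η]
    simp only []
    have e1 : (ξ - η) / ((κ * L : ℝ) : ℂ) = (ξ / L - η / L) / κ := by
      push_cast
      field_simp
    rw [e1]
    have e2 : ((κ * L : ℝ) : ℂ)⁻¹ * θ ((ξ / L - η / L) / κ) *
        (((L ^ 2 : ℝ) : ℂ)⁻¹ * 𝓕 u (η / L)) =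
        (((L ^ 3)⁻¹ : ℝ) : ℂ) * ((κ : ℂ)⁻¹ * θ ((ξ / L - η / L) / κ) * 𝓕 u (η / L)) := by
      push_cast
      field_simp
    rw [e2, enorm_mul, mul_pow]
    congr 1
    have e3 : ‖(((L ^ 3)⁻¹ : ℝ) : ℂ)‖ₑ = ENNReal.ofReal ((L ^ 3)⁻¹) := by
      rw [← ofReal_norm_eq_enorm, Complex.norm_real, Real.norm_of_nonneg (by positivity)]
    rw [e3, ← ENNReal.ofReal_pow (by positivity)]
    congr 1
    field_simp
  simp_rw [hpt]
  rw [lintegral_const_mul', LG_lintegral_scale L hL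
    (fun η' : ℂ => ‖(κ : ℂ)⁻¹ * θ ((ξ / L - η') / κ) * 𝓕 u η'‖ₑ ^ 2)]
  · refine le_trans (le_of_eq ?_) hb
    rw [← mul_assoc, ← mul_assoc, ← ENNReal.ofReal_mul (by positivity),
      ← ENNReal.ofReal_mul (by positivity)]
    congr 2
    rw [norm_div, Complex.norm_real, Real.norm_of_nonneg hL.le, div_pow]
    field_simp
  · exact ENNReal.ofReal_ne_top

end Helper72.BA.P


namespace Helper72.BA
alias Linf_general := P.Linf_general
end Helper72.BA
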