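import Pool.Agent.Helper72.BA.Defs

/-!
# Numerics for `A_p` (module NU of MP_3dd6d4_an)
-/

set_option autoImplicit false

open MeasureTheory Complex FourierTransform Filter Topology
open scoped ENNReal NNReal ComplexConjugate

noncomputable section

namespace Helper72.BA.P

open Helper72.BA

/-- logarithm of `∏_{1 ≤ j ≤ n} (j - x)/(j + x)` -/
def ttN (x : ℝ) (n : ℕ) : ℝ :=
  ∑ m ∈ Finset.range n, (Real.log (m + 1 - x) - Real.log (m + 1 + x))

/-- a decreasing sequence with limit `log (Γ(1+x)/Γ(1-x))` -/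
def ccN (x : ℝ) (n : ℕ) : ℝ :=
  ttN x n + 2 * x * Real.log (n + 1 / 2) + x / 12 * (1 / (n * (n + 1)))

/-- `log ((2y+1)/(2y-1)) ≤ 1/y + 1/(12 (y³-y))`. -/
lemma log_mid_le (y : ℝ) (hy : 1 < y) :
    Real.log (y + 1 / 2) - Real.log (y - 1 / 2) ≤ 1 / y + 1 / (12 * (y ^ 3 - y)) := by
  have h0 : 0 < y := by linarith
  have ht0 : (0:ℝ) ≤ 1 / (2 * y) := by positivity
  have ht1 : 1 / (2 * y) < 1 := by
    rw [div_lt_one (by positivity)]; linarith
  have h := Real.log_div_le_sum_range_add ht0 ht1 2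
  have e1 : (1 + 1 / (2 * y)) / (1 - 1 / (2 * y)) = (y + 1 / 2) / (y - 1 / 2) := by
    have : (2 * y - 1) ≠ 0 := by linarith
    have : (y - 1 / 2) ≠ 0 := by linarith
    field_simp
  rw [e1, Real.log_div (by linarith) (by linarith)] at h
  simp only [Finset.sum_range_succ, Finset.sum_range_zero] at h
  norm_num at h
  have h1 : 0 < y ^ 3 - y := by nlinarith [mul_pos h0 (mul_pos (sub_pos.2 hy) (by linarith : 0 < y + 1))]
  have h4 : 0 < 4 * y ^ 2 - 1 := by nlinarith
  have e2 : 1 - ((y ^ 2)⁻¹ * (1 / 4)) = (4 * y ^ 2 - 1) / (4 * y ^ 2) := by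
    field_simp
  have key : 2 * ((1 / (2 * y)) + (1 / (2 * y)) ^ 3 / 3 + (1 / (2 * y)) ^ 5 / (1 - (1 / (2 * y)) ^ 2)) ≤
      1 / y + 1 / (12 * (y ^ 3 - y)) := by
    have e3 : (1 - (1 / (2 * y)) ^ 2) = (4 * y ^ 2 - 1) / (4 * y ^ 2) := by
      field_simp
      ring
    rw [e3]
    have e4 : 1 / y + 1 / (12 * (y ^ 3 - y)) -
        2 * ((1 / (2 * y)) + (1 / (2 * y)) ^ 3 / 3 + (1 / (2 * y)) ^ 5 / ((4 * y ^ 2 - 1) / (4 * y ^ 2)))
        = (y ^ 2 + 2) / (12 * y ^ 3 * (y ^ 2 - 1) * (4 * y ^ 2 - 1)) := by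
      have hy2 : y ^ 2 - 1 ≠ 0 := by nlinarith
      have hy3 : y ^ 3 - y = y * (y ^ 2 - 1) := by ring
      rw [hy3]
      have h4' : 4 * y ^ 2 - 1 ≠ 0 := h4.ne'
      have e6 : (1 / (2 * y)) ^ 5 / ((4 * y ^ 2 - 1) / (4 * y ^ 2)) = 1 / (8 * y ^ 3 * (4 * y ^ 2 - 1)) := by
        rw [div_pow, div_div_div_eq, div_eq_div_iff (by positivity) (by positivity)]
        ring
      rw [e6]
      generalize hb : y ^ 2 - 1 = b at *
      generalize ha : 4 * y ^ 2 - 1 = a at *
      have hy0 : y ≠ 0 := h0.ne'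
      have : y ^ 2 = b + 1 := by linarith
      have ha' : a = 4 * b + 3 := by linarith
      have e7 : 1 / y + 1 / (12 * (y * b)) - 2 * (1 / (2 * y) + (1 / (2 * y)) ^ 3 / 3 + 1 / (8 * y ^ 3 * a)) =
          (y ^ 2 * a - b * a - 3 * b) / (12 * y ^ 3 * b * a) := by
        field_simp
        ring
      rw [e7]
      congr 1
      rw [this, ha']
      ring
    have e5 : 0 ≤ (y ^ 2 + 2) / (12 * y ^ 3 * (y ^ 2 - 1) * (4 * y ^ 2 - 1)) := by
      have hy2 : 0 < y ^ 2 - 1 := by nlinarith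
      positivity
    linarith
  have h5 : 1 / 2 * (Real.log (y + 1 / 2) - Real.log (y - 1 / 2)) ≤
      (1 / (2 * y)) + (1 / (2 * y)) ^ 3 / 3 + (1 / (2 * y)) ^ 5 / (1 - (1 / (2 * y)) ^ 2) := by
    have := Real.log_div_le_sum_range_add ht0 ht1 2
    rw [e1, Real.log_div (by linarith) (by linarith)] at this
    simp only [Finset.sum_range_succ, Finset.sum_range_zero] at this
    norm_num at this ⊢
    linarith
  linarith

lemma two_mul_div_le (y x : ℝ) (hx : 0 < x) (hxy : x < y) :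
    2 * x / y ≤ Real.log (y + x) - Real.log (y - x) := by
  have h1 : 0 < y - x := by linarith
  have h0 : 0 < y := by linarith
  have h := Real.le_log_one_add_of_nonneg (x := 2 * x / (y - x)) (by positivity)
  have e1 : 1 + 2 * x / (y - x) = (y + x) / (y - x) := by
    field_simp
    ring
  have e2 : 2 * (2 * x / (y - x)) / (2 * x / (y - x) + 2) = 2 * x / y := by
    field_simp
    ring
  rw [e1, e2, Real.log_div (by linarith) (by linarith)] at h
  exact h

lemma ccN_step (x : ℝ) (hx0 : 0 < x) (hx1 : x ≤ 1 / 2) (n : ℕ) (hn : 1 ≤ n) :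
    ccN x (n + 1) ≤ ccN x n := by
  have hn' : (1:ℝ) ≤ n := by exact_mod_cast hn
  have h1 := log_mid_le ((n:ℝ) + 1) (by linarith)
  have h2 := two_mul_div_le ((n:ℝ) + 1) x hx0 (by linarith)
  unfold ccN ttN
  rw [Finset.sum_range_succ]
  push_cast
  have e1 : (n:ℝ) + 1 - 1 / 2 = n + 1 / 2 := by ring
  rw [e1] at h1
  have e2 : x / 12 * (1 / ((n:ℝ) * (n + 1))) - x / 12 * (1 / (((n:ℝ) + 1) * (n + 1 + 1))) =
      2 * x * (1 / (12 * (((n:ℝ) + 1) ^ 3 - (n + 1)))) := by
    have e3 : ((n:ℝ) + 1) ^ 3 - (n + 1) = n * (n + 1) * (n + 2) := by ring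
    rw [e3]
    have : (n:ℝ) ≠ 0 := by linarith
    field_simp
    ring
  have h3 : 2 * x * (Real.log ((n:ℝ) + 1 + 1 / 2) - Real.log (n + 1 / 2)) ≤
      2 * x * (1 / ((n:ℝ) + 1) + 1 / (12 * (((n:ℝ) + 1) ^ 3 - (n + 1)))) :=
    mul_le_mul_of_nonneg_left h1 (by positivity)
  have e4 : 2 * x * (1 / ((n:ℝ) + 1)) = 2 * x / (n + 1) := by ring
  rw [mul_add, e4] at h3
  linarith

lemma ccN_le (x : ℝ) (hx0 : 0 < x) (hx1 : x ≤ 1 / 2) (N n : ℕ) (hN : 1 ≤ N) (h : N ≤ n) :
    ccN x n ≤ ccN x N := by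
  induction n, h using Nat.le_induction with
  | base => exact le_rfl
  | succ m hm ih => exact (ccN_step x hx0 hx1 m (hN.trans hm)).trans ih

lemma ttN_eq (x : ℝ) (n : ℕ) :
    Real.BohrMollerup.logGammaSeq x n - Real.BohrMollerup.logGammaSeq (1 - x) n =
      ttN x n + 2 * x * Real.log n - Real.log x + (Real.log (n + 1 - x) - Real.log n) := by
  unfold Real.BohrMollerup.logGammaSeq ttN
  have h : ∀ n : ℕ, ∑ m ∈ Finset.range (n + 1), (Real.log (1 - x + m) - Real.log (x + m)) =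
      ∑ m ∈ Finset.range n, (Real.log (m + 1 - x) - Real.log (m + 1 + x)) - Real.log x +
        Real.log (n + 1 - x) := by
    intro n
    induction n with
    | zero => simp; ring
    | succ n ih =>
      rw [Finset.sum_range_succ, ih, Finset.sum_range_succ]
      push_cast
      have e1 : 1 - x + ((n:ℝ) + 1) = n + 1 + 1 - x := by ring
      have e2 : x + ((n:ℝ) + 1) = n + 1 + x := by ring
      rw [e1, e2]
      ring
  have h' := h n
  rw [Finset.sum_sub_distrib] at h'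
  linarith

lemma tendsto_log_add_sub (a : ℝ) :
    Tendsto (fun n : ℕ => Real.log ((n:ℝ) + a) - Real.log n) atTop (𝓝 0) := by
  have h1 : Tendsto (fun n : ℕ => 1 + a / (n:ℝ)) atTop (𝓝 (1 + 0)) :=
    tendsto_const_nhds.add (tendsto_const_div_atTop_nhds_zero_nat a)
  have h2 : Tendsto (fun n : ℕ => Real.log (1 + a / (n:ℝ))) atTop (𝓝 (Real.log (1 + 0))) :=
    (Real.continuousAt_log (by norm_num)).tendsto.comp h1
  simp only [add_zero, Real.log_one] at h2
  refine h2.congr' ?_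
  have h3 : ∀ᶠ n : ℕ in atTop, -a < (n:ℝ) := by
    filter_upwards [tendsto_natCast_atTop_atTop.eventually_gt_atTop (-a)] with n hn using hn
  filter_upwards [h3, eventually_ge_atTop 1] with n hn h1n
  have hn' : (1:ℝ) ≤ n := by exact_mod_cast h1n
  rw [← Real.log_div (by linarith) (by linarith)]
  congr 1
  field_simp

lemma ccN_tendsto (x : ℝ) (hx0 : 0 < x) (hx1 : x < 1) :
    Tendsto (ccN x) atTop
      (𝓝 (Real.log (Real.Gamma x) - Real.log (Real.Gamma (1 - x)) + Real.log x)) := by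
  have h1 := (Real.BohrMollerup.tendsto_log_gamma hx0).sub
    (Real.BohrMollerup.tendsto_log_gamma (by linarith : 0 < 1 - x))
  have h2 := tendsto_log_add_sub (1 - x)
  have h3 := (tendsto_log_add_sub (1 / 2)).const_mul (2 * x)
  have h4 : Tendsto (fun n : ℕ => x / 12 * (1 / ((n:ℝ) * (n + 1)))) atTop (𝓝 (x / 12 * 0)) := by
    apply Tendsto.const_mul
    have : Tendsto (fun n : ℕ => (1 / ((n:ℝ))) * (1 / ((n:ℝ) + 1))) atTop (𝓝 (0 * 0)) :=
      tendsto_one_div_atTop_nhds_zero_nat.mul tendsto_one_div_add_atTop_nhds_zero_nat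
    simp only [mul_zero] at this
    refine this.congr ?_
    intro n
    rw [one_div_mul_one_div]
  have h5 := (((h1.sub h2).add h3).add h4).add_const (Real.log x)
  simp only [mul_zero, sub_zero, add_zero] at h5
  refine h5.congr ?_
  intro n
  rw [ttN_eq]
  unfold ccN
  have : (n:ℝ) + 1 - x = n + (1 - x) := by ring
  rw [this]
  ring

/-- main upper bound -/
lemma log_ratio_le (x : ℝ) (hx0 : 0 < x) (hx1 : x ≤ 1 / 2) (N : ℕ) (hN : 1 ≤ N) :
    Real.log (Real.Gamma x) - Real.log (Real.Gamma (1 - x)) + Real.log x ≤ ccN x N := by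
  refine le_of_tendsto (ccN_tendsto x hx0 (by linarith)) ?_
  filter_upwards [eventually_ge_atTop N] with n hn
  exact ccN_le x hx0 hx1 N n hN hn

theorem Ak_pos (k : ℕ) (hk : 1 ≤ k) : 0 < Ak k := by
  have hk' : (1:ℝ) ≤ k := by exact_mod_cast hk
  unfold Ak
  have h1 : 0 < 1 / (2 * (k:ℝ)) := by positivity
  have h2 : 1 / (2 * (k:ℝ)) ≤ 1 / 2 := by
    apply one_div_le_one_div_of_le (by norm_num)
    linarith
  exact div_pos (Real.Gamma_pos_of_pos h1) (Real.Gamma_pos_of_pos (by linarith))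

lemma log_Ak_le (k : ℕ) (hk : 1 ≤ k) (N : ℕ) (hN : 1 ≤ N) :
    Real.log (Ak k) ≤ Real.log (2 * k) + ccN (1 / (2 * k)) N := by
  have hk' : (1:ℝ) ≤ k := by exact_mod_cast hk
  have h1 : 0 < 1 / (2 * (k:ℝ)) := by positivity
  have h2 : 1 / (2 * (k:ℝ)) ≤ 1 / 2 := by
    apply one_div_le_one_div_of_le (by norm_num)
    linarith
  have h := log_ratio_le (1 / (2 * k)) h1 h2 N hN
  unfold Ak
  rw [Real.log_div (Real.Gamma_pos_of_pos h1).ne' (Real.Gamma_pos_of_pos (by linarith)).ne']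
  have e : Real.log (1 / (2 * (k:ℝ))) = - Real.log (2 * k) := by
    rw [one_div, Real.log_inv]
  rw [e] at h
  linarith

lemma ttN_le (x : ℝ) (hx0 : 0 < x) (hx1 : x ≤ 1 / 2) (n : ℕ) :
    ttN x n ≤ - (2 * x) * ∑ m ∈ Finset.range n, 1 / ((m:ℝ) + 1) := by
  unfold ttN
  rw [Finset.mul_sum]
  apply Finset.sum_le_sum
  intro m _
  have hm : (0:ℝ) ≤ m := Nat.cast_nonneg m
  have h2 := two_mul_div_le ((m:ℝ) + 1) x hx0 (by linarith)
  have e4 : -(2 * x) * (1 / ((m:ℝ) + 1)) = - (2 * x / (m + 1)) := by ring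
  rw [e4]
  linarith

theorem Ak_le (k : ℕ) (hk : 1 ≤ k) : Ak k ≤ 2 * k * Real.exp (-(1.154 / (2 * k))) := by
  have hk' : (1:ℝ) ≤ k := by exact_mod_cast hk
  have h1 : 0 < 1 / (2 * (k:ℝ)) := by positivity
  have h2 : 1 / (2 * (k:ℝ)) ≤ 1 / 2 := by
    apply one_div_le_one_div_of_le (by norm_num)
    linarith
  have h := log_Ak_le k hk 4 (by norm_num)
  set x := 1 / (2 * (k:ℝ)) with hx
  have ht := ttN_le x h1 h2 4
  have hlog : Real.log ((4:ℕ) + 1 / 2) = 2 * Real.log 3 - Real.log 2 := by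
    have : ((4:ℕ) + 1 / 2 : ℝ) = 3 ^ 2 / 2 := by norm_num
    rw [this, Real.log_div (by norm_num) (by norm_num), Real.log_pow]
    norm_num
  have h3 := Real.log_three_lt_d9
  have h4 := Real.log_two_gt_d9
  have hsum : ∑ m ∈ Finset.range 4, 1 / ((m:ℝ) + 1) = 25 / 12 := by
    simp only [Finset.sum_range_succ, Finset.sum_range_zero]
    norm_num
  rw [hsum] at ht
  have hcc : ccN x 4 ≤ - (1.154 * x) := by
    unfold ccN
    rw [hlog]
    have : 2 * x * (2 * Real.log 3 - Real.log 2) ≤ 2 * x * (2 * 1.0986122888 - 0.6931471803) := by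
      apply mul_le_mul_of_nonneg_left _ (by positivity)
      linarith
    norm_num at this ⊢
    nlinarith
  have hAk := Ak_pos k hk
  have h2k : (0:ℝ) < 2 * k := by positivity
  rw [← Real.log_le_log_iff hAk (by positivity), Real.log_mul h2k.ne' (Real.exp_pos _).ne',
    Real.log_exp]
  have e : (1.154 / (2 * (k:ℝ))) = 1.154 * x := by rw [hx]; ring
  rw [e]
  linarith

lemma ttN_log (x : ℝ) (hx1 : 0 < x) (hx2 : x < 1) (n : ℕ) :
    ttN x n = Real.log (∏ m ∈ Finset.range n, ((m + 1 - x) / (m + 1 + x))) := by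
  unfold ttN
  rw [Real.log_prod]
  · apply Finset.sum_congr rfl
    intro m _
    have hm : (0:ℝ) ≤ m := Nat.cast_nonneg m
    rw [Real.log_div (by linarith) (by linarith)]
  · intro m _
    have hm : (0:ℝ) ≤ m := Nat.cast_nonneg m
    exact div_ne_zero (by linarith) (by linarith)

/-- numerical criterion -/
lemma Ak_lt_of (k : ℕ) (hk : 1 ≤ k) (N : ℕ) (hN : 1 ≤ N) (P B : ℝ) (hP : 0 < P) (hB : 0 < B)
    (hprod : ∏ m ∈ Finset.range N, (((m:ℝ) + 1 - 1 / (2 * k)) / (m + 1 + 1 / (2 * k))) = P)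
    (h : (2 * k * P) ^ k * (N + 1 / 2) < B ^ k * (1 - 1 / (24 * (N * (N + 1))))) :
    Ak k < B := by
  have hk' : (1:ℝ) ≤ k := by exact_mod_cast hk
  have hN' : (1:ℝ) ≤ N := by exact_mod_cast hN
  have h1 : 0 < 1 / (2 * (k:ℝ)) := by positivity
  have h2 : 1 / (2 * (k:ℝ)) ≤ 1 / 2 := by
    apply one_div_le_one_div_of_le (by norm_num)
    linarith
  have hA := log_Ak_le k hk N hN
  unfold ccN at hA
  rw [ttN_log _ h1 (by linarith), hprod] at hA
  have hlt := Real.log_lt_log (by positivity) h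
  have hNN : 0 < 1 - 1 / (24 * ((N:ℝ) * (N + 1))) := by
    have : 1 / (24 * ((N:ℝ) * (N + 1))) ≤ 1 / 24 := by
      apply one_div_le_one_div_of_le (by norm_num)
      nlinarith
    linarith
  rw [Real.log_mul (by positivity) (by positivity), Real.log_mul (by positivity) hNN.ne',
    Real.log_pow, Real.log_pow, Real.log_mul (by positivity) (by positivity)] at hlt
  have hs := Real.log_le_sub_one_of_pos hNN
  have hfin : Real.log (Ak k) < Real.log B := by
    have e1 : (k:ℝ) * (1 / (2 * k) / 12 * (1 / ((N:ℝ) * (N + 1)))) = 1 / (24 * (N * (N + 1))) := by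
      field_simp
      norm_num
    have e2 : (k:ℝ) * (2 * (1 / (2 * k)) * Real.log (N + 1 / 2)) = Real.log (N + 1 / 2) := by
      field_simp
    have hk0 : (0:ℝ) < k := by linarith
    have : (k:ℝ) * Real.log (Ak k) < k * Real.log B := by
      calc (k:ℝ) * Real.log (Ak k) ≤ k * (Real.log (2 * k) + (Real.log P +
            2 * (1 / (2 * k)) * Real.log (N + 1 / 2) + 1 / (2 * k) / 12 * (1 / ((N:ℝ) * (N + 1))))) :=
            mul_le_mul_of_nonneg_left hA hk0.le
        _ = k * (Real.log (2 * k) + Real.log P) + Real.log (N + 1 / 2) + 1 / (24 * (N * (N + 1))) := by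
            rw [mul_add, mul_add, mul_add, e1, e2]; ring
        _ < k * Real.log B := by linarith
    exact lt_of_mul_lt_mul_left this hk0.le
  exact (Real.log_lt_log_iff (Ak_pos k hk) hB).1 hfin

theorem Ak2_lt : Ak 2 < 2.95870 := by
  refine Ak_lt_of 2 (by norm_num) 30 (by norm_num) _ 2.95870 ?_ (by norm_num) rfl ?_
  · apply Finset.prod_pos
    intro m _
    have hm : (0:ℝ) ≤ m := Nat.cast_nonneg m
    apply div_pos <;> (norm_num; linarith)
  · simp only [Finset.prod_range_succ, Finset.prod_range_zero]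
    norm_num

theorem Ak3_lt : Ak 3 < 4.93130 := by
  refine Ak_lt_of 3 (by norm_num) 15 (by norm_num) _ 4.93130 ?_ (by norm_num) rfl ?_
  · apply Finset.prod_pos
    intro m _
    have hm : (0:ℝ) ≤ m := Nat.cast_nonneg m
    apply div_pos <;> (norm_num; linarith)
  · simp only [Finset.prod_range_succ, Finset.prod_range_zero]
    norm_num

theorem Ak4_lt : Ak 4 < 6.9147 := by
  refine Ak_lt_of 4 (by norm_num) 4 (by norm_num) _ 6.9147 ?_ (by norm_num) rfl ?_
  · apply Finset.prod_pos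
    intro m _
    have hm : (0:ℝ) ≤ m := Nat.cast_nonneg m
    apply div_pos <;> (norm_num; linarith)
  · simp only [Finset.prod_range_succ, Finset.prod_range_zero]
    norm_num

end Helper72.BA.P


namespace Helper72.BA
alias Ak2_lt := P.Ak2_lt
alias Ak3_lt := P.Ak3_lt
alias Ak4_lt := P.Ak4_lt
alias Ak_pos := P.Ak_pos
alias Ak_le := P.Ak_le
end Helper72.BA
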