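import Pool.Agent.Helper72.BA.Defs
import Pool.Agent.Helper72.BAM.FB1
import Pool.Agent.Helper72.BAM.FB2
import Pool.Agent.Helper72.BAM.KE1

set_option autoImplicit false

open MeasureTheory Complex FourierTransform Filter Topology
open scoped ENNReal NNReal ComplexConjugate

noncomputable section

namespace Helper72.BA.P

open Helper72.BA

lemma Nice.add {f g : ℂ → ℂ} (hf : Nice f) (hg : Nice g) : Nice (f + g) := by
  obtain ⟨C, hC⟩ := hf.bdd
  obtain ⟨D, hD⟩ := hg.bdd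
  exact ⟨hf.meas.add hg.meas, hf.int.add hg.int, C + D, fun z =>
    (norm_add_le _ _).trans (add_le_add (hC z) (hD z))⟩

lemma Nice.smul {f : ℂ → ℂ} (c : ℂ) (hf : Nice f) : Nice (c • f) := by
  obtain ⟨C, hC⟩ := hf.bdd
  refine ⟨hf.meas.const_smul c, hf.int.smul c, ‖c‖ * C, fun z => ?_⟩
  simp only [Pi.smul_apply, norm_smul]
  exact mul_le_mul_of_nonneg_left (hC z) (norm_nonneg _)

lemma Nice.zero : Nice (0 : ℂ → ℂ) :=
  ⟨measurable_zero, integrable_zero _ _ _, 0, fun z => by simp⟩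

lemma nice_sum {ι : Type*} (s : Finset ι) (F : ι → ℂ → ℂ) (h : ∀ i ∈ s, Nice (F i)) :
    Nice (fun z => ∑ i ∈ s, F i z) := by
  classical
  induction s using Finset.induction_on with
  | empty =>
    have h0 : Nice (0 : ℂ → ℂ) := Nice.zero
    convert h0 using 2
    simp
  | insert i s hi ih =>
    have h1 := Nice.add (h i (Finset.mem_insert_self i s))
      (ih (fun j hj => h j (Finset.mem_insert_of_mem hj)))
    convert h1 using 2
    rename_i z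
    simp [Finset.sum_insert hi]

lemma nice_gW (n : ℕ) (W : Finset ℤ) {f : ℂ → ℂ} (hf : Nice f) : Nice (gW n W f) :=
  nice_sum W _ (fun j _ => nice_cv (ker_KK n j) hf)

lemma continuous_gW (n : ℕ) (W : Finset ℤ) {f : ℂ → ℂ} (hf : Nice f) : Continuous (gW n W f) :=
  continuous_finsetSum W (fun j _ => continuous_cv (ker_KK n j) hf)

lemma fourier_sum {ι : Type*} (s : Finset ι) (F : ι → ℂ → ℂ) (h : ∀ i ∈ s, Integrable (F i)) (ξ : ℂ) :
    𝓕 (fun z => ∑ i ∈ s, F i z) ξ = ∑ i ∈ s, 𝓕 (F i) ξ := by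
  simp only [Real.fourier_eq, Finset.smul_sum]
  rw [integral_finsetSum]
  intro i hi
  exact (Real.fourierIntegral_convergent_iff ξ).2 (h i hi)

lemma integrable_fourier_gW (n : ℕ) (W : Finset ℤ) {f : ℂ → ℂ} (hf : Nice f) :
    Integrable (𝓕 (gW n W f)) := by
  have h : 𝓕 (gW n W f) = fun ξ => ∑ j ∈ W, 𝓕 (gj n j f) ξ := by
    ext ξ
    exact fourier_sum W _ (fun j _ => (nice_cv (ker_KK n j) hf).int) ξ
  rw [h]
  exact integrable_finsetSum W (fun j _ => integrable_fourier_cv (ker_KK n j) hf)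

lemma gW_add (n : ℕ) (W : Finset ℤ) {f g : ℂ → ℂ} (hf : Nice f) (hg : Nice g) :
    gW n W (f + g) = gW n W f + gW n W g := by
  ext z
  simp only [gW, gj, Pi.add_apply, cv_add (ker_KK n _) hf hg, Finset.sum_add_distrib]

lemma gW_smul (n : ℕ) (W : Finset ℤ) (f : ℂ → ℂ) (c : ℂ) :
    gW n W (c • f) = c • gW n W f := by
  ext z
  simp only [gW, gj, Pi.smul_apply, cv_smul, smul_eq_mul, Finset.mul_sum]

/-- the windowed function `φ((z-z₀)/r) g(z)` -/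
def wu (φ : ℂ → ℂ) (r : ℝ) (g : ℂ → ℂ) (z₀ : ℂ) (z : ℂ) : ℂ := φ ((z - z₀) / r) * g z

lemma nice_wu (φ : SchwartzMap ℂ ℂ) (hφ : ∀ z, ‖φ z‖ ≤ 1) (r : ℝ) {g : ℂ → ℂ} (hg : Nice g) (z₀ : ℂ) :
    Nice (wu φ r g z₀) := by
  obtain ⟨C, hC⟩ := hg.bdd
  have hm : Measurable (fun z : ℂ => φ ((z - z₀) / r)) :=
    (φ.continuous.comp (by fun_prop : Continuous (fun z : ℂ => (z - z₀) / r))).measurable
  refine ⟨hm.mul hg.meas, ?_, C, fun z => ?_⟩
  · refine hg.int.mono (hm.mul hg.meas).aestronglyMeasurable (Eventually.of_forall fun z => ?_)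
    simp only [wu, norm_mul]
    calc ‖φ ((z - z₀) / r)‖ * ‖g z‖ ≤ 1 * ‖g z‖ := by gcongr; exact hφ _
      _ = ‖g z‖ := one_mul _
  · simp only [wu, norm_mul]
    calc ‖φ ((z - z₀) / r)‖ * ‖g z‖ ≤ 1 * ‖g z‖ := by gcongr; exact hφ _
      _ ≤ C := by rw [one_mul]; exact hC z

lemma continuous_wu (φ : SchwartzMap ℂ ℂ) (r : ℝ) {g : ℂ → ℂ} (hg : Continuous g) (z₀ : ℂ) :
    Continuous (wu φ r g z₀) := by
  unfold wu
  exact (φ.continuous.comp (by fun_prop : Continuous (fun z : ℂ => (z - z₀) / r))).mul hg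

/-- Schwartz function `z ↦ φ((z-z₀)/r)` : its Fourier transform is integrable. -/
lemma integrable_fourier_scaled (φ : SchwartzMap ℂ ℂ) (r : ℝ) (hr : 0 < r) (z₀ : ℂ) :
    Nice (fun z : ℂ => φ ((z - z₀) / r)) ∧ Integrable (𝓕 (fun z : ℂ => φ ((z - z₀) / r))) := by
  have hr' : (r : ℝ)⁻¹ ≠ 0 := (inv_pos.2 hr).ne'
  let e : ℂ ≃L[ℝ] ℂ := ContinuousLinearEquiv.smulLeft (Units.mk0 (r⁻¹) hr')
  let ψ : SchwartzMap ℂ ℂ :=
    (SchwartzMap.compCLMOfContinuousLinearEquiv ℝ e φ).compSubConstCLM ℝ z₀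
  have hψ : (fun z : ℂ => φ ((z - z₀) / r)) = ψ := by
    ext z
    show φ ((z - z₀) / r) = φ (e (z - z₀))
    congr 1
    show (z - z₀) / r = (r⁻¹ : ℝ) • (z - z₀)
    rw [Complex.real_smul, Complex.ofReal_inv, div_eq_inv_mul]
  rw [hψ]
  refine ⟨⟨ψ.continuous.measurable, ψ.integrable, ?_⟩, ?_⟩
  · obtain ⟨C, hC⟩ := ψ.decay 0 0
    exact ⟨C, fun z => by simpa using hC.2 z⟩
  · rw [← SchwartzMap.fourier_coe]
    exact (𝓕 ψ).integrable

lemma integrable_fourier_wu (φ : SchwartzMap ℂ ℂ) (r : ℝ) (hr : 0 < r) {g : ℂ → ℂ} (hg : Nice g)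
    (hgc : Continuous g) (hgi : Integrable (𝓕 g)) (z₀ : ℂ) :
    Integrable (𝓕 (wu φ r g z₀)) := by
  obtain ⟨h1, h2⟩ := integrable_fourier_scaled φ r hr z₀
  have h : 𝓕 (wu φ r g z₀) = fun ξ => ∫ η, 𝓕 g η * 𝓕 (fun z : ℂ => φ ((z - z₀) / r)) (ξ - η) := by
    ext ξ
    exact fourier_mul h1 hg hgc hgi ξ
  rw [h]
  have := (hgi.integrable_convolution (ContinuousLinearMap.mul ℂ ℂ) h2 (μ := volume))
  exact this

end Helper72.BA.P
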