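import Pool.Agent.Helper72.BA.Defs

/-!
# MP_3dd6d4_an : module RC (Riesz composition formula in the plane)
-/

set_option autoImplicit false

open MeasureTheory Complex FourierTransform Filter Topology
open scoped ENNReal NNReal ComplexConjugate

noncomputable section

namespace Helper72.BA.P

/-- Gamma integral with a scale, in `[0,∞]`. -/
theorem gamma_lint {c x : ℝ} (hc : 0 < c) (hx : 0 < x) :
    ∫⁻ t in Set.Ioi (0:ℝ), ENNReal.ofReal (t ^ (c - 1) * Real.exp (-(x * t))) =
      ENNReal.ofReal (Real.Gamma c * x ^ (-c)) := by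
  have h1 := Real.integral_rpow_mul_exp_neg_mul_Ioi hc hx
  have h2 : (1 / x) ^ c * Real.Gamma c = Real.Gamma c * x ^ (-c) := by
    rw [mul_comm, one_div, Real.inv_rpow hx.le, Real.rpow_neg hx.le]
  rw [h2] at h1
  have hpos : 0 < Real.Gamma c * x ^ (-c) :=
    mul_pos (Real.Gamma_pos_of_pos hc) (Real.rpow_pos_of_pos hx _)
  have hint : IntegrableOn (fun t : ℝ => t ^ (c - 1) * Real.exp (-(x * t))) (Set.Ioi 0) := by
    by_contra hni
    have := integral_undef hni
    rw [this] at h1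
    exact hpos.ne h1
  rw [← h1, ofReal_integral_eq_lintegral_ofReal hint]
  refine (ae_restrict_mem measurableSet_Ioi).mono fun t ht => ?_
  exact mul_nonneg (Real.rpow_nonneg (le_of_lt ht) _) (Real.exp_pos _).le

/-- Gaussian integral over the plane. -/
theorem gauss_lint {b : ℝ} (hb : 0 < b) :
    ∫⁻ w : ℂ, ENNReal.ofReal (Real.exp (-b * ‖w‖ ^ 2)) = ENNReal.ofReal (Real.pi / b) := by
  have h1 : ∫ w : ℂ, Real.exp (-b * ‖w‖ ^ 2) = Real.pi / b := by
    have := GaussianFourier.integral_rexp_neg_mul_sq_norm (V := ℂ) hb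
    rw [this, Complex.finrank_real_complex]
    norm_num
  have hpos : 0 < Real.pi / b := div_pos Real.pi_pos hb
  have hint : Integrable (fun w : ℂ => Real.exp (-b * ‖w‖ ^ 2)) := by
    by_contra hni
    have := integral_undef hni
    rw [this] at h1
    exact hpos.ne h1
  rw [← h1, ofReal_integral_eq_lintegral_ofReal hint]
  exact Eventually.of_forall fun w => (Real.exp_pos _).le

theorem gauss_conv {t u : ℝ} (ht : 0 < t) (hu : 0 < u) (z : ℂ) :
    ∫⁻ w : ℂ, ENNReal.ofReal (Real.exp (-(‖w‖ ^ 2 * t))) *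
        ENNReal.ofReal (Real.exp (-(‖z - w‖ ^ 2 * u))) =
      ENNReal.ofReal (Real.pi / (t + u) * Real.exp (-(t * u / (t + u) * ‖z‖ ^ 2))) := by
  have hs : 0 < t + u := add_pos ht hu
  have e : ∀ w : ℂ, ENNReal.ofReal (Real.exp (-(‖w‖ ^ 2 * t))) *
        ENNReal.ofReal (Real.exp (-(‖z - w‖ ^ 2 * u))) =
      ENNReal.ofReal (Real.exp (-(t + u) * ‖w + (-((u / (t + u) : ℝ) : ℂ) * z)‖ ^ 2)) *
        ENNReal.ofReal (Real.exp (-(t * u / (t + u) * ‖z‖ ^ 2))) := by
    intro w
    rw [← ENNReal.ofReal_mul (Real.exp_pos _).le, ← ENNReal.ofReal_mul (Real.exp_pos _).le,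
      ← Real.exp_add, ← Real.exp_add]
    congr 2
    rw [← Complex.normSq_eq_norm_sq, ← Complex.normSq_eq_norm_sq, ← Complex.normSq_eq_norm_sq,
      ← Complex.normSq_eq_norm_sq]
    simp only [Complex.normSq_apply, Complex.sub_re, Complex.sub_im, Complex.add_re,
      Complex.add_im, Complex.mul_re, Complex.mul_im, Complex.neg_re, Complex.neg_im,
      Complex.ofReal_re, Complex.ofReal_im]
    field_simp
    ring
  simp_rw [e]
  rw [lintegral_mul_const' _ _ ENNReal.ofReal_ne_top,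
    lintegral_add_right_eq_self (fun w : ℂ => ENNReal.ofReal (Real.exp (-(t + u) * ‖w‖ ^ 2))),
    gauss_lint hs, ← ENNReal.ofReal_mul (div_pos Real.pi_pos hs).le]

/-- Scaling of the half line. -/
theorem lint_scale {t : ℝ} (ht : 0 < t) (F : ℝ → ℝ≥0∞) :
    ∫⁻ u in Set.Ioi (0:ℝ), F u = ENNReal.ofReal t * ∫⁻ v in Set.Ioi (0:ℝ), F (t * v) := by
  have h := lintegral_image_eq_lintegral_abs_deriv_mul (s := Set.Ioi (0:ℝ)) (f := fun v => t * v)
    (f' := fun _ => t) measurableSet_Ioi
    (fun x _ => by simpa using ((hasDerivAt_id x).const_mul t).hasDerivWithinAt)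
    (fun x _ y _ hxy => mul_left_cancel₀ ht.ne' hxy) F
  have himg : (fun v => t * v) '' Set.Ioi (0:ℝ) = Set.Ioi 0 := by
    ext x
    constructor
    · rintro ⟨v, hv, rfl⟩
      exact mul_pos ht hv
    · intro hx
      exact ⟨x / t, div_pos hx ht, by field_simp⟩
  rw [himg] at h
  rw [h, abs_of_pos ht, lintegral_const_mul' _ _ ENNReal.ofReal_ne_top]

/-- Beta integral on the half line. -/
theorem beta_lint {p q : ℝ} (hp : 0 < p) (hq : 0 < q) :
    ∫⁻ v in Set.Ioi (0:ℝ), ENNReal.ofReal (v ^ (p - 1) * (1 + v) ^ (-(p + q))) =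
      ENNReal.ofReal (Real.Gamma p * Real.Gamma q / Real.Gamma (p + q)) := by
  have hpq : 0 < p + q := add_pos hp hq
  have hG : 0 < Real.Gamma (p + q) := Real.Gamma_pos_of_pos hpq
  have key : ENNReal.ofReal (Real.Gamma (p + q)) *
      ∫⁻ v in Set.Ioi (0:ℝ), ENNReal.ofReal (v ^ (p - 1) * (1 + v) ^ (-(p + q))) =
      ENNReal.ofReal (Real.Gamma p * Real.Gamma q) := by
    rw [← lintegral_const_mul' _ _ ENNReal.ofReal_ne_top]
    have e1 : ∫⁻ v in Set.Ioi (0:ℝ), ENNReal.ofReal (Real.Gamma (p + q)) *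
          ENNReal.ofReal (v ^ (p - 1) * (1 + v) ^ (-(p + q))) =
        ∫⁻ v in Set.Ioi (0:ℝ), ∫⁻ s in Set.Ioi (0:ℝ), ENNReal.ofReal (v ^ (p - 1)) *
          ENNReal.ofReal (s ^ (p + q - 1) * Real.exp (-((1 + v) * s))) := by
      refine setLIntegral_congr_fun measurableSet_Ioi fun v hv => ?_
      have hv' : (0:ℝ) < v := hv
      rw [lintegral_const_mul' _ _ ENNReal.ofReal_ne_top, gamma_lint hpq (by linarith),
        ← ENNReal.ofReal_mul hG.le, ← ENNReal.ofReal_mul (Real.rpow_nonneg hv'.le _)]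
      congr 1
      ring
    rw [e1, lintegral_lintegral_swap]
    · have e2 : ∫⁻ s in Set.Ioi (0:ℝ), ∫⁻ v in Set.Ioi (0:ℝ), ENNReal.ofReal (v ^ (p - 1)) *
          ENNReal.ofReal (s ^ (p + q - 1) * Real.exp (-((1 + v) * s))) =
          ∫⁻ s in Set.Ioi (0:ℝ), ENNReal.ofReal (Real.Gamma p) *
            ENNReal.ofReal (s ^ (q - 1) * Real.exp (-(1 * s))) := by
        refine setLIntegral_congr_fun measurableSet_Ioi fun s hs => ?_
        have hs' : (0:ℝ) < s := hs
        have e3 : ∫⁻ v in Set.Ioi (0:ℝ), ENNReal.ofReal (v ^ (p - 1)) *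
            ENNReal.ofReal (s ^ (p + q - 1) * Real.exp (-((1 + v) * s))) =
            ∫⁻ v in Set.Ioi (0:ℝ), ENNReal.ofReal (s ^ (p + q - 1) * Real.exp (-s)) *
              ENNReal.ofReal (v ^ (p - 1) * Real.exp (-(s * v))) := by
          refine setLIntegral_congr_fun measurableSet_Ioi fun v hv => ?_
          have hv' : (0:ℝ) < v := hv
          rw [← ENNReal.ofReal_mul (Real.rpow_nonneg hv'.le _),
            ← ENNReal.ofReal_mul (mul_nonneg (Real.rpow_nonneg hs'.le _) (Real.exp_pos _).le)]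
          congr 1
          have : Real.exp (-((1 + v) * s)) = Real.exp (-s) * Real.exp (-(s * v)) := by
            rw [← Real.exp_add]
            congr 1
            ring
          rw [this]
          ring
        rw [e3, lintegral_const_mul' _ _ ENNReal.ofReal_ne_top, gamma_lint hp hs',
          ← ENNReal.ofReal_mul (mul_nonneg (Real.rpow_nonneg hs'.le _) (Real.exp_pos _).le),
          ← ENNReal.ofReal_mul (Real.Gamma_pos_of_pos hp).le]
        congr 1
        have h4 : s ^ (p + q - 1) * s ^ (-p) = s ^ (q - 1) := by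
          rw [← Real.rpow_add hs']
          congr 1
          ring
        rw [one_mul, ← h4]
        ring
      rw [e2, lintegral_const_mul' _ _ ENNReal.ofReal_ne_top, gamma_lint hq one_pos,
        ← ENNReal.ofReal_mul (Real.Gamma_pos_of_pos hp).le, Real.one_rpow, mul_one]
    · refine Measurable.aemeasurable ?_
      fun_prop
  have h0 : ENNReal.ofReal (Real.Gamma (p + q)) ≠ 0 := by
    rw [Ne, ENNReal.ofReal_eq_zero, not_le]
    exact hG
  have h1 : ENNReal.ofReal (Real.Gamma (p + q)) ≠ ∞ := ENNReal.ofReal_ne_top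
  rw [ENNReal.ofReal_div_of_pos hG, ← key, mul_comm, ENNReal.mul_div_cancel_right h0 h1]

theorem enorm_rpow_lint {a : ℝ} (ha : a < 2) {w : ℂ} (hw : w ≠ 0) :
    ENNReal.ofReal (Real.Gamma (1 - a / 2)) * ‖w‖ₑ ^ (a - 2) =
      ∫⁻ t in Set.Ioi (0:ℝ), ENNReal.ofReal (t ^ (-(a / 2)) * Real.exp (-(‖w‖ ^ 2 * t))) := by
  have hc : 0 < 1 - a / 2 := by linarith
  have hn : 0 < ‖w‖ := norm_pos_iff.2 hw
  have h := gamma_lint hc (pow_pos hn 2)
  rw [show 1 - a / 2 - 1 = -(a / 2) by ring] at h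
  rw [h, ENNReal.ofReal_mul (Real.Gamma_pos_of_pos hc).le, ← ofReal_norm,
    ENNReal.ofReal_rpow_of_pos hn]
  congr 2
  rw [← Real.rpow_natCast, ← Real.rpow_mul hn.le]
  congr 1
  push_cast
  ring

theorem riesz_comp (a b : ℝ) (ha : 0 < a) (hb : 0 < b) (hab : a + b < 2) (z : ℂ) (hz : z ≠ 0) :
    ∫⁻ w : ℂ, ‖w‖ₑ ^ (a - 2) * ‖z - w‖ₑ ^ (b - 2) =
      ENNReal.ofReal (Gc a * Gc b / Gc (a + b)) * ‖z‖ₑ ^ (a + b - 2) := by
  have ha2 : a < 2 := by linarith
  have hb2 : b < 2 := by linarith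
  have hGa : 0 < Real.Gamma (1 - a / 2) := Real.Gamma_pos_of_pos (by linarith)
  have hGb : 0 < Real.Gamma (1 - b / 2) := Real.Gamma_pos_of_pos (by linarith)
  have hGab : 0 < Real.Gamma (1 - (a + b) / 2) := Real.Gamma_pos_of_pos (by linarith)
  have hga : 0 < Real.Gamma (a / 2) := Real.Gamma_pos_of_pos (by linarith)
  have hgb : 0 < Real.Gamma (b / 2) := Real.Gamma_pos_of_pos (by linarith)
  have hgab : 0 < Real.Gamma ((a + b) / 2) := Real.Gamma_pos_of_pos (by linarith)
  have hr : 0 < ‖z‖ := norm_pos_iff.2 hz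
  have hr2 : 0 < ‖z‖ ^ 2 := pow_pos hr 2
  -- the two Gaussian representations
  have key : ENNReal.ofReal (Real.Gamma (1 - a / 2) * Real.Gamma (1 - b / 2)) *
      (∫⁻ w : ℂ, ‖w‖ₑ ^ (a - 2) * ‖z - w‖ₑ ^ (b - 2)) =
      ENNReal.ofReal (Real.pi * Real.Gamma (1 - (a + b) / 2) *
        (Real.Gamma (a / 2) * Real.Gamma (b / 2) / Real.Gamma ((a + b) / 2))) *
        ‖z‖ₑ ^ (a + b - 2) := by
    have hae : ∀ᵐ w : ℂ, w ≠ 0 ∧ z - w ≠ 0 := by
      have h1 : ∀ᵐ w : ℂ, w ≠ 0 := by
        simp [ae_iff]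
      have h2 : ∀ᵐ w : ℂ, w ≠ z := by
        simp [ae_iff]
      filter_upwards [h1, h2] with w hw1 hw2
      exact ⟨hw1, sub_ne_zero.2 (Ne.symm hw2)⟩
    rw [← lintegral_const_mul' _ _ ENNReal.ofReal_ne_top]
    have e1 : ∫⁻ w : ℂ, ENNReal.ofReal (Real.Gamma (1 - a / 2) * Real.Gamma (1 - b / 2)) *
          (‖w‖ₑ ^ (a - 2) * ‖z - w‖ₑ ^ (b - 2)) =
        ∫⁻ w : ℂ, ∫⁻ t in Set.Ioi (0:ℝ), ∫⁻ u in Set.Ioi (0:ℝ),
          ENNReal.ofReal (t ^ (-(a / 2))) * ENNReal.ofReal (u ^ (-(b / 2))) *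
            (ENNReal.ofReal (Real.exp (-(‖w‖ ^ 2 * t))) *
              ENNReal.ofReal (Real.exp (-(‖z - w‖ ^ 2 * u)))) := by
      refine lintegral_congr_ae ?_
      filter_upwards [hae] with w hw
      rw [ENNReal.ofReal_mul hGa.le, mul_mul_mul_comm, enorm_rpow_lint ha2 hw.1,
        enorm_rpow_lint hb2 hw.2, ← lintegral_mul_const' _ _ (by
          rw [← enorm_rpow_lint hb2 hw.2]
          refine ENNReal.mul_ne_top ENNReal.ofReal_ne_top ?_
          rw [← ofReal_norm, ENNReal.ofReal_rpow_of_pos (norm_pos_iff.2 hw.2)]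
          exact ENNReal.ofReal_ne_top)]
      refine setLIntegral_congr_fun measurableSet_Ioi fun t ht => ?_
      have ht' : (0:ℝ) < t := ht
      rw [← lintegral_const_mul' _ _ ENNReal.ofReal_ne_top]
      refine setLIntegral_congr_fun measurableSet_Ioi fun u hu => ?_
      have hu' : (0:ℝ) < u := hu
      rw [ENNReal.ofReal_mul (Real.rpow_nonneg ht'.le _),
        ENNReal.ofReal_mul (Real.rpow_nonneg hu'.le _)]
      ring
    rw [e1, lintegral_lintegral_swap]
    · have e2 : ∫⁻ t in Set.Ioi (0:ℝ), ∫⁻ w : ℂ, ∫⁻ u in Set.Ioi (0:ℝ),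
          ENNReal.ofReal (t ^ (-(a / 2))) * ENNReal.ofReal (u ^ (-(b / 2))) *
            (ENNReal.ofReal (Real.exp (-(‖w‖ ^ 2 * t))) *
              ENNReal.ofReal (Real.exp (-(‖z - w‖ ^ 2 * u)))) =
          ∫⁻ t in Set.Ioi (0:ℝ), ∫⁻ v in Set.Ioi (0:ℝ),
            ENNReal.ofReal (Real.pi * v ^ (-(b / 2)) * (1 + v)⁻¹) *
              ENNReal.ofReal (t ^ (-((a + b) / 2)) *
                Real.exp (-(v / (1 + v) * ‖z‖ ^ 2 * t))) := by
        refine setLIntegral_congr_fun measurableSet_Ioi fun t ht => ?_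
        have ht' : (0:ℝ) < t := ht
        rw [lintegral_lintegral_swap]
        · rw [lint_scale ht', ← lintegral_const_mul' _ _ ENNReal.ofReal_ne_top]
          refine setLIntegral_congr_fun measurableSet_Ioi fun v hv => ?_
          have hv' : (0:ℝ) < v := hv
          have hv1 : (0:ℝ) < 1 + v := by linarith
          rw [lintegral_const_mul' _ _ (ENNReal.mul_ne_top ENNReal.ofReal_ne_top
              ENNReal.ofReal_ne_top), gauss_conv ht' (mul_pos ht' hv'),
            ← ENNReal.ofReal_mul (Real.rpow_nonneg ht'.le _),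
            ← ENNReal.ofReal_mul (mul_nonneg (Real.rpow_nonneg ht'.le _)
              (Real.rpow_nonneg (mul_pos ht' hv').le _)),
            ← ENNReal.ofReal_mul ht'.le,
            ← ENNReal.ofReal_mul (mul_nonneg (mul_nonneg Real.pi_pos.le
              (Real.rpow_nonneg hv'.le _)) (inv_pos.2 hv1).le)]
          congr 1
          have h1 : (t * v) ^ (-(b / 2)) = t ^ (-(b / 2)) * v ^ (-(b / 2)) :=
            Real.mul_rpow ht'.le hv'.le
          have h2 : t ^ (-((a + b) / 2)) = t ^ (-(a / 2)) * t ^ (-(b / 2)) := by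
            rw [← Real.rpow_add ht']
            congr 1
            ring
          have h3 : t * (t * v) / (t + t * v) * ‖z‖ ^ 2 = v / (1 + v) * ‖z‖ ^ 2 * t := by
            field_simp
          have h4 : Real.pi / (t + t * v) = Real.pi * t⁻¹ * (1 + v)⁻¹ := by
            field_simp
          rw [h1, h2, h3, h4]
          have h5 : t * t⁻¹ = 1 := mul_inv_cancel₀ ht'.ne'
          linear_combination (t ^ (-(a / 2)) * (t ^ (-(b / 2)) * v ^ (-(b / 2))) *
            (Real.pi * (1 + v)⁻¹ * Real.exp (-(v / (1 + v) * ‖z‖ ^ 2 * t)))) * h5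
        · refine Measurable.aemeasurable ?_
          fun_prop
      rw [e2, lintegral_lintegral_swap]
      · have e3 : ∫⁻ v in Set.Ioi (0:ℝ), ∫⁻ t in Set.Ioi (0:ℝ),
            ENNReal.ofReal (Real.pi * v ^ (-(b / 2)) * (1 + v)⁻¹) *
              ENNReal.ofReal (t ^ (-((a + b) / 2)) *
                Real.exp (-(v / (1 + v) * ‖z‖ ^ 2 * t))) =
            ∫⁻ v in Set.Ioi (0:ℝ), ENNReal.ofReal (Real.pi * Real.Gamma (1 - (a + b) / 2) *
              ‖z‖ ^ (a + b - 2)) *
              ENNReal.ofReal (v ^ (a / 2 - 1) * (1 + v) ^ (-(a / 2 + b / 2))) := by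
          refine setLIntegral_congr_fun measurableSet_Ioi fun v hv => ?_
          have hv' : (0:ℝ) < v := hv
          have hv1 : (0:ℝ) < 1 + v := by linarith
          have hc : 0 < 1 - (a + b) / 2 := by linarith
          have hx : 0 < v / (1 + v) * ‖z‖ ^ 2 := mul_pos (div_pos hv' hv1) hr2
          have hg := gamma_lint hc hx
          rw [show 1 - (a + b) / 2 - 1 = -((a + b) / 2) by ring] at hg
          rw [lintegral_const_mul' _ _ ENNReal.ofReal_ne_top, hg,
            ← ENNReal.ofReal_mul (mul_nonneg (mul_nonneg Real.pi_pos.le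
              (Real.rpow_nonneg hv'.le _)) (inv_pos.2 hv1).le),
            ← ENNReal.ofReal_mul (mul_nonneg (mul_nonneg Real.pi_pos.le hGab.le)
              (Real.rpow_nonneg hr.le _))]
          congr 1
          have h1 : (v / (1 + v) * ‖z‖ ^ 2) ^ (-(1 - (a + b) / 2)) =
              v ^ (-(1 - (a + b) / 2)) * (1 + v) ^ (1 - (a + b) / 2) * ‖z‖ ^ (a + b - 2) := by
            rw [Real.mul_rpow (div_pos hv' hv1).le hr2.le, div_eq_mul_inv,
              Real.mul_rpow hv'.le (inv_pos.2 hv1).le, ← Real.rpow_neg_one (1 + v),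
              ← Real.rpow_mul hv1.le, ← Real.rpow_natCast ‖z‖ 2, ← Real.rpow_mul hr.le]
            congr 2
            · congr 1
              ring
            · push_cast
              ring
          have h2 : v ^ (a / 2 - 1) = v ^ (-(b / 2)) * v ^ (-(1 - (a + b) / 2)) := by
            rw [← Real.rpow_add hv']
            congr 1
            ring
          have h3 : (1 + v) ^ (-(a / 2 + b / 2)) = (1 + v)⁻¹ * (1 + v) ^ (1 - (a + b) / 2) := by
            rw [← Real.rpow_neg_one (1 + v), ← Real.rpow_add hv1]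
            congr 1
            ring
          rw [h1, h2, h3]
          ring
        rw [e3, lintegral_const_mul' _ _ ENNReal.ofReal_ne_top,
          beta_lint (by linarith : 0 < a / 2) (by linarith : 0 < b / 2),
          ← ofReal_norm, ENNReal.ofReal_rpow_of_pos hr,
          ← ENNReal.ofReal_mul (mul_nonneg (mul_nonneg Real.pi_pos.le hGab.le)
              (Real.rpow_nonneg hr.le _)),
          ← ENNReal.ofReal_mul (by positivity)]
        congr 1
        rw [show a / 2 + b / 2 = (a + b) / 2 by ring]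
        ring
      · refine Measurable.aemeasurable ?_
        fun_prop
    · refine Measurable.aemeasurable ?_
      refine Measurable.lintegral_prod_right' (f := fun p : (ℂ × ℝ) × ℝ =>
        ENNReal.ofReal (p.1.2 ^ (-(a / 2))) * ENNReal.ofReal (p.2 ^ (-(b / 2))) *
            (ENNReal.ofReal (Real.exp (-(‖p.1.1‖ ^ 2 * p.1.2))) *
              ENNReal.ofReal (Real.exp (-(‖z - p.1.1‖ ^ 2 * p.2))))) ?_
      fun_prop
  -- cancel the constants
  have hP : 0 < Real.Gamma (1 - a / 2) * Real.Gamma (1 - b / 2) := mul_pos hGa hGb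
  have h0 : ENNReal.ofReal (Real.Gamma (1 - a / 2) * Real.Gamma (1 - b / 2)) ≠ 0 := by
    rw [Ne, ENNReal.ofReal_eq_zero, not_le]
    exact hP
  rw [← ENNReal.mul_right_inj h0 ENNReal.ofReal_ne_top, key, ← mul_assoc,
    ← ENNReal.ofReal_mul hP.le]
  congr 2
  unfold Gc
  have hpi := Real.pi_pos
  generalize Real.Gamma (1 - a / 2) = A at *
  generalize Real.Gamma (1 - b / 2) = B at *
  generalize Real.Gamma (1 - (a + b) / 2) = C at *
  generalize Real.Gamma (a / 2) = A' at *
  generalize Real.Gamma (b / 2) = B' at *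
  generalize Real.Gamma ((a + b) / 2) = C' at *
  field_simp

end Helper72.BA.P


namespace Helper72.BA
alias riesz_comp := P.riesz_comp
end Helper72.BA
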