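import Pool.Agent.Helper72.BA.Defs
import Pool.Agent.Helper72.BAM.PT1
import Pool.Agent.Helper72.BAM.RC

/-!
# MP_3dd6d4_an : module PT2 (Pitt inequality with constant)
-/

set_option autoImplicit false

open MeasureTheory Complex FourierTransform Filter Topology
open scoped ENNReal NNReal ComplexConjugate

noncomputable section

namespace Helper72.BA.P

/-- the weight, with value `1` at the origin -/
def omk (k : ℕ) (ξ : ℂ) : ℝ≥0∞ := if ξ = 0 then 1 else ‖ξ‖ₑ ^ (1 / (k : ℝ) - 2)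

theorem measurable_omk (k : ℕ) : Measurable (omk k) := by
  unfold omk
  refine Measurable.ite (measurableSet_singleton 0) measurable_const ?_
  fun_prop

theorem omk_neg (k : ℕ) (z : ℂ) : omk k (-z) = omk k z := by
  unfold omk
  simp only [neg_eq_zero, enorm_neg]

theorem Gc_pos {a : ℝ} (ha : 0 < a) (ha2 : a < 2) : 0 < Gc a := by
  unfold Gc
  have h1 : 0 < Real.Gamma (a / 2) := Real.Gamma_pos_of_pos (by linarith)
  have h2 : 0 < Real.Gamma (1 - a / 2) := Real.Gamma_pos_of_pos (by linarith)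
  have := Real.pi_pos
  positivity

theorem lcp_omk {k : ℕ} (hk : 2 ≤ k) (j : ℕ) (hj : j + 1 < 2 * k) (z : ℂ) (hz : z ≠ 0) :
    lcp (omk k) j z = ENNReal.ofReal (Gc (1 / k) ^ (j + 1) / Gc ((j + 1 : ℕ) / k)) *
      ‖z‖ₑ ^ (((j + 1 : ℕ) : ℝ) / k - 2) := by
  have hk0 : (0:ℝ) < k := by
    have : 0 < k := by omega
    exact_mod_cast this
  have hk2 : (2:ℝ) ≤ k := by exact_mod_cast hk
  have h1k : (0:ℝ) < 1 / (k:ℝ) := by positivity
  have h1k2 : 1 / (k:ℝ) < 2 := by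
    rw [div_lt_iff₀ hk0]
    linarith
  induction j generalizing z with
  | zero =>
    change omk k z = _
    rw [omk, if_neg hz]
    have h := Gc_pos h1k h1k2
    simp only [zero_add, pow_one, Nat.cast_one]
    rw [div_self h.ne', ENNReal.ofReal_one, one_mul]
  | succ j ih =>
    have hj' : j + 1 < 2 * k := by omega
    change ∫⁻ t, lcp (omk k) j t * omk k (z - t) = _
    have hae : ∀ᵐ w : ℂ, w ≠ 0 ∧ z - w ≠ 0 := by
      have h1 : ∀ᵐ w : ℂ, w ≠ 0 := by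
        simp [ae_iff]
      have h2 : ∀ᵐ w : ℂ, w ≠ z := by
        simp [ae_iff]
      filter_upwards [h1, h2] with w hw1 hw2
      exact ⟨hw1, sub_ne_zero.2 (Ne.symm hw2)⟩
    have e1 : ∫⁻ t, lcp (omk k) j t * omk k (z - t) =
        ∫⁻ t : ℂ, ENNReal.ofReal (Gc (1 / k) ^ (j + 1) / Gc ((j + 1 : ℕ) / k)) *
          (‖t‖ₑ ^ (((j + 1 : ℕ) : ℝ) / k - 2) * ‖z - t‖ₑ ^ (1 / (k : ℝ) - 2)) := by
      refine lintegral_congr_ae ?_
      filter_upwards [hae] with t ht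
      rw [ih hj' t ht.1, omk, if_neg ht.2, mul_assoc]
    have ha : (0:ℝ) < ((j + 1 : ℕ) : ℝ) / k := by positivity
    have hab : ((j + 1 : ℕ) : ℝ) / k + 1 / k < 2 := by
      rw [← add_div, div_lt_iff₀ hk0]
      exact_mod_cast hj
    rw [e1, lintegral_const_mul' _ _ ENNReal.ofReal_ne_top, riesz_comp _ _ ha h1k hab z hz]
    have e2 : ((j + 1 : ℕ) : ℝ) / k + 1 / k = ((j + 1 + 1 : ℕ) : ℝ) / k := by
      push_cast
      ring
    have hG1 := Gc_pos h1k h1k2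
    have hG2 := Gc_pos ha (by linarith : ((j + 1 : ℕ) : ℝ) / k < 2)
    rw [e2, ← mul_assoc, ← ENNReal.ofReal_mul (by positivity)]
    congr 2
    field_simp
    rw [← pow_succ]

theorem Gc_two_sub {k : ℕ} (hk : 2 ≤ k) :
    Gc (1 / k) ^ (2 * k - 2 + 1) / Gc ((2 * k - 2 + 1 : ℕ) / k) =
      Real.pi ^ (2 * k - 2) * Ak k ^ (2 * k) := by
  have hk0 : (0:ℝ) < k := by
    have : 0 < k := by omega
    exact_mod_cast this
  have hk2 : (2:ℝ) ≤ k := by exact_mod_cast hk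
  have e1 : ((2 * k - 2 + 1 : ℕ) : ℝ) / k / 2 = 1 - 1 / (2 * k) := by
    rw [show 2 * k - 2 + 1 = 2 * k - 1 by omega, Nat.cast_sub (by omega)]
    push_cast
    field_simp
  have e2 : 1 / (k:ℝ) / 2 = 1 / (2 * k) := by
    field_simp
  unfold Gc Ak
  rw [e1, e2]
  have hlt : 1 / (2 * (k:ℝ)) < 1 := by
    rw [div_lt_one (by positivity)]
    linarith
  have h1 : 0 < Real.Gamma (1 / (2 * k)) := Real.Gamma_pos_of_pos (by positivity)
  have h2 : 0 < Real.Gamma (1 - 1 / (2 * k)) := Real.Gamma_pos_of_pos (by linarith)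
  rw [show 1 - (1 - 1 / (2 * (k:ℝ))) = 1 / (2 * k) by ring]
  have hpi := Real.pi_pos
  generalize Real.Gamma (1 / (2 * k)) = x at *
  generalize Real.Gamma (1 - 1 / (2 * k)) = y at *
  obtain ⟨m, rfl⟩ : ∃ m, k = m + 1 := ⟨k - 1, by omega⟩
  rw [show 2 * (m + 1) - 2 + 1 = 2 * m + 1 by omega, show 2 * (m + 1) - 2 = 2 * m by omega,
    show 2 * (m + 1) = 2 * m + 2 by ring]
  rw [div_pow, div_pow, div_div_eq_mul_div, div_mul_eq_mul_div, div_div, mul_div_assoc']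
  rw [div_eq_div_iff (by positivity) (by positivity)]
  ring

theorem pitt (k : ℕ) (hk : 2 ≤ k) (v : ℂ → ℝ≥0∞) (hv : Measurable v) :
    ∫⁻ s, lcp v (k - 1) s ^ 2 ≤
      ENNReal.ofReal (Real.pi ^ (2 * k - 2) * Ak k ^ (2 * k)) *
        ∫⁻ ξ, ‖ξ‖ₑ ^ (4 * k - 4) * v ξ ^ (2 * k) := by
  have hk0 : (0:ℝ) < k := by
    have : 0 < k := by omega
    exact_mod_cast this
  set F : ℂ → ℝ≥0∞ := fun ξ => (if ξ = 0 then 1 else ‖ξ‖ₑ ^ (2 - 1 / (k : ℝ))) * v ξ with hF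
  have hFm : Measurable F := by
    rw [hF]
    refine Measurable.mul (Measurable.ite (measurableSet_singleton 0) measurable_const ?_) hv
    fun_prop
  have hz0 : ∀ {ξ : ℂ}, ξ ≠ 0 → ‖ξ‖ₑ ≠ 0 := fun h => by rwa [Ne, enorm_eq_zero]
  have hvF : (fun ξ => omk k ξ * F ξ) = v := by
    funext ξ
    rw [hF]
    dsimp only
    unfold omk
    by_cases h : ξ = 0
    · rw [if_pos h, if_pos h, one_mul, one_mul]
    · rw [if_neg h, if_neg h, ← mul_assoc, ← ENNReal.rpow_add _ _ (hz0 h) enorm_ne_top]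
      rw [show 1 / (k:ℝ) - 2 + (2 - 1 / k) = 0 by ring, ENNReal.rpow_zero, one_mul]
  have h := pitt_abstract k hk (omk k) F (measurable_omk k) hFm (omk_neg k)
  rw [hvF] at h
  refine h.trans ?_
  rw [← lintegral_const_mul' _ _ ENNReal.ofReal_ne_top]
  apply le_of_eq
  refine lintegral_congr_ae ?_
  have hae : ∀ᵐ w : ℂ, w ≠ 0 := by
    simp [ae_iff]
  filter_upwards [hae] with ξ hξ
  rw [lcp_omk hk (2 * k - 2) (by omega) ξ hξ, Gc_two_sub hk, omk, if_neg hξ, hF]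
  dsimp only
  rw [if_neg hξ, mul_pow]
  have e1 : (‖ξ‖ₑ ^ (2 - 1 / (k : ℝ))) ^ (2 * k) = ‖ξ‖ₑ ^ ((2 - 1 / (k : ℝ)) * (2 * k)) := by
    rw [← ENNReal.rpow_natCast, ← ENNReal.rpow_mul]
    push_cast
    rfl
  have e2 : ‖ξ‖ₑ ^ (1 / (k : ℝ) - 2) * ‖ξ‖ₑ ^ ((2 - 1 / (k : ℝ)) * (2 * k)) *
      ‖ξ‖ₑ ^ (((2 * k - 2 + 1 : ℕ) : ℝ) / k - 2) = ‖ξ‖ₑ ^ (4 * k - 4) := by
    rw [← ENNReal.rpow_add _ _ (hz0 hξ) enorm_ne_top, ← ENNReal.rpow_add _ _ (hz0 hξ) enorm_ne_top,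
      ← ENNReal.rpow_natCast]
    congr 1
    rw [show 2 * k - 2 + 1 = 2 * k - 1 by omega, Nat.cast_sub (by omega), Nat.cast_sub (by omega)]
    push_cast
    field_simp
    ring
  rw [e1, ← e2]
  ring

end Helper72.BA.P


namespace Helper72.BA
alias pitt := P.pitt
end Helper72.BA
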