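import Pool.Agent.Helper72.BA.Defs
import Pool.Agent.Helper72.BAM.MT
import Pool.Agent.Helper72.BAM.PC0
import Pool.Agent.Helper72.BAM.PT2
import Pool.Agent.Helper72.BAM.UK

set_option autoImplicit false

open MeasureTheory Complex FourierTransform Filter Topology
open scoped ENNReal NNReal ComplexConjugate

noncomputable section

namespace Helper72.BA.P

open Helper72.BA

lemma finrank_C : Module.finrank ℝ ℂ = 2 := Complex.finrank_real_complex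

/-- scaling for lintegral on ℂ -/
lemma lintegral_scale (F : ℂ → ℝ≥0∞) (hF : Measurable F) (r : ℝ) (hr : 0 < r) :
    ∫⁻ z : ℂ, F (z / r) = ENNReal.ofReal (r ^ 2) * ∫⁻ z, F z := by
  have hr' : r⁻¹ ≠ 0 := (inv_pos.2 hr).ne'
  have hmap := Measure.map_addHaar_smul (volume : Measure ℂ) hr'
  have h1 : ∫⁻ z : ℂ, F (z / r) = ∫⁻ z : ℂ, F ((r⁻¹ : ℝ) • z) := by
    refine lintegral_congr fun z => ?_
    rw [Complex.real_smul, Complex.ofReal_inv, div_eq_inv_mul]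
  rw [h1, ← lintegral_map (μ := volume) (f := F) (g := fun z : ℂ => (r⁻¹ : ℝ) • z) hF
    (by fun_prop), hmap, lintegral_smul_measure, finrank_C]
  congr 1
  congr 1
  rw [inv_pow, inv_inv, abs_of_pos (by positivity)]

lemma lintegral_scale_sub (F : ℂ → ℝ≥0∞) (hF : Measurable F) (r : ℝ) (hr : 0 < r) (z : ℂ) :
    ∫⁻ z₀ : ℂ, F ((z - z₀) / r) = ENNReal.ofReal (r ^ 2) * ∫⁻ w, F w := by
  rw [← lintegral_scale F hF r hr]
  exact lintegral_sub_left_eq_self (μ := volume) (fun w : ℂ => F (w / r)) z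

lemma meas_wu (φ : SchwartzMap ℂ ℂ) (r : ℝ) {g : ℂ → ℂ} (hg : Measurable g) :
    Measurable (fun q : ℂ × ℂ => wu φ r g q.1 q.2) := by
  unfold wu
  have h1 : Continuous (fun q : ℂ × ℂ => φ ((q.2 - q.1) / r)) :=
    φ.continuous.comp (by fun_prop)
  exact h1.measurable.mul (hg.comp measurable_snd)

/-- step (1) : exact window identity, for any exponent. -/
lemma window_identity (p : ℕ) (φ : SchwartzMap ℂ ℂ) (r : ℝ) (hr : 0 < r) {g : ℂ → ℂ}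
    (hg : Measurable g) :
    nrm p φ * nrm p g = ∫⁻ z₀ : ℂ, ENNReal.ofReal ((r ^ 2)⁻¹) * nrm p (wu φ r g z₀) := by
  unfold nrm
  have hφm : Measurable (fun z : ℂ => ‖φ z‖ₑ ^ p) := by
    have := φ.continuous.measurable
    fun_prop
  rw [lintegral_const_mul']
  swap
  · exact ENNReal.ofReal_ne_top
  rw [lintegral_lintegral_swap]
  swap
  · exact ((meas_wu φ r hg).enorm.pow_const p).aemeasurable
  have h1 : ∀ z : ℂ, ∫⁻ z₀ : ℂ, ‖wu φ r g z₀ z‖ₑ ^ p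
      = ‖g z‖ₑ ^ p * (ENNReal.ofReal (r ^ 2) * ∫⁻ w, ‖φ w‖ₑ ^ p) := by
    intro z
    rw [← lintegral_scale_sub (fun w => ‖φ w‖ₑ ^ p) hφm r hr z]
    rw [← lintegral_const_mul']
    · refine lintegral_congr fun z₀ => ?_
      simp only [wu, enorm_mul, mul_pow]
      ring
    · finiteness
  simp only [h1]
  rw [lintegral_mul_const _ (hg.enorm.pow_const p)]
  · have : ENNReal.ofReal ((r ^ 2)⁻¹) * ENNReal.ofReal (r ^ 2) = 1 := by
      rw [← ENNReal.ofReal_mul (by positivity), inv_mul_cancel₀ (by positivity), ENNReal.ofReal_one]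
    calc (∫⁻ z, ‖φ z‖ₑ ^ p) * ∫⁻ z, ‖g z‖ₑ ^ p
        = (ENNReal.ofReal ((r ^ 2)⁻¹) * ENNReal.ofReal (r ^ 2)) * ((∫⁻ z, ‖φ z‖ₑ ^ p) * ∫⁻ z, ‖g z‖ₑ ^ p) := by
          rw [this, one_mul]
      _ = _ := by ring

/-- the density `G(ζ) = |κ⁻¹ θ(ζ/κ)|²` -/
def Gd (θ : ℂ → ℂ) (κ : ℝ) (ζ : ℂ) : ℝ≥0∞ := ‖((κ : ℝ) : ℂ)⁻¹ * θ (ζ / κ)‖ₑ ^ 2

lemma meas_Gd (θ : SchwartzMap ℂ ℂ) (κ : ℝ) : Measurable (Gd θ κ) := by
  unfold Gd
  have h1 : Continuous (fun ζ : ℂ => θ (ζ / κ)) := θ.continuous.comp (by fun_prop)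
  exact (h1.measurable.const_mul _).enorm.pow_const 2

lemma lintegral_Gd (θ : SchwartzMap ℂ ℂ) (hθ : nrm 2 θ = 1) (κ : ℝ) (hκ : 0 < κ) :
    ∫⁻ ζ, Gd θ κ ζ = 1 := by
  unfold Gd
  have hm : Measurable (fun z : ℂ => ‖θ z‖ₑ ^ 2) := by
    have := θ.continuous.measurable
    fun_prop
  have h := lintegral_scale (fun z => ‖θ z‖ₑ ^ 2) hm κ hκ
  have h2 : ∫⁻ z, ‖θ z‖ₑ ^ 2 = 1 := hθ
  rw [h2, mul_one] at h
  have h3 : ∀ ζ : ℂ, ‖((κ : ℝ) : ℂ)⁻¹ * θ (ζ / κ)‖ₑ ^ 2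
      = ENNReal.ofReal ((κ ^ 2)⁻¹) * ‖θ (ζ / κ)‖ₑ ^ 2 := by
    intro ζ
    rw [enorm_mul, mul_pow]
    congr 1
    rw [← ofReal_norm, ← ENNReal.ofReal_pow (norm_nonneg _), norm_inv, Complex.norm_real,
      Real.norm_of_nonneg hκ.le, inv_pow]
  simp only [h3]
  rw [lintegral_const_mul' _ _ ENNReal.ofReal_ne_top, h, ← ENNReal.ofReal_mul (by positivity),
    inv_mul_cancel₀ (by positivity), ENNReal.ofReal_one]

/-- steps (2),(3),(4). -/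
lemma chain_u (k : ℕ) (hk : 2 ≤ k) (θ : SchwartzMap ℂ ℂ) (hθ : nrm 2 θ = 1) (κ : ℝ) (hκ : 0 < κ)
    (u : ℂ → ℂ) (hu : Nice u) (huc : Continuous u) (hui : Integrable (𝓕 u)) :
    nrm (2 * k) u ≤ ENNReal.ofReal (Real.pi ^ (2 * k - 2) * Ak k ^ (2 * k)) *
      ∫⁻ ξ, ‖ξ‖ₑ ^ (4 * k - 4) *
        (∫⁻ η, ‖((κ : ℝ) : ℂ)⁻¹ * θ ((ξ - η) / κ) * 𝓕 u η‖ₑ ^ 2) ^ k := by
  have hF : Measurable (fun ξ => ‖𝓕 u ξ‖ₑ) := by
    have hc : Continuous (𝓕 u) := by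
      have := VectorFourier.fourierIntegral_continuous (V := ℂ) (W := ℂ) (μ := volume)
        Real.continuous_fourierChar (L := innerₗ ℂ) (by exact continuous_inner) hu.int
      exact this
    exact hc.measurable.enorm
  have h1 := nrm_le_lcp k (by omega) u hu huc hui
  have h2 := minkowski_trick (Gd θ κ) (fun ξ => ‖𝓕 u ξ‖ₑ) (meas_Gd θ κ) hF
    (lintegral_Gd θ hθ κ hκ) (k - 1)
  have hv : Measurable (fun ξ => (∫⁻ η, Gd θ κ (ξ - η) * ‖𝓕 u η‖ₑ ^ 2) ^ (1 / 2 : ℝ)) := by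
    refine Measurable.pow_const ?_ _
    refine Measurable.lintegral_prod_right' (f := fun q : ℂ × ℂ => Gd θ κ (q.1 - q.2) * ‖𝓕 u q.2‖ₑ ^ 2) ?_
    exact ((meas_Gd θ κ).comp (measurable_fst.sub measurable_snd)).mul
      ((hF.comp measurable_snd).pow_const 2)
  have h3 := pitt k hk _ hv
  refine h1.trans (h2.trans (h3.trans (le_of_eq ?_)))
  congr 1
  refine lintegral_congr fun ξ => ?_
  congr 1
  rw [← ENNReal.rpow_natCast, ← ENNReal.rpow_mul, ← ENNReal.rpow_natCast]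
  congr 1
  · refine lintegral_congr fun η => ?_
    rw [Gd, ← mul_pow, ← enorm_mul]
  · push_cast
    ring

end Helper72.BA.P
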