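import Pool.Agent.Helper72.BA.Defs
import Pool.Agent.Helper72.BAM.PC1

set_option autoImplicit false

open MeasureTheory Complex FourierTransform Filter Topology
open scoped ENNReal NNReal ComplexConjugate

noncomputable section

namespace Helper72.BA.P

open Helper72.BA

lemma meas_fourier_wu (φ : SchwartzMap ℂ ℂ) (r : ℝ) {g : ℂ → ℂ} (hg : Measurable g) :
    Measurable (fun q : ℂ × ℂ => 𝓕 (wu φ r g q.1) q.2) := by
  have h : (fun q : ℂ × ℂ => 𝓕 (wu φ r g q.1) q.2)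
      = fun q : ℂ × ℂ => ∫ v : ℂ, Real.fourierChar (-(inner ℝ v q.2)) • wu φ r g q.1 v := by
    ext q
    rw [Real.fourier_eq]
  rw [h]
  have h2 : StronglyMeasurable (fun q : (ℂ × ℂ) × ℂ =>
      Real.fourierChar (-(inner ℝ q.2 q.1.2)) • wu φ r g q.1.1 q.2) := by
    have h3 : Measurable (fun q : (ℂ × ℂ) × ℂ => ((Real.fourierChar (-(inner ℝ q.2 q.1.2)) : Circle) : ℂ)) := by
      have : Continuous (fun q : (ℂ × ℂ) × ℂ => ((Real.fourierChar (-(inner ℝ q.2 q.1.2)) : Circle) : ℂ)) := by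
        fun_prop
      exact this.measurable
    have h4 : Measurable (fun q : (ℂ × ℂ) × ℂ => wu φ r g q.1.1 q.2) :=
      (meas_wu φ r hg).comp (measurable_fst.fst.prodMk measurable_snd)
    exact (h3.mul h4).stronglyMeasurable
  exact h2.integral_prod_right'.measurable

lemma fourier_add' {a b : ℂ → ℂ} (ha : Integrable a) (hb : Integrable b) (ξ : ℂ) :
    𝓕 (fun z => a z + b z) ξ = 𝓕 a ξ + 𝓕 b ξ := by
  simp only [Real.fourier_eq, smul_add]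
  rw [integral_add]
  · exact (Real.fourierIntegral_convergent_iff ξ).2 ha
  · exact (Real.fourierIntegral_convergent_iff ξ).2 hb

lemma fourier_smul' (c : ℂ) (a : ℂ → ℂ) (ξ : ℂ) :
    𝓕 (fun z => c * a z) ξ = c * 𝓕 a ξ := by
  simp only [Real.fourier_eq, Circle.smul_def, smul_eq_mul]
  rw [← integral_const_mul]
  congr 1
  ext z
  ring

/-- the operators to which RT2 is applied -/
def SS (φ θ : ℂ → ℂ) (n : ℕ) (W : Finset ℤ) (κ r : ℝ) (f : ℂ → ℂ) (x : ℂ × ℂ) (η : ℂ) : ℂ :=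
  ((‖x.2‖ ^ 2 : ℝ) : ℂ) * (((κ : ℝ) : ℂ)⁻¹ * θ ((x.2 - η) / κ) * 𝓕 (wu φ r (gW n W f) x.1) η)

lemma t1 (θ : SchwartzMap ℂ ℂ) (κ : ℝ) : Measurable (fun q : (ℂ × ℂ) × ℂ => θ ((q.1.2 - q.2) / κ)) := by
  have h1 : Continuous (fun q : (ℂ × ℂ) × ℂ => θ ((q.1.2 - q.2) / κ)) :=
    θ.continuous.comp (by fun_prop)
  exact h1.measurable

lemma t3 : Measurable (fun q : (ℂ × ℂ) × ℂ => ((‖q.1.2‖ ^ 2 : ℝ) : ℂ)) := by
  have : Continuous (fun q : (ℂ × ℂ) × ℂ => ((‖q.1.2‖ ^ 2 : ℝ) : ℂ)) := by fun_prop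
  exact this.measurable

lemma t2 (G : ℂ × ℂ → ℂ) (hG : Measurable G) : Measurable (fun q : (ℂ × ℂ) × ℂ => G (q.1.1, q.2)) :=
  hG.comp (measurable_fst.fst.prodMk measurable_snd)

lemma t4 (A B C : (ℂ × ℂ) × ℂ → ℂ) (c : ℂ) (hA : Measurable A) (hB : Measurable B) (hC : Measurable C) :
    Measurable (fun q => A q * (c * B q * C q)) := hA.mul ((hB.const_mul c).mul hC)

lemma SS_meas (φ θ : SchwartzMap ℂ ℂ) (n : ℕ) (W : Finset ℤ) (κ r : ℝ) {f : ℂ → ℂ} (hf : Nice f) :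
    Measurable (Function.uncurry (SS φ θ n W κ r f)) := by
  have h20 := meas_fourier_wu φ r (nice_gW n W hf).meas
  exact t4 (fun q => ((‖q.1.2‖ ^ 2 : ℝ) : ℂ)) (fun q => θ ((q.1.2 - q.2) / κ))
    (fun q => (fun p : ℂ × ℂ => 𝓕 (wu φ r (gW n W f) p.1) p.2) (q.1.1, q.2)) (((κ : ℝ) : ℂ)⁻¹)
    t3 (t1 θ κ) (t2 _ h20)

lemma SS_add (φ θ : SchwartzMap ℂ ℂ) (hφ : ∀ z, ‖φ z‖ ≤ 1) (n : ℕ) (W : Finset ℤ) (κ r : ℝ)
    {f g : ℂ → ℂ} (hf : Nice f) (hg : Nice g) :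
    SS φ θ n W κ r (f + g) = SS φ θ n W κ r f + SS φ θ n W κ r g := by
  ext x η
  simp only [SS, Pi.add_apply]
  have h1 : wu φ r (gW n W (f + g)) x.1
      = fun z => wu φ r (gW n W f) x.1 z + wu φ r (gW n W g) x.1 z := by
    ext z
    simp only [wu, gW_add n W hf hg, Pi.add_apply]
    ring
  rw [h1, fourier_add' (nice_wu φ hφ r (nice_gW n W hf) _).int (nice_wu φ hφ r (nice_gW n W hg) _).int]
  ring

lemma SS_smul (φ θ : SchwartzMap ℂ ℂ) (n : ℕ) (W : Finset ℤ) (κ r : ℝ) (c : ℂ) (f : ℂ → ℂ) :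
    SS φ θ n W κ r (c • f) = c • SS φ θ n W κ r f := by
  ext x η
  simp only [SS, Pi.smul_apply, smul_eq_mul]
  have h1 : wu φ r (gW n W (c • f)) x.1 = fun z => c * wu φ r (gW n W f) x.1 z := by
    ext z
    simp only [wu, gW_smul, Pi.smul_apply, smul_eq_mul]
    ring
  rw [h1, fourier_smul']
  ring

/-- the measure -/
def mu (r : ℝ) : Measure (ℂ × ℂ) :=
  ((volume : Measure ℂ).withDensity (fun _ => ENNReal.ofReal ((r ^ 2)⁻¹))).prod
    ((volume : Measure ℂ).withDensity (fun ξ => ENNReal.ofReal ((‖ξ‖ ^ 4)⁻¹)))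

instance (r : ℝ) : SigmaFinite (mu r) := by
  unfold mu
  infer_instance

lemma lintegral_mu (r : ℝ) (F : ℂ × ℂ → ℝ≥0∞) (hF : Measurable F) :
    ∫⁻ x, F x ∂(mu r) = ∫⁻ z₀ : ℂ, ENNReal.ofReal ((r ^ 2)⁻¹) *
      ∫⁻ ξ : ℂ, ENNReal.ofReal ((‖ξ‖ ^ 4)⁻¹) * F (z₀, ξ) := by
  unfold mu
  have hd : Measurable (fun ξ : ℂ => ENNReal.ofReal ((‖ξ‖ ^ 4)⁻¹)) := by fun_prop
  rw [lintegral_prod _ hF.aemeasurable]
  rw [lintegral_withDensity_eq_lintegral_mul _ measurable_const hF.lintegral_prod_right']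
  refine lintegral_congr fun z₀ => ?_
  simp only [Pi.mul_apply]
  congr 1
  have hF' : Measurable (fun y : ℂ => F (z₀, y)) := hF.comp measurable_prodMk_left
  rw [lintegral_withDensity_eq_lintegral_mul _ hd hF']
  rfl

end Helper72.BA.P
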