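import Pool.Agent.Helper72.BA.Defs
import Pool.Agent.Helper72.BAM.FB2
import Pool.Agent.Helper72.BAM.PC2

set_option autoImplicit false

open MeasureTheory Complex FourierTransform Filter Topology
open scoped ENNReal NNReal ComplexConjugate

noncomputable section

namespace Helper72.BA.P

open Helper72.BA

lemma inv_mul_le (ξ : ℂ) (x : ℝ≥0∞) :
    ENNReal.ofReal ((‖ξ‖ ^ 4)⁻¹) * (ENNReal.ofReal (‖ξ‖ ^ 4) * x) ≤ x := by
  rcases eq_or_ne ξ 0 with h | h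
  · simp [h]
  · have h' : (0:ℝ) < ‖ξ‖ ^ 4 := by positivity
    rw [← mul_assoc, ← ENNReal.ofReal_mul (by positivity), inv_mul_cancel₀ h'.ne', ENNReal.ofReal_one,
      one_mul]

lemma SS_sq (φ θ : ℂ → ℂ) (n : ℕ) (W : Finset ℤ) (κ r : ℝ) (f : ℂ → ℂ) (z₀ ξ : ℂ) :
    ∫⁻ η, ‖SS φ θ n W κ r f (z₀, ξ) η‖ₑ ^ 2 = ENNReal.ofReal (‖ξ‖ ^ 4) *
      ∫⁻ η, ‖((κ : ℝ) : ℂ)⁻¹ * θ ((ξ - η) / κ) * 𝓕 (wu φ r (gW n W f) z₀) η‖ₑ ^ 2 := by
  rw [← lintegral_const_mul' _ _ ENNReal.ofReal_ne_top]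
  refine lintegral_congr fun η => ?_
  simp only [SS]
  rw [enorm_mul, mul_pow]
  congr 1
  rw [← ofReal_norm, ← ENNReal.ofReal_pow (norm_nonneg _), Complex.norm_real,
    Real.norm_of_nonneg (by positivity), ← pow_mul]

lemma meas_SS_sq (φ θ : SchwartzMap ℂ ℂ) (n : ℕ) (W : Finset ℤ) (κ r : ℝ) {f : ℂ → ℂ} (hf : Nice f) :
    Measurable (fun x : ℂ × ℂ => ∫⁻ η, ‖SS φ θ n W κ r f x η‖ₑ ^ 2) := by
  have h := (SS_meas φ θ n W κ r hf).enorm.pow_const 2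
  exact h.lintegral_prod_right'

lemma fourier_continuous {u : ℂ → ℂ} (hu : Integrable u) : Continuous (𝓕 u) := by
  have := VectorFourier.fourierIntegral_continuous (V := ℂ) (W := ℂ) (μ := volume)
    Real.continuous_fourierChar (L := innerₗ ℂ) (by exact continuous_inner) hu
  exact this

/-- L² bound for one window -/
lemma SS_L2 (φ θ : SchwartzMap ℂ ℂ) (hφ : ∀ z, ‖φ z‖ ≤ 1) (hθ : nrm 2 θ = 1) (n : ℕ) (W : Finset ℤ)
    (κ r : ℝ) (hκ : 0 < κ) (hr : 0 < r) {f : ℂ → ℂ} (hf : Nice f) :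
    ∫⁻ x, (∫⁻ η, ‖SS φ θ n W κ r f x η‖ₑ ^ 2) ∂(mu r) ≤ nrm 2 φ * nrm 2 (gW n W f) := by
  rw [lintegral_mu r _ (meas_SS_sq φ θ n W κ r hf), window_identity 2 φ r hr (nice_gW n W hf).meas]
  refine lintegral_mono fun z₀ => ?_
  gcongr
  have hu := nice_wu φ hφ r (nice_gW n W hf) z₀
  have hFm : Measurable (fun η => ‖𝓕 (wu φ r (gW n W f) z₀) η‖ₑ ^ 2) :=
    (fourier_continuous hu.int).measurable.enorm.pow_const 2
  calc ∫⁻ ξ : ℂ, ENNReal.ofReal ((‖ξ‖ ^ 4)⁻¹) * ∫⁻ η, ‖SS φ θ n W κ r f (z₀, ξ) η‖ₑ ^ 2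
      ≤ ∫⁻ ξ : ℂ, ∫⁻ η, ‖((κ : ℝ) : ℂ)⁻¹ * θ ((ξ - η) / κ) * 𝓕 (wu φ r (gW n W f) z₀) η‖ₑ ^ 2 := by
        refine lintegral_mono fun ξ => ?_
        rw [SS_sq]
        exact inv_mul_le ξ _
    _ = ∫⁻ ξ : ℂ, ∫⁻ η, Gd θ κ (ξ - η) * ‖𝓕 (wu φ r (gW n W f) z₀) η‖ₑ ^ 2 := by
        refine lintegral_congr fun ξ => lintegral_congr fun η => ?_
        rw [Gd, ← mul_pow, ← enorm_mul]
    _ = ∫⁻ η : ℂ, ∫⁻ ξ, Gd θ κ (ξ - η) * ‖𝓕 (wu φ r (gW n W f) z₀) η‖ₑ ^ 2 := by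
        rw [lintegral_lintegral_swap]
        exact (((meas_Gd θ κ).comp (measurable_fst.sub measurable_snd)).mul
          (hFm.comp measurable_snd)).aemeasurable
    _ = ∫⁻ η : ℂ, ‖𝓕 (wu φ r (gW n W f) z₀) η‖ₑ ^ 2 := by
        refine lintegral_congr fun η => ?_
        have hG : Measurable (fun ξ : ℂ => Gd θ κ (ξ - η)) :=
          (meas_Gd θ κ).comp (measurable_id.sub_const η)
        rw [lintegral_mul_const _ hG,
          lintegral_sub_right_eq_self (μ := volume) (fun w : ℂ => Gd θ κ w) η,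
          lintegral_Gd θ hθ κ hκ, one_mul]
    _ = nrm 2 (wu φ r (gW n W f) z₀) := plancherel hu

/-- lower bound: the windowed functional dominates the norm -/
lemma SS_lower (k : ℕ) (hk : 2 ≤ k) (φ θ : SchwartzMap ℂ ℂ) (hφ : ∀ z, ‖φ z‖ ≤ 1) (hθ : nrm 2 θ = 1)
    (n : ℕ) (W : Finset ℤ) (κ r : ℝ) (hκ : 0 < κ) (hr : 0 < r) {f : ℂ → ℂ} (hf : Nice f) :
    nrm (2 * k) φ * nrm (2 * k) (gW n W f) ≤
      ENNReal.ofReal (Real.pi ^ (2 * k - 2) * Ak k ^ (2 * k)) *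
      ∫⁻ x, (∫⁻ η, ‖SS φ θ n W κ r f x η‖ₑ ^ 2) ^ ((2 * k : ℝ) / 2) ∂(mu r) := by
  have hmeas : Measurable (fun x : ℂ × ℂ =>
      (∫⁻ η, ‖SS φ θ n W κ r f x η‖ₑ ^ 2) ^ ((2 * k : ℝ) / 2)) :=
    (meas_SS_sq φ θ n W κ r hf).pow_const _
  rw [lintegral_mu r _ hmeas, window_identity (2 * k) φ r hr (nice_gW n W hf).meas,
    ← lintegral_const_mul' _ _ ENNReal.ofReal_ne_top]
  refine lintegral_mono fun z₀ => ?_
  have hu := nice_wu φ hφ r (nice_gW n W hf) z₀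
  have huc := continuous_wu φ r (continuous_gW n W hf) z₀
  have hui := integrable_fourier_wu φ r hr (nice_gW n W hf) (continuous_gW n W hf)
    (integrable_fourier_gW n W hf) z₀
  have h := chain_u k hk θ hθ κ hκ _ hu huc hui
  calc ENNReal.ofReal ((r ^ 2)⁻¹) * nrm (2 * k) (wu φ r (gW n W f) z₀)
      ≤ ENNReal.ofReal ((r ^ 2)⁻¹) * (ENNReal.ofReal (Real.pi ^ (2 * k - 2) * Ak k ^ (2 * k)) *
      ∫⁻ ξ, ‖ξ‖ₑ ^ (4 * k - 4) *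
        (∫⁻ η, ‖((κ : ℝ) : ℂ)⁻¹ * θ ((ξ - η) / κ) * 𝓕 (wu φ r (gW n W f) z₀) η‖ₑ ^ 2) ^ k) := by
        gcongr
    _ = ENNReal.ofReal (Real.pi ^ (2 * k - 2) * Ak k ^ (2 * k)) * (ENNReal.ofReal ((r ^ 2)⁻¹) *
      ∫⁻ ξ, ‖ξ‖ₑ ^ (4 * k - 4) *
        (∫⁻ η, ‖((κ : ℝ) : ℂ)⁻¹ * θ ((ξ - η) / κ) * 𝓕 (wu φ r (gW n W f) z₀) η‖ₑ ^ 2) ^ k) := by
        ring
    _ ≤ _ := by
        gcongr ENNReal.ofReal _ * (ENNReal.ofReal _ * ?_)
        refine lintegral_mono fun ξ => ?_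
        rw [SS_sq]
        set v := ∫⁻ η, ‖((κ : ℝ) : ℂ)⁻¹ * θ ((ξ - η) / κ) * 𝓕 (wu φ r (gW n W f) z₀) η‖ₑ ^ 2 with hv
        have e1 : ((2 * k : ℝ) / 2) = ((k : ℕ) : ℝ) := by ring
        rw [e1, ENNReal.rpow_natCast, mul_pow, ← mul_assoc]
        gcongr ?_ * _
        rcases eq_or_ne ξ 0 with h0 | h0
        · subst h0
          have : 4 * k - 4 ≠ 0 := by omega
          simp [this]
        · have h' : (0:ℝ) < ‖ξ‖ := norm_pos_iff.2 h0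
          rw [← ofReal_norm, ← ENNReal.ofReal_pow h'.le, ← ENNReal.ofReal_pow (by positivity),
            ← ENNReal.ofReal_mul (by positivity)]
          apply le_of_eq
          congr 1
          obtain ⟨m, rfl⟩ : ∃ m, k = m + 1 := ⟨k - 1, by omega⟩
          have e2 : 4 * (m + 1) - 4 = 4 * m := by omega
          rw [e2, ← pow_mul]
          field_simp
          ring

end Helper72.BA.P
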