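import Pool.Agent.Helper72.BA.Defs

/-!
# Module RT2: Riesz–Thorin interpolation `L² – L^∞`, Hilbert space valued
-/

set_option autoImplicit false

open MeasureTheory Complex FourierTransform Filter Topology
open scoped ENNReal NNReal ComplexConjugate

noncomputable section

namespace Helper72.BA.P

namespace RT2aux

/-! ### three lines for finite exponential sums -/

/-- entire and bounded on the strip -/
def Good (F : ℂ → ℂ) : Prop :=
  Differentiable ℂ F ∧ ∃ B : ℝ, ∀ z : ℂ, 0 ≤ z.re → z.re ≤ 1 → ‖F z‖ ≤ B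

theorem Good.sum {κ : Type*} (K : Finset κ) (F : κ → ℂ → ℂ) (h : ∀ k ∈ K, Good (F k)) :
    Good (fun z => ∑ k ∈ K, F k z) := by
  classical
  induction K using Finset.induction_on with
  | empty =>
    refine ⟨?_, 0, fun z _ _ => ?_⟩
    · simp
    · simp
  | insert a s ha ih =>
    obtain ⟨hd, B, hB⟩ := ih (fun k hk => h k (Finset.mem_insert_of_mem hk))
    obtain ⟨hd', B', hB'⟩ := h a (Finset.mem_insert_self a s)
    simp only [Finset.sum_insert ha]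
    exact ⟨hd'.add hd, B' + B, fun z h0 h1 =>
      (norm_add_le _ _).trans (add_le_add (hB' z h0 h1) (hB z h0 h1))⟩

theorem good_exp (c : ℂ) (u v : ℝ) : Good (fun z => c * Complex.exp (u + v * z)) := by
  refine ⟨by fun_prop, ‖c‖ * Real.exp (u + |v|), fun z h0 h1 => ?_⟩
  rw [norm_mul, Complex.norm_exp]
  gcongr
  have : ((u : ℂ) + v * z).re = u + v * z.re := by simp
  rw [this]
  have h2 : v * z.re ≤ |v| * 1 := by
    calc v * z.re ≤ |v| * z.re := by gcongr; exact le_abs_self v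
      _ ≤ |v| * 1 := by gcongr
  linarith

theorem three_lines {F : ℂ → ℂ} (hF : Good F) {a b : ℝ}
    (h0 : ∀ z : ℂ, z.re = 0 → ‖F z‖ ≤ a) (h1 : ∀ z : ℂ, z.re = 1 → ‖F z‖ ≤ b)
    (θ : ℝ) (hθ0 : 0 ≤ θ) (hθ1 : θ ≤ 1) : ‖F θ‖ ≤ a ^ (1 - θ) * b ^ θ := by
  obtain ⟨hd, B, hB⟩ := hF
  have := Complex.HadamardThreeLines.norm_le_interp_of_mem_verticalClosedStrip' (f := F)
    (z := (θ : ℂ)) (a := a) (b := b) (l := 0) (u := 1) one_pos ?_ hd.diffContOnCl ?_ ?_ ?_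
  · simpa using this
  · simp [Complex.HadamardThreeLines.verticalClosedStrip, hθ0, hθ1]
  · refine ⟨B, ?_⟩
    rintro _ ⟨z, hz, rfl⟩
    simp only [Complex.HadamardThreeLines.verticalClosedStrip, Set.mem_preimage, Set.mem_Icc] at hz
    exact hB z hz.1 hz.2
  · intro z hz; exact h0 z hz
  · intro z hz; exact h1 z hz

/-! ### the pairing in `L²(ν)` -/

section pairing

variable {Y : Type*} [MeasurableSpace Y] {ν : Measure Y}

theorem cauchy {H F : Y → ℂ} (hH : Measurable H) (hF : Measurable F) :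
    ∫⁻ y, ‖H y * conj (F y)‖ₑ ∂ν ≤
      (∫⁻ y, ‖H y‖ₑ ^ 2 ∂ν) ^ (1 / 2 : ℝ) * (∫⁻ y, ‖F y‖ₑ ^ 2 ∂ν) ^ (1 / 2 : ℝ) := by
  have h := ENNReal.lintegral_mul_le_Lp_mul_Lq ν (p := 2) (q := 2)
    (by norm_num [Real.holderConjugate_iff]) (f := fun y => ‖H y‖ₑ) (g := fun y => ‖F y‖ₑ)
    hH.enorm.aemeasurable hF.enorm.aemeasurable
  have e : ∀ y, ‖H y * conj (F y)‖ₑ = ((fun y => ‖H y‖ₑ) * fun y => ‖F y‖ₑ) y := by
    intro y
    rw [enorm_mul, Pi.mul_apply]
    congr 1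
    rw [← ofReal_norm, ← ofReal_norm, RCLike.norm_conj]
  simp_rw [e]
  refine h.trans (le_of_eq ?_)
  norm_num [ENNReal.rpow_two]

theorem integrable_pair {H F : Y → ℂ} (hH : Measurable H) (hF : Measurable F)
    (hH2 : ∫⁻ y, ‖H y‖ₑ ^ 2 ∂ν < ∞) (hF2 : ∫⁻ y, ‖F y‖ₑ ^ 2 ∂ν < ∞) :
    Integrable (fun y => H y * conj (F y)) ν := by
  refine ⟨(hH.mul (Complex.continuous_conj.measurable.comp hF)).aestronglyMeasurable, ?_⟩
  refine lt_of_le_of_lt (cauchy hH hF) ?_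
  exact ENNReal.mul_lt_top (ENNReal.rpow_lt_top_of_nonneg (by norm_num) hH2.ne)
    (ENNReal.rpow_lt_top_of_nonneg (by norm_num) hF2.ne)

theorem enorm_pair_le {H F : Y → ℂ} (hH : Measurable H) (hF : Measurable F) :
    ‖∫ y, H y * conj (F y) ∂ν‖ₑ ≤
      (∫⁻ y, ‖H y‖ₑ ^ 2 ∂ν) ^ (1 / 2 : ℝ) * (∫⁻ y, ‖F y‖ₑ ^ 2 ∂ν) ^ (1 / 2 : ℝ) :=
  (enorm_integral_le_lintegral_enorm _).trans (cauchy hH hF)

theorem pair_self {F : Y → ℂ} (hF : Measurable F) :
    ∫ y, F y * conj (F y) ∂ν = ((∫⁻ y, ‖F y‖ₑ ^ 2 ∂ν).toReal : ℂ) := by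
  have e : ∀ y, F y * conj (F y) = ((‖F y‖ ^ 2 : ℝ) : ℂ) := by
    intro y
    rw [Complex.mul_conj, Complex.normSq_eq_norm_sq]
  simp_rw [e]
  rw [integral_complex_ofReal]
  congr 1
  rw [integral_eq_lintegral_of_nonneg_ae (Eventually.of_forall fun y => by positivity)
    (by fun_prop)]
  congr 2
  ext y
  rw [ENNReal.ofReal_pow (norm_nonneg _), ofReal_norm]

end pairing

/-! ### finite families -/

theorem memLp_two_iff {Y : Type*} [MeasurableSpace Y] {ν : Measure Y} {f : Y → ℂ}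
    (hf : Measurable f) : MemLp f 2 ν ↔ ∫⁻ y, ‖f y‖ₑ ^ 2 ∂ν < ∞ := by
  have h := eLpNorm_lt_top_iff_lintegral_rpow_enorm_lt_top (f := f) (μ := ν) (p := 2)
    (by norm_num) (by norm_num)
  constructor
  · intro h1
    have := h.1 h1.2
    simpa using this
  · intro h1
    refine ⟨hf.aestronglyMeasurable, h.2 ?_⟩
    simpa using h1

section family

variable {ι X Y : Type*} [MeasurableSpace X] [MeasurableSpace Y] {ν : Measure Y} [SigmaFinite ν]
  (C : Finset ℂ) (h : ι → ℂ → X → Y → ℂ)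

/-- linear combinations of the family -/
def FF (a : ℂ → ℂ) (i : ι) (x : X) (y : Y) : ℂ := ∑ c ∈ C, a c * h i c x y

/-- their norms in `L²(ν)` -/
def NN (ν : Measure Y) (a : ℂ → ℂ) (i : ι) (x : X) : ℝ≥0∞ :=
  (∫⁻ y, ‖FF C h a i x y‖ₑ ^ 2 ∂ν) ^ (1 / 2 : ℝ)

/-- the normalised pairing with `F = ∑ c h_c` -/
def gg (ν : Measure Y) (i : ι) (c : ℂ) (x : X) : ℂ :=
  ((NN C h ν id i x).toReal⁻¹ : ℝ) * ∫ y, h i c x y * conj (FF C h id i x y) ∂ν

variable (hm : ∀ i c, Measurable (Function.uncurry (h i c)))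

include hm

theorem FF_meas (a : ℂ → ℂ) (i : ι) : Measurable (Function.uncurry (FF C h a i)) := by
  have : Function.uncurry (FF C h a i) = fun q : X × Y => ∑ c ∈ C, a c * Function.uncurry (h i c) q := by
    ext ⟨x, y⟩; rfl
  rw [this]
  refine Finset.measurable_sum _ fun c _ => ?_
  exact (hm i c).const_mul _

theorem FF_meas' (a : ℂ → ℂ) (i : ι) (x : X) : Measurable (FF C h a i x) :=
  (FF_meas C h hm a i).comp measurable_prodMk_left

theorem h_meas' (i : ι) (c : ℂ) (x : X) : Measurable (h i c x) :=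
  (hm i c).comp measurable_prodMk_left

theorem NN_meas (a : ℂ → ℂ) (i : ι) : Measurable (NN C h ν a i) := by
  unfold NN
  refine Measurable.pow_const ?_ _
  exact Measurable.lintegral_prod_right' (f := fun q : X × Y => ‖FF C h a i q.1 q.2‖ₑ ^ 2)
    (((FF_meas C h hm a i).enorm).pow_const 2)

theorem gg_meas (i : ι) (c : ℂ) : Measurable (gg C h ν i c) := by
  unfold gg
  refine Measurable.mul ?_ ?_
  · exact Complex.measurable_ofReal.comp (NN_meas C h hm id i).ennreal_toReal.inv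
  · refine StronglyMeasurable.measurable ?_
    exact StronglyMeasurable.integral_prod_right' (f := fun q : X × Y =>
      h i c q.1 q.2 * conj (FF C h id i q.1 q.2))
      ((hm i c).mul (Complex.continuous_conj.measurable.comp (FF_meas C h hm id i))).stronglyMeasurable

variable {A : Finset ι} {M : ℝ≥0}
  (hM : ∀ i ∈ A, ∀ c ∈ C, ∀ x, ∫⁻ y, ‖h i c x y‖ₑ ^ 2 ∂ν ≤ (M : ℝ≥0∞) ^ 2)

include hM

theorem FF_lt_top (a : ℂ → ℂ) {i : ι} (hi : i ∈ A) (x : X) :
    ∫⁻ y, ‖FF C h a i x y‖ₑ ^ 2 ∂ν < ∞ := by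
  rw [← memLp_two_iff (FF_meas' C h hm a i x)]
  refine memLp_finsetSum _ fun c hc => ?_
  refine MemLp.const_mul ?_ _
  rw [memLp_two_iff (h_meas' h hm i c x)]
  exact lt_of_le_of_lt (hM i hi c hc x) (by finiteness)

theorem h_lt_top {i : ι} (hi : i ∈ A) {c : ℂ} (hc : c ∈ C) (x : X) :
    ∫⁻ y, ‖h i c x y‖ₑ ^ 2 ∂ν < ∞ := lt_of_le_of_lt (hM i hi c hc x) (by finiteness)

theorem NN_lt_top (a : ℂ → ℂ) {i : ι} (hi : i ∈ A) (x : X) : NN C h ν a i x < ∞ :=
  ENNReal.rpow_lt_top_of_nonneg (by norm_num) (FF_lt_top C h hm hM a hi x).ne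

theorem sum_gg (a : ℂ → ℂ) {i : ι} (hi : i ∈ A) (x : X) :
    ∑ c ∈ C, a c * gg C h ν i c x = ((NN C h ν id i x).toReal⁻¹ : ℝ) *
      ∫ y, FF C h a i x y * conj (FF C h id i x y) ∂ν := by
  have e : ∀ y, FF C h a i x y * conj (FF C h id i x y) =
      ∑ c ∈ C, a c * (h i c x y * conj (FF C h id i x y)) := by
    intro y
    conv_lhs => rw [FF, Finset.sum_mul]
    exact Finset.sum_congr rfl fun c _ => by ring
  simp_rw [e]
  rw [integral_finsetSum]
  · rw [Finset.mul_sum]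
    refine Finset.sum_congr rfl fun c _ => ?_
    rw [integral_const_mul, gg]
    ring
  · intro c hc
    refine Integrable.const_mul ?_ _
    exact integrable_pair (h_meas' h hm i c x) (FF_meas' C h hm id i x)
      (h_lt_top C h hm hM hi hc x) (FF_lt_top C h hm hM id hi x)

theorem enorm_sum_gg_le (a : ℂ → ℂ) {i : ι} (hi : i ∈ A) (x : X) :
    ‖∑ c ∈ C, a c * gg C h ν i c x‖ₑ ≤ NN C h ν a i x := by
  rw [sum_gg C h hm hM a hi x, enorm_mul]
  have h1 := enorm_pair_le (ν := ν) (FF_meas' C h hm a i x) (FF_meas' C h hm id i x)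
  have h2 : ‖((((NN C h ν id i x).toReal⁻¹ : ℝ)) : ℂ)‖ₑ ≤ (NN C h ν id i x)⁻¹ := by
    rw [← ofReal_norm, Complex.norm_real, Real.norm_of_nonneg (by positivity)]
    by_cases h0 : NN C h ν id i x = 0
    · rw [h0]; simp
    · rw [ENNReal.ofReal_inv_of_pos (ENNReal.toReal_pos h0 (NN_lt_top C h hm hM id hi x).ne),
        ENNReal.ofReal_toReal (NN_lt_top C h hm hM id hi x).ne]
  calc _ ≤ (NN C h ν id i x)⁻¹ * (NN C h ν a i x * NN C h ν id i x) := by
        gcongr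
        exact h1
    _ = (NN C h ν id i x * (NN C h ν id i x)⁻¹) * NN C h ν a i x := by ring
    _ ≤ 1 * NN C h ν a i x := by
        gcongr
        exact ENNReal.mul_inv_le_one _
    _ = _ := one_mul _

theorem sum_gg_self {i : ι} (hi : i ∈ A) (x : X) :
    ∑ c ∈ C, c * gg C h ν i c x = ((NN C h ν id i x).toReal : ℂ) := by
  have h1 := sum_gg C h hm hM id hi x
  simp only [id_eq] at h1
  rw [h1, pair_self (FF_meas' C h hm id i x)]
  have h2 : (∫⁻ y, ‖FF C h id i x y‖ₑ ^ 2 ∂ν).toReal = (NN C h ν id i x).toReal ^ 2 := by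
    unfold NN
    rw [← ENNReal.toReal_pow, ← ENNReal.rpow_two, ← ENNReal.rpow_mul]
    norm_num
  rw [h2]
  by_cases h0 : (NN C h ν id i x).toReal = 0
  · rw [h0]; simp
  · push_cast
    field_simp

theorem norm_gg_le {i : ι} (hi : i ∈ A) {c : ℂ} (hc : c ∈ C) (x : X) :
    ‖gg C h ν i c x‖ₑ ≤ M := by
  classical
  have h1 := enorm_sum_gg_le C h hm hM (fun c' => if c' = c then 1 else 0) hi x
  have e1 : ∑ c' ∈ C, (if c' = c then (1 : ℂ) else 0) * gg C h ν i c' x = gg C h ν i c x := by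
    simp [hc]
  rw [e1] at h1
  refine h1.trans ?_
  have e2 : ∀ y, FF C h (fun c' => if c' = c then 1 else 0) i x y = h i c x y := by
    intro y
    simp [FF, hc]
  unfold NN
  simp_rw [e2]
  calc (∫⁻ y, ‖h i c x y‖ₑ ^ 2 ∂ν) ^ (1 / 2 : ℝ) ≤ ((M : ℝ≥0∞) ^ 2) ^ (1 / 2 : ℝ) := by
        gcongr
        exact hM i hi c hc x
    _ = M := by
        rw [← ENNReal.rpow_two, ← ENNReal.rpow_mul]; norm_num

end family

/-! ### level sets of simple functions -/

theorem level_sum {X : Type*} [MeasurableSpace X] (m : Measure X) (s : SimpleFunc X ℝ≥0)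
    (ψ : ℝ≥0 → ℝ≥0∞) (G : X → ℝ≥0∞) (hG : Measurable G) :
    ∑ l ∈ s.range.filter (· ≠ 0), ψ l * ∫⁻ x in s ⁻¹' {l}, G x ∂m =
      ∫⁻ x, (if s x = 0 then 0 else ψ (s x)) * G x ∂m := by
  classical
  have e : ∀ x, (if s x = 0 then 0 else ψ (s x)) * G x =
      ∑ l ∈ s.range.filter (· ≠ 0), (s ⁻¹' {l}).indicator (fun x => ψ l * G x) x := by
    intro x
    by_cases h0 : s x = 0
    · rw [if_pos h0, zero_mul]
      refine (Finset.sum_eq_zero fun l hl => ?_).symm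
      rw [Finset.mem_filter] at hl
      rw [Set.indicator_of_notMem]
      simp only [Set.mem_preimage, Set.mem_singleton_iff]
      intro h1
      exact hl.2 (h1.symm.trans h0)
    · rw [if_neg h0, Finset.sum_eq_single (s x)]
      · rw [Set.indicator_of_mem]
        simp
      · intro l _ hl
        rw [Set.indicator_of_notMem]
        simp only [Set.mem_preimage, Set.mem_singleton_iff]
        exact fun h1 => hl h1.symm
      · intro h1
        exfalso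
        apply h1
        rw [Finset.mem_filter]
        exact ⟨s.mem_range_self x, h0⟩
  simp_rw [e]
  rw [lintegral_finsetSum]
  · refine Finset.sum_congr rfl fun l _ => ?_
    rw [lintegral_indicator (s.measurableSet_preimage _), lintegral_const_mul _ hG]
  · intro l _
    exact (hG.const_mul _).indicator (s.measurableSet_preimage _)

/-- the exponential factor for the values -/
def phi (p : ℝ) (z : ℂ) (c : ℂ) : ℂ := c * Complex.exp ((p * (1 - z) / 2 - 1) * Real.log ‖c‖)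

/-- the exponential factor for the weights -/
def lw (p : ℝ) (z : ℂ) (l : ℝ≥0) : ℂ := Complex.exp ((p * (1 + z) / 2) * Real.log l)

theorem norm_phi (p : ℝ) (z : ℂ) {c : ℂ} (hc : c ≠ 0) :
    ‖phi p z c‖ = ‖c‖ ^ (p * (1 - z.re) / 2) := by
  have hc' : 0 < ‖c‖ := norm_pos_iff.2 hc
  rw [phi, norm_mul, Complex.norm_exp]
  have : ((p * (1 - z) / 2 - 1) * Real.log ‖c‖ : ℂ).re = Real.log ‖c‖ * (p * (1 - z.re) / 2 - 1) := by
    have e : ((p * (1 - z) / 2 - 1) * Real.log ‖c‖ : ℂ) =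
        (Real.log ‖c‖ : ℂ) * ((p / 2 : ℝ) * (1 - z) - 1) := by push_cast; ring
    rw [e, Complex.re_ofReal_mul, Complex.sub_re, Complex.re_ofReal_mul, Complex.sub_re,
      Complex.one_re]
    ring
  rw [this, ← Real.rpow_def_of_pos hc']
  nth_rewrite 1 [← Real.rpow_one ‖c‖]
  rw [← Real.rpow_add hc']
  congr 1
  ring

theorem norm_lw (p : ℝ) (z : ℂ) {l : ℝ≥0} (hl : l ≠ 0) :
    ‖lw p z l‖ = (l : ℝ) ^ (p * (1 + z.re) / 2) := by
  have hl' : 0 < (l : ℝ) := by positivity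
  rw [lw, Complex.norm_exp]
  have : ((p * (1 + z) / 2) * Real.log l : ℂ).re = Real.log l * (p * (1 + z.re) / 2) := by
    have e : ((p * (1 + z) / 2) * Real.log l : ℂ) =
        (Real.log l : ℂ) * ((p / 2 : ℝ) * (1 + z)) := by push_cast; ring
    rw [e, Complex.re_ofReal_mul, Complex.re_ofReal_mul, Complex.add_re, Complex.one_re]
    ring
  rw [this, ← Real.rpow_def_of_pos hl']

theorem enorm_lw (p : ℝ) (z : ℂ) {l : ℝ≥0} (hl : l ≠ 0) :
    ‖lw p z l‖ₑ = (l : ℝ≥0∞) ^ (p * (1 + z.re) / 2) := by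
  have hl' : 0 < (l : ℝ) := by positivity
  rw [← ofReal_norm, norm_lw p z hl, ← ENNReal.ofReal_rpow_of_pos hl', ENNReal.ofReal_coe_nnreal]

theorem phi_self (p : ℝ) (hp : 0 < p) (c : ℂ) : phi p ((1 - 2 / p : ℝ) : ℂ) c = c := by
  rw [phi]
  have : ((p : ℂ) * (1 - ((1 - 2 / p : ℝ) : ℂ)) / 2 - 1) = 0 := by
    have hp' : (p : ℂ) ≠ 0 := by exact_mod_cast hp.ne'
    push_cast
    field_simp
    ring
  rw [this, zero_mul, Complex.exp_zero, mul_one]

theorem lw_self (p : ℝ) (hp : 0 < p) {l : ℝ≥0} (hl : l ≠ 0) :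
    lw p ((1 - 2 / p : ℝ) : ℂ) l = (((l : ℝ) ^ (p - 1) : ℝ) : ℂ) := by
  have hl' : 0 < (l : ℝ) := by positivity
  rw [lw, Real.rpow_def_of_pos hl']
  push_cast
  congr 1
  have hp' : (p : ℂ) ≠ 0 := by exact_mod_cast hp.ne'
  field_simp
  ring

/-! ### the core estimate for simple data -/

section core

variable {ι X Y : Type*} [MeasurableSpace X] [MeasurableSpace Y] (ν : Measure Y) [SigmaFinite ν]
  (A : Finset ι) (C : Finset ℂ) (h : ι → ℂ → X → Y → ℂ) (μ : ι → Measure X)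
  (s : ι → SimpleFunc X ℝ≥0) (p : ℝ)

/-- the analytic function -/
def Phi (z : ℂ) : ℂ :=
  ∑ i ∈ A, ∑ l ∈ (s i).range.filter (· ≠ 0), lw p z l *
    ∑ c ∈ C, phi p z c * ∫ x in s i ⁻¹' {l}, gg C h ν i c x ∂(μ i)

theorem good_Phi : Good (Phi ν A C h μ s p) := by
  unfold Phi
  refine Good.sum _ _ fun i _ => Good.sum _ _ fun l _ => ?_
  simp_rw [Finset.mul_sum]
  refine Good.sum _ _ fun c _ => ?_
  have e : (fun z : ℂ => lw p z l * (phi p z c * ∫ x in s i ⁻¹' {l}, gg C h ν i c x ∂(μ i))) =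
      fun z => (c * ∫ x in s i ⁻¹' {l}, gg C h ν i c x ∂(μ i)) * Complex.exp
        ((((p / 2 - 1) * Real.log ‖c‖ + p / 2 * Real.log l : ℝ) : ℂ) +
          ((-(p / 2) * Real.log ‖c‖ + p / 2 * Real.log l : ℝ) : ℂ) * z) := by
    ext z
    rw [lw, phi]
    have : Complex.exp ((((p / 2 - 1) * Real.log ‖c‖ + p / 2 * Real.log l : ℝ) : ℂ) +
          ((-(p / 2) * Real.log ‖c‖ + p / 2 * Real.log l : ℝ) : ℂ) * z) =
        Complex.exp ((p * (1 + z) / 2) * Real.log l) *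
          Complex.exp ((p * (1 - z) / 2 - 1) * Real.log ‖c‖) := by
      rw [← Complex.exp_add]
      congr 1
      push_cast
      ring
    rw [this]
    ring
  rw [e]
  exact good_exp _ _ _

variable (hm : ∀ i c, Measurable (Function.uncurry (h i c))) {M : ℝ≥0}
  (hM : ∀ i ∈ A, ∀ c ∈ C, ∀ x, ∫⁻ y, ‖h i c x y‖ₑ ^ 2 ∂ν ≤ (M : ℝ≥0∞) ^ 2)
  (hsfin : ∀ i ∈ A, ∀ l : ℝ≥0, l ≠ 0 → μ i (s i ⁻¹' {l}) < ∞)

include hm hM hsfin

theorem integrableOn_gg {i : ι} (hi : i ∈ A) {c : ℂ} (hc : c ∈ C) {l : ℝ≥0} (hl : l ≠ 0) :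
    IntegrableOn (gg C h ν i c) (s i ⁻¹' {l}) (μ i) := by
  refine Measure.integrableOn_of_bounded (M := M) (hsfin i hi l hl).ne
    (gg_meas C h hm i c).aestronglyMeasurable ?_
  refine Eventually.of_forall fun x => ?_
  have := norm_gg_le C h hm hM hi hc x
  rw [← ofReal_norm] at this
  rw [← ENNReal.ofReal_coe_nnreal] at this
  exact (ENNReal.ofReal_le_ofReal_iff M.2).1 this

theorem enorm_Phi_le (z : ℂ) :
    ‖Phi ν A C h μ s p z‖ₑ ≤ ∑ i ∈ A, ∫⁻ x, (if s i x = 0 then 0 else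
      (s i x : ℝ≥0∞) ^ (p * (1 + z.re) / 2)) * NN C h ν (phi p z) i x ∂(μ i) := by
  unfold Phi
  refine (enorm_sum_le _ _).trans (Finset.sum_le_sum fun i hi => ?_)
  rw [← level_sum (μ i) (s i) (fun l => (l : ℝ≥0∞) ^ (p * (1 + z.re) / 2))
    (NN C h ν (phi p z) i) (NN_meas C h hm _ i)]
  refine (enorm_sum_le _ _).trans (Finset.sum_le_sum fun l hl => ?_)
  have hl0 : l ≠ 0 := (Finset.mem_filter.1 hl).2
  rw [enorm_mul, enorm_lw p z hl0]
  gcongr
  have e : ∑ c ∈ C, phi p z c * ∫ x in s i ⁻¹' {l}, gg C h ν i c x ∂(μ i) =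
      ∫ x in s i ⁻¹' {l}, ∑ c ∈ C, phi p z c * gg C h ν i c x ∂(μ i) := by
    rw [integral_finsetSum]
    · exact Finset.sum_congr rfl fun c _ => (integral_const_mul _ _).symm
    · intro c hc
      exact (integrableOn_gg ν A C h μ s hm hM hsfin hi hc hl0).const_mul _
  rw [e]
  refine (enorm_integral_le_lintegral_enorm _).trans ?_
  exact lintegral_mono fun x => enorm_sum_gg_le C h hm hM _ hi x

end core

theorem real_final {I k M p : ℝ} (hp : 2 ≤ p) (hI : 0 ≤ I) (hk : 0 ≤ k) (hM : 0 ≤ M)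
    (H : I ≤ (I ^ (1 / 2 : ℝ) * k ^ (1 / 2 : ℝ)) ^ (1 - (1 - 2 / p)) * (M * I) ^ (1 - 2 / p)) :
    I ≤ k * M ^ (p - 2) := by
  have hp0 : 0 < p := by linarith
  rcases hI.eq_or_lt with h0 | h0
  · rw [← h0]; positivity
  have e1 : (I ^ (1 / 2 : ℝ) * k ^ (1 / 2 : ℝ)) ^ (1 - (1 - 2 / p)) =
      I ^ (1 / p) * k ^ (1 / p) := by
    rw [Real.mul_rpow (by positivity) (by positivity), ← Real.rpow_mul hI, ← Real.rpow_mul hk]
    congr 2 <;> · field_simp; ring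
  have e2 : (M * I) ^ (1 - 2 / p) = M ^ (1 - 2 / p) * I ^ (1 - 2 / p) := Real.mul_rpow hM hI
  rw [e1, e2] at H
  have e3 : I ^ (1 / p) * k ^ (1 / p) * (M ^ (1 - 2 / p) * I ^ (1 - 2 / p)) =
      (k ^ (1 / p) * M ^ (1 - 2 / p)) * I ^ (1 - 1 / p) := by
    have : I ^ (1 - 1 / p) = I ^ (1 / p) * I ^ (1 - 2 / p) := by
      rw [← Real.rpow_add h0]
      congr 1
      ring
    rw [this]; ring
  rw [e3] at H
  have e4 : I = I ^ (1 / p) * I ^ (1 - 1 / p) := by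
    rw [← Real.rpow_add h0]
    simp
  have e5 : I ^ (1 / p) ≤ k ^ (1 / p) * M ^ (1 - 2 / p) := by
    have h1 : 0 < I ^ (1 - 1 / p) := by positivity
    rw [e4] at H
    have h2 : (I ^ (1 / p) * I ^ (1 - 1 / p)) ^ (1 - 1 / p) = I ^ (1 - 1 / p) := by rw [← e4]
    rw [h2] at H
    exact le_of_mul_le_mul_right H h1
  have e6 := Real.rpow_le_rpow (by positivity) e5 hp0.le
  rw [← Real.rpow_mul hI, Real.mul_rpow (by positivity) (by positivity), ← Real.rpow_mul hk,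
    ← Real.rpow_mul hM] at e6
  have e7 : 1 / p * p = 1 := by field_simp
  have e8 : (1 - 2 / p) * p = p - 2 := by field_simp
  rw [e7, e8, Real.rpow_one, Real.rpow_one] at e6
  exact e6

section core2

variable {ι X Y : Type*} [MeasurableSpace X] [MeasurableSpace Y] (ν : Measure Y) [SigmaFinite ν]
  (A : Finset ι) (C : Finset ℂ) (h : ι → ℂ → X → Y → ℂ) (μ : ι → Measure X)
  (s : ι → SimpleFunc X ℝ≥0) (p : ℝ)

variable (hm : ∀ i c, Measurable (Function.uncurry (h i c))) {M : ℝ≥0}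
  (hM : ∀ i ∈ A, ∀ c ∈ C, ∀ x, ∫⁻ y, ‖h i c x y‖ₑ ^ 2 ∂ν ≤ (M : ℝ≥0∞) ^ 2)
  (hsfin : ∀ i ∈ A, ∀ l : ℝ≥0, l ≠ 0 → μ i (s i ⁻¹' {l}) < ∞)

include hm hM hsfin

theorem Phi_theta (hp : 0 < p) :
    ‖Phi ν A C h μ s p ((1 - 2 / p : ℝ) : ℂ)‖ₑ = ∑ i ∈ A, ∫⁻ x, (if s i x = 0 then 0 else
      (s i x : ℝ≥0∞) ^ (p - 1)) * NN C h ν id i x ∂(μ i) := by
  have e : Phi ν A C h μ s p ((1 - 2 / p : ℝ) : ℂ) =
      ((∑ i ∈ A, ∑ l ∈ (s i).range.filter (· ≠ 0), (l : ℝ) ^ (p - 1) *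
        ∫ x in s i ⁻¹' {l}, (NN C h ν id i x).toReal ∂(μ i) : ℝ) : ℂ) := by
    unfold Phi
    rw [Complex.ofReal_sum]
    refine Finset.sum_congr rfl fun i hi => ?_
    rw [Complex.ofReal_sum]
    refine Finset.sum_congr rfl fun l hl => ?_
    have hl0 : l ≠ 0 := (Finset.mem_filter.1 hl).2
    rw [lw_self p hp hl0, Complex.ofReal_mul]
    congr 1
    rw [← integral_complex_ofReal]
    simp_rw [phi_self p hp, ← sum_gg_self C h hm hM hi]
    rw [integral_finsetSum]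
    · exact Finset.sum_congr rfl fun c _ => (integral_const_mul _ _).symm
    · intro c hc
      exact (integrableOn_gg ν A C h μ s hm hM hsfin hi hc hl0).const_mul _
  have hint : ∀ i ∈ A, ∀ l : ℝ≥0, l ≠ 0 →
      IntegrableOn (fun x => (NN C h ν id i x).toReal) (s i ⁻¹' {l}) (μ i) := by
    intro i hi l hl
    have h1 : IntegrableOn (fun x => (((NN C h ν id i x).toReal : ℝ) : ℂ)) (s i ⁻¹' {l}) (μ i) := by
      simp_rw [← sum_gg_self C h hm hM hi]
      refine integrable_finsetSum _ fun c hc => ?_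
      exact (integrableOn_gg ν A C h μ s hm hM hsfin hi hc hl).const_mul _
    exact h1.re
  rw [e, ← ofReal_norm, Complex.norm_real, Real.norm_of_nonneg (by positivity),
    ENNReal.ofReal_sum_of_nonneg fun i _ => by positivity]
  refine Finset.sum_congr rfl fun i hi => ?_
  rw [ENNReal.ofReal_sum_of_nonneg fun l _ => by positivity,
    ← level_sum (μ i) (s i) (fun l => (l : ℝ≥0∞) ^ (p - 1)) _ (NN_meas C h hm id i)]
  refine Finset.sum_congr rfl fun l hl => ?_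
  have hl0 : l ≠ 0 := (Finset.mem_filter.1 hl).2
  have hl' : 0 < (l : ℝ) := by positivity
  rw [ENNReal.ofReal_mul (by positivity), ← ENNReal.ofReal_rpow_of_pos hl',
    ENNReal.ofReal_coe_nnreal, ofReal_integral_eq_lintegral_ofReal (hint i hi l hl0)
      (Eventually.of_forall fun x => ENNReal.toReal_nonneg)]
  congr 1
  refine lintegral_congr fun x => ?_
  exact ENNReal.ofReal_toReal (NN_lt_top C h hm hM id hi x).ne

theorem core_bound (hp : 2 ≤ p) (hs : ∀ i ∈ A, ∀ x, (s i x : ℝ≥0∞) ≤ NN C h ν id i x)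
    {K : ℝ≥0∞} (hK : K < ∞)
    (hb0 : ∀ z : ℂ, z.re = 0 → ∑ i ∈ A, ∫⁻ x, NN C h ν (phi p z) i x ^ (2 : ℝ) ∂(μ i) ≤ K)
    (hb1 : ∀ z : ℂ, z.re = 1 → ∀ i ∈ A, ∀ x, NN C h ν (phi p z) i x ≤ M) :
    ∑ i ∈ A, ∫⁻ x, (s i x : ℝ≥0∞) ^ p ∂(μ i) ≤ K * (M : ℝ≥0∞) ^ (p - 2) := by
  have hp0 : 0 < p := by linarith
  set I := ∑ i ∈ A, ∫⁻ x, (s i x : ℝ≥0∞) ^ p ∂(μ i) with hI
  have hIfin : I < ∞ := by
    rw [hI, ENNReal.sum_lt_top]
    intro i hi
    have e := level_sum (μ i) (s i) (fun l => (l : ℝ≥0∞) ^ p) (fun _ => 1) measurable_const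
    have e2 : ∫⁻ x, (s i x : ℝ≥0∞) ^ p ∂(μ i) =
        ∫⁻ x, (if s i x = 0 then 0 else (s i x : ℝ≥0∞) ^ p) * 1 ∂(μ i) := by
      refine lintegral_congr fun x => ?_
      by_cases h0 : s i x = 0
      · rw [if_pos h0, h0]
        simp [ENNReal.zero_rpow_of_pos hp0]
      · rw [if_neg h0, mul_one]
    rw [e2, ← e, ENNReal.sum_lt_top]
    intro l hl
    have hl0 : l ≠ 0 := (Finset.mem_filter.1 hl).2
    refine ENNReal.mul_lt_top ?_ ?_
    · exact ENNReal.rpow_lt_top_of_nonneg hp0.le ENNReal.coe_ne_top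
    · simpa using hsfin i hi l hl0
  -- lower bound
  have hlow : I ≤ ‖Phi ν A C h μ s p ((1 - 2 / p : ℝ) : ℂ)‖ₑ := by
    rw [Phi_theta ν A C h μ s p hm hM hsfin hp0]
    refine Finset.sum_le_sum fun i hi => lintegral_mono fun x => ?_
    by_cases h0 : s i x = 0
    · rw [if_pos h0, h0]
      simp [ENNReal.zero_rpow_of_pos hp0]
    · rw [if_neg h0]
      have h0' : (s i x : ℝ≥0∞) ≠ 0 := by exact_mod_cast h0
      calc (s i x : ℝ≥0∞) ^ p = (s i x : ℝ≥0∞) ^ (p - 1) * (s i x : ℝ≥0∞) := by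
            conv_rhs => rw [← ENNReal.rpow_one (s i x : ℝ≥0∞), ← ENNReal.rpow_mul, one_mul]
            rw [← ENNReal.rpow_add _ _ h0' ENNReal.coe_ne_top]
            congr 1
            ring
        _ ≤ _ := by gcongr; exact hs i hi x
  -- bound on the line Re z = 1
  have h1 : ∀ z : ℂ, z.re = 1 → ‖Phi ν A C h μ s p z‖ₑ ≤ M * I := by
    intro z hz
    refine (enorm_Phi_le ν A C h μ s p hm hM hsfin z).trans ?_
    rw [hI, Finset.mul_sum]
    refine Finset.sum_le_sum fun i hi => ?_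
    rw [← lintegral_const_mul _ (by fun_prop)]
    refine lintegral_mono fun x => ?_
    have e : p * (1 + z.re) / 2 = p := by rw [hz]; ring
    rw [e, mul_comm]
    gcongr
    · exact hb1 z hz i hi x
    · split_ifs with h0
      · exact zero_le
      · exact le_rfl
  -- bound on the line Re z = 0
  have h0 : ∀ z : ℂ, z.re = 0 → ‖Phi ν A C h μ s p z‖ₑ ≤ I ^ (1 / 2 : ℝ) * K ^ (1 / 2 : ℝ) := by
    intro z hz
    refine (enorm_Phi_le ν A C h μ s p hm hM hsfin z).trans ?_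
    have step : ∀ i ∈ A, ∫⁻ x, (if s i x = 0 then 0 else
        (s i x : ℝ≥0∞) ^ (p * (1 + z.re) / 2)) * NN C h ν (phi p z) i x ∂(μ i) ≤
        (∫⁻ x, (s i x : ℝ≥0∞) ^ p ∂(μ i)) ^ (1 / 2 : ℝ) *
          (∫⁻ x, NN C h ν (phi p z) i x ^ (2 : ℝ) ∂(μ i)) ^ (1 / 2 : ℝ) := by
      intro i _
      have hc := ENNReal.lintegral_mul_le_Lp_mul_Lq (μ i) (p := 2) (q := 2)
        (by norm_num [Real.holderConjugate_iff]) (f := fun x => (s i x : ℝ≥0∞) ^ (p / 2))
        (g := fun x => NN C h ν (phi p z) i x) (by fun_prop)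
        (NN_meas C h hm _ i).aemeasurable
      refine le_trans (lintegral_mono fun x => ?_) (hc.trans (le_of_eq ?_))
      · rw [Pi.mul_apply]
        have e : p * (1 + z.re) / 2 = p / 2 := by rw [hz]; ring
        rw [e]
        gcongr
        split_ifs with h0
        · exact zero_le
        · exact le_rfl
      · congr 2
        refine lintegral_congr fun x => ?_
        rw [← ENNReal.rpow_mul]
        congr 1
        ring
    refine (Finset.sum_le_sum step).trans ?_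
    have hc := ENNReal.inner_le_Lp_mul_Lq A
      (fun i => (∫⁻ x, (s i x : ℝ≥0∞) ^ p ∂(μ i)) ^ (1 / 2 : ℝ))
      (fun i => (∫⁻ x, NN C h ν (phi p z) i x ^ (2 : ℝ) ∂(μ i)) ^ (1 / 2 : ℝ))
      (p := 2) (q := 2) (by norm_num [Real.holderConjugate_iff])
    refine hc.trans ?_
    simp_rw [← ENNReal.rpow_mul]
    norm_num
    gcongr
    have h9 := hb0 z hz
    simp only [ENNReal.rpow_two] at h9
    exact h9
  -- three lines
  have hKI : I ^ (1 / 2 : ℝ) * K ^ (1 / 2 : ℝ) ≠ ∞ :=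
    (ENNReal.mul_lt_top (ENNReal.rpow_lt_top_of_nonneg (by norm_num) hIfin.ne)
      (ENNReal.rpow_lt_top_of_nonneg (by norm_num) hK.ne)).ne
  have hMI : (M : ℝ≥0∞) * I ≠ ∞ := (ENNReal.mul_lt_top ENNReal.coe_lt_top hIfin).ne
  have h3 := three_lines (good_Phi ν A C h μ s p) (a := (I ^ (1 / 2 : ℝ) * K ^ (1 / 2 : ℝ)).toReal)
    (b := ((M : ℝ≥0∞) * I).toReal) (fun z hz => by
      have := ENNReal.toReal_mono hKI (h0 z hz)
      simpa using this) (fun z hz => by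
      have := ENNReal.toReal_mono hMI (h1 z hz)
      simpa using this) (1 - 2 / p) (by
        rw [sub_nonneg, div_le_one hp0]; exact hp) (by
        have : 0 ≤ 2 / p := by positivity
        linarith)
  have h4 : I.toReal ≤ ‖Phi ν A C h μ s p ((1 - 2 / p : ℝ) : ℂ)‖ := by
    have := ENNReal.toReal_mono (by simp) hlow
    simpa using this
  have h5 := h4.trans h3
  rw [ENNReal.toReal_mul, ENNReal.toReal_mul, ← ENNReal.toReal_rpow, ← ENNReal.toReal_rpow,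
    ENNReal.coe_toReal] at h5
  have h6 := real_final hp ENNReal.toReal_nonneg ENNReal.toReal_nonneg M.2 h5
  have h7 : I = ENNReal.ofReal I.toReal := (ENNReal.ofReal_toReal hIfin.ne).symm
  rw [h7]
  refine (ENNReal.ofReal_le_ofReal h6).trans (le_of_eq ?_)
  rw [ENNReal.ofReal_mul ENNReal.toReal_nonneg, ENNReal.ofReal_toReal hK.ne]
  congr 1
  rw [← ENNReal.ofReal_rpow_of_nonneg M.2 (by linarith), ← ENNReal.ofReal_coe_nnreal]
  rfl

end core2

/-! ### simple functions `f` -/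

section simple

variable {ι X Y : Type*} [MeasurableSpace X] [MeasurableSpace Y]

/-- sets where `f` takes the value `c` -/
def ind (f : SimpleFunc ℂ ℂ) (c : ℂ) : ℂ → ℂ := (f ⁻¹' {c}).indicator fun _ => 1

/-- nonzero values -/
def vals (f : SimpleFunc ℂ ℂ) : Finset ℂ := f.range.filter (· ≠ 0)

theorem nice_zero : Nice (0 : ℂ → ℂ) := ⟨measurable_const, integrable_zero _ _ _, 0, by simp⟩

theorem nice_add {f g : ℂ → ℂ} (hf : Nice f) (hg : Nice g) : Nice (f + g) := by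
  obtain ⟨a, ha⟩ := hf.bdd
  obtain ⟨b, hb⟩ := hg.bdd
  exact ⟨hf.meas.add hg.meas, hf.int.add hg.int, a + b, fun z =>
    (norm_add_le _ _).trans (add_le_add (ha z) (hb z))⟩

theorem nice_smul {f : ℂ → ℂ} (c : ℂ) (hf : Nice f) : Nice (c • f) := by
  obtain ⟨a, ha⟩ := hf.bdd
  refine ⟨hf.meas.const_smul c, hf.int.smul c, ‖c‖ * a, fun z => ?_⟩
  rw [Pi.smul_apply, norm_smul]
  gcongr
  exact ha z

theorem nice_sub {f g : ℂ → ℂ} (hf : Nice f) (hg : Nice g) : Nice (f - g) := by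
  have : f - g = f + (-1 : ℂ) • g := by rw [neg_one_smul, sub_eq_add_neg]
  rw [this]
  exact nice_add hf (nice_smul _ hg)

theorem nice_sum (C : Finset ℂ) (a : ℂ → ℂ) (g : ℂ → ℂ → ℂ) (hg : ∀ c ∈ C, Nice (g c)) :
    Nice (∑ c ∈ C, a c • g c) := by
  classical
  induction C using Finset.induction_on with
  | empty => simpa using nice_zero
  | insert c C hc ih =>
    rw [Finset.sum_insert hc]
    exact nice_add (nice_smul _ (hg c (Finset.mem_insert_self _ _)))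
      (ih fun c' hc' => hg c' (Finset.mem_insert_of_mem hc'))

theorem nice_ind (f : SimpleFunc ℂ ℂ) (hf : Nice f) {c : ℂ} (hc : c ≠ 0) : Nice (ind f c) := by
  have hm : MeasurableSet (f ⁻¹' {c}) := f.measurableSet_preimage _
  have hfin : volume (f ⁻¹' {c}) < ∞ := by
    have h1 : Integrable (f : ℂ → ℂ) volume := hf.int
    have := SimpleFunc.measure_preimage_lt_top_of_integrable f h1 hc
    exact this
  refine ⟨measurable_const.indicator hm, ?_, 1, fun z => ?_⟩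
  · exact (integrable_indicator_iff hm).2 (integrableOn_const hfin.ne)
  · unfold ind
    by_cases hz : z ∈ (f ⁻¹' {c} : Set ℂ)
    · rw [Set.indicator_of_mem hz]; simp
    · rw [Set.indicator_of_notMem hz]; simp

theorem sum_ind (f : SimpleFunc ℂ ℂ) (a : ℂ → ℂ) (w : ℂ) :
    (∑ c ∈ vals f, a c • ind f c) w = if f w = 0 then 0 else a (f w) := by
  classical
  rw [Finset.sum_apply]
  by_cases h0 : f w = 0
  · rw [if_pos h0]
    refine Finset.sum_eq_zero fun c hc => ?_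
    rw [Pi.smul_apply, ind, Set.indicator_of_notMem, smul_zero]
    simp only [Set.mem_preimage, Set.mem_singleton_iff]
    intro h1
    exact (Finset.mem_filter.1 hc).2 (h1.symm.trans h0)
  · rw [if_neg h0, Finset.sum_eq_single (f w)]
    · rw [Pi.smul_apply, ind, Set.indicator_of_mem, smul_eq_mul, mul_one]
      simp
    · intro c _ hc
      rw [Pi.smul_apply, ind, Set.indicator_of_notMem, smul_zero]
      simp only [Set.mem_preimage, Set.mem_singleton_iff]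
      exact fun h1 => hc h1.symm
    · intro h1
      exfalso
      apply h1
      rw [vals, Finset.mem_filter]
      exact ⟨f.mem_range_self w, h0⟩

theorem sum_ind_self (f : SimpleFunc ℂ ℂ) : (∑ c ∈ vals f, id c • ind f c) = f := by
  ext w
  rw [sum_ind]
  split_ifs with h
  · exact h.symm
  · rfl

variable (S : ι → (ℂ → ℂ) → X → Y → ℂ)
    (hadd : ∀ i, ∀ f g, Nice f → Nice g → S i (f + g) = S i f + S i g)
    (hsmul : ∀ i, ∀ (c : ℂ) f, Nice f → S i (c • f) = c • S i f)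

include hsmul in
theorem S_zero (i : ι) : S i 0 = 0 := by
  have := hsmul i 0 0 nice_zero
  rw [zero_smul, zero_smul] at this
  exact this

include hadd hsmul in
theorem S_sum (C : Finset ℂ) (a : ℂ → ℂ) (g : ℂ → ℂ → ℂ) (hg : ∀ c ∈ C, Nice (g c)) (i : ι)
    (x : X) (y : Y) : S i (∑ c ∈ C, a c • g c) x y = ∑ c ∈ C, a c * S i (g c) x y := by
  classical
  induction C using Finset.induction_on with
  | empty =>
    rw [Finset.sum_empty, Finset.sum_empty, S_zero S hsmul]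
    rfl
  | insert c C hc ih =>
    rw [Finset.sum_insert hc, Finset.sum_insert hc,
      hadd i _ _ (nice_smul _ (hg c (Finset.mem_insert_self _ _)))
        (nice_sum C a g fun c' hc' => hg c' (Finset.mem_insert_of_mem hc')),
      hsmul i _ _ (hg c (Finset.mem_insert_self _ _)), Pi.add_apply, Pi.add_apply,
      ih fun c' hc' => hg c' (Finset.mem_insert_of_mem hc')]
    rfl

end simple

/-! ### from simple weights to the norm -/

section approx

variable {X : Type*} [MeasurableSpace X]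

/-- simple weights -/
def sw (m : Measure X) [SigmaFinite m] (V : X → ℝ≥0∞) (n : ℕ) : SimpleFunc X ℝ≥0 :=
  ((SimpleFunc.eapprox V n).map ENNReal.toNNReal).restrict (spanningSets m n)

theorem sw_apply (m : Measure X) [SigmaFinite m] (V : X → ℝ≥0∞) (n : ℕ) (x : X) :
    (sw m V n x : ℝ≥0∞) = (spanningSets m n).indicator (SimpleFunc.eapprox V n) x := by
  unfold sw
  rw [SimpleFunc.restrict_apply _ (measurableSet_spanningSets m n)]
  by_cases hx : x ∈ spanningSets m n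
  · rw [Set.indicator_of_mem hx, Set.indicator_of_mem hx, SimpleFunc.map_apply,
      ENNReal.coe_toNNReal (SimpleFunc.eapprox_lt_top V n x).ne]
  · rw [Set.indicator_of_notMem hx, Set.indicator_of_notMem hx, ENNReal.coe_zero]

theorem sw_fin (m : Measure X) [SigmaFinite m] (V : X → ℝ≥0∞) (n : ℕ) {l : ℝ≥0} (hl : l ≠ 0) :
    m (sw m V n ⁻¹' {l}) < ∞ := by
  refine lt_of_le_of_lt (measure_mono ?_) (measure_spanningSets_lt_top m n)
  intro x hx
  by_contra hc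
  apply hl
  rw [Set.mem_preimage, Set.mem_singleton_iff] at hx
  rw [← hx]
  have := sw_apply m V n x
  rw [Set.indicator_of_notMem hc] at this
  exact_mod_cast this

theorem sw_mono (m : Measure X) [SigmaFinite m] (V : X → ℝ≥0∞) (x : X) :
    Monotone fun n => (sw m V n x : ℝ≥0∞) := by
  intro a b hab
  simp only [sw_apply]
  by_cases hx : x ∈ spanningSets m a
  · rw [Set.indicator_of_mem hx, Set.indicator_of_mem (monotone_spanningSets m hab hx)]
    exact SimpleFunc.monotone_eapprox V hab x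
  · rw [Set.indicator_of_notMem hx]; exact zero_le

theorem sw_tendsto (m : Measure X) [SigmaFinite m] (V : X → ℝ≥0∞) (hV : Measurable V) (x : X) :
    Tendsto (fun n => (sw m V n x : ℝ≥0∞)) atTop (𝓝 (V x)) := by
  obtain ⟨n0, hn0⟩ : ∃ n0, x ∈ spanningSets m n0 := by
    have : x ∈ ⋃ n, spanningSets m n := by rw [iUnion_spanningSets]; trivial
    exact Set.mem_iUnion.1 this
  have h1 : Tendsto (fun n => SimpleFunc.eapprox V n x) atTop (𝓝 (V x)) :=
    SimpleFunc.tendsto_eapprox hV x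
  refine h1.congr' ?_
  filter_upwards [eventually_ge_atTop n0] with n hn
  rw [sw_apply, Set.indicator_of_mem (monotone_spanningSets m hn hn0)]

theorem sw_le (m : Measure X) [SigmaFinite m] (V : X → ℝ≥0∞) (hV : Measurable V) (n : ℕ) (x : X) :
    (sw m V n x : ℝ≥0∞) ≤ V x :=
  (sw_mono m V x).ge_of_tendsto (sw_tendsto m V hV x) n

theorem lintegral_pow_le {ι : Type*} (A : Finset ι) (μ : ι → Measure X) [∀ i, SigmaFinite (μ i)]
    (V : ι → X → ℝ≥0∞) (hV : ∀ i, Measurable (V i)) {p : ℝ} (hp : 0 ≤ p) {B : ℝ≥0∞}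
    (h : ∀ n, ∑ i ∈ A, ∫⁻ x, (sw (μ i) (V i) n x : ℝ≥0∞) ^ p ∂(μ i) ≤ B) :
    ∑ i ∈ A, ∫⁻ x, V i x ^ p ∂(μ i) ≤ B := by
  refine le_of_tendsto' (x := (atTop : Filter ℕ)) (tendsto_finsetSum A fun i _ => ?_) h
  refine lintegral_tendsto_of_tendsto_of_monotone ?_ ?_ ?_
  · intro n
    fun_prop
  · refine Eventually.of_forall fun x => ?_
    intro a b hab
    exact ENNReal.rpow_le_rpow (sw_mono (μ i) (V i) x hab) hp
  · refine Eventually.of_forall fun x => ?_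
    exact (ENNReal.continuous_rpow_const.tendsto _).comp (sw_tendsto (μ i) (V i) (hV i) x)

theorem nice_lp {f : ℂ → ℂ} (hf : Nice f) {p : ℝ} (hp : 1 ≤ p) : ∫⁻ z, ‖f z‖ₑ ^ p < ∞ := by
  obtain ⟨B, hB⟩ := hf.bdd
  have h1 : ∫⁻ z, ‖f z‖ₑ < ∞ := hf.int.2
  calc ∫⁻ z, ‖f z‖ₑ ^ p ≤ ∫⁻ z, ENNReal.ofReal B ^ (p - 1) * ‖f z‖ₑ := by
        refine lintegral_mono fun z => ?_
        have h2 : ‖f z‖ₑ ≤ ENNReal.ofReal B := by
          rw [← ofReal_norm]; exact ENNReal.ofReal_le_ofReal (hB z)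
        have h3 : ‖f z‖ₑ ^ p = ‖f z‖ₑ ^ (p - 1) * ‖f z‖ₑ ^ (1 : ℝ) := by
          rw [← ENNReal.rpow_add_of_nonneg _ _ (by linarith) (by norm_num)]
          congr 1
          ring
        rw [h3, ENNReal.rpow_one]
        gcongr
    _ = ENNReal.ofReal B ^ (p - 1) * ∫⁻ z, ‖f z‖ₑ :=
        lintegral_const_mul _ hf.meas.enorm
    _ < ∞ := ENNReal.mul_lt_top
        (ENNReal.rpow_lt_top_of_nonneg (by linarith) ENNReal.ofReal_ne_top) h1

end approx

section main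

variable {ι X Y : Type*} [MeasurableSpace X] [MeasurableSpace Y] (A : Finset ι)
    (μ : ι → Measure X) [∀ i, SigmaFinite (μ i)] (ν : Measure Y) [SigmaFinite ν]
    (S : ι → (ℂ → ℂ) → X → Y → ℂ)
    (hmeas : ∀ i, ∀ f, Nice f → Measurable (Function.uncurry (S i f)))
    (hadd : ∀ i, ∀ f g, Nice f → Nice g → S i (f + g) = S i f + S i g)
    (hsmul : ∀ i, ∀ (c : ℂ) f, Nice f → S i (c • f) = c • S i f)
    (N2 : ℝ≥0) (Ninf : ℝ≥0)
    (h2 : ∀ f, Nice f → ∑ i ∈ A, ∫⁻ x, ∫⁻ y, ‖S i f x y‖ₑ ^ 2 ∂ν ∂(μ i) ≤ N2 * ∫⁻ z, ‖f z‖ₑ ^ 2)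
    (hinf : ∀ i ∈ A, ∀ f, Nice f → (∀ z, ‖f z‖ ≤ 1) → ∀ x, ∫⁻ y, ‖S i f x y‖ₑ ^ 2 ∂ν ≤ (Ninf : ℝ≥0∞) ^ 2)
    (p : ℝ) (hp : 2 ≤ p)

include hmeas hadd hsmul h2 hinf hp

theorem simple_case (f : SimpleFunc ℂ ℂ) (hf : Nice f) :
    ∑ i ∈ A, ∫⁻ x, (∫⁻ y, ‖S i f x y‖ₑ ^ 2 ∂ν) ^ (p / 2) ∂(μ i)
      ≤ N2 * (Ninf : ℝ≥0∞) ^ (p - 2) * ∫⁻ z, ‖f z‖ₑ ^ p := by
  classical
  have hp0 : 0 < p := by linarith
  let g : ℂ → ℂ → ℂ := fun c => if c = 0 then 0 else ind f c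
  have hg : ∀ c, Nice (g c) := by
    intro c
    by_cases hc : c = 0
    · simp only [g, if_pos hc]; exact nice_zero
    · simp only [g, if_neg hc]; exact nice_ind f hf hc
  let h : ι → ℂ → X → Y → ℂ := fun i c => S i (g c)
  have hsum : ∀ a : ℂ → ℂ, ∑ c ∈ vals f, a c • g c = ∑ c ∈ vals f, a c • ind f c := by
    intro a
    refine Finset.sum_congr rfl fun c hc => ?_
    have : c ≠ 0 := (Finset.mem_filter.1 hc).2
    simp only [g, if_neg this]
  have hFF : ∀ (a : ℂ → ℂ) (i : ι) (x : X) (y : Y),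
      FF (vals f) h a i x y = S i (∑ c ∈ vals f, a c • ind f c) x y := by
    intro a i x y
    rw [← hsum, S_sum S hadd hsmul (vals f) a g (fun c _ => hg c) i x y]
    rfl
  have hnice : ∀ a : ℂ → ℂ, Nice (∑ c ∈ vals f, a c • ind f c) := by
    intro a
    rw [← hsum]
    exact nice_sum _ _ _ fun c _ => hg c
  have hm : ∀ i c, Measurable (Function.uncurry (h i c)) := fun i c => hmeas i _ (hg c)
  have hM : ∀ i ∈ A, ∀ c ∈ vals f, ∀ x, ∫⁻ y, ‖h i c x y‖ₑ ^ 2 ∂ν ≤ (Ninf : ℝ≥0∞) ^ 2 := by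
    intro i hi c _ x
    refine hinf i hi (g c) (hg c) (fun z => ?_) x
    by_cases hc : c = 0
    · simp [g, hc]
    · simp only [g, if_neg hc, ind]
      by_cases hz : z ∈ (f ⁻¹' {c} : Set ℂ)
      · rw [Set.indicator_of_mem hz]; simp
      · rw [Set.indicator_of_notMem hz]; simp
  set K : ℝ≥0∞ := N2 * ∫⁻ z, ‖f z‖ₑ ^ p with hK
  have hKfin : K < ∞ := ENNReal.mul_lt_top ENNReal.coe_lt_top (nice_lp hf (by linarith))
  have hb0 : ∀ z : ℂ, z.re = 0 →
      ∑ i ∈ A, ∫⁻ x, NN (vals f) h ν (phi p z) i x ^ (2 : ℝ) ∂(μ i) ≤ K := by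
    intro z hz
    have e1 : ∀ i x, NN (vals f) h ν (phi p z) i x ^ (2 : ℝ) =
        ∫⁻ y, ‖S i (∑ c ∈ vals f, phi p z c • ind f c) x y‖ₑ ^ 2 ∂ν := by
      intro i x
      unfold NN
      rw [← ENNReal.rpow_mul]
      norm_num
      simp_rw [hFF]
    simp_rw [e1]
    refine (h2 _ (hnice _)).trans (le_of_eq ?_)
    rw [hK]
    congr 1
    refine lintegral_congr fun w => ?_
    rw [sum_ind]
    by_cases h0 : f w = 0
    · rw [if_pos h0, h0]
      simp [ENNReal.zero_rpow_of_pos hp0]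
    · rw [if_neg h0, ← ofReal_norm, norm_phi p z h0, hz, ← ofReal_norm]
      have h0' : 0 < ‖f w‖ := norm_pos_iff.2 h0
      rw [← ENNReal.ofReal_pow (by positivity), ENNReal.ofReal_rpow_of_pos h0']
      congr 1
      rw [← Real.rpow_natCast, ← Real.rpow_mul h0'.le]
      congr 1
      push_cast
      ring
  have hb1 : ∀ z : ℂ, z.re = 1 → ∀ i ∈ A, ∀ x, NN (vals f) h ν (phi p z) i x ≤ Ninf := by
    intro z hz i hi x
    unfold NN
    simp_rw [hFF]
    have h3 := hinf i hi (∑ c ∈ vals f, phi p z c • ind f c) (hnice _) (fun w => by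
      rw [sum_ind]
      by_cases h0 : f w = 0
      · rw [if_pos h0]; simp
      · rw [if_neg h0, norm_phi p z h0, hz]; simp) x
    calc _ ≤ ((Ninf : ℝ≥0∞) ^ 2) ^ (1 / 2 : ℝ) := by gcongr
      _ = Ninf := by rw [← ENNReal.rpow_two, ← ENNReal.rpow_mul]; norm_num
  have hself : ∀ i x, (∫⁻ y, ‖S i f x y‖ₑ ^ 2 ∂ν) ^ (p / 2) = NN (vals f) h ν id i x ^ p := by
    intro i x
    unfold NN
    simp_rw [hFF, sum_ind_self]
    rw [← ENNReal.rpow_mul]
    congr 1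
    ring
  simp_rw [hself]
  have hfinal : ∑ i ∈ A, ∫⁻ x, NN (vals f) h ν id i x ^ p ∂(μ i) ≤
      K * (Ninf : ℝ≥0∞) ^ (p - 2) := by
    refine lintegral_pow_le A μ _ (fun i => NN_meas (vals f) h hm id i) hp0.le fun n => ?_
    refine core_bound ν A (vals f) h μ (fun i => sw (μ i) (NN (vals f) h ν id i) n) p hm hM ?_ hp
      ?_ hKfin hb0 hb1
    · intro i _ l hl
      exact sw_fin (μ i) _ n hl
    · intro i _ x
      exact sw_le (μ i) _ (NN_meas (vals f) h hm id i) n x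
  refine hfinal.trans (le_of_eq ?_)
  rw [hK]
  ring

end main

theorem sum_liminf_le {ι : Type*} (A : Finset ι) (u : ι → ℕ → ℝ≥0∞) :
    ∑ i ∈ A, liminf (u i) atTop ≤ liminf (fun n => ∑ i ∈ A, u i n) atTop := by
  simp_rw [liminf_eq_iSup_iInf_of_nat]
  rw [ENNReal.finsetSum_iSup_of_monotone]
  · refine iSup_mono fun n => ?_
    refine le_iInf₂ fun m hm => ?_
    refine Finset.sum_le_sum fun i _ => ?_
    exact iInf₂_le m hm
  · intro i a b hab
    refine le_iInf₂ fun m hm => ?_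
    exact iInf₂_le m (le_trans hab hm)

/-- approximation by simple functions -/
theorem exists_approx {f : ℂ → ℂ} (hf : Nice f) {p : ℝ} (hp : 2 ≤ p) :
    ∃ g : ℕ → SimpleFunc ℂ ℂ, (∀ k, Nice (g k)) ∧
      (∀ k, ∫⁻ z, ‖(f - g k) z‖ₑ ^ 2 ≤ (1 / 2 : ℝ≥0∞) ^ k) ∧
      Tendsto (fun k => ∫⁻ z, ‖g k z‖ₑ ^ p) atTop (𝓝 (∫⁻ z, ‖f z‖ₑ ^ p)) := by
  let a : ℕ → SimpleFunc ℂ ℂ := fun n =>
    SimpleFunc.approxOn f hf.meas Set.univ 0 (Set.mem_univ _) n
  have hlim : ∀ z, Tendsto (fun n => a n z) atTop (𝓝 (f z)) := fun z =>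
    SimpleFunc.tendsto_approxOn hf.meas _ (by simp)
  have hle : ∀ n z, ‖a n z‖ ≤ 2 * ‖f z‖ := fun n z => by
    have := SimpleFunc.norm_approxOn_zero_le hf.meas (Set.mem_univ (0 : ℂ)) z n
    have h2 : ‖a n z‖ ≤ ‖f z‖ + ‖f z‖ := this
    linarith
  have hle' : ∀ n z, ‖a n z‖ₑ ≤ 2 * ‖f z‖ₑ := fun n z => by
    rw [← ofReal_norm, ← ofReal_norm]
    calc ENNReal.ofReal ‖a n z‖ ≤ ENNReal.ofReal (2 * ‖f z‖) := ENNReal.ofReal_le_ofReal (hle n z)
      _ = 2 * ENNReal.ofReal ‖f z‖ := by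
        rw [ENNReal.ofReal_mul (by norm_num)]; norm_num
  have hnice : ∀ n, Nice (a n) := by
    intro n
    obtain ⟨B, hB⟩ := hf.bdd
    refine ⟨(a n).measurable, ?_, 2 * B, fun z => (hle n z).trans ?_⟩
    · refine (hf.int.norm.const_mul 2).mono' (a n).measurable.aestronglyMeasurable ?_
      exact Eventually.of_forall (hle n)
    · have := hB z
      linarith
  have hT2 : Tendsto (fun n => ∫⁻ z, ‖(f - a n) z‖ₑ ^ 2) atTop (𝓝 0) := by
    have h0 : (0 : ℝ≥0∞) = ∫⁻ _ : ℂ, 0 := by simp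
    rw [h0]
    refine tendsto_lintegral_of_dominated_convergence (fun z => (3 * ‖f z‖ₑ) ^ 2) ?_ ?_ ?_ ?_
    · intro n
      exact (((hf.meas.sub (a n).measurable).enorm).pow_const 2)
    · intro n
      refine Eventually.of_forall fun z => ?_
      have h1 : ‖(f - a n) z‖ₑ ≤ 3 * ‖f z‖ₑ := by
        calc ‖f z - a n z‖ₑ ≤ ‖f z‖ₑ + ‖a n z‖ₑ := enorm_sub_le
          _ ≤ ‖f z‖ₑ + 2 * ‖f z‖ₑ := by gcongr; exact hle' n z
          _ = 3 * ‖f z‖ₑ := by ring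
      exact pow_le_pow_left' h1 2
    · have h1 := nice_lp hf (p := 2) (by norm_num)
      simp_rw [mul_pow]
      rw [lintegral_const_mul _ (hf.meas.enorm.pow_const 2)]
      simp only [ENNReal.rpow_two] at h1
      exact (ENNReal.mul_lt_top (by finiteness) h1).ne
    · refine Eventually.of_forall fun z => ?_
      have h1 : Tendsto (fun n => f z - a n z) atTop (𝓝 (f z - f z)) :=
        tendsto_const_nhds.sub (hlim z)
      rw [sub_self] at h1
      have h2 : Tendsto (fun n => ‖f z - a n z‖ₑ) atTop (𝓝 ‖(0 : ℂ)‖ₑ) := h1.enorm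
      rw [enorm_zero] at h2
      have h3 := ENNReal.Tendsto.pow (n := 2) h2
      simpa using h3
  have hTp : Tendsto (fun n => ∫⁻ z, ‖a n z‖ₑ ^ p) atTop (𝓝 (∫⁻ z, ‖f z‖ₑ ^ p)) := by
    refine tendsto_lintegral_of_dominated_convergence (fun z => (2 * ‖f z‖ₑ) ^ p) ?_ ?_ ?_ ?_
    · intro n
      exact (((a n).measurable).enorm).pow_const p
    · intro n
      refine Eventually.of_forall fun z => ?_
      exact ENNReal.rpow_le_rpow (hle' n z) (by linarith)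
    · have h1 := nice_lp hf (p := p) (by linarith)
      simp_rw [ENNReal.mul_rpow_of_nonneg _ _ (show 0 ≤ p by linarith)]
      rw [lintegral_const_mul _ (hf.meas.enorm.pow_const p)]
      exact (ENNReal.mul_lt_top (ENNReal.rpow_lt_top_of_nonneg (by linarith) (by norm_num)) h1).ne
    · refine Eventually.of_forall fun z => ?_
      exact (ENNReal.continuous_rpow_const.tendsto _).comp ((hlim z).enorm)
  have hchoose : ∀ k : ℕ, ∃ n, k ≤ n ∧ ∫⁻ z, ‖(f - a n) z‖ₑ ^ 2 ≤ (1 / 2 : ℝ≥0∞) ^ k := by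
    intro k
    have hpos : (0 : ℝ≥0∞) < (1 / 2 : ℝ≥0∞) ^ k := by
      apply ENNReal.pow_pos
      simp
    have h1 := (hT2.eventually_lt_const hpos).and (eventually_ge_atTop k)
    obtain ⟨n, hn1, hn2⟩ := h1.exists
    exact ⟨n, hn2, hn1.le⟩
  choose N hN1 hN2 using hchoose
  have hNt : Tendsto N atTop atTop := tendsto_atTop_mono hN1 tendsto_id
  exact ⟨fun k => a (N k), fun k => hnice _, hN2, hTp.comp hNt⟩

end RT2aux

open RT2aux in
/-- MODULE RT2: Riesz–Thorin, `L² – L^∞`, Hilbert valued (mixed norm) -/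
theorem RT2 {ι X Y : Type*} [MeasurableSpace X] [MeasurableSpace Y] (A : Finset ι)
    (μ : ι → Measure X) [∀ i, SigmaFinite (μ i)] (ν : Measure Y) [SigmaFinite ν]
    (S : ι → (ℂ → ℂ) → X → Y → ℂ)
    (hmeas : ∀ i, ∀ f, Nice f → Measurable (Function.uncurry (S i f)))
    (hadd : ∀ i, ∀ f g, Nice f → Nice g → S i (f + g) = S i f + S i g)
    (hsmul : ∀ i, ∀ (c : ℂ) f, Nice f → S i (c • f) = c • S i f)
    (N2 : ℝ≥0) (Ninf : ℝ≥0)
    (h2 : ∀ f, Nice f → ∑ i ∈ A, ∫⁻ x, ∫⁻ y, ‖S i f x y‖ₑ ^ 2 ∂ν ∂(μ i) ≤ N2 * ∫⁻ z, ‖f z‖ₑ ^ 2)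
    (hinf : ∀ i ∈ A, ∀ f, Nice f → (∀ z, ‖f z‖ ≤ 1) → ∀ x, ∫⁻ y, ‖S i f x y‖ₑ ^ 2 ∂ν ≤ (Ninf : ℝ≥0∞) ^ 2)
    (p : ℝ) (hp : 2 ≤ p) (f : ℂ → ℂ) (hf : Nice f) :
    ∑ i ∈ A, ∫⁻ x, (∫⁻ y, ‖S i f x y‖ₑ ^ 2 ∂ν) ^ (p / 2) ∂(μ i)
      ≤ N2 * (Ninf : ℝ≥0∞) ^ (p - 2) * ∫⁻ z, ‖f z‖ₑ ^ p := by
  obtain ⟨g, hg, hg2, hgp⟩ := exists_approx hf hp
  have hd : ∀ k, Nice (f - g k) := fun k => nice_sub hf (hg k)
  -- the square norms
  set V : ι → X → ℝ≥0∞ := fun i x => ∫⁻ y, ‖S i f x y‖ₑ ^ 2 ∂ν with hV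
  set Vk : ℕ → ι → X → ℝ≥0∞ := fun k i x => ∫⁻ y, ‖S i (g k) x y‖ₑ ^ 2 ∂ν with hVk
  set D : ℕ → ι → X → ℝ≥0∞ := fun k i x => ∫⁻ y, ‖S i (f - g k) x y‖ₑ ^ 2 ∂ν with hD
  have hmeasV : ∀ (q : ℂ → ℂ), Nice q → ∀ i, Measurable fun x => ∫⁻ y, ‖S i q x y‖ₑ ^ 2 ∂ν := by
    intro q hq i
    exact Measurable.lintegral_prod_right' (f := fun w : X × Y => ‖S i q w.1 w.2‖ₑ ^ 2)
      (((hmeas i q hq).enorm).pow_const 2)
  have hmeasY : ∀ (q : ℂ → ℂ), Nice q → ∀ i x, Measurable (S i q x) := fun q hq i x =>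
    (hmeas i q hq).comp measurable_prodMk_left
  -- differences tend to zero almost everywhere
  have hDlim : ∀ i ∈ A, ∀ᵐ x ∂(μ i), Tendsto (fun k => D k i x) atTop (𝓝 0) := by
    intro i hi
    have h1 : ∫⁻ x, ∑' k, D k i x ∂(μ i) < ∞ := by
      rw [lintegral_tsum fun k => (hmeasV _ (hd k) i).aemeasurable]
      have h3 : ∀ k, ∫⁻ x, D k i x ∂(μ i) ≤ N2 * (1 / 2 : ℝ≥0∞) ^ k := by
        intro k
        calc ∫⁻ x, D k i x ∂(μ i) ≤ ∑ i ∈ A, ∫⁻ x, D k i x ∂(μ i) :=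
              Finset.single_le_sum (f := fun i => ∫⁻ x, D k i x ∂(μ i))
                (fun _ _ => zero_le) hi
          _ ≤ N2 * ∫⁻ z, ‖(f - g k) z‖ₑ ^ 2 := h2 _ (hd k)
          _ ≤ _ := by gcongr; exact hg2 k
      refine lt_of_le_of_lt (ENNReal.tsum_le_tsum h3) ?_
      rw [ENNReal.tsum_mul_left]
      refine ENNReal.mul_lt_top ENNReal.coe_lt_top ?_
      have : ∑' k : ℕ, (1 / 2 : ℝ≥0∞) ^ k = 2 := by
        rw [ENNReal.tsum_geometric]
        simp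
      rw [this]
      norm_num
    have h4 := ae_lt_top' (AEMeasurable.tsum fun k => (hmeasV _ (hd k) i).aemeasurable) h1.ne
    filter_upwards [h4] with x hx
    exact ENNReal.tendsto_atTop_zero_of_tsum_ne_top hx.ne
  -- triangle inequalities
  have htri : ∀ (q r : ℂ → ℂ), Nice q → Nice r → ∀ i x,
      (∫⁻ y, ‖S i (q + r) x y‖ₑ ^ 2 ∂ν) ^ (1 / 2 : ℝ) ≤
        (∫⁻ y, ‖S i q x y‖ₑ ^ 2 ∂ν) ^ (1 / 2 : ℝ) + (∫⁻ y, ‖S i r x y‖ₑ ^ 2 ∂ν) ^ (1 / 2 : ℝ) := by
    intro q r hq hr i x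
    have h1 := ENNReal.lintegral_Lp_add_le (μ := ν) (p := 2) (f := fun y => ‖S i q x y‖ₑ)
      (g := fun y => ‖S i r x y‖ₑ) (hmeasY q hq i x).enorm.aemeasurable
      (hmeasY r hr i x).enorm.aemeasurable (by norm_num)
    simp only [ENNReal.rpow_two] at h1
    refine le_trans ?_ h1
    gcongr with y
    rw [hadd i q r hq hr, Pi.add_apply, Pi.add_apply]
    exact enorm_add_le _ _
  have hlow : ∀ i x k, V i x ^ (1 / 2 : ℝ) ≤ Vk k i x ^ (1 / 2 : ℝ) + D k i x ^ (1 / 2 : ℝ) := by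
    intro i x k
    have h1 := htri (g k) (f - g k) (hg k) (hd k) i x
    rw [add_sub_cancel] at h1
    exact h1
  have hup : ∀ i x k, Vk k i x ^ (1 / 2 : ℝ) ≤ V i x ^ (1 / 2 : ℝ) + D k i x ^ (1 / 2 : ℝ) := by
    intro i x k
    have h1 := htri f ((-1 : ℂ) • (f - g k)) hf (nice_smul _ (hd k)) i x
    have e1 : f + (-1 : ℂ) • (f - g k) = g k := by
      ext z; simp
    rw [e1, hsmul i _ _ (hd k)] at h1
    have e2 : ∀ y, ‖((-1 : ℂ) • S i (f - g k)) x y‖ₑ = ‖S i (f - g k) x y‖ₑ := by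
      intro y
      rw [Pi.smul_apply, Pi.smul_apply, neg_one_smul, enorm_neg]
    simp_rw [e2] at h1
    exact h1
  -- finiteness
  have hfin : ∀ i ∈ A, ∀ x, V i x < ∞ := by
    intro i hi x
    obtain ⟨B, hB⟩ := hf.bdd
    set b := max B 1 with hb
    have hb0 : 0 < b := lt_of_lt_of_le one_pos (le_max_right _ _)
    have h1 := hinf i hi ((b⁻¹ : ℂ) • f) (nice_smul _ hf) (fun z => by
      rw [Pi.smul_apply, norm_smul, norm_inv, Complex.norm_real, Real.norm_of_nonneg hb0.le,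
        inv_mul_le_iff₀ hb0, mul_one]
      exact (hB z).trans (le_max_left _ _)) x
    rw [hsmul i _ _ hf] at h1
    have e1 : ∀ y, ‖((b⁻¹ : ℂ) • S i f) x y‖ₑ ^ 2 = ‖(b⁻¹ : ℂ)‖ₑ ^ 2 * ‖S i f x y‖ₑ ^ 2 := by
      intro y
      rw [Pi.smul_apply, Pi.smul_apply, smul_eq_mul, enorm_mul, mul_pow]
    simp_rw [e1] at h1
    rw [lintegral_const_mul _ ((hmeasY f hf i x).enorm.pow_const 2)] at h1
    by_contra hc
    rw [not_lt, top_le_iff] at hc
    have h3 : ∫⁻ y, ‖S i f x y‖ₑ ^ 2 ∂ν = ∞ := hc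
    rw [h3, ENNReal.mul_top] at h1
    · exact absurd h1 (by simp)
    · have : (b⁻¹ : ℂ) ≠ 0 := by
        apply inv_ne_zero
        exact_mod_cast hb0.ne'
      simp [this]
  -- convergence
  have hconv : ∀ i ∈ A, ∀ᵐ x ∂(μ i),
      Tendsto (fun k => Vk k i x ^ (p / 2)) atTop (𝓝 (V i x ^ (p / 2))) := by
    intro i hi
    filter_upwards [hDlim i hi] with x hx
    have hD' : Tendsto (fun k => D k i x ^ (1 / 2 : ℝ)) atTop (𝓝 0) := by
      have h1 := (ENNReal.continuous_rpow_const (y := (1 / 2 : ℝ))).tendsto (0 : ℝ≥0∞)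
      have h3 := h1.comp hx
      simp only [Function.comp_def] at h3
      simpa using h3
    have hVfin : V i x ^ (1 / 2 : ℝ) ≠ ∞ :=
      (ENNReal.rpow_lt_top_of_nonneg (by norm_num) (hfin i hi x).ne).ne
    have h1 : Tendsto (fun k => Vk k i x ^ (1 / 2 : ℝ)) atTop (𝓝 (V i x ^ (1 / 2 : ℝ))) := by
      refine tendsto_of_tendsto_of_tendsto_of_le_of_le
        (g := fun k => V i x ^ (1 / 2 : ℝ) - D k i x ^ (1 / 2 : ℝ))
        (h := fun k => V i x ^ (1 / 2 : ℝ) + D k i x ^ (1 / 2 : ℝ)) ?_ ?_ ?_ ?_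
      · have := ENNReal.Tendsto.sub (tendsto_const_nhds (x := V i x ^ (1 / 2 : ℝ)))
          hD' (Or.inl hVfin)
        simpa using this
      · have := (tendsto_const_nhds (x := V i x ^ (1 / 2 : ℝ))).add hD'
        simpa using this
      · intro k
        exact tsub_le_iff_right.2 (hlow i x k)
      · intro k
        exact hup i x k
    have h3 := ((ENNReal.continuous_rpow_const (y := p)).tendsto _).comp h1
    have e : ∀ a : ℝ≥0∞, (a ^ (1 / 2 : ℝ)) ^ p = a ^ (p / 2) := by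
      intro a
      rw [← ENNReal.rpow_mul]
      congr 1
      ring
    simp only [Function.comp_def, e] at h3
    exact h3
  -- conclusion
  calc ∑ i ∈ A, ∫⁻ x, V i x ^ (p / 2) ∂(μ i)
      ≤ ∑ i ∈ A, liminf (fun k => ∫⁻ x, Vk k i x ^ (p / 2) ∂(μ i)) atTop := by
        refine Finset.sum_le_sum fun i hi => ?_
        have h1 : ∫⁻ x, V i x ^ (p / 2) ∂(μ i) =
            ∫⁻ x, liminf (fun k => Vk k i x ^ (p / 2)) atTop ∂(μ i) := by
          refine lintegral_congr_ae ?_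
          filter_upwards [hconv i hi] with x hx
          exact hx.liminf_eq.symm
        rw [h1]
        refine lintegral_liminf_le fun k => ?_
        exact (hmeasV _ (hg k) i).pow_const _
    _ ≤ liminf (fun k => ∑ i ∈ A, ∫⁻ x, Vk k i x ^ (p / 2) ∂(μ i)) atTop := sum_liminf_le _ _
    _ ≤ liminf (fun k => N2 * (Ninf : ℝ≥0∞) ^ (p - 2) * ∫⁻ z, ‖g k z‖ₑ ^ p) atTop := by
        refine liminf_le_liminf (Eventually.of_forall fun k => ?_)
        exact simple_case A μ ν S hmeas hadd hsmul N2 Ninf h2 hinf p hp (g k) (hg k)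
    _ = N2 * (Ninf : ℝ≥0∞) ^ (p - 2) * ∫⁻ z, ‖f z‖ₑ ^ p := by
        refine Tendsto.liminf_eq ?_
        refine ENNReal.Tendsto.const_mul hgp (Or.inr ?_)
        refine (ENNReal.mul_lt_top ENNReal.coe_lt_top ?_).ne
        exact ENNReal.rpow_lt_top_of_nonneg (by linarith) ENNReal.coe_ne_top


end Helper72.BA.P


namespace Helper72.BA
alias RT2 := P.RT2
end Helper72.BA
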