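import Pool.Agent.Helper72.BA.Defs
import Pool.Agent.Helper72.BAM.L2
import Pool.Agent.Helper72.BAM.LG
import Pool.Agent.Helper72.BAM.NU
import Pool.Agent.Helper72.BAM.PC3
import Pool.Agent.Helper72.BAM.RT2
import Pool.Agent.Helper72.BAM.WF

set_option autoImplicit false

open MeasureTheory Complex FourierTransform Filter Topology
open scoped ENNReal NNReal ComplexConjugate

noncomputable section

namespace Helper72.BA.P

open Helper72.BA

/-- the combination of RT2 with the two window estimates -/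
lemma windows_core (k : ℕ) (hk : 2 ≤ k) (φ θ : SchwartzMap ℂ ℂ) (hφ : ∀ z, ‖φ z‖ ≤ 1)
    (hφ2 : nrm 2 φ ≠ ∞) (hθ : nrm 2 θ = 1) (n : ℕ) (A : Finset ℕ) (W : ℕ → Finset ℤ)
    (hW : ∀ i ∈ A, ∀ j ∈ A, i ≠ j → Disjoint (W i) (W j)) (κ r : ℕ → ℝ) (hκ : ∀ l, 0 < κ l)
    (hr : ∀ l, 0 < r l) (D : ℝ) (hD : 0 ≤ D)
    (hinf : ∀ l ∈ A, ∀ f, Nice f → (∀ z, ‖f z‖ ≤ 1) → ∀ z₀ ξ : ℂ,
      ENNReal.ofReal (‖ξ‖ ^ 4) * ∫⁻ η, ‖((κ l : ℝ) : ℂ)⁻¹ * θ ((ξ - η) / (κ l : ℝ)) *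
        𝓕 (wu φ (r l) (gW n (W l) f) z₀) η‖ₑ ^ 2 ≤ ENNReal.ofReal (D ^ 2))
    {f : ℂ → ℂ} (hf : Nice f) :
    nrm (2 * k) φ * ∑ l ∈ A, nrm (2 * k) (gW n (W l) f) ≤
      ENNReal.ofReal (Real.pi ^ (2 * k - 2) * Ak k ^ (2 * k)) *
        (nrm 2 φ * ENNReal.ofReal (D ^ (2 * k - 2)) * nrm (2 * k) f) := by
  have key := RT2 A (fun l => mu (r l)) (volume : Measure ℂ)
    (fun l => SS φ θ n (W l) (κ l) (r l))
    (fun l f hf => SS_meas φ θ n (W l) (κ l) (r l) hf)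
    (fun l f g hf hg => SS_add φ θ hφ n (W l) (κ l) (r l) hf hg)
    (fun l c f _ => SS_smul φ θ n (W l) (κ l) (r l) c f)
    (nrm 2 φ).toNNReal (Real.toNNReal D)
    (by
      intro f hf
      rw [ENNReal.coe_toNNReal hφ2]
      calc ∑ l ∈ A, ∫⁻ x, (∫⁻ y, ‖SS φ θ n (W l) (κ l) (r l) f x y‖ₑ ^ 2) ∂(mu (r l))
          ≤ ∑ l ∈ A, nrm 2 φ * nrm 2 (gW n (W l) f) :=
            Finset.sum_le_sum fun l _ => SS_L2 φ θ hφ hθ n (W l) (κ l) (r l) (hκ l) (hr l) hf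
        _ = nrm 2 φ * ∑ l ∈ A, nrm 2 (gW n (W l) f) := by rw [Finset.mul_sum]
        _ ≤ nrm 2 φ * ∫⁻ z, ‖f z‖ₑ ^ 2 := by
            gcongr
            exact sum_nrm_two_windows n A W hW f hf)
    (by
      intro l hl f hf hf1 x
      obtain ⟨z₀, ξ⟩ := x
      rw [SS_sq]
      refine (hinf l hl f hf hf1 z₀ ξ).trans (le_of_eq ?_)
      rw [ENNReal.ofReal_pow hD]
      rfl)
    (2 * k) (by
      have : (2:ℝ) ≤ k := by exact_mod_cast hk
      linarith) f hf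
  have hlow : nrm (2 * k) φ * ∑ l ∈ A, nrm (2 * k) (gW n (W l) f) ≤
      ENNReal.ofReal (Real.pi ^ (2 * k - 2) * Ak k ^ (2 * k)) *
      ∑ l ∈ A, ∫⁻ x, (∫⁻ η, ‖SS φ θ n (W l) (κ l) (r l) f x η‖ₑ ^ 2) ^ ((2 * k : ℝ) / 2) ∂(mu (r l)) := by
    rw [Finset.mul_sum, Finset.mul_sum]
    exact Finset.sum_le_sum fun l _ =>
      SS_lower k hk φ θ hφ hθ n (W l) (κ l) (r l) (hκ l) (hr l) hf
  refine hlow.trans ?_
  gcongr
  refine key.trans (le_of_eq ?_)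
  rw [ENNReal.coe_toNNReal hφ2]
  congr 1
  · congr 1
    have e1 : ((2 * k : ℝ) - 2) = ((2 * k - 2 : ℕ) : ℝ) := by
      rw [Nat.cast_sub (by omega)]
      push_cast
      ring
    rw [e1, ENNReal.rpow_natCast, ENNReal.ofReal_pow hD]
    rfl
  · unfold nrm
    refine lintegral_congr fun z => ?_
    have e2 : (2 * k : ℝ) = ((2 * k : ℕ) : ℝ) := by push_cast; ring
    rw [e2, ENNReal.rpow_natCast]

lemma gW_empty (n : ℕ) (f : ℂ → ℂ) : gW n ∅ f = fun _ => 0 := by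
  ext z
  simp [gW]

lemma nrm_zero (p : ℕ) (hp : p ≠ 0) : nrm p (fun _ => (0:ℂ)) = 0 := by
  simp [nrm, hp]

lemma mono_ab {a b : ℕ → ℤ} (h1 : ∀ l, a l ≤ b l) (h2 : ∀ l, b l ≤ a (l + 1)) :
    ∀ l d, b l ≤ a (l + 1 + d) := by
  intro l d
  induction d with
  | zero => exact h2 l
  | succ d ih =>
    have := h1 (l + 1 + d)
    have := h2 (l + 1 + d)
    have e : l + 1 + (d + 1) = l + 1 + d + 1 := by ring
    rw [e]
    linarith

/-! ## MODULE PC : sharp windows -/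
theorem sharp_windows (k : ℕ) (hk : 2 ≤ k) (ε : ℝ) (hε : 0 < ε) (B : ℕ) : ∃ n0 : ℕ, ∀ n : ℕ, n0 ≤ n →
    ∀ (N : ℕ) (a b : ℕ → ℤ), (∀ l, a l ≤ b l ∧ b l ≤ a l + B ∧ b l ≤ a (l + 1)) →
    ∀ f : ℂ → ℂ, Nice f →
    ∑ l ∈ Finset.range N, nrm (2 * k) (gW n (Finset.Ico (a l) (b l)) f) ≤
      ENNReal.ofReal ((1 + ε) * Ak k ^ (2 * k) * (n:ℝ) ^ (2 * k - 2)) * nrm (2 * k) f := by
  -- choice of ε'
  set ε' : ℝ := (1 + ε) ^ (1 / (2 * k : ℝ)) - 1 with hε'def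
  have hk0 : (0:ℝ) < 2 * k := by
    have : (2:ℝ) ≤ k := by exact_mod_cast hk
    linarith
  have hε' : 0 < ε' := by
    have : (1:ℝ) < (1 + ε) ^ (1 / (2 * k : ℝ)) := Real.one_lt_rpow (by linarith) (by positivity)
    linarith
  have hpow : (1 + ε') ^ (2 * k) = 1 + ε := by
    have e1 : 1 + ε' = (1 + ε) ^ (1 / (2 * k : ℝ)) := by rw [hε'def]; ring
    rw [e1, ← Real.rpow_natCast, ← Real.rpow_mul (by linarith)]
    have e2 : 1 / (2 * k : ℝ) * ((2 * k : ℕ) : ℝ) = 1 := by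
      push_cast
      field_simp
    rw [e2, Real.rpow_one]
  have hpow1 : (1 + ε') ^ (2 * k - 1) ≤ 1 + ε := by
    rw [← hpow]
    exact pow_le_pow_right₀ (by linarith) (by omega)
  obtain ⟨φ, ρ₀, hρ₀, hφ, hφs, hφ0, hφt, hφ2⟩ := window_function k (by omega) ε' hε'
  obtain ⟨θ, hθs, hθ1⟩ := theta_exists
  have H : ∀ b : ℕ, ∃ κ r : ℝ, ∃ n0 : ℕ, 0 < κ ∧ 0 < r ∧ (1 ≤ b → ∀ n : ℕ, n0 ≤ n → ∀ a : ℤ,
      ∀ f : ℂ → ℂ, Nice f → (∀ z, ‖f z‖ ≤ 1) → ∀ z₀ ξ : ℂ,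
      ENNReal.ofReal (‖ξ‖ ^ 4) * ∫⁻ η, ‖((κ * 2 ^ a : ℝ) : ℂ)⁻¹ * θ ((ξ - η) / (κ * 2 ^ a : ℝ)) *
          𝓕 (fun z => φ ((z - z₀) / (r * 2 ^ (-a) : ℝ)) * gW n (Finset.Ico a (a + b)) f z) η‖ₑ ^ 2
        ≤ ENNReal.ofReal (((1 + ε') * n / Real.pi) ^ 2)) := by
    intro b
    by_cases hb : 1 ≤ b
    · obtain ⟨κ, r, h1, h2, h3, _, n0, h4⟩ := Linf_general b hb φ hφ ρ₀ hφs θ hθs hθ1 ε' hε'
      exact ⟨κ, r, n0, h1, by linarith, fun _ => h4⟩
    · exact ⟨1, 1, 0, one_pos, one_pos, fun h => absurd h hb⟩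
  choose κ r n0 hκ hr hL using H
  refine ⟨(Finset.range (B + 1)).sup n0, fun n hn N a b hab f hf => ?_⟩
  classical
  set A : Finset ℕ := (Finset.range N).filter (fun l => a l < b l) with hA
  set W : ℕ → Finset ℤ := fun l => Finset.Ico (a l) (b l) with hWdef
  set bl : ℕ → ℕ := fun l => (b l - a l).toNat with hbl
  have hD : (0:ℝ) ≤ (1 + ε') * n / Real.pi := by positivity
  have hbl1 : ∀ l, b l = a l + bl l := by
    intro l
    have := (hab l).1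
    simp only [hbl]
    omega
  have hblB : ∀ l, bl l ≤ B := by
    intro l
    have := (hab l).2.1
    simp only [hbl]
    omega
  have hblpos : ∀ l ∈ A, 1 ≤ bl l := by
    intro l hl
    have h2 : a l < b l := (Finset.mem_filter.1 hl).2
    simp only [hbl]
    omega
  have hn0 : ∀ l, n0 (bl l) ≤ n := by
    intro l
    refine le_trans ?_ hn
    exact Finset.le_sup (f := n0) (Finset.mem_range.2 (Nat.lt_succ_of_le (hblB l)))
  have hdisj : ∀ i ∈ A, ∀ j ∈ A, i ≠ j → Disjoint (W i) (W j) := by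
    have h3 : ∀ i j, i < j → Disjoint (W i) (W j) := by
      intro i j hij
      obtain ⟨d, rfl⟩ : ∃ d, j = i + 1 + d := ⟨j - (i + 1), by omega⟩
      have h4 := mono_ab (fun l => (hab l).1) (fun l => (hab l).2.2) i d
      rw [Finset.disjoint_left]
      intro x hx hx'
      simp only [hWdef, Finset.mem_Ico] at hx hx'
      omega
    intro i _ j _ hij
    rcases lt_or_gt_of_ne hij with h | h
    · exact h3 i j h
    · exact (h3 j i h).symm
  have core := windows_core k hk φ θ hφ (by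
      refine ne_top_of_le_ne_top ?_ hφ2
      exact ENNReal.mul_ne_top ENNReal.ofReal_ne_top hφt.ne) hθ1 n A W hdisj
    (fun l => κ (bl l) * 2 ^ (a l)) (fun l => r (bl l) * 2 ^ (-(a l)))
    (fun l => by have := hκ (bl l); positivity) (fun l => by have := hr (bl l); positivity)
    ((1 + ε') * n / Real.pi) hD
    (by
      intro l hl f hf hf1 z₀ ξ
      have h5 := hL (bl l) (hblpos l hl) n (hn0 l) (a l) f hf hf1 z₀ ξ
      rw [← hbl1 l] at h5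
      exact h5)
    hf
  -- the sum over the nonempty windows
  have hsum : ∑ l ∈ Finset.range N, nrm (2 * k) (gW n (Finset.Ico (a l) (b l)) f)
      = ∑ l ∈ A, nrm (2 * k) (gW n (W l) f) := by
    rw [hA, Finset.sum_filter]
    refine Finset.sum_congr rfl fun l _ => ?_
    split_ifs with h
    · rfl
    · have h6 : Finset.Ico (a l) (b l) = ∅ := Finset.Ico_eq_empty (by omega)
      rw [h6, gW_empty, nrm_zero _ (by omega)]
  rw [hsum]
  set Sg := ∑ l ∈ A, nrm (2 * k) (gW n (W l) f) with hSg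
  set D : ℝ := (1 + ε') * n / Real.pi with hDdef
  have step : nrm (2 * k) φ * Sg ≤ nrm (2 * k) φ *
      (ENNReal.ofReal ((1 + ε) * Ak k ^ (2 * k) * (n:ℝ) ^ (2 * k - 2)) * nrm (2 * k) f) := by
    calc nrm (2 * k) φ * Sg ≤ ENNReal.ofReal (Real.pi ^ (2 * k - 2) * Ak k ^ (2 * k)) *
        (nrm 2 φ * ENNReal.ofReal (D ^ (2 * k - 2)) * nrm (2 * k) f) := core
      _ ≤ ENNReal.ofReal (Real.pi ^ (2 * k - 2) * Ak k ^ (2 * k)) *
        ((ENNReal.ofReal (1 + ε') * nrm (2 * k) φ) * ENNReal.ofReal (D ^ (2 * k - 2)) * nrm (2 * k) f) := by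
          gcongr
      _ = nrm (2 * k) φ * ((ENNReal.ofReal (Real.pi ^ (2 * k - 2) * Ak k ^ (2 * k)) *
          ENNReal.ofReal (1 + ε') * ENNReal.ofReal (D ^ (2 * k - 2))) * nrm (2 * k) f) := by ring
      _ ≤ _ := by
          gcongr
          have hAk : 0 ≤ Ak k := (Ak_pos k (by omega)).le
          rw [← ENNReal.ofReal_mul (by positivity), ← ENNReal.ofReal_mul (by positivity)]
          apply ENNReal.ofReal_le_ofReal
          have e3 : Real.pi ^ (2 * k - 2) * Ak k ^ (2 * k) * (1 + ε') * D ^ (2 * k - 2)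
              = (1 + ε') ^ (2 * k - 1) * Ak k ^ (2 * k) * (n:ℝ) ^ (2 * k - 2) := by
            rw [hDdef, div_pow, mul_pow]
            have e4 : 2 * k - 1 = (2 * k - 2) + 1 := by omega
            rw [e4, pow_succ]
            have : Real.pi ^ (2 * k - 2) ≠ 0 := by positivity
            field_simp
          rw [e3]
          gcongr
  exact (ENNReal.mul_le_mul_iff_right hφ0.ne' hφt.ne).1 step

end Helper72.BA.P


namespace Helper72.BA
alias sharp_windows := P.sharp_windows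
end Helper72.BA
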