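import Pool.Agent.Helper72.BA.Defs

set_option autoImplicit false

open MeasureTheory Complex FourierTransform Filter Topology
open scoped ENNReal NNReal ComplexConjugate

noncomputable section

namespace Helper72.BA.P
open Helper72.BA

namespace RTSx

/-- entire parametric integral -/
theorem rts_diff {h : ℂ → ℂ} (hh : Integrable h) {L : ℂ → ℝ} (hL : Measurable L) {B : ℝ}
    (hB : ∀ x, |L x| ≤ B) : Differentiable ℂ (fun s : ℂ => ∫ x, h x * cexp (s * L x)) := by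
  intro s0
  have hB0 : 0 ≤ B := (abs_nonneg _).trans (hB 0)
  have hLm : Measurable (fun x => (L x : ℂ)) := Complex.measurable_ofReal.comp hL
  have hbd : ∀ x, ∀ s ∈ Metric.ball s0 1, ‖cexp (s * L x)‖ ≤ Real.exp ((‖s0‖ + 1) * B) := by
    intro x s hs
    rw [Complex.norm_exp]
    apply Real.exp_le_exp.2
    calc (s * (L x : ℂ)).re ≤ ‖s * (L x : ℂ)‖ := Complex.re_le_norm _
      _ = ‖s‖ * |L x| := by rw [norm_mul, Complex.norm_real, Real.norm_eq_abs]
      _ ≤ (‖s0‖ + 1) * B := by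
        apply mul_le_mul _ (hB x) (abs_nonneg _) (by positivity)
        have : ‖s - s0‖ < 1 := by simpa [dist_eq_norm] using hs
        calc ‖s‖ = ‖s0 + (s - s0)‖ := by congr 1; ring
          _ ≤ ‖s0‖ + ‖s - s0‖ := norm_add_le _ _
          _ ≤ ‖s0‖ + 1 := by linarith
  have hmeas : ∀ s : ℂ, AEStronglyMeasurable (fun x => h x * cexp (s * L x)) volume := by
    intro s
    apply hh.aestronglyMeasurable.mul
    exact (Complex.measurable_exp.comp (hLm.const_mul s)).aestronglyMeasurable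
  have key := hasDerivAt_integral_of_dominated_loc_of_deriv_le (μ := (volume : Measure ℂ))
    (F := fun s x => h x * cexp (s * L x)) (F' := fun s x => h x * (cexp (s * L x) * L x))
    (x₀ := s0) (s := Metric.ball s0 1)
    (bound := fun x => ‖h x‖ * (Real.exp ((‖s0‖+1)*B) * B)) (Metric.ball_mem_nhds s0 one_pos)
    (Filter.Eventually.of_forall hmeas) ?_ ?_ ?_ ?_ ?_
  · exact key.2.differentiableAt
  · apply (hh.norm.mul_const (Real.exp ((‖s0‖+1)*B))).mono' (hmeas s0)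
    filter_upwards with x
    rw [norm_mul]
    exact mul_le_mul_of_nonneg_left (hbd x s0 (Metric.mem_ball_self one_pos)) (norm_nonneg _)
  · apply hh.aestronglyMeasurable.mul
    exact ((Complex.measurable_exp.comp (hLm.const_mul s0)).mul hLm).aestronglyMeasurable
  · filter_upwards with x s hs
    rw [norm_mul, norm_mul, Complex.norm_real, Real.norm_eq_abs]
    gcongr
    · exact hbd x s hs
    · exact hB x
  · exact hh.norm.mul_const _
  · filter_upwards with x s hs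
    have h1 : HasDerivAt (fun s : ℂ => s * (L x : ℂ)) (L x : ℂ) s := by
      simpa using (hasDerivAt_id s).mul_const (L x : ℂ)
    exact (h1.cexp).const_mul (h x)

/-- bounded parametric integral -/
theorem rts_bdd {h : ℂ → ℂ} (hh : Integrable h) {L : ℂ → ℝ} {B : ℝ}
    (hB : ∀ x, |L x| ≤ B) (s : ℂ) {R : ℝ} (hs : |s.re| ≤ R) :
    ‖∫ x, h x * cexp (s * L x)‖ ≤ (∫ x, ‖h x‖) * Real.exp (R * B) := by
  rw [← integral_mul_const]
  apply norm_integral_le_of_norm_le (hh.norm.mul_const _)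
  filter_upwards with x
  rw [norm_mul, Complex.norm_exp]
  gcongr
  have : (s * (L x : ℂ)).re = s.re * L x := by simp
  rw [this]
  calc s.re * L x ≤ |s.re * L x| := le_abs_self _
    _ = |s.re| * |L x| := abs_mul _ _
    _ ≤ R * B := mul_le_mul hs (hB x) (abs_nonneg _) ((abs_nonneg _).trans hs)

/-- Hölder on one side of the strip -/
theorem rts_bdry {q M : ℝ} (hq : 1 ≤ q) (hM : 0 < M) {u : ℂ → ℂ} (hu : Measurable u) {F : ℝ≥0∞}
    (hub : ∫⁻ x, ‖u x‖ₑ ^ q ≤ ENNReal.ofReal (M ^ q) * F) (X : Set ℂ)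
    {v : ℂ → ℝ≥0∞} (hv : Measurable v) (p : ℝ) :
    ∫⁻ x in X, ‖u x‖ₑ * v x ^ (p - p / q) ≤
      ENNReal.ofReal M * F ^ (1 / q) * (∫⁻ x in X, v x ^ p) ^ (1 - 1 / q) := by
  have hq0 : 0 < q := by linarith
  have h1q : 0 ≤ 1 / q := by positivity
  have h1q' : 0 ≤ 1 - 1 / q := by
    rw [sub_nonneg, div_le_one hq0]; exact hq
  have key := ENNReal.lintegral_mul_norm_pow_le (μ := (volume : Measure ℂ).restrict X)
    (f := fun x => ‖u x‖ₑ ^ q) (g := fun x => v x ^ p) (hu.enorm.pow_const q).aemeasurable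
    (hv.pow_const p).aemeasurable h1q h1q' (by ring)
  have e1 : ∀ x, (‖u x‖ₑ ^ q) ^ (1 / q) * (v x ^ p) ^ (1 - 1 / q) = ‖u x‖ₑ * v x ^ (p - p / q) := by
    intro x
    rw [← ENNReal.rpow_mul, ← ENNReal.rpow_mul, mul_one_div_cancel hq0.ne', ENNReal.rpow_one]
    congr 2
    ring
  simp only [e1] at key
  refine key.trans ?_
  gcongr
  calc (∫⁻ x in X, ‖u x‖ₑ ^ q) ^ (1 / q) ≤ (ENNReal.ofReal (M ^ q) * F) ^ (1 / q) := by
        apply ENNReal.rpow_le_rpow _ h1q
        exact (setLIntegral_le_lintegral _ _).trans hub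
    _ = ENNReal.ofReal M * F ^ (1 / q) := by
        rw [ENNReal.mul_rpow_of_nonneg _ _ h1q, ENNReal.ofReal_rpow_of_nonneg (by positivity) h1q,
          ← Real.rpow_mul hM.le, mul_one_div_cancel hq0.ne', Real.rpow_one]

/-- the rescaled values -/
def ph (w c : ℂ) : ℂ := cexp (w * Real.log ‖c‖) * (c / ‖c‖)

theorem ph_zero (w : ℂ) : ph w 0 = 0 := by simp [ph]

theorem ph_one (c : ℂ) : ph 1 c = c := by
  by_cases hc : c = 0
  · simp [hc, ph]
  · have h : (0:ℝ) < ‖c‖ := norm_pos_iff.2 hc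
    have h' : (‖c‖ : ℂ) ≠ 0 := by exact_mod_cast h.ne'
    rw [ph, one_mul, ← Complex.ofReal_exp, Real.exp_log h]
    field_simp

theorem ph_norm {w c : ℂ} (hc : c ≠ 0) : ‖ph w c‖ = ‖c‖ ^ w.re := by
  have h : (0:ℝ) < ‖c‖ := norm_pos_iff.2 hc
  rw [ph, norm_mul, norm_div, Complex.norm_real, norm_norm, div_self h.ne', mul_one,
    Complex.norm_exp, Real.rpow_def_of_pos h]
  congr 1
  simp [mul_comm]

theorem ph_pow {w c : ℂ} {p q : ℝ} (hp : 0 < p) (hq : 0 < q) (h : w.re * q = p) :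
    ‖ph w c‖ₑ ^ q = ‖c‖ₑ ^ p := by
  by_cases hc : c = 0
  · subst hc
    rw [ph_zero, enorm_zero, ENNReal.zero_rpow_of_pos hp, ENNReal.zero_rpow_of_pos hq]
  · have h0 : (0:ℝ) < ‖c‖ := norm_pos_iff.2 hc
    rw [← ofReal_norm, ← ofReal_norm, ph_norm hc,
      ENNReal.ofReal_rpow_of_pos (by positivity), ENNReal.ofReal_rpow_of_pos h0,
      ← Real.rpow_mul h0.le, h]

theorem nice_simple {g : SimpleFunc ℂ ℂ} (hg : g.FinMeasSupp volume) : Nice (fun x => g x) where
  meas := g.measurable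
  int := SimpleFunc.integrable_iff_finMeasSupp.2 hg
  bdd := by
    obtain ⟨C, hC⟩ := g.exists_forall_norm_le
    exact ⟨C, hC⟩

theorem nice_smul {f : ℂ → ℂ} (hf : Nice f) (c : ℂ) : Nice (c • f) where
  meas := hf.meas.const_smul c
  int := hf.int.smul c
  bdd := by
    obtain ⟨C, hC⟩ := hf.bdd
    refine ⟨‖c‖ * C, fun z => ?_⟩
    rw [Pi.smul_apply, norm_smul]
    exact mul_le_mul_of_nonneg_left (hC z) (norm_nonneg _)

theorem nice_add {f g : ℂ → ℂ} (hf : Nice f) (hg : Nice g) : Nice (f + g) where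
  meas := hf.meas.add hg.meas
  int := hf.int.add hg.int
  bdd := by
    obtain ⟨C, hC⟩ := hf.bdd
    obtain ⟨D, hD⟩ := hg.bdd
    refine ⟨C + D, fun z => ?_⟩
    rw [Pi.add_apply]
    exact (norm_add_le _ _).trans (add_le_add (hC z) (hD z))

theorem nice_zero : Nice (0 : ℂ → ℂ) where
  meas := measurable_const
  int := integrable_zero _ _ _
  bdd := ⟨0, fun z => by simp⟩

theorem nice_sum {ι : Type*} (s : Finset ι) (f : ι → ℂ → ℂ) (hf : ∀ i ∈ s, Nice (f i)) :
    Nice (∑ i ∈ s, f i) := by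
  classical
  induction s using Finset.induction_on with
  | empty => simpa using nice_zero
  | insert a s ha ih =>
    rw [Finset.sum_insert ha]
    exact nice_add (hf a (Finset.mem_insert_self a s))
      (ih fun i hi => hf i (Finset.mem_insert_of_mem hi))

theorem T_sum {T : (ℂ → ℂ) → ℂ → ℂ}
    (hadd : ∀ f g, Nice f → Nice g → T (f + g) = T f + T g)
    (hsmul : ∀ (c : ℂ) f, Nice f → T (c • f) = c • T f)
    {ι : Type*} (s : Finset ι) (f : ι → ℂ → ℂ) (hf : ∀ i ∈ s, Nice (f i)) (c : ι → ℂ) :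
    T (∑ i ∈ s, c i • f i) = ∑ i ∈ s, c i • T (f i) := by
  classical
  induction s using Finset.induction_on with
  | empty =>
    have := hsmul 0 0 nice_zero
    simpa using this
  | insert a s ha ih =>
    rw [Finset.sum_insert ha, Finset.sum_insert ha, hadd, hsmul, ih]
    · exact fun i hi => hf i (Finset.mem_insert_of_mem hi)
    · exact hf a (Finset.mem_insert_self a s)
    · exact nice_smul (hf a (Finset.mem_insert_self a s)) _
    · exact nice_sum _ _ fun i hi => nice_smul (hf i (Finset.mem_insert_of_mem hi)) _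

/-- indicator pieces -/
def pc (g : SimpleFunc ℂ ℂ) (c : ℂ) : ℂ → ℂ := (g ⁻¹' {c}).indicator 1

theorem nice_pc {g : SimpleFunc ℂ ℂ} (hg : g.FinMeasSupp volume) {c : ℂ} (hc : c ≠ 0) :
    Nice (pc g c) where
  meas := measurable_one.indicator (g.measurableSet_preimage _)
  int := by
    apply (integrable_indicator_iff (g.measurableSet_preimage _)).2
    have : IntegrableOn (fun _ : ℂ => (1:ℂ)) (g ⁻¹' {c}) volume :=
      integrableOn_const (hs := (hg.meas_preimage_singleton_ne_zero hc).ne)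
    exact this
  bdd := by
    refine ⟨1, fun z => ?_⟩
    unfold pc
    by_cases hz : z ∈ g ⁻¹' {c}
    · rw [Set.indicator_of_mem hz]; simp
    · rw [Set.indicator_of_notMem hz]; simp

theorem pc_sum (g : SimpleFunc ℂ ℂ) (w : ℂ) :
    (fun x => ph w (g x)) = ∑ c ∈ g.range.erase 0, ph w c • pc g c := by
  funext x
  rw [Finset.sum_apply]
  by_cases hx : g x = 0
  · rw [hx, ph_zero, Finset.sum_eq_zero]
    intro c hc
    rw [Finset.mem_erase] at hc
    have : x ∉ g ⁻¹' {c} := by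
      simp only [Set.mem_preimage, Set.mem_singleton_iff, hx]
      exact fun h => hc.1 h.symm
    simp only [Pi.smul_apply, pc, Set.indicator_of_notMem this, smul_zero]
  · rw [Finset.sum_eq_single (g x)]
    · have : x ∈ g ⁻¹' {g x} := by simp
      simp only [Pi.smul_apply, pc, Set.indicator_of_mem this, Pi.one_apply, smul_eq_mul, mul_one]
    · intro c _ hcx
      have : x ∉ g ⁻¹' {c} := by
        simp only [Set.mem_preimage, Set.mem_singleton_iff]
        exact fun h => hcx h.symm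
      simp only [Pi.smul_apply, pc, Set.indicator_of_notMem this, smul_zero]
    · intro h
      exact absurd (Finset.mem_erase.2 ⟨hx, SimpleFunc.mem_range_self g x⟩) h

theorem ph_diff (c : ℂ) : Differentiable ℂ (fun w => ph w c) := by
  unfold ph
  exact ((differentiable_id.mul_const _).cexp).mul_const _

theorem ph_bdd (w c : ℂ) {R : ℝ} (hR : |w.re| ≤ R) : ‖ph w c‖ ≤ Real.exp (R * |Real.log ‖c‖|) := by
  by_cases hc : c = 0
  · subst hc
    rw [ph_zero, norm_zero]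
    positivity
  · have h : (0:ℝ) < ‖c‖ := norm_pos_iff.2 hc
    rw [ph_norm hc, Real.rpow_def_of_pos h]
    apply Real.exp_le_exp.2
    calc Real.log ‖c‖ * w.re ≤ |Real.log ‖c‖ * w.re| := le_abs_self _
      _ = |w.re| * |Real.log ‖c‖| := by rw [abs_mul, mul_comm]
      _ ≤ R * |Real.log ‖c‖| := mul_le_mul_of_nonneg_right hR (abs_nonneg _)

theorem nice_lint {f : ℂ → ℂ} (hf : Nice f) {p : ℝ} (hp : 1 ≤ p) : ∫⁻ z, ‖f z‖ₑ ^ p ≠ ∞ := by
  obtain ⟨C, hC⟩ := hf.bdd
  have hC0 : 0 ≤ C := (norm_nonneg _).trans (hC 0)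
  have h1 : ∀ z, ‖f z‖ₑ ^ p ≤ ENNReal.ofReal (C ^ (p - 1)) * ‖f z‖ₑ := by
    intro z
    have e : ‖f z‖ₑ ^ p = ‖f z‖ₑ ^ (p - 1) * ‖f z‖ₑ := by
      conv_rhs => rw [← ENNReal.rpow_one ‖f z‖ₑ]
      rw [← ENNReal.rpow_mul, ← ENNReal.rpow_add_of_nonneg _ _ (by linarith) (by norm_num)]
      congr 1; ring
    rw [e]
    gcongr
    rw [← ENNReal.ofReal_rpow_of_nonneg hC0 (by linarith)]
    apply ENNReal.rpow_le_rpow _ (by linarith)
    rw [← ofReal_norm]
    exact ENNReal.ofReal_le_ofReal (hC z)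
  refine ((lintegral_mono h1).trans_lt ?_).ne
  rw [lintegral_const_mul _ hf.meas.enorm]
  exact ENNReal.mul_lt_top ENNReal.ofReal_lt_top hf.int.2

theorem rts_core {T : (ℂ → ℂ) → ℂ → ℂ}
    (hmeas : ∀ f, Nice f → Measurable (T f))
    (hadd : ∀ f g, Nice f → Nice g → T (f + g) = T f + T g)
    (hsmul : ∀ (c : ℂ) f, Nice f → T (c • f) = c • T f)
    {p0 p1 : ℝ} (h0 : 1 ≤ p0) (h01 : p0 < p1) {M0 M1 : ℝ} (hM0 : 0 < M0) (hM1 : 0 < M1)
    (hT0 : ∀ f, Nice f → ∫⁻ z, ‖T f z‖ₑ ^ p0 ≤ ENNReal.ofReal (M0 ^ p0) * ∫⁻ z, ‖f z‖ₑ ^ p0)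
    (hT1 : ∀ f, Nice f → ∫⁻ z, ‖T f z‖ₑ ^ p1 ≤ ENNReal.ofReal (M1 ^ p1) * ∫⁻ z, ‖f z‖ₑ ^ p1)
    {θ p : ℝ} (hθ0 : 0 ≤ θ) (hθ1 : θ ≤ 1) (hp : 1 / p = (1 - θ) / p0 + θ / p1)
    {g : SimpleFunc ℂ ℂ} (hg : g.FinMeasSupp volume) {N : ℝ} (hN : 1 ≤ N)
    {X : Set ℂ} (hX : MeasurableSet X) (hXfin : volume X ≠ ∞)
    (hXN : ∀ x ∈ X, N⁻¹ ≤ ‖T g x‖ ∧ ‖T g x‖ ≤ N) :
    ∫⁻ z in X, ‖T g z‖ₑ ^ p ≤
      ENNReal.ofReal ((M0 ^ (1 - θ) * M1 ^ θ) ^ p) * ∫⁻ z, ‖g z‖ₑ ^ p := by
  have hp00 : 0 < p0 := by linarith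
  have hp10 : 0 < p1 := by linarith
  have hN0 : 0 < N := by linarith
  have i01 : 1 / p1 < 1 / p0 := one_div_lt_one_div_of_lt hp00 h01
  have hpa : 1 / p1 ≤ 1 / p := by
    rw [hp]
    have : (1 - θ) / p0 + θ / p1 - 1 / p1 = (1 - θ) * (1 / p0 - 1 / p1) := by ring
    nlinarith [mul_nonneg (sub_nonneg.2 hθ1) (sub_nonneg.2 i01.le)]
  have hpb : 1 / p ≤ 1 / p0 := by
    rw [hp]
    have : 1 / p0 - ((1 - θ) / p0 + θ / p1) = θ * (1 / p0 - 1 / p1) := by ring
    nlinarith [mul_nonneg hθ0 (sub_nonneg.2 i01.le)]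
  have hp0 : 0 < p := by
    have : 0 < 1 / p := lt_of_lt_of_le (by positivity) hpa
    exact one_div_pos.1 this
  have hp0p : p0 ≤ p := (one_div_le_one_div hp0 hp00).1 hpb
  have hpp1 : p ≤ p1 := (one_div_le_one_div hp10 hp0).1 hpa
  have hp1 : 1 ≤ p := h0.trans hp0p
  have hgn : Nice g := nice_simple hg
  set v : ℂ → ℝ := fun x => ‖T g x‖ with hv
  have hvm : Measurable v := (hmeas g hgn).norm
  set F := ∫⁻ z, ‖g z‖ₑ ^ p with hF
  have hFfin : F ≠ ∞ := nice_lint hgn hp1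
  set I := ∫⁻ z in X, ‖T g z‖ₑ ^ p with hI
  have hIfin : I ≠ ∞ := by
    have : I ≤ ∫⁻ z in X, ENNReal.ofReal (N ^ p) := by
      apply setLIntegral_mono measurable_const
      intro x hx
      rw [← ENNReal.ofReal_rpow_of_nonneg hN0.le hp0.le, ← ofReal_norm]
      exact ENNReal.rpow_le_rpow (ENNReal.ofReal_le_ofReal (hXN x hx).2) hp0.le
    refine (this.trans_lt ?_).ne
    rw [setLIntegral_const]
    exact ENNReal.mul_lt_top ENNReal.ofReal_lt_top hXfin.lt_top
  by_cases hI0 : I = 0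
  · rw [hI0]; exact zero_le
  -- the log
  set L : ℂ → ℝ := X.indicator (fun x => Real.log (v x)) with hL
  have hLm : Measurable L := (Real.measurable_log.comp hvm).indicator hX
  have hLB : ∀ x, |L x| ≤ Real.log N := by
    intro x
    by_cases hx : x ∈ X
    · rw [hL, Set.indicator_of_mem hx]
      obtain ⟨ha, hb⟩ := hXN x hx
      have hv0 : 0 < v x := lt_of_lt_of_le (by positivity) ha
      rw [abs_le]
      constructor
      · rw [← Real.log_inv]; exact Real.log_le_log (by positivity) ha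
      · exact Real.log_le_log hv0 hb
    · rw [hL, Set.indicator_of_notMem hx, abs_zero]
      exact Real.log_nonneg hN
  have hLin : ∀ x ∈ X, L x = Real.log (v x) := fun x hx => Set.indicator_of_mem hx _
  set h : ℂ → ℂ → ℂ := fun c => X.indicator (fun x => T (pc g c) x * (conj (T g x) / v x)) with hh
  have hin : ∀ c, ∀ x ∈ X, h c x = T (pc g c) x * (conj (T g x) / v x) :=
    fun c x hx => Set.indicator_of_mem hx _
  have hout : ∀ c, ∀ x, x ∉ X → h c x = 0 := fun c x hx => Set.indicator_of_notMem hx _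
  have hsg : ∀ x, ‖conj (T g x) / (v x : ℂ)‖ ≤ 1 := by
    intro x
    rw [norm_div, Complex.norm_real, RCLike.norm_conj, hv, norm_norm]
    exact div_self_le_one _
  have hhm : ∀ c, c ≠ 0 → Measurable (h c) := by
    intro c hc
    apply Measurable.indicator _ hX
    exact (hmeas _ (nice_pc hg hc)).mul
      ((Complex.continuous_conj.measurable.comp (hmeas g hgn)).div
        (Complex.measurable_ofReal.comp hvm))
  have hhi : ∀ c, c ≠ 0 → Integrable (h c) := by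
    intro c hc
    refine ⟨(hhm c hc).aestronglyMeasurable, ?_⟩
    have hb : ∀ x, ‖h c x‖ₑ ≤ X.indicator (fun x => 1 + ‖T (pc g c) x‖ₑ ^ p0) x := by
      intro x
      by_cases hx : x ∈ X
      · rw [hin c x hx, Set.indicator_of_mem hx, enorm_mul]
        have h1 : ‖conj (T g x) / (v x : ℂ)‖ₑ ≤ 1 := by
          rw [← ofReal_norm, ← ENNReal.ofReal_one]
          exact ENNReal.ofReal_le_ofReal (hsg x)
        calc ‖T (pc g c) x‖ₑ * ‖conj (T g x) / (v x : ℂ)‖ₑ ≤ ‖T (pc g c) x‖ₑ * 1 := by gcongr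
          _ = ‖T (pc g c) x‖ₑ := mul_one _
          _ ≤ 1 + ‖T (pc g c) x‖ₑ ^ p0 := by
            rcases le_total ‖T (pc g c) x‖ₑ 1 with h | h
            · exact h.trans le_self_add
            · calc ‖T (pc g c) x‖ₑ = ‖T (pc g c) x‖ₑ ^ (1:ℝ) := (ENNReal.rpow_one _).symm
                _ ≤ ‖T (pc g c) x‖ₑ ^ p0 := ENNReal.rpow_le_rpow_of_exponent_le h h0
                _ ≤ _ := le_add_self
      · rw [hout c x hx, Set.indicator_of_notMem hx]; simp
    refine (lintegral_mono hb).trans_lt ?_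
    rw [lintegral_indicator hX, lintegral_add_left measurable_const, setLIntegral_const, one_mul]
    refine ENNReal.add_lt_top.2 ⟨hXfin.lt_top, ?_⟩
    refine (setLIntegral_le_lintegral _ _).trans_lt ?_
    refine (hT0 _ (nice_pc hg hc)).trans_lt ?_
    exact ENNReal.mul_lt_top ENNReal.ofReal_lt_top (nice_lint (nice_pc hg hc) h0).lt_top
  set s := g.range.erase 0 with hs
  have hs0 : ∀ c ∈ s, c ≠ 0 := fun c hc => Finset.ne_of_mem_erase hc
  set Ψ : ℂ → ℂ := fun w => ∑ c ∈ s, ph w c * ∫ x, h c x * cexp ((p - w) * L x) with hΨ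
  have hd : Differentiable ℂ Ψ := by
    rw [hΨ]
    apply Differentiable.fun_sum
    intro c hc
    apply (ph_diff c).mul
    exact (rts_diff (hhi c (hs0 c hc)) hLm hLB).comp ((differentiable_const _).sub differentiable_id)
  have hmax0 : 0 ≤ p / p1 := by positivity
  have hbdd : BddAbove ((norm ∘ Ψ) '' HadamardThreeLines.verticalClosedStrip (p / p1) (p / p0)) := by
    refine ⟨∑ c ∈ s, Real.exp ((p / p0) * |Real.log ‖c‖|) *
      ((∫ x, ‖h c x‖) * Real.exp ((p + p / p0) * Real.log N)), ?_⟩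
    rintro _ ⟨w, hw, rfl⟩
    have hw1 : p / p1 ≤ w.re := hw.1
    have hw2 : w.re ≤ p / p0 := hw.2
    have hwr : 0 ≤ w.re := hmax0.trans hw1
    simp only [Function.comp_apply, hΨ]
    refine (norm_sum_le _ _).trans (Finset.sum_le_sum fun c hc => ?_)
    rw [norm_mul]
    gcongr
    · exact ph_bdd w c (by rw [abs_of_nonneg hwr]; exact hw2)
    · apply rts_bdd (hhi c (hs0 c hc)) hLB
      rw [sub_re, ofReal_re]
      calc |p - w.re| ≤ |p| + |w.re| := abs_sub _ _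
        _ ≤ p + p / p0 := by rw [abs_of_nonneg hp0.le, abs_of_nonneg hwr]; linarith
  -- the integral formula
  set K : ℂ → ℂ → ℂ := fun w x => ∑ c ∈ s, ph w c * (h c x * cexp ((p - w) * L x)) with hK
  have hΨK : ∀ w, Ψ w = ∫ x, K w x := by
    intro w
    rw [hK, integral_finsetSum]
    · simp only [hΨ, integral_const_mul]
    · intro c hc
      apply Integrable.const_mul
      apply (hhi c (hs0 c hc)).mul_bdd (c := Real.exp (|p - w.re| * Real.log N))
      · exact (Complex.measurable_exp.comp ((Complex.measurable_ofReal.comp hLm).const_mul _)).aestronglyMeasurable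
      · filter_upwards with x
        rw [Complex.norm_exp]
        apply Real.exp_le_exp.2
        have : ((p - w) * (L x : ℂ)).re = (p - w.re) * L x := by simp
        rw [this]
        calc (p - w.re) * L x ≤ |(p - w.re) * L x| := le_abs_self _
          _ = |p - w.re| * |L x| := abs_mul _ _
          _ ≤ _ := mul_le_mul_of_nonneg_left (hLB x) (abs_nonneg _)
  have hKin : ∀ w, ∀ x ∈ X, K w x =
      T (fun y => ph w (g y)) x * (conj (T g x) / v x) * cexp ((p - w) * Real.log (v x)) := by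
    intro w x hx
    rw [pc_sum, T_sum hadd hsmul _ _ (fun c hc => nice_pc hg (hs0 c hc)), Finset.sum_apply,
      Finset.sum_mul, Finset.sum_mul]
    apply Finset.sum_congr rfl
    intro c hc
    rw [hin c x hx, hLin x hx, Pi.smul_apply, smul_eq_mul]
    ring
  have hKout : ∀ w, ∀ x, x ∉ X → K w x = 0 := by
    intro w x hx
    apply Finset.sum_eq_zero
    intro c hc
    rw [hout c x hx]
    ring
  have hKset : ∀ w, Ψ w = ∫ x in X, K w x := by
    intro w
    rw [hΨK w, setIntegral_eq_integral_of_forall_compl_eq_zero (hKout w)]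
  have hvpos : ∀ x ∈ X, 0 < v x := fun x hx => lt_of_lt_of_le (by positivity) (hXN x hx).1
  have hΨb : ∀ w, ‖Ψ w‖ₑ ≤ ∫⁻ x in X, ‖T (fun y => ph w (g y)) x‖ₑ * ‖T g x‖ₑ ^ (p - w.re) := by
    intro w
    rw [hKset w]
    refine (enorm_integral_le_lintegral_enorm _).trans ?_
    apply setLIntegral_mono' hX
    intro x hx
    rw [hKin w x hx, enorm_mul, enorm_mul]
    have h1 : ‖conj (T g x) / (v x : ℂ)‖ₑ ≤ 1 := by
      rw [← ofReal_norm, ← ENNReal.ofReal_one]
      exact ENNReal.ofReal_le_ofReal (hsg x)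
    have h2 : ‖cexp ((p - w) * Real.log (v x))‖ₑ = ‖T g x‖ₑ ^ (p - w.re) := by
      rw [← ofReal_norm, ← ofReal_norm, Complex.norm_exp, ENNReal.ofReal_rpow_of_pos (hvpos x hx),
        Real.rpow_def_of_pos (hvpos x hx)]
      congr 2
      simp [mul_comm]
    rw [h2]
    calc _ ≤ ‖T (fun y => ph w (g y)) x‖ₑ * 1 * ‖T g x‖ₑ ^ (p - w.re) := by gcongr
      _ = _ := by rw [mul_one]
  have hΨ1 : Ψ 1 = (I.toReal : ℂ) := by
    rw [hKset 1]
    have e1 : ∫ x in X, K 1 x = ∫ x in X, ((v x ^ p : ℝ) : ℂ) := by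
      apply setIntegral_congr_fun hX
      intro x hx
      simp only
      rw [hKin 1 x hx]
      have hv0 := hvpos x hx
      have e2 : (fun y => ph 1 (g y)) = g := by funext y; exact ph_one _
      have e3 : T g x * conj (T g x) = ((v x : ℝ) : ℂ) ^ 2 := by
        rw [Complex.mul_conj, Complex.normSq_eq_norm_sq]; push_cast; rfl
      have e4 : cexp ((p - 1) * Real.log (v x)) = ((v x ^ (p - 1) : ℝ) : ℂ) := by
        rw [Real.rpow_def_of_pos hv0]
        push_cast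
        congr 1
        ring
      rw [e2, e4, mul_div_assoc', e3]
      have hv0' : ((v x : ℝ) : ℂ) ≠ 0 := by exact_mod_cast hv0.ne'
      rw [show p = (p - 1) + 1 by ring, Real.rpow_add hv0, Real.rpow_one]
      push_cast
      field_simp
      simp
    have e5 : ∫ x in X, ((v x ^ p : ℝ) : ℂ) = ((∫ x in X, v x ^ p : ℝ) : ℂ) := integral_ofReal
    rw [e1, e5]
    congr 1
    rw [integral_eq_lintegral_of_nonneg_ae (Filter.Eventually.of_forall fun x => by positivity)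
      (hvm.pow_const p).aestronglyMeasurable]
    congr 1
    apply setLIntegral_congr_fun hX
    intro x hx
    simp only
    rw [← ofReal_norm, ENNReal.ofReal_rpow_of_pos (hvpos x hx)]
  -- boundary values
  have hb : ∀ (q M : ℝ), 1 ≤ q → 0 < M →
      (∀ f, Nice f → ∫⁻ z, ‖T f z‖ₑ ^ q ≤ ENNReal.ofReal (M ^ q) * ∫⁻ z, ‖f z‖ₑ ^ q) →
      ∀ w ∈ re ⁻¹' {p / q}, ‖Ψ w‖ ≤ M * F.toReal ^ (1 / q) * I.toReal ^ (1 - 1 / q) := by
    intro q M hq hM hTq w hw
    have hwre : w.re = p / q := hw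
    have hq0 : 0 < q := by linarith
    have hn : Nice (fun y => ph w (g y)) := by
      have := nice_simple (hg.map (g := ph w) (ph_zero w))
      exact this
    have h1 := rts_bdry hq hM (hmeas _ hn) (hTq _ hn) X (hmeas g hgn).enorm p
    have h2 : ∫⁻ z, ‖ph w (g z)‖ₑ ^ q = F := by
      rw [hF]
      apply lintegral_congr
      intro z
      exact ph_pow hp0 hq0 (by rw [hwre]; field_simp)
    rw [h2, ← hI] at h1
    have h3 : ‖Ψ w‖ₑ ≤ ENNReal.ofReal M * F ^ (1 / q) * I ^ (1 - 1 / q) := by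
      refine (hΨb w).trans ?_
      rw [hwre]; exact h1
    have h4 := ENNReal.toReal_mono ?_ h3
    · rw [ENNReal.toReal_mul, ENNReal.toReal_mul, ENNReal.toReal_ofReal hM.le, ← ENNReal.toReal_rpow,
        ← ENNReal.toReal_rpow, toReal_enorm] at h4
      exact h4
    · apply ENNReal.mul_ne_top (ENNReal.mul_ne_top ENNReal.ofReal_ne_top _)
      · apply ENNReal.rpow_ne_top_of_nonneg _ hIfin
        rw [sub_nonneg, div_le_one hq0]; exact hq
      · exact ENNReal.rpow_ne_top_of_nonneg (by positivity) hFfin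
  have hul : p / p1 < p / p0 := div_lt_div_of_pos_left hp0 hp00 h01
  have three := HadamardThreeLines.norm_le_interp_of_mem_verticalClosedStrip' (f := Ψ) (z := 1)
    (l := p / p1) (u := p / p0) hul ⟨by
      show p / p1 ≤ (1:ℂ).re
      rw [one_re, div_le_one hp10]; exact hpp1, by
      show (1:ℂ).re ≤ p / p0
      rw [one_re, one_le_div hp00]; exact hp0p⟩ hd.diffContOnCl hbdd
    (hb p1 M1 (hp1.trans hpp1) hM1 hT1) (hb p0 M0 h0 hM0 hT0)
  have hexp : ((1:ℂ).re - p / p1) / (p / p0 - p / p1) = 1 - θ := by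
    rw [one_re, div_eq_iff (by linarith)]
    have h' : 1 = p * ((1 - θ) / p0 + θ / p1) := by rw [← hp]; field_simp
    linear_combination h'
  rw [hexp, hΨ1, Complex.norm_real, Real.norm_eq_abs, abs_of_nonneg ENNReal.toReal_nonneg,
    sub_sub_cancel] at three
  set a := F.toReal with ha
  set b := I.toReal with hb'
  have ha0 : 0 ≤ a := ENNReal.toReal_nonneg
  have hb0 : 0 < b := ENNReal.toReal_pos hI0 hIfin
  have hfinal : b ≤ (M0 ^ (1 - θ) * M1 ^ θ) ^ p * a := by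
    have e1 : (M1 * a ^ (1 / p1) * b ^ (1 - 1 / p1)) ^ θ *
        (M0 * a ^ (1 / p0) * b ^ (1 - 1 / p0)) ^ (1 - θ) =
        (M0 ^ (1 - θ) * M1 ^ θ) * a ^ (1 / p) * b ^ (1 - 1 / p) := by
      rw [Real.mul_rpow (by positivity) (by positivity), Real.mul_rpow (by positivity) (by positivity),
        Real.mul_rpow (by positivity) (by positivity), Real.mul_rpow (by positivity) (by positivity),
        ← Real.rpow_mul ha0, ← Real.rpow_mul ha0, ← Real.rpow_mul hb0.le, ← Real.rpow_mul hb0.le]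
      have e2 : a ^ (1 / p) = a ^ (1 / p1 * θ) * a ^ (1 / p0 * (1 - θ)) := by
        rw [← Real.rpow_add_of_nonneg ha0 (by positivity) (mul_nonneg (by positivity) (by linarith)), hp]
        congr 1
        ring
      have e3 : b ^ (1 - 1 / p) = b ^ ((1 - 1 / p1) * θ) * b ^ ((1 - 1 / p0) * (1 - θ)) := by
        rw [← Real.rpow_add hb0, hp]
        congr 1
        ring
      rw [e2, e3]
      ring
    rw [e1] at three
    have e4 : b = b ^ (1 / p) * b ^ (1 - 1 / p) := by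
      rw [← Real.rpow_add hb0]
      simp
    have e5 : 0 < b ^ (1 - 1 / p) := Real.rpow_pos_of_pos hb0 _
    have e6 : b ^ (1 / p) ≤ (M0 ^ (1 - θ) * M1 ^ θ) * a ^ (1 / p) := by
      rw [e4] at three
      have : b ^ (1 / p) * b ^ (1 - 1 / p) ≤
          (M0 ^ (1 - θ) * M1 ^ θ) * a ^ (1 / p) * b ^ (1 - 1 / p) := by
        rw [← e4]
        rw [← e4] at three
        exact three
      exact le_of_mul_le_mul_right this e5
    have e7 := Real.rpow_le_rpow (by positivity) e6 hp0.le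
    rw [Real.mul_rpow (by positivity) (by positivity), ← Real.rpow_mul hb0.le,
      ← Real.rpow_mul ha0, one_div_mul_cancel hp0.ne', Real.rpow_one, Real.rpow_one] at e7
    exact e7
  rw [← ENNReal.ofReal_toReal hIfin, ← ENNReal.ofReal_toReal hFfin,
    ← ENNReal.ofReal_mul (by positivity)]
  exact ENNReal.ofReal_le_ofReal hfinal

/-- subsequence extraction -/
theorem exists_ae_subseq {u : ℕ → ℂ → ℂ} (hu : ∀ j, Measurable (u j)) {q : ℝ} (hq : 0 < q)
    (h : Tendsto (fun j => ∫⁻ z, ‖u j z‖ₑ ^ q) atTop (𝓝 0)) :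
    ∃ ns : ℕ → ℕ, StrictMono ns ∧ ∀ᵐ x : ℂ, Tendsto (fun i => u (ns i) x) atTop (𝓝 0) := by
  have hq0 : ENNReal.ofReal q ≠ 0 := by simpa using hq
  have h1 : Tendsto (fun j => eLpNorm (u j - 0) (ENNReal.ofReal q) volume) atTop (𝓝 0) := by
    simp only [sub_zero]
    have e : ∀ j, eLpNorm (u j) (ENNReal.ofReal q) volume = (∫⁻ z, ‖u j z‖ₑ ^ q) ^ (1 / q) := by
      intro j
      rw [eLpNorm_eq_lintegral_rpow_enorm_toReal hq0 ENNReal.ofReal_ne_top,
        ENNReal.toReal_ofReal hq.le]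
    simp only [e]
    have := h.ennrpow_const (1 / q)
    rwa [ENNReal.zero_rpow_of_pos (by positivity)] at this
  have h2 := tendstoInMeasure_of_tendsto_eLpNorm hq0
    (fun j => (hu j).aestronglyMeasurable) (measurable_zero.aestronglyMeasurable) h1
  exact h2.exists_seq_tendsto_ae

/-- simple functions -/
theorem rts_simple {T : (ℂ → ℂ) → ℂ → ℂ}
    (hmeas : ∀ f, Nice f → Measurable (T f))
    (hadd : ∀ f g, Nice f → Nice g → T (f + g) = T f + T g)
    (hsmul : ∀ (c : ℂ) f, Nice f → T (c • f) = c • T f)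
    {p0 p1 : ℝ} (h0 : 1 ≤ p0) (h01 : p0 < p1) {M0 M1 : ℝ} (hM0 : 0 < M0) (hM1 : 0 < M1)
    (hT0 : ∀ f, Nice f → ∫⁻ z, ‖T f z‖ₑ ^ p0 ≤ ENNReal.ofReal (M0 ^ p0) * ∫⁻ z, ‖f z‖ₑ ^ p0)
    (hT1 : ∀ f, Nice f → ∫⁻ z, ‖T f z‖ₑ ^ p1 ≤ ENNReal.ofReal (M1 ^ p1) * ∫⁻ z, ‖f z‖ₑ ^ p1)
    {θ p : ℝ} (hθ0 : 0 ≤ θ) (hθ1 : θ ≤ 1) (hp0 : 0 < p) (hp : 1 / p = (1 - θ) / p0 + θ / p1)
    {g : SimpleFunc ℂ ℂ} (hg : g.FinMeasSupp volume) :
    ∫⁻ z, ‖T g z‖ₑ ^ p ≤
      ENNReal.ofReal ((M0 ^ (1 - θ) * M1 ^ θ) ^ p) * ∫⁻ z, ‖g z‖ₑ ^ p := by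
  set v : ℂ → ℝ := fun x => ‖T g x‖ with hv
  have hvm : Measurable v := (hmeas g (nice_simple hg)).norm
  set X : ℕ → Set ℂ := fun n => {x | ‖x‖ ≤ (n + 1 : ℝ) ∧ (n + 1 : ℝ)⁻¹ ≤ v x ∧ v x ≤ (n + 1 : ℝ)} with hX
  have hXm : ∀ n, MeasurableSet (X n) := fun n =>
    (measurableSet_le measurable_norm measurable_const).inter
      ((measurableSet_le measurable_const hvm).inter (measurableSet_le hvm measurable_const))
  have hXfin : ∀ n, volume (X n) ≠ ∞ := by
    intro n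
    have : X n ⊆ Metric.closedBall 0 (n + 1 : ℝ) := by
      intro x hx
      simpa using hx.1
    exact ((measure_mono this).trans_lt measure_closedBall_lt_top).ne
  have hcore : ∀ n, ∫⁻ z in X n, ‖T g z‖ₑ ^ p ≤
      ENNReal.ofReal ((M0 ^ (1 - θ) * M1 ^ θ) ^ p) * ∫⁻ z, ‖g z‖ₑ ^ p := by
    intro n
    have hn : (0:ℝ) ≤ n := n.cast_nonneg
    exact rts_core hmeas hadd hsmul h0 h01 hM0 hM1 hT0 hT1 hθ0 hθ1 hp hg (N := (n + 1 : ℝ))
      (by linarith) (hXm n) (hXfin n) (fun x hx => hx.2)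
  have hpt : ∀ x, ‖T g x‖ₑ ^ p ≤ liminf (fun n => (X n).indicator (fun x => ‖T g x‖ₑ ^ p) x) atTop := by
    intro x
    by_cases hx : T g x = 0
    · rw [hx, enorm_zero, ENNReal.zero_rpow_of_pos hp0]; exact zero_le
    · have hvx : 0 < v x := norm_pos_iff.2 hx
      have hev : ∀ᶠ n : ℕ in atTop, x ∈ X n := by
        obtain ⟨n1, hn1⟩ := exists_nat_ge ‖x‖
        obtain ⟨n2, hn2⟩ := exists_nat_ge (v x)⁻¹
        obtain ⟨n3, hn3⟩ := exists_nat_ge (v x)
        filter_upwards [eventually_ge_atTop n1, eventually_ge_atTop n2, eventually_ge_atTop n3]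
          with n h1 h2 h3
        have h1' : (n1 : ℝ) ≤ n := by exact_mod_cast h1
        have h2' : (n2 : ℝ) ≤ n := by exact_mod_cast h2
        have h3' : (n3 : ℝ) ≤ n := by exact_mod_cast h3
        refine ⟨by linarith, ?_, by linarith⟩
        rw [inv_le_comm₀ (by positivity) hvx]
        linarith
      have ht : Tendsto (fun n => (X n).indicator (fun x => ‖T g x‖ₑ ^ p) x) atTop
          (𝓝 (‖T g x‖ₑ ^ p)) := by
        apply tendsto_const_nhds.congr'
        filter_upwards [hev] with n hn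
        rw [Set.indicator_of_mem hn]
      rw [ht.liminf_eq]
  refine (lintegral_mono hpt).trans ?_
  refine (lintegral_liminf_le fun n => ?_).trans ?_
  · exact ((hmeas g (nice_simple hg)).enorm.pow_const p).indicator (hXm n)
  · have : ∀ n, ∫⁻ a, (X n).indicator (fun x => ‖T g x‖ₑ ^ p) a = ∫⁻ z in X n, ‖T g z‖ₑ ^ p :=
      fun n => lintegral_indicator (hXm n) _
    simp only [this]
    refine (liminf_le_liminf (Filter.Eventually.of_forall hcore)).trans ?_
    rw [liminf_const]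

end RTSx

open RTSx in
theorem RTS (T : (ℂ → ℂ) → ℂ → ℂ)
    (hmeas : ∀ f, Nice f → Measurable (T f))
    (hadd : ∀ f g, Nice f → Nice g → T (f + g) = T f + T g)
    (hsmul : ∀ (c : ℂ) f, Nice f → T (c • f) = c • T f)
    (p0 p1 : ℝ) (h0 : 1 ≤ p0) (h01 : p0 < p1) (M0 M1 : ℝ) (hM0 : 0 < M0) (hM1 : 0 < M1)
    (hT0 : ∀ f, Nice f → ∫⁻ z, ‖T f z‖ₑ ^ p0 ≤ ENNReal.ofReal (M0 ^ p0) * ∫⁻ z, ‖f z‖ₑ ^ p0)
    (hT1 : ∀ f, Nice f → ∫⁻ z, ‖T f z‖ₑ ^ p1 ≤ ENNReal.ofReal (M1 ^ p1) * ∫⁻ z, ‖f z‖ₑ ^ p1)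
    (θ p : ℝ) (hθ0 : 0 ≤ θ) (hθ1 : θ ≤ 1) (hp : 1 / p = (1 - θ) / p0 + θ / p1)
    (f : ℂ → ℂ) (hf : Nice f) :
    ∫⁻ z, ‖T f z‖ₑ ^ p ≤ ENNReal.ofReal ((M0 ^ (1 - θ) * M1 ^ θ) ^ p) * ∫⁻ z, ‖f z‖ₑ ^ p := by
  have hp00 : 0 < p0 := by linarith
  have hp10 : 0 < p1 := by linarith
  have i01 : 1 / p1 < 1 / p0 := one_div_lt_one_div_of_lt hp00 h01
  have hpa : 1 / p1 ≤ 1 / p := by
    rw [hp]
    have : (1 - θ) / p0 + θ / p1 - 1 / p1 = (1 - θ) * (1 / p0 - 1 / p1) := by ring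
    nlinarith [mul_nonneg (sub_nonneg.2 hθ1) (sub_nonneg.2 i01.le)]
  have hpb : 1 / p ≤ 1 / p0 := by
    rw [hp]
    have : 1 / p0 - ((1 - θ) / p0 + θ / p1) = θ * (1 / p0 - 1 / p1) := by ring
    nlinarith [mul_nonneg hθ0 (sub_nonneg.2 i01.le)]
  have hppos : 0 < p := one_div_pos.1 (lt_of_lt_of_le (by positivity) hpa)
  have hp1 : 1 ≤ p := h0.trans ((one_div_le_one_div hppos hp00).1 hpb)
  -- approximating simple functions
  set F : ℕ → SimpleFunc ℂ ℂ := fun j =>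
    SimpleFunc.approxOn f hf.meas Set.univ 0 (Set.mem_univ _) j with hF
  have hFb : ∀ j z, ‖F j z‖ ≤ ‖f z‖ + ‖f z‖ := fun j z =>
    SimpleFunc.norm_approxOn_zero_le hf.meas (Set.mem_univ _) z j
  have hFt : ∀ z, Tendsto (fun j => F j z) atTop (𝓝 (f z)) := fun z =>
    SimpleFunc.tendsto_approxOn hf.meas (Set.mem_univ _) (by simp)
  have hFi : ∀ j, Integrable (F j) := by
    intro j
    apply (hf.int.norm.add hf.int.norm).mono' (F j).measurable.aestronglyMeasurable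
    filter_upwards with z
    exact hFb j z
  have hFs : ∀ j, (F j).FinMeasSupp volume := fun j => SimpleFunc.integrable_iff_finMeasSupp.1 (hFi j)
  have hFn : ∀ j, Nice (F j) := fun j => nice_simple (hFs j)
  have hDn : ∀ j, Nice (f + (-1 : ℂ) • (F j : ℂ → ℂ)) := fun j => nice_add hf (nice_smul (hFn j) _)
  have hTD : ∀ j z, T (f + (-1 : ℂ) • (F j : ℂ → ℂ)) z = T f z - T (F j) z := by
    intro j z
    rw [hadd _ _ hf (nice_smul (hFn j) _), hsmul _ _ (hFn j)]
    simp [sub_eq_add_neg]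
  -- generic bound
  have hfin : ∀ q : ℝ, 1 ≤ q → ∀ c : ℝ≥0∞, c ≠ ∞ → ∫⁻ z, (c * ‖f z‖ₑ) ^ q ≠ ∞ := by
    intro q hq c hc
    have : ∀ z, (c * ‖f z‖ₑ) ^ q = c ^ q * ‖f z‖ₑ ^ q := fun z =>
      ENNReal.mul_rpow_of_nonneg _ _ (by linarith)
    simp only [this]
    rw [lintegral_const_mul _ (hf.meas.enorm.pow_const q)]
    exact ENNReal.mul_ne_top (ENNReal.rpow_ne_top_of_nonneg (by linarith) hc) (nice_lint hf hq)
  have hFe : ∀ j z, ‖F j z‖ₑ ≤ 2 * ‖f z‖ₑ := by
    intro j z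
    rw [← ofReal_norm, ← ofReal_norm, two_mul, ← ENNReal.ofReal_add (norm_nonneg _) (norm_nonneg _)]
    exact ENNReal.ofReal_le_ofReal (hFb j z)
  have hlim0 : Tendsto (fun j => ∫⁻ z, ‖(f + (-1 : ℂ) • (F j : ℂ → ℂ)) z‖ₑ ^ p0) atTop (𝓝 0) := by
    have := tendsto_lintegral_of_dominated_convergence (μ := (volume : Measure ℂ))
      (F := fun j z => ‖(f + (-1 : ℂ) • (F j : ℂ → ℂ)) z‖ₑ ^ p0) (f := fun _ => 0)
      (fun z => (3 * ‖f z‖ₑ) ^ p0) (fun j => ((hDn j).meas.enorm.pow_const p0)) ?_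
      (hfin p0 h0 3 (by norm_num)) ?_
    · simpa using this
    · intro j
      filter_upwards with z
      apply ENNReal.rpow_le_rpow _ hp00.le
      have : (f + (-1 : ℂ) • (F j : ℂ → ℂ)) z = f z - F j z := by simp [sub_eq_add_neg]
      rw [this]
      calc ‖f z - F j z‖ₑ ≤ ‖f z‖ₑ + ‖F j z‖ₑ := enorm_sub_le
        _ ≤ ‖f z‖ₑ + 2 * ‖f z‖ₑ := by gcongr; exact hFe j z
        _ = 3 * ‖f z‖ₑ := by ring
    · filter_upwards with z
      have h1 : Tendsto (fun j => f z - F j z) atTop (𝓝 0) := by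
        have := (tendsto_const_nhds (x := f z)).sub (hFt z)
        rwa [sub_self] at this
      have h2 := (h1.enorm).ennrpow_const p0
      rw [enorm_zero, ENNReal.zero_rpow_of_pos hp00] at h2
      refine h2.congr fun j => ?_
      simp [sub_eq_add_neg]
  have hlim1 : Tendsto (fun j => ∫⁻ z, ‖T (f + (-1 : ℂ) • (F j : ℂ → ℂ)) z‖ₑ ^ p0) atTop (𝓝 0) := by
    apply tendsto_of_tendsto_of_tendsto_of_le_of_le tendsto_const_nhds _ (fun j => zero_le)
      (fun j => hT0 _ (hDn j))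
    have := ENNReal.Tendsto.const_mul (a := ENNReal.ofReal (M0 ^ p0)) hlim0
      (Or.inr ENNReal.ofReal_ne_top)
    simpa using this
  obtain ⟨ns, hns, hae⟩ := exists_ae_subseq (fun j => hmeas _ (hDn j)) hp00 hlim1
  have hlimp : Tendsto (fun j => ∫⁻ z, ‖F j z‖ₑ ^ p) atTop (𝓝 (∫⁻ z, ‖f z‖ₑ ^ p)) := by
    apply tendsto_lintegral_of_dominated_convergence (μ := (volume : Measure ℂ))
      (fun z => (2 * ‖f z‖ₑ) ^ p) (fun j => ((hFn j).meas.enorm.pow_const p)) ?_
      (hfin p hp1 2 (by norm_num)) ?_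
    · intro j
      filter_upwards with z
      exact ENNReal.rpow_le_rpow (hFe j z) hppos.le
    · filter_upwards with z
      exact ((hFt z).enorm).ennrpow_const p
  set C := ENNReal.ofReal ((M0 ^ (1 - θ) * M1 ^ θ) ^ p) with hC
  have hfat : ∫⁻ z, ‖T f z‖ₑ ^ p ≤ liminf (fun i => ∫⁻ z, ‖T (F (ns i)) z‖ₑ ^ p) atTop := by
    have e : ∫⁻ z, ‖T f z‖ₑ ^ p = ∫⁻ z, liminf (fun i => ‖T (F (ns i)) z‖ₑ ^ p) atTop := by
      apply lintegral_congr_ae
      filter_upwards [hae] with z hz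
      have h1 : Tendsto (fun i => T (F (ns i)) z) atTop (𝓝 (T f z)) := by
        have h2 : Tendsto (fun i => T f z - T (f + (-1 : ℂ) • (F (ns i) : ℂ → ℂ)) z) atTop
            (𝓝 (T f z - 0)) := tendsto_const_nhds.sub hz
        rw [sub_zero] at h2
        refine h2.congr fun i => ?_
        rw [hTD]; ring
      exact ((h1.enorm.ennrpow_const p).liminf_eq).symm
    rw [e]
    exact lintegral_liminf_le fun i => (hmeas _ (hFn (ns i))).enorm.pow_const p
  refine hfat.trans ?_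
  have hle : ∀ i, ∫⁻ z, ‖T (F (ns i)) z‖ₑ ^ p ≤ C * ∫⁻ z, ‖F (ns i) z‖ₑ ^ p := fun i =>
    rts_simple hmeas hadd hsmul h0 h01 hM0 hM1 hT0 hT1 hθ0 hθ1 hppos hp (hFs (ns i))
  refine (liminf_le_liminf (Filter.Eventually.of_forall hle)).trans ?_
  have ht : Tendsto (fun i => C * ∫⁻ z, ‖F (ns i) z‖ₑ ^ p) atTop (𝓝 (C * ∫⁻ z, ‖f z‖ₑ ^ p)) :=
    ENNReal.Tendsto.const_mul (hlimp.comp hns.tendsto_atTop) (Or.inr ENNReal.ofReal_ne_top)
  rw [ht.liminf_eq]

end Helper72.BA.P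


namespace Helper72.BA
alias RTS := P.RTS
end Helper72.BA
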