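import Pool.Agent.Helper72.BA.Defs
import Pool.Agent.Helper72.BAM.FB1
import Pool.Agent.Helper72.BAM.KE1

/-!
# MP_3dd6d4_an, module LM: passage to Schwartz functions
-/

set_option autoImplicit false

open MeasureTheory Complex FourierTransform Filter Topology
open scoped ENNReal NNReal ComplexConjugate

noncomputable section

namespace Helper72.BA.P

open Helper72.BA

theorem nice_schwartz (f : SchwartzMap ℂ ℂ) : Nice f where
  meas := f.continuous.measurable
  int := f.integrable
  bdd := by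
    obtain ⟨C, hC⟩ := f.decay 0 0
    refine ⟨C, fun z => ?_⟩
    have := hC.2 z
    simpa using this

theorem inner_eq (z w : ℂ) : inner ℝ z w = z.re * w.re + z.im * w.im := by
  rw [Complex.inner]
  simp
  ring

/-- the Fourier transform of a window -/
theorem gW_nice (n : ℕ) (W : Finset ℤ) {f : ℂ → ℂ} (hf : Nice f) :
    Continuous (gW n W f) ∧ Integrable (gW n W f) ∧
      (∀ ξ, 𝓕 (gW n W f) ξ = mult n ξ * ((∑ j ∈ W, chi j ξ : ℝ) : ℂ) * 𝓕 f ξ) ∧
      Integrable (𝓕 (gW n W f)) := by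
  have hF : ∀ ξ, 𝓕 (gW n W f) ξ = ∑ j ∈ W, 𝓕 (cv (KK n j) f) ξ := by
    intro ξ
    have h1 : gW n W f = fun z => ∑ j ∈ W, cv (KK n j) f z := rfl
    rw [h1, Real.fourier_eq]
    simp_rw [Real.fourier_eq]
    rw [← integral_finsetSum]
    · simp_rw [Finset.smul_sum]
    · intro j hj
      have h2 := (nice_cv (ker_KK n j) hf).int
      exact (Real.fourierIntegral_convergent_iff ξ).2 h2
  have hF' : ∀ ξ, 𝓕 (gW n W f) ξ = mult n ξ * ((∑ j ∈ W, chi j ξ : ℝ) : ℂ) * 𝓕 f ξ := by
    intro ξ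
    rw [hF]
    simp_rw [fourier_cv (ker_KK n _) hf, fourier_KK]
    rw [Complex.ofReal_sum, Finset.mul_sum, Finset.sum_mul]
  refine ⟨?_, ?_, hF', ?_⟩
  · exact continuous_finsetSum _ fun j _ => continuous_cv (ker_KK n j) hf
  · exact integrable_finsetSum _ fun j _ => (nice_cv (ker_KK n j) hf).int
  · have h3 : 𝓕 (gW n W f) = fun ξ => ∑ j ∈ W, 𝓕 (cv (KK n j) f) ξ := funext hF
    rw [h3]
    exact integrable_finsetSum _ fun j _ => integrable_fourier_cv (ker_KK n j) hf

theorem continuous_Psi (i : ℤ) : Continuous (Psi i) := by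
  unfold Psi psi
  exact Real.smoothTransition.continuous.comp
    (continuous_const.sub (continuous_const.mul continuous_norm))

theorem norm_mult_le (n : ℕ) (ξ : ℂ) : ‖mult n ξ‖ ≤ 1 := by
  unfold mult
  rw [norm_pow]
  refine pow_le_one₀ (norm_nonneg _) ?_
  rw [norm_div, RCLike.norm_conj]
  exact div_self_le_one _

theorem limit_schwartz (n : ℕ) (p : ℝ) (hp : 1 ≤ p) (M : ℝ≥0∞)
    (h : ∀ (N : ℕ) (f : ℂ → ℂ), Nice f →
      ∫⁻ z, ‖gW n (Finset.Ico (-N : ℤ) N) f z‖ₑ ^ p ≤ M * ∫⁻ z, ‖f z‖ₑ ^ p) (f : SchwartzMap ℂ ℂ) :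
    ∫⁻ z, ‖Tn n f z‖ₑ ^ p ≤ M * ∫⁻ z, ‖f z‖ₑ ^ p := by
  have hf := nice_schwartz f
  have hfi : Integrable (𝓕 (f : ℂ → ℂ)) := by
    rw [← SchwartzMap.fourier_coe]
    exact (𝓕 f).integrable
  -- inversion for the windows
  have hinv : ∀ (N : ℕ) (z : ℂ), gW n (Finset.Ico (-N : ℤ) N) f z =
      ∫ ξ, 𝐞 (inner ℝ ξ z) • (mult n ξ * ((Psi (N - 1) ξ - Psi (-N - 1) ξ : ℝ) : ℂ) * 𝓕 (f : ℂ → ℂ) ξ) := by
    intro N z
    obtain ⟨h1, h2, h3, h4⟩ := gW_nice n (Finset.Ico (-N : ℤ) N) hf
    have h5 := h1.fourierInv_fourier_eq h2 h4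
    have h6 := congrFun h5 z
    rw [← h6, Real.fourierInv_eq]
    refine integral_congr_ae (Eventually.of_forall fun ξ => ?_)
    simp only
    rw [h3, sum_chi_Ico _ _ (by omega)]
  -- pointwise convergence
  have hlim : ∀ z : ℂ, Tendsto (fun N : ℕ => gW n (Finset.Ico (-N : ℤ) N) f z) atTop
      (𝓝 (Tn n f z)) := by
    intro z
    have hT : Tn n f z = ∫ ξ, 𝐞 (inner ℝ ξ z) • (mult n ξ * 𝓕 (f : ℂ → ℂ) ξ) := by
      unfold Tn
      refine integral_congr_ae (Eventually.of_forall fun ξ => ?_)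
      simp only
      rw [Real.fourier_eq, Circle.smul_def, smul_eq_mul]
      congr 1
      · rw [Real.fourierChar_apply, inner_eq]
        congr 1
        push_cast
        ring
      · unfold mult
        congr 1
        refine integral_congr_ae (Eventually.of_forall fun w => ?_)
        simp only
        rw [Circle.smul_def, smul_eq_mul, Real.fourierChar_apply, inner_eq]
        congr 2
        push_cast
        ring
    rw [hT]
    simp_rw [hinv]
    refine tendsto_integral_of_dominated_convergence (fun ξ => ‖𝓕 (f : ℂ → ℂ) ξ‖) ?_ hfi.norm ?_ ?_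
    · intro N
      have hm : Measurable (mult n) := by
        unfold mult
        exact ((Complex.continuous_conj.measurable.div measurable_id).pow_const n)
      have h1 : Continuous fun ξ : ℂ => 𝐞 (inner ℝ ξ z) := by
        exact Real.continuous_fourierChar.comp (continuous_id.inner continuous_const)
      have h2 : Continuous (𝓕 (f : ℂ → ℂ)) := by
        rw [← SchwartzMap.fourier_coe]
        exact (𝓕 f).continuous
      have h3 : Continuous fun ξ : ℂ => ((Psi (N - 1) ξ - Psi (-N - 1) ξ : ℝ) : ℂ) :=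
        Complex.continuous_ofReal.comp ((continuous_Psi _).sub (continuous_Psi _))
      exact (h1.aestronglyMeasurable).smul
        (((hm.aestronglyMeasurable).mul h3.aestronglyMeasurable).mul h2.aestronglyMeasurable)
    · intro N
      refine Eventually.of_forall fun ξ => ?_
      rw [Circle.norm_smul, norm_mul, norm_mul, Complex.norm_real, Real.norm_eq_abs]
      have h1 := norm_mult_le n ξ
      have h2 : |Psi (N - 1) ξ - Psi (-N - 1) ξ| ≤ 1 := by
        rw [abs_le]
        constructor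
        · linarith [Psi_nonneg (N - 1) ξ, Psi_le_one (-N - 1) ξ]
        · linarith [Psi_nonneg (-N - 1) ξ, Psi_le_one (N - 1) ξ]
      have h3 : ‖mult n ξ‖ * |Psi (N - 1) ξ - Psi (-N - 1) ξ| ≤ 1 :=
        mul_le_one₀ h1 (abs_nonneg _) h2
      exact mul_le_of_le_one_left (norm_nonneg _) h3
    · have h0 : ∀ᵐ ξ : ℂ, ξ ≠ 0 := by
        have : (volume : Measure ℂ) {(0 : ℂ)} = 0 := measure_singleton 0
        rw [ae_iff]
        simpa using this
      filter_upwards [h0] with ξ hξ
      have hpos : 0 < ‖ξ‖ := norm_pos_iff.2 hξ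
      obtain ⟨N1, hN1⟩ := pow_unbounded_of_one_lt ‖ξ‖ (one_lt_two : (1 : ℝ) < 2)
      obtain ⟨N2, hN2⟩ := exists_pow_lt_of_lt_one hpos (show (1 / 2 : ℝ) < 1 by norm_num)
      refine Tendsto.congr' ?_ tendsto_const_nhds
      filter_upwards [eventually_ge_atTop (N1 + 1), eventually_ge_atTop N2] with N hNa hNb
      have h1 : Psi (N - 1) ξ = 1 := by
        apply Psi_eq_one
        refine hN1.le.trans ?_
        have : (2 : ℝ) ^ N1 = (2 : ℝ) ^ (N1 : ℤ) := (zpow_natCast _ _).symm
        rw [this]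
        exact zpow_le_zpow_right₀ one_le_two (by omega)
      have h2 : Psi (-N - 1) ξ = 0 := by
        apply Psi_eq_zero
        have h3 : (2 : ℝ) ^ (-(N : ℤ) - 1 + 1) = (1 / 2 : ℝ) ^ N := by
          rw [sub_add_cancel, zpow_neg, zpow_natCast, one_div, inv_pow]
        rw [h3]
        refine le_trans ?_ hN2.le
        exact pow_le_pow_of_le_one (by norm_num) (by norm_num) hNb
      rw [h1, h2]
      simp
  -- Fatou
  have hFatou : ∫⁻ z, ‖Tn n f z‖ₑ ^ p ≤
      liminf (fun N : ℕ => ∫⁻ z, ‖gW n (Finset.Ico (-N : ℤ) N) f z‖ₑ ^ p) atTop := by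
    have h1 : ∀ z, ‖Tn n f z‖ₑ ^ p =
        liminf (fun N : ℕ => ‖gW n (Finset.Ico (-N : ℤ) N) f z‖ₑ ^ p) atTop := by
      intro z
      refine (Tendsto.liminf_eq ?_).symm
      exact ((ENNReal.continuous_rpow_const (y := p)).tendsto _).comp
        ((continuous_enorm.tendsto _).comp (hlim z))
    simp_rw [h1]
    refine lintegral_liminf_le fun N => ?_
    exact ((gW_nice n (Finset.Ico (-N : ℤ) N) hf).1.measurable.enorm).pow_const p
  refine hFatou.trans ?_
  refine liminf_le_of_frequently_le' (Frequently.of_forall fun N => h N f hf)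

end Helper72.BA.P


namespace Helper72.BA
alias limit_schwartz := P.limit_schwartz
end Helper72.BA
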