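import Pool.Agent.Helper72.BAM.EB
import Pool.Agent.Helper72.BAM.NR
import Pool.Agent.Helper72.BAM.LM
import Pool.Agent.Helper72.BAM.RTS
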