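import Pool.Agent.Helper72.BA.Defs

/-!
# Maximal function for the weights `gam` (module MX, MP_3dd6d4_an)
-/

set_option autoImplicit false

open MeasureTheory Complex FourierTransform Filter Topology
open scoped ENNReal NNReal ComplexConjugate

noncomputable section

namespace Helper72.BA.P
open Helper72.BA

/-- `gam` as an extended nonnegative function -/
def mxG (ρ : ℝ) (z : ℂ) : ℝ≥0∞ := ENNReal.ofReal (gam ρ z)

theorem mx_gam_nonneg (ρ : ℝ) (z : ℂ) : 0 ≤ gam ρ z := by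
  unfold gam; positivity

theorem mx_gam_cont (ρ : ℝ) : Continuous (gam ρ) := by
  unfold gam
  refine Continuous.mul continuous_const ?_
  refine Continuous.inv₀ (by fun_prop) ?_
  intro z
  positivity

theorem mxG_meas (ρ : ℝ) : Measurable (mxG ρ) :=
  ENNReal.measurable_ofReal.comp (mx_gam_cont ρ).measurable

theorem mxG_neg (ρ : ℝ) (z : ℂ) : mxG ρ (-z) = mxG ρ z := by
  unfold mxG gam; rw [norm_neg]

theorem mxG_sub (ρ : ℝ) (z w : ℂ) : mxG ρ (z - w) = mxG ρ (w - z) := by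
  rw [← mxG_neg, neg_sub]

theorem mx_gam_scale (ρ : ℝ) (hρ : 0 < ρ) (z : ℂ) : gam ρ z = (ρ ^ 2)⁻¹ * gam 1 (ρ⁻¹ • z) := by
  unfold gam
  rw [norm_smul, norm_inv, Real.norm_eq_abs, abs_of_pos hρ]
  simp only [one_pow, div_one, inv_one, one_mul]
  rw [mul_pow, inv_pow, inv_mul_eq_div (ρ ^ 2) (‖z‖ ^ 2)]

theorem mx_int_one : Integrable (gam 1) := by
  have h := integrable_rpow_neg_one_add_norm_sq (E := ℂ) (μ := volume) (r := 4)
    (by rw [Complex.finrank_real_complex]; norm_num)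
  refine h.congr (Eventually.of_forall fun z => ?_)
  unfold gam
  simp only [one_pow, div_one, inv_one, one_mul]
  have h0 : (0:ℝ) < 1 + ‖z‖ ^ 2 := by positivity
  rw [show (-(4:ℝ) / 2) = -2 by norm_num, Real.rpow_neg h0.le]
  norm_num

theorem mx_int (ρ : ℝ) (hρ : 0 < ρ) : Integrable (gam ρ) ∧ ∫ z, gam ρ z = ∫ z, gam 1 z := by
  have e : gam ρ = fun z => (ρ ^ 2)⁻¹ * gam 1 (ρ⁻¹ • z) := funext (mx_gam_scale ρ hρ)
  constructor
  · rw [e]
    exact (mx_int_one.comp_smul (by positivity : ρ⁻¹ ≠ 0)).const_mul _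
  · rw [e, integral_const_mul]
    rw [MeasureTheory.Measure.integral_comp_smul]
    rw [Complex.finrank_real_complex]
    have : |((ρ⁻¹ ^ 2)⁻¹ : ℝ)| = ρ ^ 2 := by
      rw [abs_of_pos (by positivity)]; simp
    rw [this, smul_eq_mul, ← mul_assoc, inv_mul_cancel₀ (by positivity), one_mul]

theorem mxG_lint (ρ : ℝ) (hρ : 0 < ρ) :
    ∫⁻ z, mxG ρ z = ENNReal.ofReal (∫ z, gam 1 z) := by
  unfold mxG
  rw [← ofReal_integral_eq_lintegral_ofReal (mx_int ρ hρ).1
    (Eventually.of_forall fun z => mx_gam_nonneg ρ z), (mx_int ρ hρ).2]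

/-- the common mass -/
def mxc : ℝ≥0 := Real.toNNReal (∫ z, gam 1 z) + 1

theorem mxG_lint_le (ρ : ℝ) (hρ : 0 < ρ) (z : ℂ) : ∫⁻ w, mxG ρ (z - w) ≤ mxc := by
  rw [lintegral_sub_left_eq_self (fun w => mxG ρ w) z, mxG_lint ρ hρ]
  unfold mxc
  rw [ENNReal.coe_add]
  exact le_self_add

/-- pointwise product estimate -/
theorem mx_gam_mul (a b : ℝ) (ha : 0 < a) (hab : a ≤ b) (u v : ℂ) :
    gam a u * gam b v ≤ 64 * gam b (u + v) * (gam a u + gam b v) := by
  have hb : 0 < b := lt_of_lt_of_le ha hab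
  have ea : ∀ (c : ℝ) (_ : 0 < c) (z : ℂ), gam c z = c ^ 2 / (c ^ 2 + ‖z‖ ^ 2) ^ 2 := by
    intro c hc z
    unfold gam
    have : 0 < c ^ 2 + ‖z‖ ^ 2 := by positivity
    field_simp
  have hu := norm_nonneg u
  have hv := norm_nonneg v
  have hs := norm_nonneg (u + v)
  have htri : ‖u + v‖ ≤ ‖u‖ + ‖v‖ := norm_add_le u v
  by_cases h : ‖u + v‖ ≤ 2 * ‖v‖
  · -- gam b v ≤ 16 gam b (u+v)
    have h1 : gam b v ≤ 16 * gam b (u + v) := by
      rw [ea b hb, ea b hb]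
      rw [← mul_div_assoc, div_le_div_iff₀ (by positivity) (by positivity)]
      have h2 : ‖u + v‖ ^ 2 ≤ 4 * ‖v‖ ^ 2 := by nlinarith
      have h3 : b ^ 2 + ‖u + v‖ ^ 2 ≤ 4 * (b ^ 2 + ‖v‖ ^ 2) := by nlinarith [sq_nonneg b]
      have h4 : (b ^ 2 + ‖u + v‖ ^ 2) ^ 2 ≤ (4 * (b ^ 2 + ‖v‖ ^ 2)) ^ 2 :=
        pow_le_pow_left₀ (by positivity) h3 2
      have h5 : 0 ≤ b ^ 2 := by positivity
      nlinarith
    have g1 := mx_gam_nonneg a u
    have g2 := mx_gam_nonneg b v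
    have g3 := mx_gam_nonneg b (u + v)
    calc gam a u * gam b v ≤ gam a u * (16 * gam b (u + v)) := by gcongr
      _ ≤ 64 * gam b (u + v) * (gam a u + gam b v) := by
        have := mul_nonneg g1 g3
        have := mul_nonneg g2 g3
        nlinarith
  · push Not at h
    have h0 : ‖u + v‖ ≤ 2 * ‖u‖ := by linarith
    -- gam a u ≤ 16 * gam b (u+v) if |u+v| ≥ b ; else gam b v ≤ 4 gam b (u+v)
    have g1 := mx_gam_nonneg a u
    have g2 := mx_gam_nonneg b v
    have g3 := mx_gam_nonneg b (u + v)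
    by_cases hbs : ‖u + v‖ ≤ b
    · have h1 : gam b v ≤ 4 * gam b (u + v) := by
        rw [ea b hb, ea b hb]
        rw [← mul_div_assoc, div_le_div_iff₀ (by positivity) (by positivity)]
        have h2 : ‖u + v‖ ^ 2 ≤ b ^ 2 := by nlinarith
        have h3 : b ^ 2 + ‖u + v‖ ^ 2 ≤ 2 * (b ^ 2 + ‖v‖ ^ 2) := by nlinarith [sq_nonneg ‖v‖]
        have h4 : (b ^ 2 + ‖u + v‖ ^ 2) ^ 2 ≤ (2 * (b ^ 2 + ‖v‖ ^ 2)) ^ 2 :=
          pow_le_pow_left₀ (by positivity) h3 2
        have h5 : 0 ≤ b ^ 2 := by positivity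
        nlinarith
      calc gam a u * gam b v ≤ gam a u * (4 * gam b (u + v)) := by gcongr
        _ ≤ 64 * gam b (u + v) * (gam a u + gam b v) := by
          have := mul_nonneg g1 g3
          have := mul_nonneg g2 g3
          nlinarith
    · push Not at hbs
      have h1 : gam a u ≤ 64 * gam b (u + v) := by
        have k1 : gam a u ≤ a ^ 2 / (‖u‖ ^ 2) ^ 2 := by
          rw [ea a ha]
          have : 0 < ‖u‖ := by linarith
          apply div_le_div_of_nonneg_left (by positivity) (by positivity)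
          exact pow_le_pow_left₀ (by positivity) (by nlinarith [sq_nonneg a]) 2
        refine k1.trans ?_
        rw [ea b hb]
        have hupos : 0 < ‖u‖ := by linarith
        rw [← mul_div_assoc, div_le_div_iff₀ (by positivity) (by positivity)]
        have h2 : b ^ 2 + ‖u + v‖ ^ 2 ≤ 8 * ‖u‖ ^ 2 := by nlinarith
        have h4 : (b ^ 2 + ‖u + v‖ ^ 2) ^ 2 ≤ (8 * ‖u‖ ^ 2) ^ 2 :=
          pow_le_pow_left₀ (by positivity) h2 2
        have h5 : a ^ 2 ≤ b ^ 2 := pow_le_pow_left₀ ha.le hab 2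
        calc a ^ 2 * (b ^ 2 + ‖u + v‖ ^ 2) ^ 2 ≤ b ^ 2 * (8 * ‖u‖ ^ 2) ^ 2 := by gcongr
          _ = 64 * b ^ 2 * (‖u‖ ^ 2) ^ 2 := by ring
      calc gam a u * gam b v ≤ (64 * gam b (u + v)) * gam b v := by gcongr
        _ ≤ 64 * gam b (u + v) * (gam a u + gam b v) := by
          have := mul_nonneg g1 g3
          have := mul_nonneg g2 g3
          nlinarith

theorem mxG_mul (a b : ℝ) (ha : 0 < a) (hab : a ≤ b) (u v : ℂ) :
    mxG a u * mxG b v ≤ 64 * mxG b (u + v) * (mxG a u + mxG b v) := by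
  unfold mxG
  have g1 := mx_gam_nonneg a u
  have g2 := mx_gam_nonneg b v
  have g3 := mx_gam_nonneg b (u + v)
  rw [← ENNReal.ofReal_mul g1, ← ENNReal.ofReal_add g1 g2,
    show (64 : ℝ≥0∞) = ENNReal.ofReal 64 by norm_num, ← ENNReal.ofReal_mul (by norm_num),
    ← ENNReal.ofReal_mul (by positivity)]
  exact ENNReal.ofReal_le_ofReal (mx_gam_mul a b ha hab u v)

/-- convolution estimate -/
theorem mxG_conv_le (a b : ℝ) (ha : 0 < a) (hab : a ≤ b) (z y : ℂ) :
    ∫⁻ w, mxG a (z - w) * mxG b (y - w) ≤ 128 * mxc * mxG b (z - y) := by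
  have hb : 0 < b := lt_of_lt_of_le ha hab
  calc ∫⁻ w, mxG a (z - w) * mxG b (y - w)
      ≤ ∫⁻ w, 64 * mxG b (z - y) * (mxG a (z - w) + mxG b (y - w)) := by
        refine lintegral_mono fun w => ?_
        have := mxG_mul a b ha hab (z - w) (w - y)
        rw [mxG_sub b w y, show z - w + (w - y) = z - y by ring] at this
        exact this
    _ = 64 * mxG b (z - y) * (∫⁻ w, (mxG a (z - w) + mxG b (y - w))) := by
        rw [lintegral_const_mul]
        exact ((mxG_meas a).comp (measurable_const.sub measurable_id)).add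
          ((mxG_meas b).comp (measurable_const.sub measurable_id))
    _ ≤ 64 * mxG b (z - y) * (mxc + mxc) := by
        gcongr
        have hm : Measurable fun w => mxG a (z - w) :=
          (mxG_meas a).comp (measurable_const.sub measurable_id)
        rw [lintegral_add_left hm]
        exact add_le_add (mxG_lint_le a ha z) (mxG_lint_le b hb y)
    _ = 128 * mxc * mxG b (z - y) := by ring

theorem mxG_conv (a b : ℝ) (ha : 0 < a) (hb : 0 < b) (z y : ℂ) :
    ∫⁻ w, mxG a (z - w) * mxG b (y - w) ≤ 128 * mxc * (mxG a (z - y) + mxG b (y - z)) := by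
  rcases le_total a b with h | h
  · refine (mxG_conv_le a b ha h z y).trans ?_
    gcongr
    rw [mxG_sub b y z]
    exact le_add_self
  · have := mxG_conv_le b a hb h y z
    rw [show (fun w => mxG b (y - w) * mxG a (z - w)) = fun w => mxG a (z - w) * mxG b (y - w) by
      funext w; ring] at this
    refine this.trans ?_
    gcongr
    rw [mxG_sub a y z]
    exact le_self_add

/-! ### the maximal operator -/

section
variable (I : Finset ℤ) (ρ : ℤ → ℝ)

/-- `G_i * h` -/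
def mxF (i : ℤ) (h : ℂ → ℝ≥0∞) (z : ℂ) : ℝ≥0∞ := ∫⁻ w, mxG (ρ i) (z - w) * h w

/-- the maximal function -/
def mxM (h : ℂ → ℝ≥0∞) (z : ℂ) : ℝ≥0∞ := ⨆ i ∈ I, mxF ρ i h z

theorem mx_meas2 (i : ℤ) : Measurable (fun p : ℂ × ℂ => mxG (ρ i) (p.1 - p.2)) :=
  (mxG_meas (ρ i)).comp (measurable_fst.sub measurable_snd)

theorem mxF_meas (i : ℤ) (h : ℂ → ℝ≥0∞) (hh : Measurable h) : Measurable (mxF ρ i h) := by
  unfold mxF
  exact Measurable.lintegral_prod_right' (f := fun p : ℂ × ℂ => mxG (ρ i) (p.1 - p.2) * h p.2)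
    ((mx_meas2 ρ i).mul (hh.comp measurable_snd))

theorem mxM_meas (h : ℂ → ℝ≥0∞) (hh : Measurable h) : Measurable (mxM I ρ h) := by
  unfold mxM
  exact Measurable.iSup fun i => Measurable.iSup_Prop _ (mxF_meas ρ i h hh)

/-- the set where the maximum is attained first at `i` -/
def mxE (h : ℂ → ℝ≥0∞) (i : ℤ) : Set ℂ :=
  {z | ∀ j ∈ I, mxF ρ j h z ≤ mxF ρ i h z} ∩ {z | ∀ j ∈ I, j < i → mxF ρ j h z < mxF ρ i h z}

theorem mxE_meas (h : ℂ → ℝ≥0∞) (hh : Measurable h) (i : ℤ) : MeasurableSet (mxE I ρ h i) := by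
  unfold mxE
  refine MeasurableSet.inter ?_ ?_
  · have : {z | ∀ j ∈ I, mxF ρ j h z ≤ mxF ρ i h z} = ⋂ j ∈ I, {z | mxF ρ j h z ≤ mxF ρ i h z} := by
      ext z; simp
    rw [this]
    exact Finset.measurableSet_biInter _ fun j _ =>
      measurableSet_le (mxF_meas ρ j h hh) (mxF_meas ρ i h hh)
  · have : {z | ∀ j ∈ I, j < i → mxF ρ j h z < mxF ρ i h z} =
        ⋂ j ∈ I, {z | j < i → mxF ρ j h z < mxF ρ i h z} := by
      ext z; simp
    rw [this]
    refine Finset.measurableSet_biInter _ fun j _ => ?_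
    by_cases hji : j < i
    · simp only [hji, forall_const]
      exact measurableSet_lt (mxF_meas ρ j h hh) (mxF_meas ρ i h hh)
    · simp [hji]

/-- indicator weights -/
def mxe (h : ℂ → ℝ≥0∞) (i : ℤ) (z : ℂ) : ℝ≥0∞ := (mxE I ρ h i).indicator 1 z

theorem mxe_meas (h : ℂ → ℝ≥0∞) (hh : Measurable h) (i : ℤ) : Measurable (mxe I ρ h i) :=
  measurable_one.indicator (mxE_meas I ρ h hh i)

theorem mxe_sum (h : ℂ → ℝ≥0∞) (hI : I.Nonempty) (z : ℂ) : ∑ i ∈ I, mxe I ρ h i z = 1 := by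
  classical
  obtain ⟨i0, hi0, hmax⟩ := I.exists_max_image (fun i => mxF ρ i h z) hI
  set J := I.filter (fun i => ∀ j ∈ I, mxF ρ j h z ≤ mxF ρ i h z) with hJ
  have hJn : J.Nonempty := ⟨i0, by simp [hJ, hi0]; exact hmax⟩
  obtain ⟨m, hm, hmin⟩ := J.exists_min_image id hJn
  have hmI : m ∈ I := (Finset.mem_filter.mp hm).1
  have hmm : ∀ j ∈ I, mxF ρ j h z ≤ mxF ρ m h z := (Finset.mem_filter.mp hm).2
  rw [Finset.sum_eq_single m]
  · unfold mxe
    rw [Set.indicator_of_mem]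
    · rfl
    · refine ⟨hmm, ?_⟩
      intro j hj hjm
      refine lt_of_le_of_ne (hmm j hj) ?_
      intro heq
      have : j ∈ J := by
        rw [hJ, Finset.mem_filter]
        refine ⟨hj, fun k hk => ?_⟩
        rw [heq]; exact hmm k hk
      exact absurd (hmin j this) (not_le.mpr hjm)
  · intro i hi him
    unfold mxe
    rw [Set.indicator_of_notMem]
    rintro ⟨h1, h2⟩
    rcases lt_or_gt_of_ne him with hlt | hgt
    · have : i ∈ J := by
        rw [hJ, Finset.mem_filter]; exact ⟨hi, h1⟩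
      exact absurd (hmin i this) (not_le.mpr hlt)
    · have := h2 m hmI hgt
      exact absurd (hmm i hi) (not_le.mpr this)
  · intro h; exact absurd hmI h

theorem mxe_mul (h : ℂ → ℝ≥0∞) (z : ℂ) (i : ℤ) (hi : i ∈ I) :
    mxe I ρ h i z * mxF ρ i h z = mxe I ρ h i z * mxM I ρ h z := by
  unfold mxe
  by_cases hz : z ∈ mxE I ρ h i
  · rw [Set.indicator_of_mem hz]
    congr 1
    unfold mxM
    apply le_antisymm
    · exact le_iSup₂_of_le i hi le_rfl
    · exact iSup₂_le fun j hj => hz.1 j hj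
  · rw [Set.indicator_of_notMem hz]; simp

/-- the linearised kernel -/
def mxK (h : ℂ → ℝ≥0∞) (z w : ℂ) : ℝ≥0∞ := ∑ i ∈ I, mxe I ρ h i z * mxG (ρ i) (z - w)

theorem mxK_meas (h : ℂ → ℝ≥0∞) (hh : Measurable h) :
    Measurable (fun p : ℂ × ℂ => mxK I ρ h p.1 p.2) := by
  unfold mxK
  exact Finset.measurable_fun_sum _ fun i _ =>
    ((mxe_meas I ρ h hh i).comp measurable_fst).mul (mx_meas2 ρ i)

/-- integral of the kernel against a function -/
theorem mxK_int (h g : ℂ → ℝ≥0∞) (hg : Measurable g) (z : ℂ) :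
    ∫⁻ w, mxK I ρ h z w * g w = ∑ i ∈ I, mxe I ρ h i z * mxF ρ i g z := by
  unfold mxK mxF
  calc ∫⁻ w, (∑ i ∈ I, mxe I ρ h i z * mxG (ρ i) (z - w)) * g w
      = ∫⁻ w, ∑ i ∈ I, mxe I ρ h i z * (mxG (ρ i) (z - w) * g w) := by
        refine lintegral_congr fun w => ?_
        rw [Finset.sum_mul]
        exact Finset.sum_congr rfl fun i _ => by ring
    _ = ∑ i ∈ I, ∫⁻ w, mxe I ρ h i z * (mxG (ρ i) (z - w) * g w) := by
        rw [lintegral_finsetSum]
        intro i _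
        exact (((mxG_meas (ρ i)).comp (measurable_const.sub measurable_id)).mul hg).const_mul _
    _ = _ := by
        refine Finset.sum_congr rfl fun i _ => ?_
        rw [lintegral_const_mul]
        exact ((mxG_meas (ρ i)).comp (measurable_const.sub measurable_id)).mul hg

theorem mxK_self (h : ℂ → ℝ≥0∞) (hh : Measurable h) (hI : I.Nonempty) (z : ℂ) :
    ∫⁻ w, mxK I ρ h z w * h w = mxM I ρ h z := by
  rw [mxK_int I ρ h h hh z]
  calc ∑ i ∈ I, mxe I ρ h i z * mxF ρ i h z = ∑ i ∈ I, mxe I ρ h i z * mxM I ρ h z :=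
        Finset.sum_congr rfl fun i hi => mxe_mul I ρ h z i hi
    _ = (∑ i ∈ I, mxe I ρ h i z) * mxM I ρ h z := by rw [Finset.sum_mul]
    _ = mxM I ρ h z := by rw [mxe_sum I ρ h hI z, one_mul]

theorem mxK_le (h g : ℂ → ℝ≥0∞) (hg : Measurable g) (hI : I.Nonempty) (z : ℂ) :
    ∫⁻ w, mxK I ρ h z w * g w ≤ mxM I ρ g z := by
  rw [mxK_int I ρ h g hg z]
  calc ∑ i ∈ I, mxe I ρ h i z * mxF ρ i g z ≤ ∑ i ∈ I, mxe I ρ h i z * mxM I ρ g z := by
        refine Finset.sum_le_sum fun i hi => ?_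
        gcongr
        exact le_iSup₂_of_le i hi le_rfl
    _ = (∑ i ∈ I, mxe I ρ h i z) * mxM I ρ g z := by rw [Finset.sum_mul]
    _ = mxM I ρ g z := by rw [mxe_sum I ρ h hI z, one_mul]

theorem mxK_conv (hρ : ∀ i, 0 < ρ i) (h : ℂ → ℝ≥0∞) (hI : I.Nonempty) (z y : ℂ) :
    ∫⁻ w, mxK I ρ h z w * mxK I ρ h y w ≤ 128 * mxc * (mxK I ρ h z y + mxK I ρ h y z) := by
  unfold mxK
  calc ∫⁻ w, (∑ i ∈ I, mxe I ρ h i z * mxG (ρ i) (z - w)) *
        (∑ j ∈ I, mxe I ρ h j y * mxG (ρ j) (y - w))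
      = ∫⁻ w, ∑ i ∈ I, ∑ j ∈ I, (mxe I ρ h i z * mxe I ρ h j y) *
          (mxG (ρ i) (z - w) * mxG (ρ j) (y - w)) := by
        refine lintegral_congr fun w => ?_
        rw [Finset.sum_mul_sum]
        exact Finset.sum_congr rfl fun i _ => Finset.sum_congr rfl fun j _ => by ring
    _ = ∑ i ∈ I, ∑ j ∈ I, (mxe I ρ h i z * mxe I ρ h j y) *
          ∫⁻ w, (mxG (ρ i) (z - w) * mxG (ρ j) (y - w)) := by
        have hm : ∀ i j, Measurable fun w => mxG (ρ i) (z - w) * mxG (ρ j) (y - w) := fun i j =>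
          ((mxG_meas (ρ i)).comp (measurable_const.sub measurable_id)).mul
            ((mxG_meas (ρ j)).comp (measurable_const.sub measurable_id))
        rw [lintegral_finsetSum]
        · refine Finset.sum_congr rfl fun i _ => ?_
          rw [lintegral_finsetSum]
          · refine Finset.sum_congr rfl fun j _ => ?_
            rw [lintegral_const_mul _ (hm i j)]
          · intro j _; exact (hm i j).const_mul _
        · intro i _
          exact Finset.measurable_fun_sum _ fun j _ => (hm i j).const_mul _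
    _ ≤ ∑ i ∈ I, ∑ j ∈ I, (mxe I ρ h i z * mxe I ρ h j y) *
          (128 * mxc * (mxG (ρ i) (z - y) + mxG (ρ j) (y - z))) := by
        gcongr with i _ j _
        exact mxG_conv (ρ i) (ρ j) (hρ i) (hρ j) z y
    _ = 128 * mxc * ((∑ i ∈ I, mxe I ρ h i z * mxG (ρ i) (z - y)) * (∑ j ∈ I, mxe I ρ h j y) +
          (∑ i ∈ I, mxe I ρ h i z) * (∑ j ∈ I, mxe I ρ h j y * mxG (ρ j) (y - z))) := by
        rw [Finset.sum_mul_sum, Finset.sum_mul_sum, ← Finset.sum_add_distrib, Finset.mul_sum]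
        refine Finset.sum_congr rfl fun i _ => ?_
        rw [← Finset.sum_add_distrib, Finset.mul_sum]
        exact Finset.sum_congr rfl fun j _ => by ring
    _ = _ := by
        rw [mxe_sum I ρ h hI z, mxe_sum I ρ h hI y, mul_one, one_mul]

/-! ### `L^p` estimates -/

theorem mx_cs (f g : ℂ → ℝ≥0∞) (hf : Measurable f) (hg : Measurable g) :
    (∫⁻ z, f z * g z) ^ 2 ≤ (∫⁻ z, f z ^ 2) * ∫⁻ z, g z ^ 2 := by
  have h := ENNReal.lintegral_mul_le_Lp_mul_Lq volume (p := 2) (q := 2)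
    Real.HolderConjugate.two_two hf.aemeasurable hg.aemeasurable
  have h2 := pow_le_pow_left' h 2
  refine (le_of_eq ?_).trans (h2.trans (le_of_eq ?_))
  · rfl
  · rw [mul_pow, ← ENNReal.rpow_natCast, ← ENNReal.rpow_natCast, ← ENNReal.rpow_mul,
      ← ENNReal.rpow_mul]
    norm_num

theorem mx_jensen (hρ : ∀ i, 0 < ρ i) (i : ℤ) (p : ℝ) (hp : 1 ≤ p) (h : ℂ → ℝ≥0∞)
    (hh : Measurable h) (z : ℂ) :
    (mxF ρ i h z) ^ p ≤ (mxc : ℝ≥0∞) ^ (p - 1) * mxF ρ i (fun w => h w ^ p) z := by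
  rcases eq_or_lt_of_le hp with rfl | hp1
  · simp
  have hp0 : 0 < p := by linarith
  set q := p.conjExponent with hq
  have hpq : p.HolderConjugate q := Real.HolderConjugate.conjExponent hp1
  have hq0 : 0 < q := hpq.symm.pos
  set g : ℂ → ℝ≥0∞ := fun w => mxG (ρ i) (z - w) with hg
  have hgm : Measurable g := (mxG_meas (ρ i)).comp (measurable_const.sub measurable_id)
  have key := ENNReal.lintegral_mul_le_Lp_mul_Lq volume hpq.symm
    (f := fun w => g w ^ (1 / q)) (g := fun w => g w ^ (1 / p) * h w)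
    (hgm.pow_const _).aemeasurable ((hgm.pow_const _).mul hh).aemeasurable
  have e1 : (∫⁻ w, ((fun w => g w ^ (1 / q)) * (fun w => g w ^ (1 / p) * h w)) w) =
      mxF ρ i h z := by
    unfold mxF
    refine lintegral_congr fun w => ?_
    simp only [Pi.mul_apply]
    rw [← mul_assoc, ← ENNReal.rpow_add_of_nonneg _ _ (by positivity) (by positivity)]
    have : 1 / q + 1 / p = 1 := by
      have := hpq.symm.inv_add_inv_eq_one
      simpa [one_div] using this
    rw [this, ENNReal.rpow_one]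
  have e2 : (∫⁻ w, (fun w => g w ^ (1 / q)) w ^ q) = ∫⁻ w, g w := by
    refine lintegral_congr fun w => ?_
    simp only
    rw [← ENNReal.rpow_mul, one_div_mul_cancel hq0.ne', ENNReal.rpow_one]
  have e3 : (∫⁻ w, (fun w => g w ^ (1 / p) * h w) w ^ p) = mxF ρ i (fun w => h w ^ p) z := by
    unfold mxF
    refine lintegral_congr fun w => ?_
    simp only
    rw [ENNReal.mul_rpow_of_nonneg _ _ hp0.le, ← ENNReal.rpow_mul, one_div_mul_cancel hp0.ne',
      ENNReal.rpow_one]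
  rw [e1, e2, e3] at key
  have key2 := ENNReal.rpow_le_rpow key hp0.le
  refine key2.trans ?_
  rw [ENNReal.mul_rpow_of_nonneg _ _ hp0.le, ← ENNReal.rpow_mul, ← ENNReal.rpow_mul,
    one_div_mul_cancel hp0.ne', ENNReal.rpow_one]
  gcongr
  have e4 : 1 / q * p = p - 1 := by
    have h1 := hpq.symm.inv_add_inv_eq_one
    have h2 : q⁻¹ = 1 - p⁻¹ := by linarith
    rw [one_div, h2, sub_mul, inv_mul_cancel₀ hp0.ne', one_mul]
  rw [e4]
  exact ENNReal.rpow_le_rpow (mxG_lint_le (ρ i) (hρ i) z) (by linarith)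

theorem mx_young (hρ : ∀ i, 0 < ρ i) (i : ℤ) (p : ℝ) (hp : 1 ≤ p) (h : ℂ → ℝ≥0∞)
    (hh : Measurable h) :
    ∫⁻ z, (mxF ρ i h z) ^ p ≤ (mxc : ℝ≥0∞) ^ p * ∫⁻ z, h z ^ p := by
  have hp0 : 0 < p := by linarith
  have hm : Measurable fun w => h w ^ p := hh.pow_const _
  calc ∫⁻ z, (mxF ρ i h z) ^ p
      ≤ ∫⁻ z, (mxc : ℝ≥0∞) ^ (p - 1) * mxF ρ i (fun w => h w ^ p) z :=
        lintegral_mono fun z => mx_jensen ρ hρ i p hp h hh z
    _ = (mxc : ℝ≥0∞) ^ (p - 1) * ∫⁻ z, mxF ρ i (fun w => h w ^ p) z :=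
        lintegral_const_mul _ (mxF_meas ρ i _ hm)
    _ = (mxc : ℝ≥0∞) ^ (p - 1) * ∫⁻ w, ∫⁻ z, mxG (ρ i) (z - w) * h w ^ p := by
        unfold mxF
        rw [lintegral_lintegral_swap]
        exact ((mx_meas2 ρ i).mul (hm.comp measurable_snd)).aemeasurable
    _ = (mxc : ℝ≥0∞) ^ (p - 1) * ∫⁻ w, (∫⁻ z, mxG (ρ i) (z - w)) * h w ^ p := by
        congr 1
        refine lintegral_congr fun w => ?_
        rw [lintegral_mul_const]
        exact (mxG_meas (ρ i)).comp (measurable_id.sub measurable_const)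
    _ ≤ (mxc : ℝ≥0∞) ^ (p - 1) * ∫⁻ w, mxc * h w ^ p := by
        gcongr with w
        calc ∫⁻ z, mxG (ρ i) (z - w) = ∫⁻ z, mxG (ρ i) (w - z) :=
              lintegral_congr fun z => mxG_sub _ _ _
          _ ≤ mxc := mxG_lint_le (ρ i) (hρ i) w
    _ = (mxc : ℝ≥0∞) ^ (p - 1) * mxc * ∫⁻ w, h w ^ p := by
        rw [lintegral_const_mul _ hm, mul_assoc]
    _ = _ := by
        congr 1
        nth_rewrite 2 [← ENNReal.rpow_one (mxc : ℝ≥0∞)]
        rw [← ENNReal.rpow_add_of_nonneg _ _ (by linarith) (by norm_num)]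
        congr 1; ring

theorem mxM_pow_le (h : ℂ → ℝ≥0∞) (z : ℂ) : mxM I ρ h z ^ 2 ≤ ∑ i ∈ I, mxF ρ i h z ^ 2 := by
  rcases I.eq_empty_or_nonempty with rfl | hI
  · simp [mxM]
  obtain ⟨i0, hi0, hmax⟩ := I.exists_max_image (fun i => mxF ρ i h z) hI
  have : mxM I ρ h z = mxF ρ i0 h z := by
    unfold mxM
    apply le_antisymm
    · exact iSup₂_le fun j hj => hmax j hj
    · exact le_iSup₂_of_le i0 hi0 le_rfl
  rw [this]
  exact Finset.single_le_sum (f := fun i => mxF ρ i h z ^ 2) (fun i _ => zero_le) hi0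

theorem mx_apriori (hρ : ∀ i, 0 < ρ i) (h : ℂ → ℝ≥0∞) (hh : Measurable h) :
    ∫⁻ z, mxM I ρ h z ^ 2 ≤ ((I.card * mxc ^ 2 : ℝ≥0) : ℝ≥0∞) * ∫⁻ z, h z ^ 2 := by
  calc ∫⁻ z, mxM I ρ h z ^ 2 ≤ ∫⁻ z, ∑ i ∈ I, mxF ρ i h z ^ 2 :=
        lintegral_mono fun z => mxM_pow_le I ρ h z
    _ = ∑ i ∈ I, ∫⁻ z, mxF ρ i h z ^ 2 := by
        rw [lintegral_finsetSum]
        intro i _; exact (mxF_meas ρ i h hh).pow_const _
    _ ≤ ∑ i ∈ I, (mxc : ℝ≥0∞) ^ 2 * ∫⁻ z, h z ^ 2 := by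
        refine Finset.sum_le_sum fun i _ => ?_
        have := mx_young ρ hρ i 2 (by norm_num) h hh
        simpa using this
    _ = _ := by
        rw [Finset.sum_const, nsmul_eq_mul]
        push_cast
        ring

/-- dual function -/
def mxV (h u : ℂ → ℝ≥0∞) (w : ℂ) : ℝ≥0∞ := ∫⁻ z, mxK I ρ h z w * u z

theorem mxV_meas (h u : ℂ → ℝ≥0∞) (hh : Measurable h) (hu : Measurable u) :
    Measurable (mxV I ρ h u) := by
  unfold mxV
  exact Measurable.lintegral_prod_left' (f := fun p : ℂ × ℂ => mxK I ρ h p.1 p.2 * u p.1)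
    ((mxK_meas I ρ h hh).mul (hu.comp measurable_fst))

theorem mx_dual (h u : ℂ → ℝ≥0∞) (hh : Measurable h) (hu : Measurable u) (hI : I.Nonempty) :
    ∫⁻ z, u z * mxM I ρ h z = ∫⁻ w, h w * mxV I ρ h u w := by
  calc ∫⁻ z, u z * mxM I ρ h z = ∫⁻ z, u z * ∫⁻ w, mxK I ρ h z w * h w := by
        refine lintegral_congr fun z => ?_
        rw [mxK_self I ρ h hh hI z]
    _ = ∫⁻ z, ∫⁻ w, u z * (mxK I ρ h z w * h w) := by
        refine lintegral_congr fun z => ?_
        rw [lintegral_const_mul]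
        exact ((mxK_meas I ρ h hh).comp (measurable_const.prodMk measurable_id)).mul hh
    _ = ∫⁻ w, ∫⁻ z, u z * (mxK I ρ h z w * h w) := by
        rw [lintegral_lintegral_swap]
        exact ((hu.comp measurable_fst).mul
          ((mxK_meas I ρ h hh).mul (hh.comp measurable_snd))).aemeasurable
    _ = ∫⁻ w, h w * mxV I ρ h u w := by
        refine lintegral_congr fun w => ?_
        unfold mxV
        rw [← lintegral_const_mul]
        · exact lintegral_congr fun z => by ring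
        · exact ((mxK_meas I ρ h hh).comp (measurable_id.prodMk measurable_const)).mul hu

theorem mx_kernel_sq (K : ℂ → ℂ → ℝ≥0∞) (hK : Measurable (fun p : ℂ × ℂ => K p.1 p.2))
    (u : ℂ → ℝ≥0∞) (hu : Measurable u) (c : ℝ≥0∞)
    (hc : ∀ z y, ∫⁻ w, K z w * K y w ≤ c * (K z y + K y z)) :
    ∫⁻ w, (∫⁻ z, K z w * u z) ^ 2 ≤ 2 * (c * ∫⁻ z, u z * ∫⁻ y, K z y * u y) := by
  have hK1 : ∀ z, Measurable fun w => K z w := fun z =>
    hK.comp (measurable_const.prodMk measurable_id)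
  have hK2 : ∀ w, Measurable fun z => K z w := fun w =>
    hK.comp (measurable_id.prodMk measurable_const)
  have mA : ∀ w, Measurable (fun z => K z w * u z) := fun w => (hK2 w).mul hu
  have mB : ∀ z, Measurable (fun y => K z y * u y) := fun z => (hK1 z).mul hu
  have mC : ∀ z y, Measurable (fun w => K z w * K y w) := fun z y => (hK1 z).mul (hK1 y)
  have mD : ∀ z, Measurable (fun y => u z * (K z y * u y)) := fun z => (mB z).const_mul _
  have mE : ∀ z, Measurable (fun y => u y * (K y z * u z)) := fun z =>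
    hu.mul ((hK2 z).mul measurable_const)
  have s1 : ∫⁻ w, (∫⁻ z, K z w * u z) ^ 2 =
      ∫⁻ w, ∫⁻ z, ∫⁻ y, (u z * u y) * (K z w * K y w) := by
    refine lintegral_congr fun w => ?_
    rw [sq, ← lintegral_mul_const _ (mA w)]
    refine lintegral_congr fun z => ?_
    rw [← lintegral_const_mul _ (mA w)]
    refine lintegral_congr fun y => ?_
    ring
  have s2 : ∫⁻ w, ∫⁻ z, ∫⁻ y, (u z * u y) * (K z w * K y w) =
      ∫⁻ z, ∫⁻ w, ∫⁻ y, (u z * u y) * (K z w * K y w) := by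
    rw [lintegral_lintegral_swap]
    have hm : Measurable (fun q : (ℂ × ℂ) × ℂ =>
        (u q.1.2 * u q.2) * (K q.1.2 q.1.1 * K q.2 q.1.1)) := by
      refine Measurable.mul ?_ ?_
      · exact (hu.comp (measurable_snd.comp measurable_fst)).mul (hu.comp measurable_snd)
      · refine Measurable.mul ?_ ?_
        · exact hK.comp ((measurable_snd.comp measurable_fst).prodMk
            (measurable_fst.comp measurable_fst))
        · exact hK.comp (measurable_snd.prodMk (measurable_fst.comp measurable_fst))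
    exact (hm.lintegral_prod_right').aemeasurable
  have s3 : ∀ z, ∫⁻ w, ∫⁻ y, (u z * u y) * (K z w * K y w) =
      ∫⁻ y, (u z * u y) * ∫⁻ w, (K z w * K y w) := by
    intro z
    rw [lintegral_lintegral_swap]
    · refine lintegral_congr fun y => ?_
      rw [lintegral_const_mul _ (mC z y)]
    · have hm : Measurable (fun q : ℂ × ℂ =>
          (u z * u q.2) * (K z q.1 * K q.2 q.1)) := by
        refine Measurable.mul ?_ ?_
        · exact (hu.comp measurable_snd).const_mul _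
        · exact ((hK1 z).comp measurable_fst).mul
            (hK.comp (measurable_snd.prodMk measurable_fst))
      exact hm.aemeasurable
  have s4 : ∀ z, ∫⁻ y, (u z * u y) * ∫⁻ w, (K z w * K y w) ≤
      (∫⁻ y, u z * (K z y * u y)) * c + (∫⁻ y, u y * (K y z * u z)) * c := by
    intro z
    rw [← add_mul, ← lintegral_add_left (mD z), ← lintegral_mul_const]
    · refine lintegral_mono fun y => ?_
      calc (u z * u y) * ∫⁻ w, (K z w * K y w) ≤ (u z * u y) * (c * (K z y + K y z)) := by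
            gcongr; exact hc z y
        _ = _ := by ring
    · exact (mD z).add (mE z)
  have s5 : ∫⁻ z, ∫⁻ y, u y * (K y z * u z) = ∫⁻ z, ∫⁻ y, u z * (K z y * u y) := by
    rw [lintegral_lintegral_swap]
    have hm : Measurable (fun q : ℂ × ℂ => u q.2 * (K q.2 q.1 * u q.1)) :=
      (hu.comp measurable_snd).mul
        ((hK.comp (measurable_snd.prodMk measurable_fst)).mul (hu.comp measurable_fst))
    exact hm.aemeasurable
  have m1 : Measurable fun z => ∫⁻ y, u z * (K z y * u y) :=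
    Measurable.lintegral_prod_right'
      (f := fun q : ℂ × ℂ => u q.1 * (K q.1 q.2 * u q.2))
      ((hu.comp measurable_fst).mul (hK.mul (hu.comp measurable_snd)))
  have m2 : Measurable fun z => ∫⁻ y, u y * (K y z * u z) :=
    Measurable.lintegral_prod_right'
      (f := fun q : ℂ × ℂ => u q.2 * (K q.2 q.1 * u q.1))
      ((hu.comp measurable_snd).mul
        ((hK.comp (measurable_snd.prodMk measurable_fst)).mul (hu.comp measurable_fst)))
  rw [s1, s2]
  calc ∫⁻ z, ∫⁻ w, ∫⁻ y, (u z * u y) * (K z w * K y w)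
      = ∫⁻ z, ∫⁻ y, (u z * u y) * ∫⁻ w, (K z w * K y w) := lintegral_congr s3
    _ ≤ ∫⁻ z, ((∫⁻ y, u z * (K z y * u y)) * c + (∫⁻ y, u y * (K y z * u z)) * c) :=
        lintegral_mono s4
    _ = (∫⁻ z, ∫⁻ y, u z * (K z y * u y)) * c + (∫⁻ z, ∫⁻ y, u y * (K y z * u z)) * c := by
        rw [lintegral_add_left (m1.mul_const _), lintegral_mul_const _ m1,
          lintegral_mul_const _ m2]
    _ = 2 * (c * ∫⁻ z, ∫⁻ y, u z * (K z y * u y)) := by
        rw [s5]; ring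
    _ = _ := by
        congr 2
        refine lintegral_congr fun z => ?_
        rw [lintegral_const_mul _ (mB z)]

theorem mxV_sq (hρ : ∀ i, 0 < ρ i) (h u : ℂ → ℝ≥0∞) (hh : Measurable h) (hu : Measurable u)
    (hI : I.Nonempty) :
    ∫⁻ w, mxV I ρ h u w ^ 2 ≤ 256 * mxc * ∫⁻ z, u z * mxM I ρ u z := by
  have hmain := mx_kernel_sq (mxK I ρ h) (mxK_meas I ρ h hh) u hu (128 * mxc)
    (mxK_conv I ρ hρ h hI)
  have hle : ∫⁻ z, u z * ∫⁻ y, mxK I ρ h z y * u y ≤ ∫⁻ z, u z * mxM I ρ u z := by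
    refine lintegral_mono fun z => ?_
    gcongr
    exact mxK_le I ρ h u hu hI z
  refine hmain.trans ?_
  calc 2 * (128 * mxc * ∫⁻ z, u z * ∫⁻ y, mxK I ρ h z y * u y)
      ≤ 2 * (128 * mxc * ∫⁻ z, u z * mxM I ρ u z) := by gcongr
    _ = 256 * mxc * ∫⁻ z, u z * mxM I ρ u z := by ring

/-- self improvement of the constant -/
theorem mx_improve (hρ : ∀ i, 0 < ρ i) (hI : I.Nonempty) (K : ℝ≥0)
    (hK : ∀ h : ℂ → ℝ≥0∞, Measurable h → ∫⁻ z, mxM I ρ h z ^ 2 ≤ K * ∫⁻ z, h z ^ 2)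
    (h : ℂ → ℝ≥0∞) (hh : Measurable h) :
    (∫⁻ z, mxM I ρ h z ^ 2) ^ 2 ≤ ((256 * mxc) ^ 2 * K : ℝ≥0) * (∫⁻ z, h z ^ 2) ^ 2 := by
  set A := ∫⁻ z, mxM I ρ h z ^ 2 with hA
  set B := ∫⁻ z, h z ^ 2 with hB
  by_cases hB' : B = ∞
  · rcases eq_or_ne (((256 * mxc) ^ 2 * K : ℝ≥0)) 0 with h0 | h0
    · have hK0 : K = 0 := by
        have : (256 * mxc) ^ 2 ≠ 0 := by
          have : (0:ℝ≥0) < mxc := by unfold mxc; positivity
          positivity
        exact (mul_eq_zero.mp h0).resolve_left this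
      have := hK h hh
      rw [hK0] at this
      have hA0 : A = 0 := by
        rw [hA]; simpa using this
      rw [hA0]; simp
    · rw [hB']
      have : ((((256 * mxc) ^ 2 * K : ℝ≥0)) : ℝ≥0∞) * (∞ : ℝ≥0∞) ^ 2 = ∞ := by
        rw [ENNReal.top_pow (by norm_num)]
        exact ENNReal.mul_top (by exact_mod_cast h0)
      rw [this]; exact le_top
  have hAfin : A ≠ ∞ := by
    have := hK h hh
    refine ne_top_of_le_ne_top ?_ this
    exact ENNReal.mul_ne_top ENNReal.coe_ne_top hB'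
  rcases eq_or_ne A 0 with hA0 | hA0
  · rw [hA0]; simp
  set u := mxM I ρ h with hu
  have hum : Measurable u := mxM_meas I ρ h hh
  set D := ∫⁻ w, mxV I ρ h u w ^ 2 with hD
  set E := ∫⁻ z, u z * mxM I ρ u z with hE
  have h1 : A ^ 2 ≤ B * D := by
    have e : A = ∫⁻ w, h w * mxV I ρ h u w := by
      rw [← mx_dual I ρ h u hh hum hI, hA]
      exact lintegral_congr fun z => sq _
    rw [e]
    exact mx_cs h _ hh (mxV_meas I ρ h u hh hum)
  have h2 : D ≤ 256 * mxc * E := mxV_sq I ρ hρ h u hh hum hI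
  have h3 : E ^ 2 ≤ A * (K * A) := by
    refine (mx_cs u _ hum (mxM_meas I ρ u hum)).trans ?_
    gcongr
    exact hK u hum
  have h4 : (A ^ 2) ^ 2 ≤ B ^ 2 * ((256 * mxc) ^ 2 * (A * (K * A))) := by
    calc (A ^ 2) ^ 2 ≤ (B * (256 * mxc * E)) ^ 2 := by
          gcongr
          exact h1.trans (by gcongr)
      _ = B ^ 2 * ((256 * mxc) ^ 2 * E ^ 2) := by ring
      _ ≤ _ := by gcongr
  have h5 : A ^ 2 * A ^ 2 ≤ A ^ 2 * (((256 * mxc) ^ 2 * K : ℝ≥0) * B ^ 2) := by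
    calc A ^ 2 * A ^ 2 = (A ^ 2) ^ 2 := by ring
      _ ≤ _ := h4
      _ = _ := by push_cast; ring
  have hA2 : A ^ 2 ≠ 0 := pow_ne_zero _ hA0
  have hA2' : A ^ 2 ≠ ∞ := ENNReal.pow_ne_top hAfin
  exact (ENNReal.mul_le_mul_iff_right hA2 hA2').mp h5

end

theorem mx_two : ∃ C : ℝ≥0, ∀ (I : Finset ℤ) (ρ : ℤ → ℝ) (_ : ∀ i, 0 < ρ i) (h : ℂ → ℝ≥0∞)
    (_ : Measurable h), ∫⁻ z, mxM I ρ h z ^ 2 ≤ C * ∫⁻ z, h z ^ 2 := by
  refine ⟨(256 * mxc) ^ 2 + 1, fun I ρ hρ h hh => ?_⟩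
  rcases I.eq_empty_or_nonempty with rfl | hI
  · simp [mxM]
  set L : ℝ≥0 := (256 * mxc) ^ 2 with hL
  have hmxc : (1:ℝ≥0) ≤ mxc := by unfold mxc; exact le_add_self
  have hLpos : 0 < L := by positivity
  set S : Set ℝ≥0 := {K | ∀ h : ℂ → ℝ≥0∞, Measurable h →
    ∫⁻ z, mxM I ρ h z ^ 2 ≤ K * ∫⁻ z, h z ^ 2} with hS
  have hne : S.Nonempty := ⟨I.card * mxc ^ 2, fun h hh => mx_apriori I ρ hρ h hh⟩
  have hmono : ∀ K ∈ S, ∀ K' : ℝ≥0, K ≤ K' → K' ∈ S := by
    intro K hK K' hKK' h hh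
    exact (hK h hh).trans (by gcongr)
  have himp : ∀ K ∈ S, ∀ K' : ℝ≥0, L * K ≤ K' ^ 2 → K' ∈ S := by
    intro K hK K' hKK' h hh
    have := mx_improve I ρ hρ hI K hK h hh
    rw [← hL] at this
    rw [← ENNReal.pow_le_pow_left_iff (n := 2) (by norm_num), mul_pow]
    refine this.trans ?_
    gcongr
    exact_mod_cast hKK'
  have hbdd : BddBelow S := ⟨0, fun _ _ => zero_le⟩
  have hinf : sInf S ≤ L := by
    by_contra hcon
    push Not at hcon
    set K0 := sInf S with hK0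
    have hK0pos : 0 < K0 := lt_trans hLpos hcon
    -- choose K in S with L*K < K0^2
    have h1 : K0 < K0 ^ 2 / L := by
      rw [lt_div_iff₀ hLpos, sq]
      exact mul_lt_mul_of_pos_left hcon hK0pos
    obtain ⟨K, hK, hKlt⟩ := exists_lt_of_csInf_lt hne h1
    have h2 : L * K < K0 ^ 2 := by
      rw [lt_div_iff₀ hLpos] at hKlt
      rwa [mul_comm]
    set K' := NNReal.sqrt (L * K) with hK'
    have h3 : K' < K0 := by
      rw [hK', ← NNReal.sqrt_sq K0]
      exact NNReal.sqrt_lt_sqrt.2 h2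
    have h4 : K' ∈ S := himp K hK K' (by rw [hK', NNReal.sq_sqrt])
    exact absurd (csInf_le hbdd h4) (not_le.mpr h3)
  have hlt : sInf S < L + 1 := lt_of_le_of_lt hinf (by simp)
  obtain ⟨K, hK, hKlt⟩ := exists_lt_of_csInf_lt hne hlt
  exact hmono K hK (L + 1) hKlt.le h hh

theorem maximal (q : ℕ) (hq : 2 ≤ q) : ∃ C : ℝ≥0, ∀ (I : Finset ℤ) (ρ : ℤ → ℝ)
    (_ : ∀ i, 0 < ρ i) (h : ℂ → ℝ≥0∞) (_ : Measurable h),
    ∫⁻ z, (⨆ i ∈ I, ∫⁻ w, ENNReal.ofReal (gam (ρ i) (z - w)) * h w) ^ q ≤ C * ∫⁻ z, (h z) ^ q := by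
  obtain ⟨C, hC⟩ := mx_two
  refine ⟨mxc ^ (q - 2) * C, fun I ρ hρ h hh => ?_⟩
  set p : ℝ := q / 2 with hp
  have hp1 : 1 ≤ p := by
    rw [hp, le_div_iff₀ (by norm_num)]
    have : (2:ℝ) ≤ q := by exact_mod_cast hq
    linarith
  have hp0 : 0 < p := by linarith
  have hm : Measurable fun w => h w ^ p := hh.pow_const _
  have hmain := hC I ρ hρ (fun w => h w ^ p) hm
  have e1 : ∀ x : ℝ≥0∞, (x ^ p) ^ 2 = x ^ q := by
    intro x
    rw [← ENNReal.rpow_natCast, ← ENNReal.rpow_mul, ← ENNReal.rpow_natCast]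
    congr 1
    rw [hp]; push_cast; ring
  simp only [e1] at hmain
  have hpt : ∀ z, (⨆ i ∈ I, ∫⁻ w, ENNReal.ofReal (gam (ρ i) (z - w)) * h w) ^ q ≤
      (mxc : ℝ≥0∞) ^ (q - 2) * mxM I ρ (fun w => h w ^ p) z ^ 2 := by
    intro z
    rw [← e1]
    have h1 : (⨆ i ∈ I, ∫⁻ w, ENNReal.ofReal (gam (ρ i) (z - w)) * h w) ^ p ≤
        (mxc : ℝ≥0∞) ^ (p - 1) * mxM I ρ (fun w => h w ^ p) z := by
      rcases I.eq_empty_or_nonempty with rfl | hI
      · simp [hp0]
      obtain ⟨i0, hi0, hmax⟩ := I.exists_max_image (fun i => mxF ρ i h z) hI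
      have : (⨆ i ∈ I, ∫⁻ w, ENNReal.ofReal (gam (ρ i) (z - w)) * h w) = mxF ρ i0 h z := by
        apply le_antisymm
        · exact iSup₂_le fun j hj => hmax j hj
        · exact le_iSup₂_of_le i0 hi0 le_rfl
      rw [this]
      refine (mx_jensen ρ hρ i0 p hp1 h hh z).trans ?_
      gcongr
      exact le_iSup₂_of_le i0 hi0 le_rfl
    calc ((⨆ i ∈ I, ∫⁻ w, ENNReal.ofReal (gam (ρ i) (z - w)) * h w) ^ p) ^ 2
        ≤ ((mxc : ℝ≥0∞) ^ (p - 1) * mxM I ρ (fun w => h w ^ p) z) ^ 2 := by gcongr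
      _ = _ := by
        rw [mul_pow]
        congr 1
        rw [← ENNReal.rpow_natCast, ← ENNReal.rpow_mul, ← ENNReal.rpow_natCast]
        congr 1
        rw [hp, Nat.cast_sub hq]; push_cast; ring
  calc ∫⁻ z, (⨆ i ∈ I, ∫⁻ w, ENNReal.ofReal (gam (ρ i) (z - w)) * h w) ^ q
      ≤ ∫⁻ z, (mxc : ℝ≥0∞) ^ (q - 2) * mxM I ρ (fun w => h w ^ p) z ^ 2 := lintegral_mono hpt
    _ = (mxc : ℝ≥0∞) ^ (q - 2) * ∫⁻ z, mxM I ρ (fun w => h w ^ p) z ^ 2 := by
        rw [lintegral_const_mul]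
        exact (mxM_meas I ρ _ hm).pow_const _
    _ ≤ (mxc : ℝ≥0∞) ^ (q - 2) * (C * ∫⁻ z, h z ^ q) := by gcongr
    _ = _ := by push_cast; ring

end Helper72.BA.P


namespace Helper72.BA
alias maximal := P.maximal
end Helper72.BA
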