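import Pool.Agent.Helper72.BA.Defs
import Pool.Agent.Helper72.BAM.FB1
import Pool.Agent.Helper72.BAM.KE1
import Pool.Agent.Helper72.BAM.KE4
import Pool.Agent.Helper72.BAM.L2
import Pool.Agent.Helper72.BAM.RT2

set_option autoImplicit false

open MeasureTheory Complex FourierTransform Filter Topology
open scoped ENNReal NNReal ComplexConjugate

noncomputable section

namespace Helper72.BA.P

open Helper72.BA

theorem X_bound : ∃ C : ℝ, 0 < C ∧ ∀ n : ℕ, 1 ≤ n → ∀ A : Finset ℤ, ∀ k : ℕ, 1 ≤ k →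
    ∀ f : ℂ → ℂ, Nice f →
    ∑ j ∈ A, nrm (2 * k) (gj n j f) ≤ ENNReal.ofReal ((C * n) ^ (2 * k - 2)) * nrm (2 * k) f := by
  obtain ⟨C, hC, hL1⟩ := kernel_L1
  refine ⟨C, hC, fun n hn A k hk f hf => ?_⟩
  have hCn : 0 ≤ C * n := by positivity
  have hinf : ∀ j ∈ A, ∀ f, Nice f → (∀ z, ‖f z‖ ≤ 1) → ∀ x : ℂ,
      ∫⁻ _ : Unit, ‖gj n j f x‖ₑ ^ 2 ∂(Measure.dirac ()) ≤ ((Real.toNNReal (C * n) : ℝ≥0) : ℝ≥0∞) ^ 2 := by
    intro j _ f hf hf1 x
    rw [lintegral_dirac]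
    refine pow_le_pow_left₀ (zero_le) ?_ 2
    calc ‖gj n j f x‖ₑ = ‖∫ w, KK n j (x - w) * f w‖ₑ := rfl
      _ ≤ ∫⁻ w, ‖KK n j (x - w) * f w‖ₑ := enorm_integral_le_lintegral_enorm _
      _ ≤ ∫⁻ w, ‖KK n j (x - w)‖ₑ := by
          refine lintegral_mono fun w => ?_
          rw [enorm_mul]
          calc ‖KK n j (x - w)‖ₑ * ‖f w‖ₑ ≤ ‖KK n j (x - w)‖ₑ * 1 := by
                refine mul_le_mul_right ?_ _
                rw [← ofReal_norm, ← ENNReal.ofReal_one]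
                exact ENNReal.ofReal_le_ofReal (hf1 w)
            _ = ‖KK n j (x - w)‖ₑ := mul_one _
      _ = ∫⁻ w, ‖KK n j w‖ₑ := lintegral_sub_left_eq_self (fun w => ‖KK n j w‖ₑ) x
      _ ≤ ENNReal.ofReal (C * n) := hL1 n hn j
  have h := RT2 (X := ℂ) (Y := Unit) A (fun _ => volume) (Measure.dirac ())
    (fun j f x _ => gj n j f x)
    (fun j f hf => (nice_cv (ker_KK n j) hf).meas.comp measurable_fst)
    (fun j f g hf hg => by
      funext x y
      exact congrFun (cv_add (ker_KK n j) hf hg) x)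
    (fun j c f _ => by
      funext x y
      exact congrFun (cv_smul (K := KK n j) (f := f) c) x)
    1 (Real.toNNReal (C * n))
    (fun f hf => by
      have h1 := sum_nrm_two_le n A f hf
      unfold nrm at h1
      simpa only [lintegral_dirac, ENNReal.coe_one, one_mul] using h1)
    hinf (2 * k : ℝ) (by
      have : (1 : ℝ) ≤ k := by exact_mod_cast hk
      linarith) f hf
  have e1 : ∀ x : ℝ≥0∞, (x ^ 2) ^ ((2 * k : ℝ) / 2) = x ^ (2 * k) := by
    intro x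
    have : (2 * k : ℝ) / 2 = ((k : ℕ) : ℝ) := by ring
    rw [this, ENNReal.rpow_natCast, ← pow_mul]
  have e2 : ∀ x : ℝ≥0∞, x ^ (2 * k : ℝ) = x ^ (2 * k) := by
    intro x
    have : (2 * k : ℝ) = ((2 * k : ℕ) : ℝ) := by push_cast; ring
    rw [this, ENNReal.rpow_natCast]
  have e3 : ∀ x : ℝ≥0∞, x ^ ((2 * k : ℝ) - 2) = x ^ (2 * k - 2) := by
    intro x
    have : (2 * k : ℝ) - 2 = ((2 * k - 2 : ℕ) : ℝ) := by
      rw [Nat.cast_sub (by omega)]; push_cast; ring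
    rw [this, ENNReal.rpow_natCast]
  simp only [lintegral_dirac, e1, e2, e3, ENNReal.coe_one, one_mul] at h
  unfold nrm
  rw [ENNReal.ofReal_pow hCn]
  exact h

end Helper72.BA.P


namespace Helper72.BA
alias X_bound := P.X_bound
end Helper72.BA
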