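import Pool.Agent.Helper72.BA.Defs
import Pool.Agent.Helper72.BAM.FB1
import Pool.Agent.Helper72.BAM.FB2
import Pool.Agent.Helper72.BAM.KE1
import Pool.Agent.Helper72.BAM.KE3

/-! # Module EN: the energy inequality -/

set_option autoImplicit false

open MeasureTheory Complex FourierTransform Filter Topology
open scoped ENNReal NNReal ComplexConjugate

noncomputable section

namespace Helper72.BA.P

open Helper72.BA

namespace EN

/-! ### Schwartz kernels -/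

lemma ker_mul {K g : ℂ → ℂ} (hK : Ker K) (hg : g.HasTemperateGrowth) :
    Ker (fun z => g z * K z) := by
  obtain ⟨s, rfl⟩ := hK
  refine ⟨SchwartzMap.smulLeftCLM ℂ g s, ?_⟩
  funext z
  rw [SchwartzMap.smulLeftCLM_apply_apply hg, smul_eq_mul]

lemma ker_star {K : ℂ → ℂ} (hK : Ker K) : Ker (fun u => conj (K (-u))) := by
  obtain ⟨s, rfl⟩ := hK
  refine ⟨SchwartzMap.postcompCLM (𝕜 := ℝ) (Complex.conjCLE : ℂ →L[ℝ] ℂ)
    (SchwartzMap.compCLMOfContinuousLinearEquiv ℝ (ContinuousLinearEquiv.neg ℝ) s), ?_⟩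
  funext z
  rw [SchwartzMap.postcompCLM_apply]
  simp

lemma tg_id : Function.HasTemperateGrowth (fun z : ℂ => z) := Function.HasTemperateGrowth.id'

lemma tg_conj : Function.HasTemperateGrowth (fun z : ℂ => conj z) :=
  (Complex.conjCLE : ℂ →L[ℝ] ℂ).hasTemperateGrowth

lemma normsq_eq (z : ℂ) : ((‖z‖ ^ 2 : ℝ) : ℂ) = z * conj z := by
  rw [Complex.mul_conj, Complex.normSq_eq_norm_sq]

lemma tg_normsq : Function.HasTemperateGrowth (fun z : ℂ => ((‖z‖ ^ 2 : ℝ) : ℂ)) := by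
  simp only [normsq_eq]
  exact tg_id.mul tg_conj

lemma ker_bdd {K : ℂ → ℂ} (hK : Ker K) : ∃ C : ℝ, ∀ z, ‖K z‖ ≤ C := by
  obtain ⟨s, rfl⟩ := hK
  exact ⟨_, fun z => SchwartzMap.norm_le_seminorm ℝ s z⟩

lemma ker_cont {K : ℂ → ℂ} (hK : Ker K) : Continuous K := by
  obtain ⟨s, rfl⟩ := hK
  exact s.continuous

/-! ### nice functions -/

lemma nice_mul {v g : ℂ → ℂ} (hv : Nice v) (hg : Measurable g) (hb : ∃ C : ℝ, ∀ z, ‖g z‖ ≤ C) :
    Nice (fun z => g z * v z) := by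
  obtain ⟨C, hC⟩ := hb
  obtain ⟨D, hD⟩ := hv.bdd
  refine ⟨hg.mul hv.meas, ?_, ⟨C * D, fun z => ?_⟩⟩
  · exact hv.int.bdd_mul (c := C) hg.aestronglyMeasurable (Eventually.of_forall hC)
  · rw [norm_mul]
    exact mul_le_mul (hC z) (hD z) (norm_nonneg _) ((norm_nonneg _).trans (hC z))

lemma nice_zero : Nice (fun _ => 0) := ⟨measurable_const, by simp, ⟨0, by simp⟩⟩

lemma nice_add' {v g : ℂ → ℂ} (hv : Nice v) (hg : Nice g) : Nice (fun z => v z + g z) := by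
  obtain ⟨C, hC⟩ := hv.bdd
  obtain ⟨D, hD⟩ := hg.bdd
  exact ⟨hv.meas.add hg.meas, hv.int.add hg.int,
    ⟨C + D, fun z => (norm_add_le _ _).trans (add_le_add (hC z) (hD z))⟩⟩

lemma nice_sum (A : Finset ℤ) (v : ℤ → ℂ → ℂ) (hv : ∀ j ∈ A, Nice (v j)) :
    Nice (fun z => ∑ j ∈ A, v j z) := by
  classical
  induction A using Finset.induction_on with
  | empty => simpa using nice_zero
  | insert a s ha ih =>
    simp only [Finset.sum_insert ha]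
    exact nice_add' (hv a (Finset.mem_insert_self a s))
      (ih fun j hj => hv j (Finset.mem_insert_of_mem hj))

lemma cv_integrable {K v : ℂ → ℂ} (hK : Ker K) (hv : Nice v) (z : ℂ) :
    Integrable (fun w => K (z - w) * v w) := by
  obtain ⟨C, hC⟩ := ker_bdd hK
  refine hv.int.bdd_mul (c := C) ?_ (Eventually.of_forall fun w => hC _)
  exact ((ker_cont hK).comp (continuous_const.sub continuous_id)).aestronglyMeasurable

/-! ### almost orthogonality -/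

lemma card_annuli (A : Finset ℤ) (x : ℝ) :
    (A.filter fun j => ¬ (x < (2 : ℝ) ^ (j - 1) ∨ (2 : ℝ) ^ (j + 1) < x)).card ≤ 3 := by
  set S := A.filter fun j => ¬ (x < (2 : ℝ) ^ (j - 1) ∨ (2 : ℝ) ^ (j + 1) < x) with hS
  rcases S.eq_empty_or_nonempty with h | h
  · rw [h]; simp
  · set i := S.min' h with hi
    have hiS : i ∈ S := S.min'_mem h
    have hsub : S ⊆ Finset.Icc i (i + 2) := by
      intro j hj
      rw [Finset.mem_Icc]
      refine ⟨S.min'_le j hj, ?_⟩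
      rw [hS, Finset.mem_filter] at hj hiS
      obtain ⟨-, hj⟩ := hj
      obtain ⟨-, hi'⟩ := hiS
      push Not at hj hi'
      have h1 : (2 : ℝ) ^ (j - 1) ≤ (2 : ℝ) ^ (i + 1) := hj.1.trans hi'.2
      have h2 : j - 1 ≤ i + 1 := (zpow_le_zpow_iff_right₀ (by norm_num : (1 : ℝ) < 2)).1 h1
      omega
    calc S.card ≤ (Finset.Icc i (i + 2)).card := Finset.card_le_card hsub
      _ = 3 := by rw [Int.card_Icc]; omega

lemma sum_sq_le (A : Finset ℤ) (a : ℤ → ℂ) (x : ℝ)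
    (h : ∀ j ∈ A, (x < (2 : ℝ) ^ (j - 1) ∨ (2 : ℝ) ^ (j + 1) < x) → a j = 0) :
    ‖∑ j ∈ A, a j‖ ^ 2 ≤ 3 * ∑ j ∈ A, ‖a j‖ ^ 2 := by
  classical
  set S := A.filter fun j => ¬ (x < (2 : ℝ) ^ (j - 1) ∨ (2 : ℝ) ^ (j + 1) < x) with hS
  have h1 : ∑ j ∈ A, a j = ∑ j ∈ S, a j := by
    rw [hS, Finset.sum_filter]
    refine Finset.sum_congr rfl fun j hj => ?_
    by_cases hc : (x < (2 : ℝ) ^ (j - 1) ∨ (2 : ℝ) ^ (j + 1) < x)
    · rw [if_neg (not_not.2 hc), h j hj hc]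
    · rw [if_pos hc]
  have h2 : ‖∑ j ∈ S, a j‖ ≤ ∑ j ∈ S, ‖a j‖ := norm_sum_le _ _
  have h3 : (∑ j ∈ S, ‖a j‖) ^ 2 ≤ S.card * ∑ j ∈ S, ‖a j‖ ^ 2 := sq_sum_le_card_mul_sum_sq
  have h4 : ∑ j ∈ S, ‖a j‖ ^ 2 ≤ ∑ j ∈ A, ‖a j‖ ^ 2 :=
    Finset.sum_le_sum_of_subset_of_nonneg (Finset.filter_subset _ _) fun _ _ _ => by positivity
  have h5 : (S.card : ℝ) ≤ 3 := by exact_mod_cast card_annuli A x
  have h0 : 0 ≤ ∑ j ∈ S, ‖a j‖ ^ 2 := Finset.sum_nonneg fun _ _ => by positivity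
  rw [h1]
  calc ‖∑ j ∈ S, a j‖ ^ 2 ≤ (∑ j ∈ S, ‖a j‖) ^ 2 := by gcongr
    _ ≤ S.card * ∑ j ∈ S, ‖a j‖ ^ 2 := h3
    _ ≤ 3 * ∑ j ∈ A, ‖a j‖ ^ 2 := mul_le_mul h5 h4 h0 (by norm_num)

lemma enorm_sq (z : ℂ) : ‖z‖ₑ ^ 2 = ENNReal.ofReal (‖z‖ ^ 2) := by
  rw [← ofReal_norm, ENNReal.ofReal_pow (norm_nonneg _)]

lemma meas_fourier {v : ℂ → ℂ} (hv : Nice v) : Measurable (𝓕 v) := by
  have : Continuous (𝓕 v) := VectorFourier.fourierIntegral_continuous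
    Real.continuous_fourierChar (by exact continuous_inner) hv.int
  exact this.measurable

lemma ortho (A : Finset ℤ) (K v : ℤ → ℂ → ℂ) (hK : ∀ j ∈ A, Ker (K j))
    (hv : ∀ j ∈ A, Nice (v j)) (B : ℝ) (hB : 0 ≤ B) (hb : ∀ j ∈ A, ∀ ξ, ‖𝓕 (K j) ξ‖ ≤ B)
    (hs : ∀ j ∈ A, ∀ ξ : ℂ, (‖ξ‖ < (2 : ℝ) ^ (j - 1) ∨ (2 : ℝ) ^ (j + 1) < ‖ξ‖) →
      𝓕 (K j) ξ = 0) :
    nrm 2 (fun z => ∑ j ∈ A, cv (K j) (v j) z) ≤
      ENNReal.ofReal (3 * B ^ 2) * ∑ j ∈ A, nrm 2 (v j) := by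
  have hn : ∀ j ∈ A, Nice (cv (K j) (v j)) := fun j hj => nice_cv (hK j hj) (hv j hj)
  have hsum : Nice (fun z => ∑ j ∈ A, cv (K j) (v j) z) := nice_sum A _ hn
  have hF : ∀ ξ, 𝓕 (fun z => ∑ j ∈ A, cv (K j) (v j) z) ξ =
      ∑ j ∈ A, 𝓕 (K j) ξ * 𝓕 (v j) ξ := by
    intro ξ
    rw [Real.fourier_eq]
    simp only [Finset.smul_sum]
    rw [integral_finsetSum]
    · refine Finset.sum_congr rfl fun j hj => ?_
      rw [← fourier_cv (hK j hj) (hv j hj), Real.fourier_eq]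
    · intro j hj
      exact (Real.fourierIntegral_convergent_iff ξ).2 (hn j hj).int
  have hp := plancherel hsum
  unfold nrm
  rw [← hp]
  calc ∫⁻ ξ, ‖𝓕 (fun z => ∑ j ∈ A, cv (K j) (v j) z) ξ‖ₑ ^ 2
      ≤ ∫⁻ ξ, ENNReal.ofReal (3 * B ^ 2) * ∑ j ∈ A, ‖𝓕 (v j) ξ‖ₑ ^ 2 := by
        apply lintegral_mono
        intro ξ
        dsimp only
        rw [hF ξ, enorm_sq]
        have h1 := sum_sq_le A (fun j => 𝓕 (K j) ξ * 𝓕 (v j) ξ) ‖ξ‖ (by
          intro j hj h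
          rw [hs j hj ξ h, zero_mul])
        have h2 : ∑ j ∈ A, ‖𝓕 (K j) ξ * 𝓕 (v j) ξ‖ ^ 2 ≤ B ^ 2 * ∑ j ∈ A, ‖𝓕 (v j) ξ‖ ^ 2 := by
          rw [Finset.mul_sum]
          refine Finset.sum_le_sum fun j hj => ?_
          rw [norm_mul, mul_pow]
          have := hb j hj ξ
          gcongr
        have h3 : ‖∑ j ∈ A, 𝓕 (K j) ξ * 𝓕 (v j) ξ‖ ^ 2 ≤
            3 * B ^ 2 * ∑ j ∈ A, ‖𝓕 (v j) ξ‖ ^ 2 := by nlinarith
        refine (ENNReal.ofReal_le_ofReal h3).trans (le_of_eq ?_)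
        rw [ENNReal.ofReal_mul (by positivity), ENNReal.ofReal_sum_of_nonneg
          (fun _ _ => by positivity)]
        congr 1
        refine Finset.sum_congr rfl fun j hj => ?_
        rw [enorm_sq]
    _ = ENNReal.ofReal (3 * B ^ 2) * ∑ j ∈ A, ∫⁻ z, ‖v j z‖ₑ ^ 2 := by
        rw [lintegral_const_mul', lintegral_finsetSum']
        · congr 1
          refine Finset.sum_congr rfl fun j hj => ?_
          exact plancherel (hv j hj)
        · intro j hj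
          exact ((meas_fourier (hv j hj)).enorm.pow_const 2).aemeasurable
        · exact ENNReal.ofReal_ne_top

/-! ### the weight -/

/-- the weight -/
def ww (R : ℝ) (z₀ z : ℂ) : ℝ := 1 + ‖z - z₀‖ ^ 2 / R ^ 2

lemma ww_ge {R : ℝ} (z₀ z : ℂ) : 1 ≤ ww R z₀ z := by
  unfold ww
  have : 0 ≤ ‖z - z₀‖ ^ 2 / R ^ 2 := by positivity
  linarith

lemma ww_pos {R : ℝ} (z₀ z : ℂ) : 0 < ww R z₀ z := lt_of_lt_of_le one_pos (ww_ge z₀ z)

lemma ww_meas (R : ℝ) (z₀ : ℂ) : Measurable (ww R z₀) := by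
  unfold ww
  fun_prop

lemma ww_inv_norm {R : ℝ} (z₀ z : ℂ) : ‖(((ww R z₀ z)⁻¹ : ℝ) : ℂ)‖ ≤ 1 := by
  rw [Complex.norm_real, Real.norm_eq_abs, abs_of_pos (inv_pos.2 (ww_pos z₀ z))]
  exact inv_le_one_of_one_le₀ (ww_ge z₀ z)

lemma ww_inv_mul {R : ℝ} (hR : 0 < R) (z₀ z : ℂ) : ‖z - z₀‖ * (ww R z₀ z)⁻¹ ≤ R := by
  rw [mul_inv_le_iff₀ (ww_pos z₀ z)]
  unfold ww
  have h : 0 ≤ (‖z - z₀‖ / R - 1) ^ 2 := sq_nonneg _
  have h2 : ‖z - z₀‖ ^ 2 / R ^ 2 = (‖z - z₀‖ / R) ^ 2 := by rw [div_pow]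
  rw [h2]
  have h3 : ‖z - z₀‖ = (‖z - z₀‖ / R) * R := by field_simp
  have h4 : 0 ≤ ‖z - z₀‖ / R := by positivity
  nlinarith [mul_nonneg h4 hR.le]

lemma ww_expand {R : ℝ} (hR : R ≠ 0) (z₀ z y : ℂ) : ((ww R z₀ z : ℝ) : ℂ) =
    ((ww R z₀ y : ℝ) : ℂ) + ((R ^ 2)⁻¹ : ℝ) * (((‖z - y‖ ^ 2 : ℝ) : ℂ) +
      (z - y) * conj (y - z₀) + conj (z - y) * (y - z₀)) := by
  have h1 : ((ww R z₀ z : ℝ) : ℂ) = 1 + ((R ^ 2)⁻¹ : ℝ) * ((z - z₀) * conj (z - z₀)) := by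
    unfold ww
    rw [← normsq_eq]
    push_cast
    ring
  have h2 : ((ww R z₀ y : ℝ) : ℂ) = 1 + ((R ^ 2)⁻¹ : ℝ) * ((y - z₀) * conj (y - z₀)) := by
    unfold ww
    rw [← normsq_eq]
    push_cast
    ring
  rw [h1, h2, normsq_eq]
  simp only [map_sub]
  ring

lemma weighted {R : ℝ} (hR : R ≠ 0) (z₀ z : ℂ) {K u v : ℂ → ℂ} (hK : Ker K) (hu : Nice u)
    (hv : Nice v) (huv : ∀ y, v y = (ww R z₀ y : ℂ) * u y)
    (hu1 : Nice (fun y => conj (y - z₀) * u y)) (hu2 : Nice (fun y => (y - z₀) * u y)) :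
    ((ww R z₀ z : ℝ) : ℂ) * cv K u z = cv K v z + ((R ^ 2)⁻¹ : ℝ) *
      (cv (fun y => ((‖y‖ ^ 2 : ℝ) : ℂ) * K y) u z +
        cv (fun y => y * K y) (fun y => conj (y - z₀) * u y) z +
        cv (fun y => conj y * K y) (fun y => (y - z₀) * u y) z) := by
  unfold cv
  rw [← integral_const_mul, ← integral_add, ← integral_add, ← integral_const_mul, ← integral_add]
  · apply integral_congr_ae
    refine Eventually.of_forall fun y => ?_
    dsimp only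
    rw [ww_expand hR z₀ z y, huv y]
    ring
  · exact cv_integrable hK hv z
  · refine Integrable.const_mul ?_ _
    exact ((cv_integrable (ker_mul hK tg_normsq) hu z).add
      (cv_integrable (ker_mul hK tg_id) hu1 z)).add (cv_integrable (ker_mul hK tg_conj) hu2 z)
  · exact (cv_integrable (ker_mul hK tg_normsq) hu z).add
      (cv_integrable (ker_mul hK tg_id) hu1 z)
  · exact cv_integrable (ker_mul hK tg_conj) hu2 z
  · exact cv_integrable (ker_mul hK tg_normsq) hu z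
  · exact cv_integrable (ker_mul hK tg_id) hu1 z

/-! ### Fourier transform of the adjoint kernels -/

lemma fourier_star (K : ℂ → ℂ) (ξ : ℂ) : 𝓕 (fun u => conj (K (-u))) ξ = conj (𝓕 K ξ) := by
  rw [Real.fourier_eq, Real.fourier_eq, ← integral_conj]
  rw [← integral_neg_eq_self (fun v => Real.fourierChar (-inner ℝ v ξ) • conj (K (-v))) volume]
  apply integral_congr_ae
  refine Eventually.of_forall fun v => ?_
  dsimp only
  rw [neg_neg, inner_neg_left, neg_neg, Circle.smul_def, Circle.smul_def, smul_eq_mul, smul_eq_mul,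
    map_mul]
  congr 1
  rw [AddChar.map_neg_eq_inv, Circle.coe_inv_eq_conj, Complex.conj_conj]

lemma norm_fourier_star_le {K : ℂ → ℂ} {ξ : ℂ} {B : ℝ} (h : ‖𝓕 K ξ‖ ≤ B) :
    ‖𝓕 (fun u => conj (K (-u))) ξ‖ ≤ B := by
  rw [fourier_star, RCLike.norm_conj]
  exact h

lemma fourier_neg (K : ℂ → ℂ) (ξ : ℂ) : 𝓕 (fun u => -(K u)) ξ = -(𝓕 K ξ) := by
  rw [Real.fourier_eq, Real.fourier_eq, ← integral_neg]
  apply integral_congr_ae
  refine Eventually.of_forall fun v => ?_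
  dsimp only
  rw [smul_neg]

/-- `z K⁺ = -(conj z K)⁺` -/
lemma star_id (K : ℂ → ℂ) : (fun y => y * conj (K (-y))) =
    fun u => -(conj ((fun z => conj z * K z) (-u))) := by
  funext y
  simp [map_neg]

lemma star_conj (K : ℂ → ℂ) : (fun y => conj y * conj (K (-y))) =
    fun u => -(conj ((fun z => z * K z) (-u))) := by
  funext y
  simp [map_neg]

lemma star_normsq (K : ℂ → ℂ) : (fun y => ((‖y‖ ^ 2 : ℝ) : ℂ) * conj (K (-y))) =
    fun u => conj ((fun z => ((‖z‖ ^ 2 : ℝ) : ℂ) * K z) (-u)) := by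
  funext y
  simp only [map_mul, Complex.conj_ofReal, norm_neg]

lemma lint4 {a b c d : ℂ → ℝ≥0∞} (ha : Measurable a) (hb : Measurable b) (hc : Measurable c) :
    ∫⁻ z, (a z + b z + c z + d z) =
      (∫⁻ z, a z) + (∫⁻ z, b z) + (∫⁻ z, c z) + (∫⁻ z, d z) := by
  rw [lintegral_add_left (f := fun z => a z + b z + c z) ((ha.add hb).add hc),
    lintegral_add_left (f := fun z => a z + b z) (ha.add hb), lintegral_add_left ha]

lemma four_sq (a b c d : ℂ) : ‖a + b + c + d‖ₑ ^ 2 ≤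
    4 * (‖a‖ₑ ^ 2 + ‖b‖ₑ ^ 2 + ‖c‖ₑ ^ 2 + ‖d‖ₑ ^ 2) := by
  simp only [enorm_sq]
  rw [← ENNReal.ofReal_add (by positivity) (by positivity),
    ← ENNReal.ofReal_add (by positivity) (by positivity),
    ← ENNReal.ofReal_add (by positivity) (by positivity)]
  rw [show (4 : ℝ≥0∞) = ENNReal.ofReal 4 by simp, ← ENNReal.ofReal_mul (by norm_num)]
  apply ENNReal.ofReal_le_ofReal
  have h : ‖a + b + c + d‖ ≤ ‖a‖ + ‖b‖ + ‖c‖ + ‖d‖ :=
    (norm_add_le _ _).trans (add_le_add_left ((norm_add_le _ _).trans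
      (add_le_add_left (norm_add_le _ _) _)) _)
  calc ‖a + b + c + d‖ ^ 2 ≤ (‖a‖ + ‖b‖ + ‖c‖ + ‖d‖) ^ 2 := by gcongr
    _ ≤ _ := by
      nlinarith [sq_nonneg (‖a‖ - ‖b‖), sq_nonneg (‖a‖ - ‖c‖), sq_nonneg (‖a‖ - ‖d‖),
        sq_nonneg (‖b‖ - ‖c‖), sq_nonneg (‖b‖ - ‖d‖), sq_nonneg (‖c‖ - ‖d‖)]

/-- the dual estimate -/
lemma dual {C : ℝ} (hC : 0 < C) {n : ℕ} {R : ℝ} (hR : 0 < R) (A : Finset ℤ)
    (hA : ∀ j ∈ A, (n : ℝ) * (2 : ℝ) ^ (-j) ≤ R)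
    (hk : ∀ j : ℤ, ∀ ξ : ℂ,
      ‖𝓕 (fun z => z * KK n j z) ξ‖ ≤ C * (n * (2:ℝ) ^ (-j)) ∧
      ‖𝓕 (fun z => conj z * KK n j z) ξ‖ ≤ C * (n * (2:ℝ) ^ (-j)) ∧
      ‖𝓕 (fun z => (‖z‖ ^ 2 : ℝ) * KK n j z) ξ‖ ≤ C * (n * (2:ℝ) ^ (-j)) ^ 2 ∧
      ((‖ξ‖ < (2:ℝ) ^ (j - 1) ∨ (2:ℝ) ^ (j + 1) < ‖ξ‖) →
        𝓕 (fun z => z * KK n j z) ξ = 0 ∧ 𝓕 (fun z => conj z * KK n j z) ξ = 0 ∧
        𝓕 (fun z => (‖z‖ ^ 2 : ℝ) * KK n j z) ξ = 0))
    (z₀ : ℂ) (g : ℤ → ℂ → ℂ) (hg : ∀ j ∈ A, Nice (g j)) :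
    nrm 2 (fun z => (ww R z₀ z : ℂ) * ∑ j ∈ A, cv (fun u => conj (KK n j (-u)))
      (fun y => (((ww R z₀ y)⁻¹ : ℝ) : ℂ) * ((((ww R z₀ y)⁻¹ : ℝ) : ℂ) * g j y)) z) ≤
      ENNReal.ofReal (12 + 36 * C ^ 2) *
        ∑ j ∈ A, nrm 2 (fun y => (((ww R z₀ y)⁻¹ : ℝ) : ℂ) * g j y) := by
  have hwm : Measurable (fun y => (((ww R z₀ y)⁻¹ : ℝ) : ℂ)) :=
    Complex.measurable_ofReal.comp (ww_meas R z₀).inv
  set v : ℤ → ℂ → ℂ := fun j y => (((ww R z₀ y)⁻¹ : ℝ) : ℂ) * g j y with hv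
  set u : ℤ → ℂ → ℂ := fun j y => (((ww R z₀ y)⁻¹ : ℝ) : ℂ) * v j y with hu
  have nv : ∀ j ∈ A, Nice (v j) := fun j hj => nice_mul (hg j hj) hwm ⟨1, ww_inv_norm z₀⟩
  have nu : ∀ j ∈ A, Nice (u j) := fun j hj => nice_mul (nv j hj) hwm ⟨1, ww_inv_norm z₀⟩
  have nu1 : ∀ j ∈ A, Nice (fun y => conj (y - z₀) * u j y) := by
    intro j hj
    have : (fun y => conj (y - z₀) * u j y) =
        fun y => (conj (y - z₀) * (((ww R z₀ y)⁻¹ : ℝ) : ℂ)) * v j y := by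
      funext y
      rw [hu]
      ring
    rw [this]
    refine nice_mul (nv j hj) (by fun_prop) ⟨R, fun y => ?_⟩
    rw [norm_mul, RCLike.norm_conj, Complex.norm_real, Real.norm_eq_abs,
      abs_of_pos (inv_pos.2 (ww_pos z₀ y))]
    exact ww_inv_mul hR z₀ y
  have nu2 : ∀ j ∈ A, Nice (fun y => (y - z₀) * u j y) := by
    intro j hj
    have : (fun y => (y - z₀) * u j y) =
        fun y => ((y - z₀) * (((ww R z₀ y)⁻¹ : ℝ) : ℂ)) * v j y := by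
      funext y
      rw [hu]
      ring
    rw [this]
    refine nice_mul (nv j hj) (by fun_prop) ⟨R, fun y => ?_⟩
    rw [norm_mul, Complex.norm_real, Real.norm_eq_abs, abs_of_pos (inv_pos.2 (ww_pos z₀ y))]
    exact ww_inv_mul hR z₀ y
  have huv : ∀ j y, v j y = (ww R z₀ y : ℂ) * u j y := by
    intro j y
    rw [hu]
    dsimp only
    rw [← mul_assoc, ← Complex.ofReal_mul, mul_inv_cancel₀ (ww_pos z₀ y).ne',
      Complex.ofReal_one, one_mul]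
  set K : ℤ → ℂ → ℂ := fun j u => conj (KK n j (-u)) with hK
  have kK : ∀ j, Ker (K j) := fun j => ker_star (ker_KK n j)
  -- the four sums
  set S1 : ℂ → ℂ := fun z => ∑ j ∈ A, cv (K j) (v j) z with hS1
  set S2 : ℂ → ℂ := fun z => ∑ j ∈ A, cv (fun y => ((‖y‖ ^ 2 : ℝ) : ℂ) * K j y) (u j) z with hS2
  set S3 : ℂ → ℂ := fun z => ∑ j ∈ A, cv (fun y => y * K j y) (fun y => conj (y - z₀) * u j y) z
    with hS3
  set S4 : ℂ → ℂ := fun z => ∑ j ∈ A, cv (fun y => conj y * K j y) (fun y => (y - z₀) * u j y) z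
    with hS4
  set TT : ℝ≥0∞ := ∑ j ∈ A, nrm 2 (v j) with hTT
  have hjR : ∀ j ∈ A, C * (n * (2:ℝ) ^ (-j)) ≤ C * R := fun j hj =>
    mul_le_mul_of_nonneg_left (hA j hj) hC.le
  have hjR2 : ∀ j ∈ A, C * (n * (2:ℝ) ^ (-j)) ^ 2 ≤ C * R ^ 2 := fun j hj => by
    have h0 : (0 : ℝ) ≤ n * (2:ℝ) ^ (-j) := by positivity
    exact mul_le_mul_of_nonneg_left (pow_le_pow_left₀ h0 (hA j hj) 2) hC.le
  have b1 : nrm 2 S1 ≤ ENNReal.ofReal 3 * TT := by
    have := ortho A K v (fun j _ => kK j) nv 1 zero_le_one (fun j _ ξ => by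
      apply norm_fourier_star_le
      rw [fourier_KK, norm_mul, Complex.norm_real, Real.norm_eq_abs, abs_of_nonneg (chi_nonneg j ξ)]
      have h1 : ‖mult n ξ‖ ≤ 1 := by
        unfold mult
        rw [norm_pow]
        apply pow_le_one₀ (norm_nonneg _)
        rw [norm_div, RCLike.norm_conj]
        exact div_self_le_one _
      have h2 : chi j ξ ≤ 1 := by
        have := sum_chi_le_one {j} ξ
        simpa using this
      exact mul_le_one₀ h1 (chi_nonneg j ξ) h2) (fun j _ ξ h => by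
      rw [hK]
      dsimp only
      rw [fourier_star, fourier_KK]
      have : chi j ξ = 0 := by
        rcases h with h | h
        · exact chi_eq_zero_left h.le
        · exact chi_eq_zero_right h.le
      rw [this]
      simp)
    simpa using this
  have b2 : nrm 2 S2 ≤ ENNReal.ofReal (3 * (C * R ^ 2) ^ 2) * TT := by
    refine (ortho A _ u (fun j _ => ker_mul (kK j) tg_normsq) nu (C * R ^ 2) (by positivity)
      (fun j hj ξ => ?_) (fun j _ ξ h => ?_)).trans ?_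
    · rw [star_normsq (KK n j)]
      exact norm_fourier_star_le (((hk j ξ).2.2.1).trans (hjR2 j hj))
    · rw [star_normsq (KK n j), fourier_star (fun z => ((‖z‖ ^ 2 : ℝ) : ℂ) * KK n j z),
        ((hk j ξ).2.2.2 h).2.2, map_zero]
    · refine mul_le_mul_right (Finset.sum_le_sum fun j _ => ?_) _
      unfold nrm
      apply lintegral_mono
      intro y
      have h1 : ‖u j y‖ₑ ≤ ‖v j y‖ₑ := by
        rw [hu, enorm_mul]
        have : ‖(((ww R z₀ y)⁻¹ : ℝ) : ℂ)‖ₑ ≤ 1 := by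
          rw [← ofReal_norm]
          exact ENNReal.ofReal_le_one.2 (ww_inv_norm z₀ y)
        calc _ ≤ 1 * ‖v j y‖ₑ := mul_le_mul_left this _
          _ = _ := one_mul _
      exact pow_le_pow_left' h1 2
  have hRv : ∀ j y (t : ℂ), ‖t‖ = ‖y - z₀‖ → ‖t * u j y‖ₑ ^ 2 ≤
      ENNReal.ofReal (R ^ 2) * ‖v j y‖ₑ ^ 2 := by
    intro j y t ht
    rw [enorm_sq, enorm_sq, ← ENNReal.ofReal_mul (by positivity)]
    apply ENNReal.ofReal_le_ofReal
    have h1 : ‖t * u j y‖ ≤ R * ‖v j y‖ := by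
      rw [hu]
      dsimp only
      rw [← mul_assoc, norm_mul, norm_mul, ht, Complex.norm_real, Real.norm_eq_abs,
        abs_of_pos (inv_pos.2 (ww_pos z₀ y))]
      exact mul_le_mul_of_nonneg_right (ww_inv_mul hR z₀ y) (norm_nonneg _)
    calc ‖t * u j y‖ ^ 2 ≤ (R * ‖v j y‖) ^ 2 := pow_le_pow_left₀ (norm_nonneg _) h1 2
      _ = _ := by ring
  have hRv2 : ∀ j (t : ℂ → ℂ), (∀ y, ‖t y‖ = ‖y - z₀‖) → nrm 2 (fun y => t y * u j y) ≤
      ENNReal.ofReal (R ^ 2) * nrm 2 (v j) := by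
    intro j t ht
    unfold nrm
    rw [← lintegral_const_mul' _ _ ENNReal.ofReal_ne_top]
    exact lintegral_mono fun y => hRv j y (t y) (ht y)
  have hRT : ENNReal.ofReal (R ^ 2) * TT = ∑ j ∈ A, ENNReal.ofReal (R ^ 2) * nrm 2 (v j) := by
    rw [hTT, Finset.mul_sum]
  have b3 : nrm 2 S3 ≤ ENNReal.ofReal (3 * (C * R) ^ 2 * R ^ 2) * TT := by
    refine (ortho A _ (fun j y => conj (y - z₀) * u j y) (fun j _ => ker_mul (kK j) tg_id) nu1
      (C * R) (by positivity) (fun j hj ξ => ?_) (fun j _ ξ h => ?_)).trans ?_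
    · rw [star_id (KK n j), fourier_neg, norm_neg]
      exact norm_fourier_star_le (((hk j ξ).2.1).trans (hjR j hj))
    · rw [star_id (KK n j), fourier_neg, fourier_star (fun z => conj z * KK n j z),
        ((hk j ξ).2.2.2 h).2.1, map_zero, neg_zero]
    · rw [ENNReal.ofReal_mul (show (0:ℝ) ≤ 3 * (C * R) ^ 2 by positivity), mul_assoc, hRT]
      exact mul_le_mul_right (Finset.sum_le_sum fun j _ => hRv2 j _ fun y => RCLike.norm_conj _) _
  have b4 : nrm 2 S4 ≤ ENNReal.ofReal (3 * (C * R) ^ 2 * R ^ 2) * TT := by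
    refine (ortho A _ (fun j y => (y - z₀) * u j y) (fun j _ => ker_mul (kK j) tg_conj) nu2
      (C * R) (by positivity) (fun j hj ξ => ?_) (fun j _ ξ h => ?_)).trans ?_
    · rw [star_conj (KK n j), fourier_neg, norm_neg]
      exact norm_fourier_star_le (((hk j ξ).1).trans (hjR j hj))
    · rw [star_conj (KK n j), fourier_neg, fourier_star (fun z => z * KK n j z),
        ((hk j ξ).2.2.2 h).1, map_zero, neg_zero]
    · rw [ENNReal.ofReal_mul (show (0:ℝ) ≤ 3 * (C * R) ^ 2 by positivity), mul_assoc, hRT]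
      exact mul_le_mul_right (Finset.sum_le_sum fun j _ => hRv2 j _ fun y => rfl) _
  -- the pointwise identity
  have hpt : ∀ z, (ww R z₀ z : ℂ) * ∑ j ∈ A, cv (K j) (u j) z =
      S1 z + ((R ^ 2)⁻¹ : ℝ) * S2 z + ((R ^ 2)⁻¹ : ℝ) * S3 z + ((R ^ 2)⁻¹ : ℝ) * S4 z := by
    intro z
    rw [hS1, hS2, hS3, hS4]
    dsimp only
    rw [Finset.mul_sum, Finset.mul_sum, Finset.mul_sum, Finset.mul_sum, ← Finset.sum_add_distrib,
      ← Finset.sum_add_distrib, ← Finset.sum_add_distrib]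
    refine Finset.sum_congr rfl fun j hj => ?_
    rw [weighted hR.ne' z₀ z (kK j) (nu j hj) (nv j hj) (huv j) (nu1 j hj) (nu2 j hj)]
    ring
  have hm : ∀ (K' v' : ℤ → ℂ → ℂ), (∀ j ∈ A, Ker (K' j)) → (∀ j ∈ A, Nice (v' j)) →
      Measurable (fun z => ‖∑ j ∈ A, cv (K' j) (v' j) z‖ₑ ^ 2) := by
    intro K' v' h1 h2
    exact ((nice_sum A _ fun j hj => nice_cv (h1 j hj) (h2 j hj)).meas).enorm.pow_const 2
  have hscal : ∀ S : ℂ → ℂ, ∫⁻ z, ‖(((R ^ 2)⁻¹ : ℝ) : ℂ) * S z‖ₑ ^ 2 =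
      ENNReal.ofReal ((R ^ 2)⁻¹ ^ 2) * nrm 2 S := by
    intro S
    unfold nrm
    rw [← lintegral_const_mul' _ _ ENNReal.ofReal_ne_top]
    refine lintegral_congr fun z => ?_
    rw [enorm_mul, mul_pow]
    congr 1
    rw [enorm_sq, Complex.norm_real, Real.norm_eq_abs, sq_abs]
  have hR4 : 0 < (R ^ 2)⁻¹ := by positivity
  calc nrm 2 (fun z => (ww R z₀ z : ℂ) * ∑ j ∈ A, cv (K j) (u j) z)
      ≤ ∫⁻ z, 4 * (‖S1 z‖ₑ ^ 2 + ‖(((R ^ 2)⁻¹ : ℝ) : ℂ) * S2 z‖ₑ ^ 2 +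
          ‖(((R ^ 2)⁻¹ : ℝ) : ℂ) * S3 z‖ₑ ^ 2 + ‖(((R ^ 2)⁻¹ : ℝ) : ℂ) * S4 z‖ₑ ^ 2) := by
        unfold nrm
        apply lintegral_mono
        intro z
        dsimp only
        rw [hpt z]
        exact four_sq _ _ _ _
    _ = 4 * (nrm 2 S1 + ENNReal.ofReal ((R ^ 2)⁻¹ ^ 2) * nrm 2 S2 +
          ENNReal.ofReal ((R ^ 2)⁻¹ ^ 2) * nrm 2 S3 + ENNReal.ofReal ((R ^ 2)⁻¹ ^ 2) * nrm 2 S4) := by
        have m1 := hm K v (fun j _ => kK j) nv
        have m2 : Measurable fun z => ‖(((R ^ 2)⁻¹ : ℝ) : ℂ) * S2 z‖ₑ ^ 2 := by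
          refine (Measurable.const_mul ?_ _).enorm.pow_const 2
          exact (nice_sum A _ fun j hj => nice_cv (ker_mul (kK j) tg_normsq) (nu j hj)).meas
        have m3 : Measurable fun z => ‖(((R ^ 2)⁻¹ : ℝ) : ℂ) * S3 z‖ₑ ^ 2 := by
          refine (Measurable.const_mul ?_ _).enorm.pow_const 2
          exact (nice_sum A _ fun j hj => nice_cv (ker_mul (kK j) tg_id) (nu1 j hj)).meas
        rw [lintegral_const_mul' _ _ (by norm_num), lint4 m1 m2 m3, hscal, hscal, hscal]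
        rfl
    _ ≤ 4 * (ENNReal.ofReal 3 * TT +
          ENNReal.ofReal ((R ^ 2)⁻¹ ^ 2) * (ENNReal.ofReal (3 * (C * R ^ 2) ^ 2) * TT) +
          ENNReal.ofReal ((R ^ 2)⁻¹ ^ 2) * (ENNReal.ofReal (3 * (C * R) ^ 2 * R ^ 2) * TT) +
          ENNReal.ofReal ((R ^ 2)⁻¹ ^ 2) * (ENNReal.ofReal (3 * (C * R) ^ 2 * R ^ 2) * TT)) := by
        gcongr
    _ = ENNReal.ofReal (12 + 36 * C ^ 2) * TT := by
        rw [← mul_assoc, ← mul_assoc, ← ENNReal.ofReal_mul (by positivity),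
          ← ENNReal.ofReal_mul (by positivity), ← add_mul, ← add_mul, ← add_mul, ← mul_assoc]
        congr 1
        rw [show (4 : ℝ≥0∞) = ENNReal.ofReal 4 by simp, ← ENNReal.ofReal_add (by positivity)
          (by positivity), ← ENNReal.ofReal_add (by positivity) (by positivity),
          ← ENNReal.ofReal_add (by positivity) (by positivity), ← ENNReal.ofReal_mul (by norm_num)]
        congr 1
        field_simp
        ring

end EN

/-! ## MODULE EN : energy inequality -/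
theorem energy : ∃ C : ℝ, 0 < C ∧ ∀ n : ℕ, 1 ≤ n → ∀ R : ℝ, 0 < R → ∀ A : Finset ℤ,
    (∀ j ∈ A, (n : ℝ) * (2:ℝ) ^ (-j) ≤ R) → ∀ f : ℂ → ℂ, Nice f → ∀ z₀ : ℂ,
    ∑ j ∈ A, ∫⁻ z, ‖gj n j f z‖ₑ ^ 2 * ENNReal.ofReal (gam R (z - z₀))
      ≤ ENNReal.ofReal C * ∫⁻ z, ‖f z‖ₑ ^ 2 * ENNReal.ofReal (gam R (z - z₀)) := by
  obtain ⟨C, hC, hker⟩ := kernel_fourier_bounds
  refine ⟨12 + 36 * C ^ 2, by positivity, ?_⟩
  intro n hn R hR A hA f hf z₀
  have hwm : Measurable (fun y => (((EN.ww R z₀ y)⁻¹ : ℝ) : ℂ)) :=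
    Complex.measurable_ofReal.comp (EN.ww_meas R z₀).inv
  have ng : ∀ j ∈ A, Nice (gj n j f) := fun j _ => nice_cv (ker_KK n j) hf
  set v : ℤ → ℂ → ℂ := fun j y => (((EN.ww R z₀ y)⁻¹ : ℝ) : ℂ) * gj n j f y with hv
  set u : ℤ → ℂ → ℂ := fun j y => (((EN.ww R z₀ y)⁻¹ : ℝ) : ℂ) * v j y with hu
  have nv : ∀ j ∈ A, Nice (v j) := fun j hj =>
    EN.nice_mul (ng j hj) hwm ⟨1, EN.ww_inv_norm z₀⟩
  have nu : ∀ j ∈ A, Nice (u j) := fun j hj =>
    EN.nice_mul (nv j hj) hwm ⟨1, EN.ww_inv_norm z₀⟩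
  -- the weight
  have hgam : ∀ z, gam R (z - z₀) = (R ^ 2)⁻¹ * ((EN.ww R z₀ z)⁻¹) ^ 2 := by
    intro z
    unfold gam EN.ww
    rw [inv_pow]
  have hw2 : ∀ (h : ℂ → ℂ), ∫⁻ z, ‖h z‖ₑ ^ 2 * ENNReal.ofReal (gam R (z - z₀)) =
      ENNReal.ofReal ((R ^ 2)⁻¹) * nrm 2 (fun y => (((EN.ww R z₀ y)⁻¹ : ℝ) : ℂ) * h y) := by
    intro h
    unfold nrm
    rw [← lintegral_const_mul' _ _ ENNReal.ofReal_ne_top]
    refine lintegral_congr fun z => ?_
    rw [hgam, ENNReal.ofReal_mul (by positivity), enorm_mul, mul_pow,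
      EN.enorm_sq (((EN.ww R z₀ z)⁻¹ : ℝ) : ℂ), Complex.norm_real, Real.norm_eq_abs, sq_abs]
    ring
  simp only [hw2]
  rw [← Finset.mul_sum, ← mul_assoc, mul_comm (ENNReal.ofReal (12 + 36 * C ^ 2)), mul_assoc]
  refine mul_le_mul_right ?_ _
  -- duality
  set LL : ℝ≥0∞ := ∑ j ∈ A, nrm 2 (v j) with hLL
  set FF : ℝ≥0∞ := nrm 2 (fun y => (((EN.ww R z₀ y)⁻¹ : ℝ) : ℂ) * f y) with hFF
  set H : ℂ → ℂ := fun z => ∑ j ∈ A, cv (fun y => conj (KK n j (-y))) (u j) z with hH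
  have nH : Nice H := EN.nice_sum A _ fun j hj => nice_cv (EN.ker_star (ker_KK n j)) (nu j hj)
  have hdual := EN.dual (C := C) hC (n := n) hR A hA (hker n hn) z₀ (fun j => gj n j f) ng
  have hfin : ∀ j ∈ A, nrm 2 (v j) ≠ ∞ := by
    intro j hj
    obtain ⟨D, hD⟩ := (nv j hj).bdd
    have h1 : nrm 2 (v j) ≤ ∫⁻ z, ENNReal.ofReal D * ‖v j z‖ₑ := by
      unfold nrm
      apply lintegral_mono
      intro z
      dsimp only
      rw [sq]
      refine mul_le_mul_left ?_ _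
      rw [← ofReal_norm]
      exact ENNReal.ofReal_le_ofReal (hD z)
    rw [lintegral_const_mul' _ _ ENNReal.ofReal_ne_top] at h1
    refine ne_top_of_le_ne_top ?_ h1
    exact ENNReal.mul_ne_top ENNReal.ofReal_ne_top (nv j hj).int.hasFiniteIntegral.ne
  have hLfin : LL ≠ ∞ := ENNReal.sum_ne_top.2 hfin
  have hreal : LL ≤ ∫⁻ z, ‖f z‖ₑ * ‖H z‖ₑ := by
    have hi2 : ∀ j ∈ A, Integrable (fun z => ‖v j z‖ ^ 2) := by
      intro j hj
      obtain ⟨D, hD⟩ := (nv j hj).bdd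
      have := ((nv j hj).int.norm.bdd_mul (c := D) (nv j hj).meas.norm.aestronglyMeasurable
        (Eventually.of_forall fun z => by rw [norm_norm]; exact hD z))
      exact this.congr (Eventually.of_forall fun z => by dsimp only; ring)
    have h1 : LL = ENNReal.ofReal (∑ j ∈ A, ∫ z, ‖v j z‖ ^ 2) := by
      rw [ENNReal.ofReal_sum_of_nonneg (fun j _ => integral_nonneg fun z => by positivity)]
      refine Finset.sum_congr rfl fun j hj => ?_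
      rw [ofReal_integral_eq_lintegral_ofReal (hi2 j hj)
        (Eventually.of_forall fun z => by positivity)]
      unfold nrm
      refine lintegral_congr fun z => ?_
      rw [EN.enorm_sq]
    have h2 : ((∑ j ∈ A, ∫ z, ‖v j z‖ ^ 2 : ℝ) : ℂ) = ∫ z, f z * conj (H z) := by
      have e1 : ∀ j ∈ A, ((∫ z, ‖v j z‖ ^ 2 : ℝ) : ℂ) =
          ∫ z, f z * conj (cv (fun y => conj (KK n j (-y))) (u j) z) := by
        intro j hj
        rw [← cv_inner (ker_KK n j) hf (nu j hj), ← integral_complex_ofReal]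
        refine integral_congr_ae (Eventually.of_forall fun z => ?_)
        dsimp only
        rw [hu, hv]
        dsimp only
        rw [← Complex.normSq_eq_norm_sq, ← Complex.mul_conj]
        simp only [map_mul, Complex.conj_ofReal]
        change _ = gj n j f z * _
        ring
      rw [Complex.ofReal_sum, Finset.sum_congr rfl e1, ← integral_finsetSum]
      · refine integral_congr_ae (Eventually.of_forall fun z => ?_)
        dsimp only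
        rw [hH]
        dsimp only
        rw [map_sum, Finset.mul_sum]
      · intro j hj
        have nc : Nice (cv (fun y => conj (KK n j (-y))) (u j)) :=
          nice_cv (EN.ker_star (ker_KK n j)) (nu j hj)
        obtain ⟨D, hD⟩ := nc.bdd
        have := hf.int.bdd_mul (c := D)
          (f := fun z => conj (cv (fun y => conj (KK n j (-y))) (u j) z))
          (Complex.continuous_conj.measurable.comp nc.meas).aestronglyMeasurable
          (Eventually.of_forall fun z => by rw [RCLike.norm_conj]; exact hD z)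
        exact this.congr (Eventually.of_forall fun z => by dsimp only; ring)
    rw [h1]
    have h3 : 0 ≤ ∑ j ∈ A, ∫ z, ‖v j z‖ ^ 2 :=
      Finset.sum_nonneg fun j _ => integral_nonneg fun z => by positivity
    calc ENNReal.ofReal (∑ j ∈ A, ∫ z, ‖v j z‖ ^ 2)
        = ‖∫ z, f z * conj (H z)‖ₑ := by
          rw [← h2, ← ofReal_norm, Complex.norm_real, Real.norm_eq_abs, abs_of_nonneg h3]
      _ ≤ ∫⁻ z, ‖f z * conj (H z)‖ₑ := enorm_integral_le_lintegral_enorm _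
      _ = ∫⁻ z, ‖f z‖ₑ * ‖H z‖ₑ := by
          refine lintegral_congr fun z => ?_
          rw [enorm_mul]
          congr 1
          rw [← ofReal_norm, ← ofReal_norm, RCLike.norm_conj]
  have hCS : LL ≤ FF ^ ((1:ℝ) / 2) *
      (nrm 2 (fun z => (EN.ww R z₀ z : ℂ) * H z)) ^ ((1:ℝ) / 2) := by
    refine hreal.trans ?_
    have hw : ∀ z, ‖f z‖ₑ * ‖H z‖ₑ = ((fun z => ‖(((EN.ww R z₀ z)⁻¹ : ℝ) : ℂ) * f z‖ₑ) *
        (fun z => ‖(EN.ww R z₀ z : ℂ) * H z‖ₑ)) z := by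
      intro z
      have hne : (EN.ww R z₀ z : ℂ) ≠ 0 := by
        exact_mod_cast (EN.ww_pos z₀ z).ne'
      rw [Pi.mul_apply, ← enorm_mul, ← enorm_mul]
      congr 1
      push_cast
      field_simp
    rw [lintegral_congr hw]
    refine (ENNReal.lintegral_mul_le_Lp_mul_Lq volume
      (Real.HolderConjugate.two_two) ?_ ?_).trans ?_
    · exact (hwm.mul hf.meas).enorm.aemeasurable
    · exact ((Complex.measurable_ofReal.comp (EN.ww_meas R z₀)).mul nH.meas).enorm.aemeasurable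
    · unfold nrm
      simp only [ENNReal.rpow_two]
      rfl
  have hB : nrm 2 (fun z => (EN.ww R z₀ z : ℂ) * H z) ≤ ENNReal.ofReal (12 + 36 * C ^ 2) * LL :=
    hdual
  have hfinal : LL * LL ≤ (ENNReal.ofReal (12 + 36 * C ^ 2) * FF) * LL := by
    have h1 : LL ≤ FF ^ ((1:ℝ) / 2) * (ENNReal.ofReal (12 + 36 * C ^ 2) * LL) ^ ((1:ℝ) / 2) :=
      hCS.trans (mul_le_mul_right (ENNReal.rpow_le_rpow hB (by norm_num)) _)
    rw [← ENNReal.mul_rpow_of_nonneg _ _ (by norm_num : (0:ℝ) ≤ 1 / 2)] at h1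
    have h2 : LL ^ (2:ℝ) ≤ ((FF * (ENNReal.ofReal (12 + 36 * C ^ 2) * LL)) ^ ((1:ℝ) / 2)) ^ (2:ℝ) :=
      ENNReal.rpow_le_rpow h1 (by norm_num)
    rw [← ENNReal.rpow_mul, show (1:ℝ) / 2 * 2 = 1 by norm_num, ENNReal.rpow_one,
      ENNReal.rpow_two] at h2
    calc LL * LL = LL ^ 2 := (sq LL).symm
      _ ≤ _ := h2
      _ = _ := by ring
  rcases eq_or_ne LL 0 with h0 | h0
  · rw [h0]
    exact zero_le
  · exact (ENNReal.mul_le_mul_iff_left h0 hLfin).1 hfinal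

end Helper72.BA.P


namespace Helper72.BA
alias energy := P.energy
end Helper72.BA
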