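import Pool.Agent.Helper72.BA.Defs
import Pool.Agent.Helper72.BAM.EN
import Pool.Agent.Helper72.BAM.FB1
import Pool.Agent.Helper72.BAM.KE1
import Pool.Agent.Helper72.BAM.L2
import Pool.Agent.Helper72.BAM.RT2

set_option autoImplicit false

open MeasureTheory Complex FourierTransform Filter Topology
open scoped ENNReal NNReal ComplexConjugate

noncomputable section

namespace Helper72.BA.P
open Helper72.BA

namespace YBx

theorem gam_nonneg (ρ : ℝ) (z : ℂ) : 0 ≤ gam ρ z := by unfold gam; positivity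

theorem gam_cont {ρ : ℝ} (hρ : 0 < ρ) : Continuous (gam ρ) := by
  unfold gam
  apply Continuous.mul continuous_const
  apply Continuous.inv₀
  · fun_prop
  · intro z; positivity

theorem gam_one_int : Integrable (gam 1) := by
  have h := integrable_rpow_neg_one_add_norm_sq (E := ℂ) (μ := volume) (r := 4) (by
    rw [Complex.finrank_real_complex]; norm_num)
  refine h.congr (Filter.Eventually.of_forall fun z => ?_)
  simp only [gam]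
  have : (0:ℝ) < 1 + ‖z‖ ^ 2 := by positivity
  rw [show (-(4:ℝ)/2) = -(2:ℕ) by norm_num, Real.rpow_neg this.le, Real.rpow_natCast]
  simp

theorem gam_eq {ρ : ℝ} (hρ : 0 < ρ) (z : ℂ) : gam ρ z = (ρ ^ 2)⁻¹ * gam 1 (ρ⁻¹ • z) := by
  unfold gam
  rw [norm_smul, Real.norm_eq_abs, abs_of_pos (by positivity)]
  simp only [one_pow, inv_one, one_mul, div_one]
  congr 4
  field_simp

theorem gam_int {ρ : ℝ} (hρ : 0 < ρ) : Integrable (gam ρ) := by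
  have h : Integrable (fun z : ℂ => (ρ ^ 2)⁻¹ * gam 1 (ρ⁻¹ • z)) :=
    (gam_one_int.comp_smul (inv_ne_zero hρ.ne')).const_mul _
  exact h.congr (Filter.Eventually.of_forall fun z => (gam_eq hρ z).symm)

theorem gam_integral {ρ : ℝ} (hρ : 0 < ρ) : ∫ z, gam ρ z = ∫ z, gam 1 z := by
  have : ∀ z, gam ρ z = (ρ ^ 2)⁻¹ * gam 1 (ρ⁻¹ • z) := gam_eq hρ
  simp only [this]
  rw [integral_const_mul, Measure.integral_comp_inv_smul_of_nonneg _ _ hρ.le,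
    Complex.finrank_real_complex, smul_eq_mul, ← mul_assoc, inv_mul_cancel₀ (by positivity), one_mul]

/-- total mass (equal to `π`) -/
def G0 : ℝ := ∫ z, gam 1 z

theorem G0_nonneg : 0 ≤ G0 := integral_nonneg (gam_nonneg 1)

theorem lint_gam {ρ : ℝ} (hρ : 0 < ρ) : ∫⁻ z, ENNReal.ofReal (gam ρ z) = ENNReal.ofReal G0 := by
  rw [← ofReal_integral_eq_lintegral_ofReal (gam_int hρ) (Filter.Eventually.of_forall (gam_nonneg ρ)),
    gam_integral hρ, G0]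

theorem lint_gam_sub {ρ : ℝ} (hρ : 0 < ρ) (a : ℂ) :
    ∫⁻ z, ENNReal.ofReal (gam ρ (z - a)) = ENNReal.ofReal G0 := by
  rw [← lint_gam hρ]
  exact lintegral_sub_right_eq_self (fun z => ENNReal.ofReal (gam ρ z)) a

theorem gam_neg (ρ : ℝ) (z : ℂ) : gam ρ (-z) = gam ρ z := by simp [gam]

theorem gam_le {ρ R : ℝ} (hρ : 0 < ρ) (hR : 0 < R) (h : ρ ≤ 2 * R) (z : ℂ) :
    gam ρ z ≤ 16 * (R / ρ) ^ 2 * gam R z := by
  unfold gam
  have h1 : 1 + ‖z‖ ^ 2 / R ^ 2 ≤ 4 * (1 + ‖z‖ ^ 2 / ρ ^ 2) := by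
    have : ‖z‖ ^ 2 / R ^ 2 ≤ 4 * (‖z‖ ^ 2 / ρ ^ 2) := by
      rw [div_le_iff₀ (by positivity)]
      have h2 : ρ ^ 2 ≤ 4 * R ^ 2 := by nlinarith
      have h3 : 4 * (‖z‖ ^ 2 / ρ ^ 2) * R ^ 2 = ‖z‖ ^ 2 * (4 * R ^ 2 / ρ ^ 2) := by ring
      rw [h3]
      have h4 : 1 ≤ 4 * R ^ 2 / ρ ^ 2 := by rwa [le_div_iff₀ (by positivity), one_mul]
      nlinarith [sq_nonneg ‖z‖]
    linarith
  have h5 : (1 + ‖z‖ ^ 2 / R ^ 2) ^ 2 ≤ 16 * (1 + ‖z‖ ^ 2 / ρ ^ 2) ^ 2 := by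
    have : (1 + ‖z‖ ^ 2 / R ^ 2) ^ 2 ≤ (4 * (1 + ‖z‖ ^ 2 / ρ ^ 2)) ^ 2 := by gcongr
    calc _ ≤ _ := this
      _ = _ := by ring
  have h6 : ((1 + ‖z‖ ^ 2 / ρ ^ 2) ^ 2)⁻¹ ≤ 16 * ((1 + ‖z‖ ^ 2 / R ^ 2) ^ 2)⁻¹ := by
    rw [← div_eq_mul_inv, le_div_iff₀ (by positivity), inv_mul_le_iff₀ (by positivity)]
    linarith
  calc (ρ ^ 2)⁻¹ * ((1 + ‖z‖ ^ 2 / ρ ^ 2) ^ 2)⁻¹ ≤ (ρ ^ 2)⁻¹ * (16 * ((1 + ‖z‖ ^ 2 / R ^ 2) ^ 2)⁻¹) := by
        gcongr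
    _ = 16 * (R / ρ) ^ 2 * ((R ^ 2)⁻¹ * ((1 + ‖z‖ ^ 2 / R ^ 2) ^ 2)⁻¹) := by
        field_simp

/-- the operator -/
def S (n m : ℕ) (j : ℤ) (f : ℂ → ℂ) (z w : ℂ) : ℂ :=
  (Real.sqrt (gam ((2:ℝ) ^ (m - j)) (z - w)) : ℂ) * gj n j f w

theorem S_sq (n m : ℕ) (j : ℤ) (f : ℂ → ℂ) (z w : ℂ) :
    ‖S n m j f z w‖ₑ ^ 2 = ENNReal.ofReal (gam ((2:ℝ) ^ (m - j)) (z - w)) * ‖gj n j f w‖ₑ ^ 2 := by
  unfold S
  rw [enorm_mul, mul_pow]
  congr 1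
  rw [← ofReal_norm, Complex.norm_real, Real.norm_eq_abs, abs_of_nonneg (Real.sqrt_nonneg _),
    ← ENNReal.ofReal_pow (Real.sqrt_nonneg _), Real.sq_sqrt (gam_nonneg _ _)]

theorem gj_meas (n : ℕ) (j : ℤ) {f : ℂ → ℂ} (hf : Nice f) : Measurable (gj n j f) :=
  (nice_cv (ker_KK n j) hf).meas

theorem S_meas (n m : ℕ) (j : ℤ) (f : ℂ → ℂ) (hf : Nice f) :
    Measurable (Function.uncurry (S n m j f)) := by
  have h1 : Continuous (fun x : ℂ × ℂ => gam ((2:ℝ) ^ (m - j)) (x.1 - x.2)) :=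
    (gam_cont (by positivity)).comp (continuous_fst.sub continuous_snd)
  have h2 : Measurable (fun x : ℂ × ℂ => (Real.sqrt (gam ((2:ℝ) ^ (m - j)) (x.1 - x.2)) : ℂ)) :=
    (Complex.continuous_ofReal.comp (Real.continuous_sqrt.comp h1)).measurable
  exact h2.mul ((gj_meas n j hf).comp measurable_snd)

theorem S_add (n m : ℕ) (j : ℤ) (f g : ℂ → ℂ) (hf : Nice f) (hg : Nice g) :
    S n m j (f + g) = S n m j f + S n m j g := by
  funext z w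
  simp only [S, gj, Pi.add_apply]
  rw [cv_add (ker_KK n j) hf hg, Pi.add_apply]
  ring

theorem S_smul (n m : ℕ) (j : ℤ) (c : ℂ) (f : ℂ → ℂ) : S n m j (c • f) = c • S n m j f := by
  funext z w
  simp only [S, gj, Pi.smul_apply]
  rw [cv_smul, Pi.smul_apply]
  simp only [smul_eq_mul]
  ring

theorem S_two (n m : ℕ) (A : Finset ℤ) (f : ℂ → ℂ) (hf : Nice f) :
    ∑ j ∈ A, ∫⁻ z, ∫⁻ w, ‖S n m j f z w‖ₑ ^ 2 ≤ ENNReal.ofReal G0 * ∫⁻ z, ‖f z‖ₑ ^ 2 := by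
  have h1 : ∀ j ∈ A, ∫⁻ z, ∫⁻ w, ‖S n m j f z w‖ₑ ^ 2 = ENNReal.ofReal G0 * nrm 2 (gj n j f) := by
    intro j _
    rw [lintegral_lintegral_swap ((S_meas n m j f hf).enorm.pow_const 2).aemeasurable]
    have : ∀ w, ∫⁻ z, ‖S n m j f z w‖ₑ ^ 2 = ENNReal.ofReal G0 * ‖gj n j f w‖ₑ ^ 2 := by
      intro w
      simp only [S_sq]
      rw [lintegral_mul_const', lint_gam_sub (by positivity)]
      exact ENNReal.pow_ne_top enorm_ne_top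
    simp only [this]
    rw [lintegral_const_mul _ ((gj_meas n j hf).enorm.pow_const 2), nrm]
  rw [Finset.sum_congr rfl h1, ← Finset.mul_sum]
  gcongr
  exact sum_nrm_two_le n A f hf

theorem S_inf {C : ℝ} (hC : 0 < C) (hE : ∀ n : ℕ, 1 ≤ n → ∀ R : ℝ, 0 < R → ∀ A : Finset ℤ,
    (∀ j ∈ A, (n : ℝ) * (2:ℝ) ^ (-j) ≤ R) → ∀ f : ℂ → ℂ, Nice f → ∀ z₀ : ℂ,
    ∑ j ∈ A, ∫⁻ z, ‖gj n j f z‖ₑ ^ 2 * ENNReal.ofReal (gam R (z - z₀))
      ≤ ENNReal.ofReal C * ∫⁻ z, ‖f z‖ₑ ^ 2 * ENNReal.ofReal (gam R (z - z₀)))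
    (n : ℕ) (hn : 1 ≤ n) (m : ℕ) (hm : (2:ℝ) ^ m ≤ 2 * n) (j : ℤ) (f : ℂ → ℂ) (hf : Nice f)
    (hf1 : ∀ z, ‖f z‖ ≤ 1) (z : ℂ) :
    ∫⁻ w, ‖S n m j f z w‖ₑ ^ 2 ≤ ENNReal.ofReal (16 * (n / 2 ^ m) ^ 2 * (C * G0)) := by
  have hn0 : (0:ℝ) < n := by exact_mod_cast hn
  set R : ℝ := n * (2:ℝ) ^ (-j) with hR
  have hR0 : 0 < R := by positivity
  set ρ : ℝ := (2:ℝ) ^ (m - j) with hρ
  have hρ0 : 0 < ρ := by positivity
  have hρe : ρ = 2 ^ m * (2:ℝ) ^ (-j) := by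
    rw [hρ, sub_eq_add_neg, zpow_add₀ (by norm_num), zpow_natCast]
  have hρR : ρ ≤ 2 * R := by
    rw [hρe, hR]
    have : (0:ℝ) < (2:ℝ) ^ (-j) := by positivity
    nlinarith
  have hquot : R / ρ = n / 2 ^ m := by
    rw [hρe, hR]; field_simp
  simp only [S_sq]
  have h1 : ∀ w, ENNReal.ofReal (gam ρ (z - w)) * ‖gj n j f w‖ₑ ^ 2 ≤
      ENNReal.ofReal (16 * (n / 2 ^ m) ^ 2) * (‖gj n j f w‖ₑ ^ 2 * ENNReal.ofReal (gam R (w - z))) := by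
    intro w
    have h2 : gam ρ (z - w) ≤ 16 * (n / 2 ^ m) ^ 2 * gam R (w - z) := by
      have := gam_le hρ0 hR0 hρR (z - w)
      rw [hquot] at this
      rwa [← gam_neg R (z - w), neg_sub] at this
    calc ENNReal.ofReal (gam ρ (z - w)) * ‖gj n j f w‖ₑ ^ 2
        ≤ ENNReal.ofReal (16 * (n / 2 ^ m) ^ 2 * gam R (w - z)) * ‖gj n j f w‖ₑ ^ 2 := by
          gcongr
      _ = _ := by
          rw [ENNReal.ofReal_mul (by positivity)]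
          ring
  have h3 := hE n hn R hR0 {j} (by intro i hi; rw [Finset.mem_singleton] at hi; rw [hi]) f hf z
  rw [Finset.sum_singleton] at h3
  have h4 : ∫⁻ w, ‖f w‖ₑ ^ 2 * ENNReal.ofReal (gam R (w - z)) ≤ ENNReal.ofReal G0 := by
    rw [← lint_gam_sub hR0 z]
    apply lintegral_mono
    intro w
    have : ‖f w‖ₑ ≤ 1 := by
      rw [← ofReal_norm, ← ENNReal.ofReal_one]
      exact ENNReal.ofReal_le_ofReal (hf1 w)
    calc ‖f w‖ₑ ^ 2 * ENNReal.ofReal (gam R (w - z)) ≤ 1 ^ 2 * ENNReal.ofReal (gam R (w - z)) := by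
          gcongr
      _ = _ := by simp
  calc _ ≤ ∫⁻ w, ENNReal.ofReal (16 * (n / 2 ^ m) ^ 2) *
        (‖gj n j f w‖ₑ ^ 2 * ENNReal.ofReal (gam R (w - z))) := lintegral_mono h1
    _ = ENNReal.ofReal (16 * (n / 2 ^ m) ^ 2) *
        ∫⁻ w, (‖gj n j f w‖ₑ ^ 2 * ENNReal.ofReal (gam R (w - z))) :=
        lintegral_const_mul' _ _ ENNReal.ofReal_ne_top
    _ ≤ ENNReal.ofReal (16 * (n / 2 ^ m) ^ 2) * (ENNReal.ofReal C * ENNReal.ofReal G0) := by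
        gcongr
        exact h3.trans (by gcongr)
    _ = _ := by
        rw [← ENNReal.ofReal_mul hC.le, ← ENNReal.ofReal_mul (by positivity)]

end YBx

open YBx in
theorem Y_bound : ∃ C : ℝ, 0 < C ∧ ∀ n : ℕ, 1 ≤ n → ∀ A : Finset ℤ, ∀ m : ℕ,
    (2:ℝ) ^ m ≤ 2 * n → ∀ k : ℕ, 1 ≤ k → ∀ f : ℂ → ℂ, Nice f →
    ∑ j ∈ A, ∫⁻ z, (∫⁻ w, ENNReal.ofReal (gam ((2:ℝ) ^ (m - j)) (z - w)) * ‖gj n j f w‖ₑ ^ 2) ^ k
      ≤ ENNReal.ofReal (C * (C * n / 2 ^ m) ^ (2 * k - 2)) * nrm (2 * k) f := by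
  obtain ⟨CE, hCE, hE⟩ := energy
  set D : ℝ := 4 * Real.sqrt (CE * G0) with hD
  have hD0 : 0 ≤ D := by positivity
  refine ⟨1 + G0 + D, by have := G0_nonneg; positivity, ?_⟩
  intro n hn A m hm k hk f hf
  have hG := G0_nonneg
  have hnm : (0:ℝ) ≤ n / 2 ^ m := by positivity
  have key := RT2 (X := ℂ) (Y := ℂ) A (fun _ => volume) volume (fun j => S n m j)
    (fun j f hf => S_meas n m j f hf) (fun j f g hf hg => S_add n m j f g hf hg)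
    (fun j c f _ => S_smul n m j c f) (Real.toNNReal G0) (Real.toNNReal (D * (n / 2 ^ m)))
    (fun f hf => S_two n m A f hf)
    (fun j _ f hf hf1 z => by
      refine (S_inf hCE hE n hn m hm j f hf hf1 z).trans ?_
      rw [show ((Real.toNNReal (D * (n / 2 ^ m)) : ℝ≥0) : ℝ≥0∞) = ENNReal.ofReal (D * (n / 2 ^ m)) from rfl,
        ← ENNReal.ofReal_pow (by positivity)]
      apply ENNReal.ofReal_le_ofReal
      rw [hD, mul_pow, mul_pow, Real.sq_sqrt (by positivity)]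
      apply le_of_eq
      ring)
    (2 * k : ℕ) (by
      have : (1:ℝ) ≤ k := by exact_mod_cast hk
      push_cast
      linarith) f hf
  have e1 : ((2 * k : ℕ) : ℝ) / 2 = (k : ℕ) := by push_cast; ring
  have e2 : ((2 * k : ℕ) : ℝ) - 2 = ((2 * k - 2 : ℕ) : ℝ) := by
    rw [Nat.cast_sub (by omega)]; norm_num
  rw [e1, e2] at key
  simp only [ENNReal.rpow_natCast, S_sq] at key
  refine key.trans ?_
  rw [nrm]
  gcongr
  rw [show ((Real.toNNReal (D * (n / 2 ^ m)) : ℝ≥0) : ℝ≥0∞) = ENNReal.ofReal (D * (n / 2 ^ m)) from rfl,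
    show ((Real.toNNReal G0 : ℝ≥0) : ℝ≥0∞) = ENNReal.ofReal G0 from rfl,
    ← ENNReal.ofReal_pow (by positivity), ← ENNReal.ofReal_mul hG]
  apply ENNReal.ofReal_le_ofReal
  gcongr
  · linarith
  · rw [mul_div_assoc]
    gcongr
    linarith

end Helper72.BA.P


namespace Helper72.BA
alias Y_bound := P.Y_bound
end Helper72.BA
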