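import Pool.Agent.Helper72.BA.Defs
import Pool.Agent.Helper72.BAM.FB1
import Pool.Agent.Helper72.BAM.KE1
import Pool.Agent.Helper72.BAM.KE2
import Pool.Agent.Helper72.BAM.XB
import Pool.Agent.Helper72.BAM.YB

/-!
# MP_3dd6d4_an, module NL: near lags
-/

set_option autoImplicit false

open MeasureTheory Complex FourierTransform Filter Topology
open scoped ENNReal NNReal ComplexConjugate

noncomputable section

namespace Helper72.BA.P

open Helper72.BA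

namespace NL

theorem gam_nonneg (ρ : ℝ) (z : ℂ) : 0 ≤ gam ρ z := by
  unfold gam
  positivity

theorem continuous_gam (ρ : ℝ) : Continuous (gam ρ) := by
  unfold gam
  refine continuous_const.mul (Continuous.inv₀ (by fun_prop) fun z => ?_)
  positivity

theorem gam_symm (ρ : ℝ) (z w : ℂ) : gam ρ (z - w) = gam ρ (w - z) := by
  unfold gam
  rw [norm_sub_rev]

theorem gam_half {ρ : ℝ} (hρ : 0 < ρ) (z : ℂ) : gam (ρ / 2) z ≤ 4 * gam ρ z := by
  unfold gam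
  have h1 : ((ρ / 2) ^ 2)⁻¹ = 4 * (ρ ^ 2)⁻¹ := by
    field_simp
    norm_num
  rw [h1, mul_assoc]
  have h2 : 1 + ‖z‖ ^ 2 / ρ ^ 2 ≤ 1 + ‖z‖ ^ 2 / (ρ / 2) ^ 2 := by
    gcongr
    linarith
  gcongr

theorem gam_eq_one {ρ : ℝ} (hρ : 0 < ρ) (z : ℂ) : gam ρ z = (ρ ^ 2)⁻¹ * gam 1 (ρ⁻¹ • z) := by
  unfold gam
  rw [norm_smul, norm_inv, Real.norm_eq_abs, abs_of_pos hρ]
  congr 1
  rw [one_pow, inv_one, one_mul, div_one, mul_pow, inv_pow, inv_mul_eq_div]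

theorem gam_one_int : Integrable (gam 1) := by
  have h := integrable_rpow_neg_one_add_norm_sq (E := ℂ) (μ := volume) (r := 4)
    (by rw [Complex.finrank_real_complex]; norm_num)
  refine h.congr (Eventually.of_forall fun z => ?_)
  simp only
  unfold gam
  rw [one_pow, inv_one, one_mul, div_one]
  have : (-4 / 2 : ℝ) = -(2 : ℕ) := by norm_num
  rw [this, Real.rpow_neg (by positivity), Real.rpow_natCast]

/-- the total mass of the weights is bounded -/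
theorem gam_mass : ∃ G : ℝ, 0 < G ∧ ∀ ρ : ℝ, 0 < ρ → ∀ z : ℂ,
    ∫⁻ w, ENNReal.ofReal (gam ρ (z - w)) ≤ ENNReal.ofReal G := by
  refine ⟨(∫ z, gam 1 z) + 1, ?_, fun ρ hρ z => ?_⟩
  · have : 0 ≤ ∫ z, gam 1 z := integral_nonneg fun z => gam_nonneg 1 z
    linarith
  · have h1 : ∫⁻ w, ENNReal.ofReal (gam ρ (z - w)) = ∫⁻ w, ENNReal.ofReal (gam ρ w) :=
      lintegral_sub_left_eq_self (fun w => ENNReal.ofReal (gam ρ w)) z
    have hint : Integrable (gam ρ) := by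
      have h2 : gam ρ = fun w => (ρ ^ 2)⁻¹ * gam 1 (ρ⁻¹ • w) := funext fun w => gam_eq_one hρ w
      rw [h2]
      exact ((integrable_comp_smul_iff volume (gam 1) (inv_ne_zero hρ.ne')).2
        gam_one_int).const_mul _
    have h3 : ∫ w, gam ρ w = ∫ w, gam 1 w := by
      have h2 : gam ρ = fun w => (ρ ^ 2)⁻¹ * gam 1 (ρ⁻¹ • w) := funext fun w => gam_eq_one hρ w
      rw [h2]
      rw [integral_const_mul, Measure.integral_comp_inv_smul, Complex.finrank_real_complex,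
        abs_of_pos (by positivity), smul_eq_mul, ← mul_assoc, inv_mul_cancel₀ (by positivity),
        one_mul]
    rw [h1, ← ofReal_integral_eq_lintegral_ofReal hint
      (Eventually.of_forall fun w => gam_nonneg ρ w), h3]
    exact ENNReal.ofReal_le_ofReal (by linarith)

/-- Jensen -/
theorem jensen {a g : ℂ → ℝ≥0∞} (ha : Measurable a) (hg : Measurable g) (q : ℕ) (hq : 1 ≤ q) :
    (∫⁻ w, a w * g w) ^ q ≤ (∫⁻ w, a w) ^ (q - 1) * ∫⁻ w, a w * g w ^ q := by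
  rcases Nat.eq_or_lt_of_le hq with h1 | h1
  · subst h1
    simp
  · have hq1 : (1 : ℝ) < q := by exact_mod_cast h1
    have hq0 : (0 : ℝ) < q := by linarith
    have hconj : Real.HolderConjugate (q / (q - 1) : ℝ) q := by
      rw [Real.holderConjugate_iff]
      refine ⟨?_, ?_⟩
      · rw [one_lt_div (by linarith)]
        linarith
      · rw [inv_div]
        field_simp
        ring
    have hp0 : 0 < (q / (q - 1) : ℝ) := hconj.pos
    have hsum : 1 / (q / (q - 1) : ℝ) + 1 / q = 1 := by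
      rw [one_div_div]
      field_simp
      ring
    have h2 : ∀ w, a w * g w = (a w ^ (1 / (q / (q - 1) : ℝ))) * (a w ^ (1 / q : ℝ) * g w) := by
      intro w
      rw [← mul_assoc, ← ENNReal.rpow_add_of_nonneg _ _ (by positivity) (by positivity), hsum,
        ENNReal.rpow_one]
    have h3 := ENNReal.lintegral_mul_le_Lp_mul_Lq volume hconj
      (f := fun w => a w ^ (1 / (q / (q - 1) : ℝ))) (g := fun w => a w ^ (1 / q : ℝ) * g w)
      (ha.pow_const _).aemeasurable ((ha.pow_const _).mul hg).aemeasurable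
    have h4 : (∫⁻ w, a w * g w) ≤ (∫⁻ w, a w) ^ (1 / (q / (q - 1) : ℝ)) *
        (∫⁻ w, a w * g w ^ q) ^ (1 / q : ℝ) := by
      calc (∫⁻ w, a w * g w) = ∫⁻ w, ((fun w => a w ^ (1 / (q / (q - 1) : ℝ))) *
            (fun w => a w ^ (1 / q : ℝ) * g w)) w := lintegral_congr h2
        _ ≤ _ := h3
        _ = _ := by
            congr 2
            · refine lintegral_congr fun w => ?_
              rw [← ENNReal.rpow_mul, one_div_mul_cancel hp0.ne', ENNReal.rpow_one]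
            · refine lintegral_congr fun w => ?_
              rw [ENNReal.mul_rpow_of_nonneg _ _ hq0.le, ← ENNReal.rpow_mul,
                one_div_mul_cancel hq0.ne', ENNReal.rpow_one, ENNReal.rpow_natCast]
    calc (∫⁻ w, a w * g w) ^ q ≤ ((∫⁻ w, a w) ^ (1 / (q / (q - 1) : ℝ)) *
        (∫⁻ w, a w * g w ^ q) ^ (1 / q : ℝ)) ^ q := pow_le_pow_left' h4 q
      _ = _ := by
          rw [mul_pow, ← ENNReal.rpow_natCast, ← ENNReal.rpow_natCast, ← ENNReal.rpow_mul,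
            ← ENNReal.rpow_mul, one_div_mul_cancel hq0.ne', ENNReal.rpow_one,
            ← ENNReal.rpow_natCast]
          congr 2
          rw [one_div_div, Nat.cast_sub hq, Nat.cast_one]
          field_simp

/-- Jensen for convolutions -/
theorem cv_pow_le {K g : ℂ → ℂ} (hg : Measurable g) {C ρ G : ℝ} (hC : 0 < C)
    (hG : ∀ z : ℂ, ∫⁻ w, ENNReal.ofReal (gam ρ (z - w)) ≤ ENNReal.ofReal G) (hG0 : 0 < G)
    (hKb : ∀ z, ‖K z‖ ≤ C * gam ρ z) (q : ℕ) (hq : 1 ≤ q) (z : ℂ) :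
    ‖cv K g z‖ₑ ^ q ≤ ENNReal.ofReal (C ^ q * G ^ (q - 1)) *
      ∫⁻ w, ENNReal.ofReal (gam ρ (z - w)) * ‖g w‖ₑ ^ q := by
  have hma : Measurable fun w : ℂ => ENNReal.ofReal (gam ρ (z - w)) :=
    ((continuous_gam ρ).measurable.comp (measurable_const.sub measurable_id)).ennreal_ofReal
  have h1 : ‖cv K g z‖ₑ ≤ ENNReal.ofReal C *
      ∫⁻ w, ENNReal.ofReal (gam ρ (z - w)) * ‖g w‖ₑ := by
    unfold cv
    have hmul : Measurable fun w => ENNReal.ofReal (gam ρ (z - w)) * ‖g w‖ₑ := hma.mul hg.enorm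
    rw [← lintegral_const_mul _ hmul]
    refine (enorm_integral_le_lintegral_enorm _).trans (lintegral_mono fun w => ?_)
    rw [enorm_mul, ← mul_assoc, ← ENNReal.ofReal_mul hC.le]
    refine mul_le_mul_left ?_ _
    rw [← ofReal_norm]
    exact ENNReal.ofReal_le_ofReal (hKb _)
  calc ‖cv K g z‖ₑ ^ q ≤ (ENNReal.ofReal C *
      ∫⁻ w, ENNReal.ofReal (gam ρ (z - w)) * ‖g w‖ₑ) ^ q := pow_le_pow_left' h1 q
    _ = ENNReal.ofReal C ^ q * (∫⁻ w, ENNReal.ofReal (gam ρ (z - w)) * ‖g w‖ₑ) ^ q := mul_pow _ _ _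
    _ ≤ ENNReal.ofReal C ^ q * ((∫⁻ w, ENNReal.ofReal (gam ρ (z - w))) ^ (q - 1) *
          ∫⁻ w, ENNReal.ofReal (gam ρ (z - w)) * ‖g w‖ₑ ^ q) := by
        gcongr
        exact jensen hma hg.enorm q hq
    _ ≤ ENNReal.ofReal C ^ q * (ENNReal.ofReal G ^ (q - 1) *
          ∫⁻ w, ENNReal.ofReal (gam ρ (z - w)) * ‖g w‖ₑ ^ q) := by
        gcongr
        exact hG z
    _ = _ := by
        rw [ENNReal.ofReal_mul (by positivity), ENNReal.ofReal_pow hC.le,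
          ENNReal.ofReal_pow hG0.le, mul_assoc]

/-- the low pass kernel reproduces the annulus below it -/
theorem kap_gj (n : ℕ) (i : ℤ) {f : ℂ → ℂ} (hf : Nice f) :
    cv (kap (i + 1)) (gj n i f) = gj n i f := by
  have hg : Nice (gj n i f) := nice_cv (ker_KK n i) hf
  have hgc : Continuous (gj n i f) := continuous_cv (ker_KK n i) hf
  have hgi : Integrable (𝓕 (gj n i f)) := integrable_fourier_cv (ker_KK n i) hf
  have hg' : Nice (cv (kap (i + 1)) (gj n i f)) := nice_cv (ker_kap _) hg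
  have hgc' : Continuous (cv (kap (i + 1)) (gj n i f)) := continuous_cv (ker_kap _) hg
  have hF : 𝓕 (cv (kap (i + 1)) (gj n i f)) = 𝓕 (gj n i f) := by
    funext ξ
    rw [fourier_cv (ker_kap _) hg, fourier_kap]
    have h1 : 𝓕 (gj n i f) ξ = mult n ξ * (chi i ξ : ℂ) * 𝓕 f ξ := by
      unfold gj
      rw [fourier_cv (ker_KK n i) hf, fourier_KK]
    rcases le_or_gt ((2 : ℝ) ^ (i + 1)) ‖ξ‖ with h2 | h2
    · rw [h1, chi_eq_zero_right h2]
      simp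
    · rw [Psi_eq_one h2.le]
      simp
  have h1 := hgc'.fourierInv_fourier_eq hg'.int (by rw [hF]; exact hgi)
  have h2 := hgc.fourierInv_fourier_eq hg.int hgi
  rw [← h1, hF, h2]

/-- the main estimate -/
theorem core (k : ℕ) (hk : 2 ≤ k) (C1 C2 K0 : ℝ) (hC1 : 0 < C1) (hC2 : 0 < C2) (hK0 : 0 < K0) :
    ∃ C : ℝ, 0 < C ∧ ∀ (n m : ℕ) (ρ : ℤ → ℝ), 1 ≤ n → ∀ A : Finset ℤ, ∀ (u v g : ℤ → ℂ → ℂ) (F : ℝ≥0∞),
      (∀ j, Measurable (v j)) → (∀ j, Measurable (g j)) →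
      (∑ j ∈ A, nrm (2 * k) (v j) ≤ ENNReal.ofReal ((C1 * n) ^ (2 * k - 2)) * F) →
      (∑ j ∈ A, ∫⁻ z, (∫⁻ w, ENNReal.ofReal (gam (ρ j) (z - w)) * ‖g j w‖ₑ ^ 2) ^ k
        ≤ ENNReal.ofReal (C2 * (C2 * n / 2 ^ m) ^ (2 * k - 2)) * F) →
      (∀ j z, ‖u j z‖ₑ ^ (2 * k - 2) ≤ ENNReal.ofReal K0 *
        ∫⁻ w, ENNReal.ofReal (gam (ρ j) (z - w)) * ‖v j w‖ₑ ^ (2 * k - 2)) →
      ∑ j ∈ A, ∫⁻ z, ‖u j z‖ₑ ^ (2 * k - 2) * ‖g j z‖ₑ ^ 2
        ≤ ENNReal.ofReal (C * (n:ℝ) ^ (2 * k - 2) * (2:ℝ) ^ (-(2 * m * (1 - 1 / k) : ℝ))) * F := by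
  have hk0 : (0 : ℝ) < k := by positivity
  have hk1 : (1 : ℝ) < k := by exact_mod_cast (by omega : 1 < k)
  have hk2 : (2 : ℝ) ≤ k := by exact_mod_cast hk
  have hconj : Real.HolderConjugate (k / (k - 1) : ℝ) k := by
    rw [Real.holderConjugate_iff]
    refine ⟨?_, ?_⟩
    · rw [one_lt_div (by linarith)]
      linarith
    · rw [inv_div]
      field_simp
      ring
  have hp0 : 0 < (k / (k - 1) : ℝ) := hconj.pos
  have hinv : 1 / (k / (k - 1) : ℝ) = 1 - 1 / k := by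
    rw [one_div_div]
    field_simp
  have h1k : 0 ≤ 1 - 1 / (k : ℝ) := by
    rw [sub_nonneg, div_le_one hk0]
    exact hk1.le
  have hcast : ((2 * k - 2 : ℕ) : ℝ) = 2 * k - 2 := by
    rw [Nat.cast_sub (by omega)]
    push_cast
    ring
  refine ⟨K0 * ((C1 ^ (2 * k - 2)) ^ (1 - 1 / k : ℝ) * (C2 * C2 ^ (2 * k - 2)) ^ (1 / k : ℝ)),
    by positivity, ?_⟩
  intro n m ρ hn A u v g F hv hg hX hY hu
  have hn0 : (0 : ℝ) < n := by positivity
  have hmeas : ∀ j : ℤ, Measurable fun z : ℂ => ∫⁻ w, ENNReal.ofReal (gam (ρ j) (z - w)) *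
      ‖g j w‖ₑ ^ 2 := by
    intro j
    refine Measurable.lintegral_prod_right' (f := fun p : ℂ × ℂ =>
      ENNReal.ofReal (gam (ρ j) (p.1 - p.2)) * ‖g j p.2‖ₑ ^ 2) ?_
    exact (((continuous_gam _).measurable.comp (measurable_fst.sub measurable_snd)).ennreal_ofReal).mul
      (((hg j).comp measurable_snd).enorm.pow_const 2)
  have hmeasV : ∀ j : ℤ, Measurable fun p : ℂ × ℂ => ENNReal.ofReal (gam (ρ j) (p.1 - p.2)) *
      ‖v j p.2‖ₑ ^ (2 * k - 2) := by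
    intro j
    exact (((continuous_gam _).measurable.comp (measurable_fst.sub measurable_snd)).ennreal_ofReal).mul
      (((hv j).comp measurable_snd).enorm.pow_const _)
  have hmeasV' : ∀ j : ℤ, Measurable fun z : ℂ => ∫⁻ w, ENNReal.ofReal (gam (ρ j) (z - w)) *
      ‖v j w‖ₑ ^ (2 * k - 2) := fun j => (hmeasV j).lintegral_prod_right'
  -- step 1 : for every j
  have hstep : ∀ j ∈ A, ∫⁻ z, ‖u j z‖ₑ ^ (2 * k - 2) * ‖g j z‖ₑ ^ 2 ≤
      ENNReal.ofReal K0 * ((nrm (2 * k) (v j)) ^ (1 - 1 / k : ℝ) *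
        (∫⁻ z, (∫⁻ w, ENNReal.ofReal (gam (ρ j) (z - w)) * ‖g j w‖ₑ ^ 2) ^ k) ^
          (1 / k : ℝ)) := by
    intro j _
    have hgj2 : Measurable fun z => ‖g j z‖ₑ ^ 2 := (hg j).enorm.pow_const 2
    have hsec : ∀ z, Measurable fun w : ℂ => ENNReal.ofReal (gam (ρ j) (z - w)) *
        ‖v j w‖ₑ ^ (2 * k - 2) := by
      intro z
      exact (((continuous_gam (ρ j)).measurable.comp
        (measurable_const.sub measurable_id)).ennreal_ofReal).mul ((hv j).enorm.pow_const _)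
    calc ∫⁻ z, ‖u j z‖ₑ ^ (2 * k - 2) * ‖g j z‖ₑ ^ 2
        ≤ ∫⁻ z, (ENNReal.ofReal K0 * ∫⁻ w, ENNReal.ofReal (gam (ρ j) (z - w)) *
            ‖v j w‖ₑ ^ (2 * k - 2)) * ‖g j z‖ₑ ^ 2 := by
          refine lintegral_mono fun z => ?_
          exact mul_le_mul_left (hu j z) _
      _ = ENNReal.ofReal K0 * ∫⁻ z, ∫⁻ w, ENNReal.ofReal (gam (ρ j) (z - w)) *
            ‖v j w‖ₑ ^ (2 * k - 2) * ‖g j z‖ₑ ^ 2 := by
          have h1 : ∀ z, ∫⁻ w, ENNReal.ofReal (gam (ρ j) (z - w)) *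
            ‖v j w‖ₑ ^ (2 * k - 2) * ‖g j z‖ₑ ^ 2 = (∫⁻ w, ENNReal.ofReal
              (gam (ρ j) (z - w)) * ‖v j w‖ₑ ^ (2 * k - 2)) * ‖g j z‖ₑ ^ 2 := by
            intro z
            rw [lintegral_mul_const _ (hsec z)]
          simp_rw [h1, mul_assoc]
          rw [lintegral_const_mul]
          exact (hmeasV' j).mul hgj2
      _ = ENNReal.ofReal K0 * ∫⁻ w, ∫⁻ z, ENNReal.ofReal (gam (ρ j) (z - w)) *
            ‖v j w‖ₑ ^ (2 * k - 2) * ‖g j z‖ₑ ^ 2 := by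
          rw [lintegral_lintegral_swap]
          exact ((hmeasV j).mul (hgj2.comp measurable_fst)).aemeasurable
      _ = ENNReal.ofReal K0 * ∫⁻ w, ‖v j w‖ₑ ^ (2 * k - 2) *
            ∫⁻ z, ENNReal.ofReal (gam (ρ j) (w - z)) * ‖g j z‖ₑ ^ 2 := by
          congr 1
          refine lintegral_congr fun w => ?_
          rw [← lintegral_const_mul]
          · refine lintegral_congr fun z => ?_
            rw [gam_symm _ z w]
            ring
          · exact (((continuous_gam _).measurable.comp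
              (measurable_const.sub measurable_id)).ennreal_ofReal).mul hgj2
      _ ≤ _ := by
          gcongr
          have h3 := ENNReal.lintegral_mul_le_Lp_mul_Lq volume hconj
            (f := fun w => ‖v j w‖ₑ ^ (2 * k - 2))
            (g := fun w => ∫⁻ z, ENNReal.ofReal (gam (ρ j) (w - z)) * ‖g j z‖ₑ ^ 2)
            ((hv j).enorm.pow_const _).aemeasurable (hmeas j).aemeasurable
          refine h3.trans (le_of_eq ?_)
          rw [hinv]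
          congr 2
          · unfold nrm
            refine lintegral_congr fun w => ?_
            rw [← ENNReal.rpow_natCast, ← ENNReal.rpow_mul, ← ENNReal.rpow_natCast]
            congr 1
            rw [hcast]
            push_cast
            have : (k : ℝ) - 1 ≠ 0 := by linarith
            field_simp
          · refine lintegral_congr fun w => ?_
            rw [ENNReal.rpow_natCast]
  -- step 2 : sum over j
  have hsum : ∑ j ∈ A, (nrm (2 * k) (v j)) ^ (1 - 1 / k : ℝ) *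
        (∫⁻ z, (∫⁻ w, ENNReal.ofReal (gam (ρ j) (z - w)) * ‖g j w‖ₑ ^ 2) ^ k) ^
          (1 / k : ℝ) ≤ (∑ j ∈ A, nrm (2 * k) (v j)) ^ (1 - 1 / k : ℝ) *
        (∑ j ∈ A, ∫⁻ z, (∫⁻ w, ENNReal.ofReal (gam (ρ j) (z - w)) *
          ‖g j w‖ₑ ^ 2) ^ k) ^ (1 / k : ℝ) := by
    refine (ENNReal.inner_le_Lp_mul_Lq A _ _ hconj).trans (le_of_eq ?_)
    rw [hinv]
    congr 2
    · refine Finset.sum_congr rfl fun j _ => ?_
      rw [← ENNReal.rpow_mul, ← hinv, one_div_mul_cancel hp0.ne', ENNReal.rpow_one]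
    · refine Finset.sum_congr rfl fun j _ => ?_
      rw [← ENNReal.rpow_mul, one_div_mul_cancel hk0.ne', ENNReal.rpow_one]
  calc ∑ j ∈ A, ∫⁻ z, ‖u j z‖ₑ ^ (2 * k - 2) * ‖g j z‖ₑ ^ 2
      ≤ ∑ j ∈ A, ENNReal.ofReal K0 * ((nrm (2 * k) (v j)) ^ (1 - 1 / k : ℝ) *
        (∫⁻ z, (∫⁻ w, ENNReal.ofReal (gam (ρ j) (z - w)) * ‖g j w‖ₑ ^ 2) ^ k) ^
          (1 / k : ℝ)) := Finset.sum_le_sum hstep
    _ = ENNReal.ofReal K0 * ∑ j ∈ A, (nrm (2 * k) (v j)) ^ (1 - 1 / k : ℝ) *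
        (∫⁻ z, (∫⁻ w, ENNReal.ofReal (gam (ρ j) (z - w)) * ‖g j w‖ₑ ^ 2) ^ k) ^
          (1 / k : ℝ) := (Finset.mul_sum _ _ _).symm
    _ ≤ ENNReal.ofReal K0 * ((∑ j ∈ A, nrm (2 * k) (v j)) ^ (1 - 1 / k : ℝ) *
        (∑ j ∈ A, ∫⁻ z, (∫⁻ w, ENNReal.ofReal (gam (ρ j) (z - w)) *
          ‖g j w‖ₑ ^ 2) ^ k) ^ (1 / k : ℝ)) := by gcongr
    _ ≤ ENNReal.ofReal K0 * ((ENNReal.ofReal ((C1 * n) ^ (2 * k - 2)) * F) ^ (1 - 1 / k : ℝ) *
        (ENNReal.ofReal (C2 * (C2 * n / 2 ^ m) ^ (2 * k - 2)) * F) ^ (1 / k : ℝ)) := by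
        gcongr
    _ = _ := by
        rw [ENNReal.mul_rpow_of_nonneg _ _ h1k, ENNReal.mul_rpow_of_nonneg _ _ (by positivity),
          ENNReal.ofReal_rpow_of_nonneg (by positivity) h1k,
          ENNReal.ofReal_rpow_of_nonneg (by positivity) (by positivity)]
        have hF : F ^ (1 - 1 / k : ℝ) * F ^ (1 / k : ℝ) = F := by
          rw [← ENNReal.rpow_add_of_nonneg _ _ h1k (by positivity)]
          simp
        rw [mul_mul_mul_comm, hF, ← ENNReal.ofReal_mul (by positivity), ← mul_assoc,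
          ← ENNReal.ofReal_mul hK0.le]
        congr 2
        have e1 : (C1 * n) ^ (2 * k - 2) = C1 ^ (2 * k - 2) * (n : ℝ) ^ (2 * k - 2) := mul_pow _ _ _
        have e2 : C2 * (C2 * n / 2 ^ m) ^ (2 * k - 2) = (C2 * C2 ^ (2 * k - 2)) *
            ((n : ℝ) ^ (2 * k - 2) * (2 ^ m) ^ (-(2 * k - 2 : ℝ))) := by
          rw [div_pow, mul_pow, Real.rpow_neg (by positivity), ← hcast, Real.rpow_natCast]
          field_simp
        have e3 : ((n : ℝ) ^ (2 * k - 2)) ^ (1 - 1 / k : ℝ) * ((n : ℝ) ^ (2 * k - 2)) ^ (1 / k : ℝ) =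
            (n : ℝ) ^ (2 * k - 2) := by
          rw [← Real.rpow_add (by positivity)]
          simp
        have e4 : (((2 : ℝ) ^ m) ^ (-(2 * k - 2 : ℝ))) ^ (1 / k : ℝ) =
            (2 : ℝ) ^ (-(2 * m * (1 - 1 / k) : ℝ)) := by
          rw [← Real.rpow_natCast 2 m, ← Real.rpow_mul (by positivity),
            ← Real.rpow_mul (by positivity)]
          congr 1
          field_simp
        have e5 : (C1 ^ (2 * k - 2) * (n : ℝ) ^ (2 * k - 2)) ^ (1 - 1 / k : ℝ) =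
            (C1 ^ (2 * k - 2)) ^ (1 - 1 / k : ℝ) * ((n : ℝ) ^ (2 * k - 2)) ^ (1 - 1 / k : ℝ) :=
          Real.mul_rpow (by positivity) (by positivity)
        have e6 : ((C2 * C2 ^ (2 * k - 2)) * ((n : ℝ) ^ (2 * k - 2) *
            (2 ^ m) ^ (-(2 * k - 2 : ℝ)))) ^ (1 / k : ℝ) = (C2 * C2 ^ (2 * k - 2)) ^ (1 / k : ℝ) *
            (((n : ℝ) ^ (2 * k - 2)) ^ (1 / k : ℝ) * (((2 : ℝ) ^ m) ^ (-(2 * k - 2 : ℝ))) ^ (1 / k : ℝ)) := by
          rw [Real.mul_rpow (by positivity) (by positivity)]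
          congr 1
          exact Real.mul_rpow (by positivity) (by positivity)
        rw [e1, e2, e5, e6, e4]
        calc _ = K0 * ((C1 ^ (2 * k - 2)) ^ (1 - 1 / k : ℝ) * (C2 * C2 ^ (2 * k - 2)) ^ (1 / k : ℝ)) *
              (((n : ℝ) ^ (2 * k - 2)) ^ (1 - 1 / k : ℝ) * ((n : ℝ) ^ (2 * k - 2)) ^ (1 / k : ℝ)) *
              (2 : ℝ) ^ (-(2 * m * (1 - 1 / k) : ℝ)) := by ring
          _ = _ := by rw [e3]

/-- common form of the two estimates -/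
theorem near_lag_aux (k : ℕ) (hk : 2 ≤ k) : ∃ C : ℝ, 0 < C ∧ ∀ n : ℕ, 1 ≤ n → ∀ m : ℕ,
    (2:ℝ) ^ m ≤ 2 * n → ∀ A : Finset ℤ, ∀ d : ℤ, ∀ f : ℂ → ℂ, Nice f → ∀ u : ℤ → ℂ → ℂ,
    (∀ j, ∃ K : ℂ → ℂ, (∃ i : ℤ, (i = j - m ∨ i = j - m + 1) ∧ K = kap i) ∧
      u j = cv K (gj n (j - m + d) f)) →
    ∑ j ∈ A, ∫⁻ z, ‖u j z‖ₑ ^ (2 * k - 2) * ‖gj n j f z‖ₑ ^ 2
      ≤ ENNReal.ofReal (C * (n:ℝ) ^ (2 * k - 2) * (2:ℝ) ^ (-(2 * m * (1 - 1 / k) : ℝ))) * nrm (2 * k) f := by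
  obtain ⟨C1, hC1, hX⟩ := X_bound
  obtain ⟨C2, hC2, hY⟩ := Y_bound
  obtain ⟨C3, hC3, hK⟩ := kap_bound
  obtain ⟨G, hG0, hG⟩ := gam_mass
  obtain ⟨C, hC, hcore⟩ := core k hk C1 C2 ((4 * C3) ^ (2 * k - 2) * G ^ (2 * k - 2 - 1)) hC1 hC2
    (by positivity)
  refine ⟨C, hC, fun n hn m hm A d f hf u hu => ?_⟩
  refine hcore n m (fun j => (2:ℝ) ^ (m - j)) hn A u (fun j => gj n (j - m + d) f)
    (fun j => gj n j f) (nrm (2 * k) f) (fun j => (nice_cv (ker_KK n _) hf).meas)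
    (fun j => (nice_cv (ker_KK n _) hf).meas) ?_ (hY n hn A m hm k (by omega) f hf) ?_
  · have h1 := hX n hn (A.map (addRightEmbedding (-(m : ℤ) + d))) k (by omega) f hf
    rw [Finset.sum_map] at h1
    refine le_trans (le_of_eq ?_) h1
    refine Finset.sum_congr rfl fun j _ => ?_
    have : j - m + d = (addRightEmbedding (-(m : ℤ) + d)) j := by
      rw [addRightEmbedding_apply]
      ring
    rw [this]
  · intro j z
    obtain ⟨K, ⟨i, hi, rfl⟩, hu'⟩ := hu j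
    rw [hu']
    refine cv_pow_le (nice_cv (ker_KK n _) hf).meas (by positivity)
      (fun z => hG _ (by positivity) z) hG0 (fun z => ?_) (2 * k - 2) (by omega) z
    refine (hK i z).trans ?_
    rcases hi with rfl | rfl
    · have h1 : (2 : ℝ) ^ (-(j - m : ℤ)) = (2 : ℝ) ^ (m - j) := by
        congr 1
        ring
      rw [h1]
      have := mul_nonneg hC3.le (gam_nonneg ((2 : ℝ) ^ (m - j)) z)
      linarith
    · have h1 : (2 : ℝ) ^ (-(j - m + 1 : ℤ)) = (2 : ℝ) ^ (m - j) / 2 := by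
        rw [show -(j - m + 1 : ℤ) = (m - j) - 1 by ring, zpow_sub_one₀ two_ne_zero]
        rfl
      rw [h1]
      have h2 := gam_half (show 0 < (2 : ℝ) ^ (m - j) by positivity) z
      have h3 := mul_le_mul_of_nonneg_left h2 hC3.le
      linarith

end NL

open NL

theorem near_lag (k : ℕ) (hk : 2 ≤ k) : ∃ C : ℝ, 0 < C ∧ ∀ n : ℕ, 1 ≤ n → ∀ m : ℕ,
    (2:ℝ) ^ m ≤ 2 * n → ∀ A : Finset ℤ, ∀ f : ℂ → ℂ, Nice f →
    ∑ j ∈ A, ∫⁻ z, ‖gj n (j - m) f z‖ₑ ^ (2 * k - 2) * ‖gj n j f z‖ₑ ^ 2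
      ≤ ENNReal.ofReal (C * (n:ℝ) ^ (2 * k - 2) * (2:ℝ) ^ (-(2 * m * (1 - 1 / k) : ℝ))) * nrm (2 * k) f := by
  obtain ⟨C, hC, h⟩ := near_lag_aux k hk
  refine ⟨C, hC, fun n hn m hm A f hf => ?_⟩
  refine h n hn m hm A 0 f hf (fun j => gj n (j - m) f) fun j => ⟨_, ⟨_, Or.inr rfl, rfl⟩, ?_⟩
  rw [add_zero]
  exact (kap_gj n (j - m) hf).symm

/-- variant needed for the far lag: the low factor convolved with a low pass kernel -/
theorem near_lag' (k : ℕ) (hk : 2 ≤ k) : ∃ C : ℝ, 0 < C ∧ ∀ n : ℕ, 1 ≤ n → ∀ m : ℕ,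
    (2:ℝ) ^ m ≤ 2 * n → ∀ A : Finset ℤ, ∀ d : ℤ, (d = 0 ∨ d = 1) → ∀ f : ℂ → ℂ, Nice f →
    ∑ j ∈ A, ∫⁻ z, ‖cv (kap (j - m)) (gj n (j - m + d) f) z‖ₑ ^ (2 * k - 2) * ‖gj n j f z‖ₑ ^ 2
      ≤ ENNReal.ofReal (C * (n:ℝ) ^ (2 * k - 2) * (2:ℝ) ^ (-(2 * m * (1 - 1 / k) : ℝ))) * nrm (2 * k) f := by
  obtain ⟨C, hC, h⟩ := near_lag_aux k hk
  refine ⟨C, hC, fun n hn m hm A d _ f hf => ?_⟩
  exact h n hn m hm A d f hf (fun j => cv (kap (j - m)) (gj n (j - m + d) f)) fun j =>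
    ⟨_, ⟨_, Or.inl rfl, rfl⟩, rfl⟩

end Helper72.BA.P


namespace Helper72.BA
alias near_lag := P.near_lag
alias near_lag' := P.near_lag'
end Helper72.BA
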