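import Pool.Agent.Helper72.BA.Defs

/-!
# MP_3dd6d4_an, module SF : abstract dyadic square function (helper34)
-/

set_option autoImplicit false

open MeasureTheory Complex FourierTransform Filter Topology
open scoped ENNReal NNReal ComplexConjugate

noncomputable section

namespace Helper72.BA.P
open Helper72.BA

namespace SF

theorem measurable_cub (s : ℝ) (j : ℤ) : Measurable (cub s j) := by
  unfold cub
  exact (Int.measurable_floor.comp (Complex.measurable_re.div_const _)).prodMk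
    (Int.measurable_floor.comp (Complex.measurable_im.div_const _))

theorem measurableSet_cub (s : ℝ) (j : ℤ) (q : ℤ × ℤ) :
    MeasurableSet {z : ℂ | cub s j z = q} :=
  measurable_cub s j (measurableSet_singleton q)

theorem volume_cub {s : ℝ} (hs : 0 < s) (j : ℤ) (q : ℤ × ℤ) :
    volume {z : ℂ | cub s j z = q} = ENNReal.ofReal ((s * 2 ^ (-j)) ^ 2) := by
  have hapos : 0 < s * (2:ℝ) ^ (-j) := by positivity
  unfold cub
  generalize s * (2:ℝ) ^ (-j) = a at hapos ⊢
  have h1 : {z : ℂ | (⌊z.re / a⌋, ⌊z.im / a⌋) = q} = Complex.measurableEquivRealProd ⁻¹'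
      (Set.Ico (q.1 * a) ((q.1 + 1) * a) ×ˢ Set.Ico (q.2 * a) ((q.2 + 1) * a)) := by
    ext z
    simp only [Set.mem_ofPred_eq, Set.mem_preimage, Set.mem_prod, Set.mem_Ico, Prod.ext_iff,
      Int.floor_eq_iff, Complex.measurableEquivRealProd_apply, le_div_iff₀ hapos,
      div_lt_iff₀ hapos]
  rw [h1, Complex.volume_preserving_equiv_real_prod.measure_preimage
    (measurableSet_Ico.prod measurableSet_Ico).nullMeasurableSet,
    Measure.volume_eq_prod, Measure.prod_prod, Real.volume_Ico, Real.volume_Ico,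
    ← ENNReal.ofReal_mul (by nlinarith)]
  congr 1
  ring

/-- partition of the integral -/
theorem lintegral_cub (s : ℝ) (j : ℤ) (f : ℂ → ℝ≥0∞) :
    ∫⁻ z, f z = ∑' q : ℤ × ℤ, ∫⁻ z in {z : ℂ | cub s j z = q}, f z := by
  rw [← lintegral_iUnion (fun q => measurableSet_cub s j q)]
  · have : (⋃ q : ℤ × ℤ, {z : ℂ | cub s j z = q}) = Set.univ := by
      ext z; simp
    rw [this, Measure.restrict_univ]
  · intro q r hqr
    rw [Function.onFun, Set.disjoint_left]
    intro z hz hz'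
    exact hqr (hz.symm.trans hz')

theorem lintegral_mul_cub (s : ℝ) (j : ℤ) {f : ℂ → ℝ≥0∞} (hf : Measurable f)
    (w : ℤ × ℤ → ℝ≥0∞) :
    ∫⁻ z, f z * w (cub s j z) =
      ∑' q : ℤ × ℤ, (∫⁻ z in {z : ℂ | cub s j z = q}, f z) * w q := by
  rw [lintegral_cub s j]
  congr 1
  ext q
  rw [← lintegral_mul_const _ hf]
  refine setLIntegral_congr_fun (measurableSet_cub s j q) ?_
  intro z hz
  have hz' : cub s j z = q := hz
  simp only [hz']

/-- `W` is a function of the cube of generation `j` -/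
def CM (s : ℝ) (j : ℤ) (W : ℂ → ℝ≥0∞) : Prop := ∃ w : ℤ × ℤ → ℝ≥0∞, ∀ z, W z = w (cub s j z)

theorem cub_nest {s : ℝ} {i j : ℤ} (hij : i ≤ j) (z : ℂ) :
    cub s i z = ((cub s j z).1 / ((2 ^ (j - i).toNat : ℕ) : ℤ),
      (cub s j z).2 / ((2 ^ (j - i).toNat : ℕ) : ℤ)) := by
  unfold cub
  have key : ∀ x : ℝ, x / (s * 2 ^ (-i)) = x / (s * 2 ^ (-j)) / ((2 ^ (j - i).toNat : ℕ) : ℝ) := by
    intro x
    have h1 : (2:ℝ) ^ (-i) = 2 ^ (-j) * ((2 ^ (j - i).toNat : ℕ) : ℝ) := by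
      push_cast
      rw [← zpow_natCast, Int.toNat_of_nonneg (by omega), ← zpow_add₀ (by norm_num)]
      congr 1; ring
    rw [h1, div_div, mul_assoc]
  simp only [key, Int.floor_div_natCast]

theorem CM.mono {s : ℝ} {i j : ℤ} (hij : i ≤ j) {W : ℂ → ℝ≥0∞} (h : CM s i W) :
    CM s j W := by
  obtain ⟨w, hw⟩ := h
  refine ⟨fun q => w (q.1 / ((2 ^ (j - i).toNat : ℕ) : ℤ), q.2 / ((2 ^ (j - i).toNat : ℕ) : ℤ)), ?_⟩
  intro z
  rw [hw z, cub_nest hij z]

theorem CM.measurable {s : ℝ} {j : ℤ} {W : ℂ → ℝ≥0∞} (h : CM s j W) : Measurable W := by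
  obtain ⟨w, hw⟩ := h
  have : W = w ∘ cub s j := funext hw
  rw [this]
  exact (measurable_of_countable w).comp (measurable_cub s j)

theorem cm_avg (s : ℝ) (j : ℤ) (G : ℂ → ℝ≥0∞) : CM s j (avg s j G) :=
  ⟨fun q => ENNReal.ofReal ((s * 2 ^ (-j)) ^ 2)⁻¹ * ∫⁻ w in {w : ℂ | cub s j w = q}, G w,
    fun _ => rfl⟩

theorem CM.pow {s : ℝ} {j : ℤ} {W : ℂ → ℝ≥0∞} (h : CM s j W) (k : ℕ) :
    CM s j (fun z => W z ^ k) := by
  obtain ⟨w, hw⟩ := h
  exact ⟨fun q => w q ^ k, fun z => by simp only [hw z]⟩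

theorem CM.sub {s : ℝ} {j : ℤ} {W V : ℂ → ℝ≥0∞} (h : CM s j W) (h' : CM s j V) :
    CM s j (fun z => W z - V z) := by
  obtain ⟨w, hw⟩ := h
  obtain ⟨v, hv⟩ := h'
  exact ⟨fun q => w q - v q, fun z => by simp only [hw z, hv z]⟩

theorem CM.sum {s : ℝ} {j : ℤ} {ι : Type*} (t : Finset ι) (W : ι → ℂ → ℝ≥0∞)
    (h : ∀ i ∈ t, CM s j (W i)) : CM s j (fun z => ∑ i ∈ t, W i z) := by
  classical
  choose! w hw using h
  exact ⟨fun q => ∑ i ∈ t, w i q, fun z => Finset.sum_congr rfl fun i hi => hw i hi z⟩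

/-- the average is the conditional expectation -/
theorem lintegral_avg_mul {s : ℝ} (hs : 0 < s) (j : ℤ) {G : ℂ → ℝ≥0∞} (hG : Measurable G)
    {W : ℂ → ℝ≥0∞} (hW : CM s j W) :
    ∫⁻ z, avg s j G z * W z = ∫⁻ z, G z * W z := by
  obtain ⟨w, hw⟩ := hW
  simp only [hw]
  rw [lintegral_mul_cub s j (cm_avg s j G).measurable, lintegral_mul_cub s j hG]
  congr 1
  ext q
  congr 1
  have hapos : 0 < s * (2:ℝ) ^ (-j) := by positivity
  have h1 : ∫⁻ z in {z : ℂ | cub s j z = q}, avg s j G z =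
      ∫⁻ z in {z : ℂ | cub s j z = q}, (ENNReal.ofReal ((s * 2 ^ (-j)) ^ 2)⁻¹ *
        ∫⁻ w in {w : ℂ | cub s j w = q}, G w) := by
    refine setLIntegral_congr_fun (measurableSet_cub s j q) ?_
    intro z hz
    have hz' : cub s j z = q := hz
    simp only [avg, hz']
  rw [h1, setLIntegral_const, volume_cub hs, mul_comm, ← mul_assoc,
    ← ENNReal.ofReal_mul (by positivity), mul_inv_cancel₀ (by positivity), ENNReal.ofReal_one,
    one_mul]

theorem avg_le {s : ℝ} (hs : 0 < s) (j : ℤ) {G : ℂ → ℝ≥0∞} {C : ℝ≥0} (hC : ∀ z, G z ≤ C)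
    (z : ℂ) : avg s j G z ≤ C := by
  unfold avg
  have hapos : 0 < s * (2:ℝ) ^ (-j) := by positivity
  calc ENNReal.ofReal ((s * 2 ^ (-j)) ^ 2)⁻¹ * ∫⁻ w in {w : ℂ | cub s j w = cub s j z}, G w
      ≤ ENNReal.ofReal ((s * 2 ^ (-j)) ^ 2)⁻¹ *
          ∫⁻ w in {w : ℂ | cub s j w = cub s j z}, (C : ℝ≥0∞) := by
        gcongr; exact hC _
    _ = C := by
        rw [setLIntegral_const, volume_cub hs, mul_comm, mul_assoc,
          ← ENNReal.ofReal_mul (by positivity), mul_inv_cancel₀ (by positivity),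
          ENNReal.ofReal_one, mul_one]

/-- summation by parts -/
theorem abel {s : ℝ} (G : ℤ → ℂ → ℝ≥0∞) (hG : ∀ j, Measurable (G j))
    (h : ℂ → ℝ≥0∞) (hh : Measurable h) (A : Finset ℤ) :
    (∀ i ∈ A, ∀ q : ℤ × ℤ, ∑ j ∈ A with i ≤ j, ∫⁻ z in {z : ℂ | cub s i z = q}, G j z
      ≤ ∫⁻ z in {z : ℂ | cub s i z = q}, h z) →
    ∀ (W : ℤ → ℂ → ℝ≥0∞) (V : ℂ → ℝ≥0∞), Measurable V → (∀ j ∈ A, CM s j (W j)) →
      (∀ i ∈ A, ∀ j ∈ A, i ≤ j → ∀ z, W i z ≤ W j z) → (∀ j ∈ A, ∀ z, W j z ≤ V z) →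
      ∑ j ∈ A, ∫⁻ z, G j z * W j z ≤ ∫⁻ z, h z * V z := by
  classical
  induction A using Finset.induction_on_min with
  | empty => intro _ W V _ _ _ _; simp
  | insert a A' hmin ih =>
    intro hyp W V hV hCM hmono hle
    have ha : a ∉ A' := fun h => lt_irrefl _ (hmin a h)
    have hCa : CM s a (W a) := hCM a (Finset.mem_insert_self _ _)
    -- the inherited hypothesis
    have hyp' : ∀ i ∈ A', ∀ q : ℤ × ℤ, ∑ j ∈ A' with i ≤ j,
        ∫⁻ z in {z : ℂ | cub s i z = q}, G j z ≤ ∫⁻ z in {z : ℂ | cub s i z = q}, h z := by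
      intro i hi q
      have := hyp i (Finset.mem_insert_of_mem hi) q
      rwa [Finset.filter_insert, if_neg (not_le.mpr (hmin i hi))] at this
    have ih' := ih hyp' (fun j z => W j z - W a z) (fun z => V z - W a z)
      (hV.sub hCa.measurable)
      (fun j hj => (hCM j (Finset.mem_insert_of_mem hj)).sub
        (hCa.mono (hmin j hj).le))
      (fun i hi j hj hij z => tsub_le_tsub_right
        (hmono i (Finset.mem_insert_of_mem hi) j (Finset.mem_insert_of_mem hj) hij z) _)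
      (fun j hj z => tsub_le_tsub_right (hle j (Finset.mem_insert_of_mem hj) z) _)
    -- the base term
    have hbase : ∑ j ∈ insert a A', ∫⁻ z, G j z * W a z ≤ ∫⁻ z, h z * W a z := by
      obtain ⟨w, hw⟩ := hCa
      simp only [hw]
      rw [lintegral_mul_cub s a hh]
      have : ∀ j ∈ insert a A', ∫⁻ z, G j z * w (cub s a z) =
          ∑' q : ℤ × ℤ, (∫⁻ z in {z : ℂ | cub s a z = q}, G j z) * w q :=
        fun j _ => lintegral_mul_cub s a (hG j) w
      rw [Finset.sum_congr rfl this, ← Summable.tsum_finsetSum (fun _ _ => ENNReal.summable)]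
      refine ENNReal.tsum_le_tsum fun q => ?_
      rw [← Finset.sum_mul]
      gcongr
      have := hyp a (Finset.mem_insert_self _ _) q
      rwa [Finset.filter_true_of_mem] at this
      intro x hx
      rcases Finset.mem_insert.mp hx with rfl | hx
      · exact le_rfl
      · exact (hmin x hx).le
    have hsplit : ∀ j ∈ A', ∫⁻ z, G j z * W j z =
        (∫⁻ z, G j z * W a z) + ∫⁻ z, G j z * (W j z - W a z) := by
      intro j hj
      have hm : Measurable fun z => G j z * W a z := (hG j).mul hCa.measurable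
      rw [← lintegral_add_left hm]
      refine lintegral_congr fun z => ?_
      rw [← mul_add, add_tsub_cancel_of_le
        (hmono a (Finset.mem_insert_self _ _) j (Finset.mem_insert_of_mem hj) (hmin j hj).le z)]
    have hsplitV : ∫⁻ z, h z * V z =
        (∫⁻ z, h z * W a z) + ∫⁻ z, h z * (V z - W a z) := by
      have hm : Measurable fun z => h z * W a z := hh.mul hCa.measurable
      rw [← lintegral_add_left hm]
      refine lintegral_congr fun z => ?_
      rw [← mul_add, add_tsub_cancel_of_le (hle a (Finset.mem_insert_self _ _) z)]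
    rw [Finset.sum_insert ha, Finset.sum_congr rfl hsplit, Finset.sum_add_distrib, ← add_assoc,
      hsplitV]
    rw [Finset.sum_insert ha] at hbase
    exact add_le_add hbase ih'

theorem pow_telescope (a b : ℝ≥0∞) (k : ℕ) :
    (a + b) ^ k ≤ a ^ k + k * (b * (a + b) ^ (k - 1)) := by
  induction k with
  | zero => simp
  | succ k ih =>
    rcases Nat.eq_zero_or_pos k with rfl | hk
    · simp
    · calc (a + b) ^ (k + 1) = (a + b) ^ k * (a + b) := pow_succ _ _
        _ = (a + b) ^ k * a + (a + b) ^ k * b := mul_add _ _ _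
        _ ≤ (a ^ k + k * (b * (a + b) ^ (k - 1))) * a + (a + b) ^ k * b := by gcongr
        _ = a ^ (k + 1) + k * (b * ((a + b) ^ (k - 1) * a)) + (a + b) ^ k * b := by ring
        _ ≤ a ^ (k + 1) + k * (b * ((a + b) ^ (k - 1) * (a + b))) + (a + b) ^ k * b := by
            gcongr; exact le_self_add
        _ = a ^ (k + 1) + ((k + 1 : ℕ) : ℝ≥0∞) * (b * (a + b) ^ (k + 1 - 1)) := by
            rw [← pow_succ, Nat.sub_add_cancel hk, Nat.add_sub_cancel]
            push_cast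
            ring

theorem sum_pow_le (A : Finset ℤ) (F : ℤ → ℝ≥0∞) (k : ℕ) (hk : 1 ≤ k) :
    (∑ j ∈ A, F j) ^ k ≤ k * ∑ j ∈ A, F j * (∑ i ∈ A with i ≤ j, F i) ^ (k - 1) := by
  classical
  induction A using Finset.induction_on_max with
  | empty => simp [Nat.pos_iff_ne_zero.mp hk]
  | insert a A' hmax ih =>
    have ha : a ∉ A' := fun h => lt_irrefl _ (hmax a h)
    have h1 : ∀ j ∈ A', (insert a A').filter (· ≤ j) = A'.filter (· ≤ j) := by
      intro j hj
      rw [Finset.filter_insert, if_neg (not_le.mpr (hmax j hj))]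
    have h2 : (insert a A').filter (· ≤ a) = insert a A' := by
      rw [Finset.filter_true_of_mem]
      intro x hx
      rcases Finset.mem_insert.mp hx with rfl | hx
      · exact le_rfl
      · exact (hmax x hx).le
    have h3 : ∑ j ∈ insert a A', F j * (∑ i ∈ insert a A' with i ≤ j, F i) ^ (k - 1) =
        F a * (∑ i ∈ insert a A', F i) ^ (k - 1) +
          ∑ j ∈ A', F j * (∑ i ∈ A' with i ≤ j, F i) ^ (k - 1) := by
      rw [Finset.sum_insert ha, h2]
      congr 1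
      exact Finset.sum_congr rfl fun j hj => by rw [h1 j hj]
    rw [h3, mul_add, Finset.sum_insert ha, add_comm (F a)]
    refine (pow_telescope _ _ k).trans ?_
    rw [add_comm]
    gcongr

end SF

open SF in
theorem square_abstract (s : ℝ) (hs : 0 < s) (A : Finset ℤ) (G : ℤ → ℂ → ℝ≥0∞)
    (hG : ∀ j, Measurable (G j)) (hfin : ∀ j ∈ A, (∫⁻ z, G j z ≠ ∞) ∧ ∃ C : ℝ≥0, ∀ z, G j z ≤ C)
    (h : ℂ → ℝ≥0∞) (hh : Measurable h)
    (hyp : ∀ i ∈ A, ∀ q : ℤ × ℤ, ∑ j ∈ A with i ≤ j, ∫⁻ z in {z : ℂ | cub s i z = q}, G j z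
      ≤ ∫⁻ z in {z : ℂ | cub s i z = q}, h z)
    (k : ℕ) (hk : 1 ≤ k) :
    ∫⁻ z, (∑ j ∈ A, avg s j (G j) z) ^ k ≤ (k : ℝ≥0∞) ^ k * ∫⁻ z, h z ^ k := by
  classical
  set S : ℂ → ℝ≥0∞ := fun z => ∑ j ∈ A, avg s j (G j) z with hSdef
  set T : ℤ → ℂ → ℝ≥0∞ := fun j z => ∑ i ∈ A with i ≤ j, avg s i (G i) z with hTdef
  have hSm : Measurable S := Finset.measurable_sum _ fun j _ => (cm_avg s j (G j)).measurable
  have hT : ∀ j, CM s j (T j) := by
    intro j
    refine CM.sum _ _ fun i hi => ?_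
    exact (cm_avg s i (G i)).mono (Finset.mem_filter.mp hi).2
  have hTS : ∀ j z, T j z ≤ S z := fun j z =>
    Finset.sum_le_sum_of_subset (Finset.filter_subset _ _)
  have hTT : ∀ i j, i ≤ j → ∀ z, T i z ≤ T j z := fun i j hij z =>
    Finset.sum_le_sum_of_subset (fun x hx => by
      rw [Finset.mem_filter] at hx ⊢
      exact ⟨hx.1, hx.2.trans hij⟩)
  -- main inequality
  have main : ∫⁻ z, S z ^ k ≤ k * ∫⁻ z, h z * S z ^ (k - 1) := by
    calc ∫⁻ z, S z ^ k
        ≤ ∫⁻ z, k * ∑ j ∈ A, avg s j (G j) z * T j z ^ (k - 1) :=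
          lintegral_mono fun z => sum_pow_le A (fun j => avg s j (G j) z) k hk
      _ = k * ∑ j ∈ A, ∫⁻ z, avg s j (G j) z * T j z ^ (k - 1) := by
          rw [lintegral_const_mul' _ _ (ENNReal.natCast_ne_top k), lintegral_finsetSum]
          intro j _
          exact (cm_avg s j (G j)).measurable.mul ((hT j).measurable.pow_const _)
      _ = k * ∑ j ∈ A, ∫⁻ z, G j z * T j z ^ (k - 1) := by
          congr 1
          exact Finset.sum_congr rfl fun j _ => lintegral_avg_mul hs j (hG j) ((hT j).pow _)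
      _ ≤ k * ∫⁻ z, h z * S z ^ (k - 1) := by
          gcongr
          refine abel G hG h hh A hyp (fun j z => T j z ^ (k - 1)) _ (hSm.pow_const _)
            (fun j _ => (hT j).pow _) (fun i _ j _ hij z => ?_) (fun j _ z => ?_)
          · exact pow_le_pow_left' (hTT i j hij z) _
          · exact pow_le_pow_left' (hTS j z) _
  -- finiteness
  have hfinS : ∫⁻ z, S z ^ k ≠ ∞ := by
    have hC : ∃ C : ℝ≥0, ∀ z, S z ≤ C := by
      have : ∀ j ∈ A, ∃ C : ℝ≥0, ∀ z, avg s j (G j) z ≤ C := fun j hj => by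
        obtain ⟨C, hC⟩ := (hfin j hj).2
        exact ⟨C, fun z => avg_le hs j hC z⟩
      choose! C hC using this
      refine ⟨∑ j ∈ A, C j, fun z => ?_⟩
      push_cast
      exact Finset.sum_le_sum fun j hj => hC j hj z
    obtain ⟨C, hC⟩ := hC
    have hS1 : ∫⁻ z, S z ≠ ∞ := by
      have : ∫⁻ z, S z = ∑ j ∈ A, ∫⁻ z, G j z := by
        rw [hSdef, lintegral_finsetSum _ fun j _ => (cm_avg s j (G j)).measurable]
        refine Finset.sum_congr rfl fun j _ => ?_
        have := lintegral_avg_mul hs j (hG j) (W := fun _ => 1) ⟨fun _ => 1, fun _ => rfl⟩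
        simpa using this
      rw [this]
      exact (ENNReal.sum_lt_top.mpr fun j hj => lt_top_iff_ne_top.mpr (hfin j hj).1).ne
    have : ∫⁻ z, S z ^ k ≤ (C : ℝ≥0∞) ^ (k - 1) * ∫⁻ z, S z := by
      rw [← lintegral_const_mul _ hSm]
      refine lintegral_mono fun z => ?_
      calc S z ^ k = S z ^ (k - 1) * S z := by rw [← pow_succ, Nat.sub_add_cancel hk]
        _ ≤ (C : ℝ≥0∞) ^ (k - 1) * S z := by gcongr; exact hC z
    refine ne_top_of_le_ne_top ?_ this
    exact ENNReal.mul_ne_top (ENNReal.pow_ne_top ENNReal.coe_ne_top) hS1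
  rcases Nat.eq_or_lt_of_le hk with hk1 | hk1
  · subst hk1
    simpa using main
  -- Hölder
  have hkr : (1:ℝ) < k := by exact_mod_cast hk1
  have hconj : (k : ℝ).HolderConjugate ((k : ℝ) / (k - 1)) := Real.HolderConjugate.conjExponent hkr
  have hold : ∫⁻ z, h z * S z ^ (k - 1) ≤
      (∫⁻ z, h z ^ k) ^ (1 / (k:ℝ)) * (∫⁻ z, S z ^ k) ^ (1 / ((k : ℝ) / (k - 1))) := by
    have := ENNReal.lintegral_mul_le_Lp_mul_Lq volume hconj hh.aemeasurable
      (hSm.pow_const (k - 1)).aemeasurable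
    refine this.trans (le_of_eq ?_)
    congr 2
    · refine lintegral_congr fun z => ?_
      rw [ENNReal.rpow_natCast]
    · refine lintegral_congr fun z => ?_
      rw [← ENNReal.rpow_natCast, ← ENNReal.rpow_mul, ← ENNReal.rpow_natCast]
      congr 1
      rw [Nat.cast_sub hk]
      have : (k:ℝ) - 1 ≠ 0 := by linarith
      field_simp
      push_cast
      ring
  set X := ∫⁻ z, S z ^ k with hX
  set Y := ∫⁻ z, h z ^ k with hY
  rcases eq_or_ne X 0 with hX0 | hX0
  · rw [hX0]; exact zero_le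
  have e1 : 1 / ((k : ℝ) / (k - 1)) = 1 - 1 / k := by
    have : (k:ℝ) - 1 ≠ 0 := by linarith
    have : (k:ℝ) ≠ 0 := by linarith
    field_simp
  rw [e1] at hold
  have h3 : X ≤ (k : ℝ≥0∞) * (Y ^ (1 / (k:ℝ)) * X ^ (1 - 1 / (k:ℝ))) := main.trans (by gcongr)
  have h4 : X ^ (1 / (k:ℝ)) ≤ (k : ℝ≥0∞) * Y ^ (1 / (k:ℝ)) := by
    have h5 : X = X ^ (1 / (k:ℝ)) * X ^ (1 - 1 / (k:ℝ)) := by
      rw [← ENNReal.rpow_add _ _ hX0 hfinS]
      simp
    have h6 : X ^ (1 - 1 / (k:ℝ)) ≠ 0 := by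
      simp [hX0, hfinS]
    have h7 : X ^ (1 - 1 / (k:ℝ)) ≠ ∞ := by
      refine ENNReal.rpow_ne_top_of_nonneg ?_ hfinS
      have : 1 / (k:ℝ) ≤ 1 := by rw [div_le_one (by linarith)]; linarith
      linarith
    rw [← ENNReal.mul_le_mul_iff_left h6 h7, ← h5, mul_assoc]
    exact h3
  calc X = (X ^ (1 / (k:ℝ))) ^ (k : ℝ) := by
        rw [← ENNReal.rpow_mul, one_div, inv_mul_cancel₀ (by linarith), ENNReal.rpow_one]
    _ ≤ ((k : ℝ≥0∞) * Y ^ (1 / (k:ℝ))) ^ (k : ℝ) := by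
        gcongr
    _ = (k : ℝ≥0∞) ^ k * Y := by
        rw [ENNReal.mul_rpow_of_nonneg _ _ (by linarith), ENNReal.rpow_natCast,
          ← ENNReal.rpow_mul, one_div, inv_mul_cancel₀ (by linarith), ENNReal.rpow_one]

end Helper72.BA.P


namespace Helper72.BA
alias square_abstract := P.square_abstract
end Helper72.BA
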