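import Pool.Agent.Helper72.BA.Defs
import Pool.Agent.Helper72.BAM.FB1
import Pool.Agent.Helper72.BAM.KE1
import Pool.Agent.Helper72.BAM.KE2
import Pool.Agent.Helper72.BAM.MX
import Pool.Agent.Helper72.BAM.NL
import Pool.Agent.Helper72.BAM.SF
import Pool.Agent.Helper72.BAM.SFb

/-!
# MP_3dd6d4_an, module FL : far lags (helper34)
-/

set_option autoImplicit false

open MeasureTheory Complex FourierTransform Filter Topology
open scoped ENNReal NNReal ComplexConjugate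

noncomputable section

namespace Helper72.BA.P
open Helper72.BA

namespace FL

theorem nice_gj (n : ℕ) (j : ℤ) {f : ℂ → ℂ} (hf : Nice f) : Nice (gj n j f) :=
  nice_cv (ker_KK n j) hf

theorem nice_zero : Nice (fun _ : ℂ => (0 : ℂ)) :=
  ⟨measurable_const, integrable_zero _ _ _, ⟨0, fun z => by simp⟩⟩

theorem nice_add {f g : ℂ → ℂ} (hf : Nice f) (hg : Nice g) : Nice (f + g) := by
  obtain ⟨C, hC⟩ := hf.bdd
  obtain ⟨D, hD⟩ := hg.bdd
  exact ⟨hf.meas.add hg.meas, hf.int.add hg.int,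
    ⟨C + D, fun z => (norm_add_le _ _).trans (add_le_add (hC z) (hD z))⟩⟩

theorem gW_insert (n : ℕ) {a : ℤ} {W : Finset ℤ} (h : a ∉ W) (f : ℂ → ℂ) :
    gW n (insert a W) f = gj n a f + gW n W f := by
  ext z
  simp [gW, Finset.sum_insert h]

theorem nice_gW (n : ℕ) (W : Finset ℤ) {f : ℂ → ℂ} (hf : Nice f) : Nice (gW n W f) := by
  classical
  induction W using Finset.induction_on with
  | empty =>
    have : gW n ∅ f = fun _ => 0 := by ext; simp [gW]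
    rw [this]
    exact nice_zero
  | insert a W h ih =>
    rw [gW_insert n h]
    exact nice_add (nice_gj n a hf) ih

theorem cv_gW {K : ℂ → ℂ} (hK : Ker K) (n : ℕ) (W : Finset ℤ) {f : ℂ → ℂ} (hf : Nice f) (z : ℂ) :
    cv K (gW n W f) z = ∑ j ∈ W, cv K (gj n j f) z := by
  classical
  induction W using Finset.induction_on with
  | empty => simp [gW, cv]
  | insert a W h ih =>
    rw [gW_insert n h, cv_add hK (nice_gj n a hf) (nice_gW n W hf), Pi.add_apply, ih,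
      Finset.sum_insert h]

theorem cv_kap_eq (n : ℕ) {a i : ℤ} (h : i < a) {f : ℂ → ℂ} (hf : Nice f) :
    cv (kap a) (gj n i f) = gj n i f := by
  have hg := nice_gj n i hf
  have c1 : Continuous (cv (kap a) (gj n i f)) := continuous_cv (ker_kap a) hg
  have c2 : Continuous (gj n i f) := continuous_cv (ker_KK n i) hf
  have i1 := integrable_fourier_cv (ker_kap a) hg
  have i2 : Integrable (𝓕 (gj n i f)) := integrable_fourier_cv (ker_KK n i) hf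
  have e : 𝓕 (cv (kap a) (gj n i f)) = 𝓕 (gj n i f) := by
    ext ξ
    rw [fourier_cv (ker_kap a) hg, fourier_kap]
    unfold gj
    rw [fourier_cv (ker_KK n i) hf, fourier_KK]
    rcases le_or_gt ‖ξ‖ ((2:ℝ) ^ a) with h1 | h1
    · rw [Psi_eq_one h1]; simp
    · have : chi i ξ = 0 := chi_eq_zero_right
        (le_trans (zpow_le_zpow_right₀ (by norm_num) (by omega)) h1.le)
      rw [this]; simp
  rw [← c1.fourierInv_fourier_eq (nice_cv (ker_kap a) hg).int i1, e,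
    c2.fourierInv_fourier_eq hg.int i2]

theorem cv_kap_zero (n : ℕ) {a i : ℤ} (h : a + 2 ≤ i) {f : ℂ → ℂ} (hf : Nice f) :
    cv (kap a) (gj n i f) = 0 := by
  have hg := nice_gj n i hf
  have c1 : Continuous (cv (kap a) (gj n i f)) := continuous_cv (ker_kap a) hg
  have i1 := integrable_fourier_cv (ker_kap a) hg
  have e : 𝓕 (cv (kap a) (gj n i f)) = 0 := by
    ext ξ
    rw [fourier_cv (ker_kap a) hg, fourier_kap]
    unfold gj
    rw [fourier_cv (ker_KK n i) hf, fourier_KK]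
    rcases le_or_gt ((2:ℝ) ^ (a + 1)) ‖ξ‖ with h1 | h1
    · rw [Psi_eq_zero h1]; simp
    · have : chi i ξ = 0 := chi_eq_zero_left
        (h1.le.trans (zpow_le_zpow_right₀ (by norm_num) (by omega)))
      rw [this]; simp
  rw [← c1.fourierInv_fourier_eq (nice_cv (ker_kap a) hg).int i1, e]
  ext z
  simp [Real.fourierInv_eq]

/-- the low part as a low pass convolution of `g_A` -/
theorem low_eq (n : ℕ) (A : Finset ℤ) (a : ℤ) {f : ℂ → ℂ} (hf : Nice f) (z : ℂ) :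
    gW n (A.filter (fun i => i < a)) f z = cv (kap a) (gW n A f) z
      - (if a ∈ A then cv (kap a) (gj n a f) z else 0)
      - (if a + 1 ∈ A then cv (kap a) (gj n (a + 1) f) z else 0) := by
  classical
  rw [cv_gW (ker_kap a) n A hf]
  have h1 : ∑ j ∈ A, cv (kap a) (gj n j f) z = ∑ j ∈ A, ((if j < a then gj n j f z else 0) +
      (if j = a then cv (kap a) (gj n a f) z else 0) +
      (if j = a + 1 then cv (kap a) (gj n (a + 1) f) z else 0)) := by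
    refine Finset.sum_congr rfl fun j _ => ?_
    rcases lt_trichotomy j a with h | h | h
    · rw [cv_kap_eq n h hf]
      simp [h, h.ne, (h.trans (lt_add_one a)).ne]
    · subst h; simp
    · rcases eq_or_lt_of_le (Int.add_one_le_iff.mpr h) with h' | h'
      · subst h'; simp
      · rw [cv_kap_zero n (by omega) hf]
        simp [h.ne', h'.ne', not_lt.mpr h.le]
  rw [h1, Finset.sum_add_distrib, Finset.sum_add_distrib, Finset.sum_ite_eq', Finset.sum_ite_eq']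
  simp only [gW, Finset.sum_filter]
  ring

/-- the weight at two points of the same square -/
theorem gam_cub {s : ℝ} (hs : 0 < s) (j : ℤ) {z z' : ℂ} (h : cub s j z' = cub s j z) (w : ℂ) :
    gam (s * 2 ^ (-j)) (z - w) ≤ 25 * gam (s * 2 ^ (-j)) (z' - w) := by
  have hapos : 0 < s * (2:ℝ) ^ (-j) := by positivity
  unfold cub at h
  generalize s * (2:ℝ) ^ (-j) = ρ at hapos h ⊢
  rw [Prod.ext_iff] at h
  have h1 := Int.abs_sub_lt_one_of_floor_eq_floor h.1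
  have h2 := Int.abs_sub_lt_one_of_floor_eq_floor h.2
  rw [← sub_div, abs_div, abs_of_pos hapos, div_lt_one hapos] at h1 h2
  have h3 : ‖z' - z‖ ^ 2 ≤ 2 * ρ ^ 2 := by
    rw [← Complex.normSq_eq_norm_sq, Complex.normSq_apply, Complex.sub_re, Complex.sub_im]
    have := abs_lt.mp h1
    have := abs_lt.mp h2
    nlinarith
  have h4 : ‖z' - w‖ ^ 2 ≤ 2 * ‖z - w‖ ^ 2 + 2 * ‖z' - z‖ ^ 2 := by
    have : ‖z' - w‖ ≤ ‖z' - z‖ + ‖z - w‖ := by
      have := norm_add_le (z' - z) (z - w)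
      simpa using this
    have h0 : 0 ≤ ‖z' - w‖ := norm_nonneg _
    nlinarith [sq_nonneg (‖z' - z‖ - ‖z - w‖)]
  have h5 : 1 + ‖z' - w‖ ^ 2 / ρ ^ 2 ≤ 5 * (1 + ‖z - w‖ ^ 2 / ρ ^ 2) := by
    have hρ : 0 < ρ ^ 2 := by positivity
    have e1 : 5 * (1 + ‖z - w‖ ^ 2 / ρ ^ 2) - (1 + ‖z' - w‖ ^ 2 / ρ ^ 2) =
        (4 * ρ ^ 2 + 5 * ‖z - w‖ ^ 2 - ‖z' - w‖ ^ 2) / ρ ^ 2 := by
      field_simp
      ring
    have : 0 ≤ (4 * ρ ^ 2 + 5 * ‖z - w‖ ^ 2 - ‖z' - w‖ ^ 2) / ρ ^ 2 := by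
      apply div_nonneg _ hρ.le
      nlinarith [sq_nonneg ‖z - w‖]
    linarith
  unfold gam
  have hX : 0 < 1 + ‖z - w‖ ^ 2 / ρ ^ 2 := by positivity
  have hY : 0 < 1 + ‖z' - w‖ ^ 2 / ρ ^ 2 := by positivity
  have h6 : ((1 + ‖z - w‖ ^ 2 / ρ ^ 2) ^ 2)⁻¹ ≤ 25 * ((1 + ‖z' - w‖ ^ 2 / ρ ^ 2) ^ 2)⁻¹ := by
    rw [← div_eq_mul_inv, inv_eq_one_div, div_le_div_iff₀ (by positivity) (by positivity), one_mul]
    calc (1 + ‖z' - w‖ ^ 2 / ρ ^ 2) ^ 2 ≤ (5 * (1 + ‖z - w‖ ^ 2 / ρ ^ 2)) ^ 2 := by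
          gcongr
      _ = 25 * (1 + ‖z - w‖ ^ 2 / ρ ^ 2) ^ 2 := by ring
  calc (ρ ^ 2)⁻¹ * ((1 + ‖z - w‖ ^ 2 / ρ ^ 2) ^ 2)⁻¹
      ≤ (ρ ^ 2)⁻¹ * (25 * ((1 + ‖z' - w‖ ^ 2 / ρ ^ 2) ^ 2)⁻¹) := by gcongr
    _ = _ := by ring

theorem measurable_gam (ρ : ℝ) : Measurable (gam ρ) := by
  unfold gam
  fun_prop

theorem gam_nonneg (ρ : ℝ) (z : ℂ) : 0 ≤ gam ρ z := by
  unfold gam
  positivity

/-- `gam ρ * h` -/
def gc (ρ : ℝ) (h : ℂ → ℝ≥0∞) (z : ℂ) : ℝ≥0∞ := ∫⁻ w, ENNReal.ofReal (gam ρ (z - w)) * h w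

theorem measurable_gc (ρ : ℝ) {h : ℂ → ℝ≥0∞} (hh : Measurable h) : Measurable (gc ρ h) := by
  unfold gc
  refine Measurable.lintegral_prod_right' (f := fun p : ℂ × ℂ =>
    ENNReal.ofReal (gam ρ (p.1 - p.2)) * h p.2) ?_
  exact (((measurable_gam ρ).comp (measurable_fst.sub measurable_snd)).ennreal_ofReal).mul
    (hh.comp measurable_snd)

theorem gc_cub {s : ℝ} (hs : 0 < s) (j : ℤ) {z z' : ℂ} (h : cub s j z' = cub s j z)
    (g : ℂ → ℝ≥0∞) :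
    gc (s * 2 ^ (-j)) g z ≤ 25 * gc (s * 2 ^ (-j)) g z' := by
  unfold gc
  rw [← lintegral_const_mul' _ _ (by norm_num)]
  refine lintegral_mono fun w => ?_
  rw [← mul_assoc]
  gcongr
  have : (25 : ℝ≥0∞) = ENNReal.ofReal 25 := by norm_num
  rw [this, ← ENNReal.ofReal_mul (by norm_num)]
  exact ENNReal.ofReal_le_ofReal (gam_cub hs j h w)

/-- convolution with the low pass kernel is dominated by the weight -/
theorem cv_kap_le {C : ℝ} (hC : 0 < C) (hb : ∀ i : ℤ, ∀ z : ℂ, ‖kap i z‖ ≤ C * gam ((2:ℝ) ^ (-i)) z)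
    (a : ℤ) (g : ℂ → ℂ) (z : ℂ) :
    ‖cv (kap a) g z‖ₑ ≤ ENNReal.ofReal C * gc ((2:ℝ) ^ (-a)) (fun w => ‖g w‖ₑ) z := by
  unfold cv gc
  refine (enorm_integral_le_lintegral_enorm _).trans ?_
  rw [← lintegral_const_mul' _ _ ENNReal.ofReal_ne_top]
  refine lintegral_mono fun w => ?_
  rw [enorm_mul, ← mul_assoc]
  gcongr
  rw [← ENNReal.ofReal_mul hC.le, ← ofReal_norm]
  exact ENNReal.ofReal_le_ofReal (hb a _)

theorem pow_three (a b c : ℝ≥0∞) (r : ℕ) :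
    (a + b + c) ^ r ≤ 3 ^ r * (a ^ r + b ^ r + c ^ r) := by
  have h1 : a + b + c ≤ 3 * max a (max b c) := by
    have ha : a ≤ max a (max b c) := le_max_left _ _
    have hb : b ≤ max a (max b c) := (le_max_left _ _).trans (le_max_right _ _)
    have hc : c ≤ max a (max b c) := (le_max_right _ _).trans (le_max_right _ _)
    calc a + b + c ≤ max a (max b c) + max a (max b c) + max a (max b c) :=
          add_le_add (add_le_add ha hb) hc
      _ = 3 * max a (max b c) := by ring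
  calc (a + b + c) ^ r ≤ (3 * max a (max b c)) ^ r := pow_le_pow_left' h1 r
    _ = 3 ^ r * (max a (max b c)) ^ r := mul_pow _ _ _
    _ ≤ 3 ^ r * (a ^ r + b ^ r + c ^ r) := by
        gcongr
        rcases max_choice a (max b c) with h | h
        · rw [h, add_assoc]; exact le_self_add
        · rw [h]
          rcases max_choice b c with h' | h'
          · rw [h', add_assoc, add_comm (a ^ r), add_assoc]; exact le_self_add
          · rw [h', add_comm]; exact le_self_add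

/-- the main term -/
theorem main_term {C0 : ℝ} (hC0 : 0 < C0)
    (hb : ∀ i : ℤ, ∀ z : ℂ, ‖kap i z‖ ≤ C0 * gam ((2:ℝ) ^ (-i)) z)
    (k : ℕ) (hk : 2 ≤ k) (CM' CS : ℝ≥0)
    (hM : ∀ (I : Finset ℤ) (ρ : ℤ → ℝ) (_ : ∀ i, 0 < ρ i) (h : ℂ → ℝ≥0∞) (_ : Measurable h),
      ∫⁻ z, (⨆ i ∈ I, ∫⁻ w, ENNReal.ofReal (gam (ρ i) (z - w)) * h w) ^ (2 * k) ≤
        CM' * ∫⁻ z, (h z) ^ (2 * k))
    (n m0 : ℕ) (A : Finset ℤ) (f : ℂ → ℂ) (hf : Nice f)
    (hS : ∫⁻ z, (∑ j ∈ A, avg (2 ^ m0) j (fun w => ‖gj n j f w‖ₑ ^ 2) z) ^ k ≤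
      CS * nrm (2 * k) f) (g : ℂ → ℂ) (hg : Nice g) :
    ∑ j ∈ A, ∫⁻ z, ‖cv (kap (j - m0)) g z‖ₑ ^ (2 * k - 2) * ‖gj n j f z‖ₑ ^ 2 ≤
      (ENNReal.ofReal C0 * 25) ^ (2 * k - 2) * ((CM' : ℝ≥0∞) ^ (1 - 1 / k : ℝ) *
        (CS : ℝ≥0∞) ^ (1 / k : ℝ)) *
        ((nrm (2 * k) g) ^ (1 - 1 / k : ℝ) * (nrm (2 * k) f) ^ (1 / k : ℝ)) := by
  classical
  set s : ℝ := 2 ^ m0 with hsdef
  have hs : 0 < s := by positivity
  set h : ℂ → ℝ≥0∞ := fun w => ‖g w‖ₑ with hh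
  have hhm : Measurable h := hg.meas.enorm
  set ρ : ℤ → ℝ := fun i => s * 2 ^ (-i) with hρ
  set Mg : ℂ → ℝ≥0∞ := fun z => ⨆ i ∈ A, gc (ρ i) h z with hMg
  have hMgm : Measurable Mg := by
    refine Measurable.iSup fun i => Measurable.iSup fun _ => measurable_gc _ hhm
  set D : ℝ≥0∞ := ENNReal.ofReal C0 * 25 with hD
  have hDtop : D ≠ ∞ := ENNReal.mul_ne_top ENNReal.ofReal_ne_top (by norm_num)
  have hGm : ∀ j, Measurable fun w => ‖gj n j f w‖ₑ ^ 2 := fun j =>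
    (nice_gj n j hf).meas.enorm.pow_const 2
  set r := 2 * k - 2 with hr
  -- one term
  have h1 : ∀ j ∈ A, ∫⁻ z, ‖cv (kap (j - m0)) g z‖ₑ ^ r * ‖gj n j f z‖ₑ ^ 2 ≤
      ∫⁻ z, avg s j (fun w => ‖gj n j f w‖ₑ ^ 2) z * (D * Mg z) ^ r := by
    intro j hj
    set m : ℂ → ℝ≥0∞ := fun z => ⨅ (z' : ℂ) (_ : cub s j z' = cub s j z), D * Mg z' with hm
    have hmCM : SF.CM s j m := ⟨fun q => ⨅ (z' : ℂ) (_ : cub s j z' = q), D * Mg z', fun _ => rfl⟩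
    have hm1 : ∀ z, m z ≤ D * Mg z := fun z =>
      iInf₂_le (f := fun z' (_ : cub s j z' = cub s j z) => D * Mg z') z rfl
    have hm2 : ∀ z, ‖cv (kap (j - m0)) g z‖ₑ ≤ m z := by
      intro z
      refine le_iInf₂ fun z' hz' => ?_
      calc ‖cv (kap (j - m0)) g z‖ₑ ≤ ENNReal.ofReal C0 * gc ((2:ℝ) ^ (-(j - m0))) h z :=
            cv_kap_le hC0 hb _ g z
        _ = ENNReal.ofReal C0 * gc (ρ j) h z := by
            congr 2
            rw [hρ, hsdef]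
            simp only
            rw [neg_sub, ← zpow_natCast, ← zpow_add₀ (by norm_num)]
            congr 1
        _ ≤ ENNReal.ofReal C0 * (25 * gc (ρ j) h z') := by
            gcongr
            exact gc_cub hs j hz' h
        _ = D * gc (ρ j) h z' := by rw [hD, mul_assoc]
        _ ≤ D * Mg z' := by
            gcongr
            exact le_iSup₂_of_le j hj le_rfl
    calc ∫⁻ z, ‖cv (kap (j - m0)) g z‖ₑ ^ r * ‖gj n j f z‖ₑ ^ 2
        ≤ ∫⁻ z, ‖gj n j f z‖ₑ ^ 2 * m z ^ r := by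
          refine lintegral_mono fun z => ?_
          rw [mul_comm]
          gcongr
          exact hm2 z
      _ = ∫⁻ z, avg s j (fun w => ‖gj n j f w‖ₑ ^ 2) z * m z ^ r :=
          (SF.lintegral_avg_mul hs j (hGm j) (hmCM.pow r)).symm
      _ ≤ _ := by
          refine lintegral_mono fun z => ?_
          gcongr
          exact hm1 z
  set S : ℂ → ℝ≥0∞ := fun z => ∑ j ∈ A, avg s j (fun w => ‖gj n j f w‖ₑ ^ 2) z with hSdef
  have hSm : Measurable S := Finset.measurable_sum _ fun j _ => (SF.cm_avg s j _).measurable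
  have hkr : (1:ℝ) < k := by exact_mod_cast (show 1 < k by omega)
  have hk0 : (k:ℝ) ≠ 0 := by linarith
  have hk1 : (k:ℝ) - 1 ≠ 0 := by linarith
  have h1k : 1 / (k:ℝ) ≤ 1 := by rw [div_le_one (by linarith)]; exact hkr.le
  calc ∑ j ∈ A, ∫⁻ z, ‖cv (kap (j - m0)) g z‖ₑ ^ r * ‖gj n j f z‖ₑ ^ 2
      ≤ ∑ j ∈ A, ∫⁻ z, avg s j (fun w => ‖gj n j f w‖ₑ ^ 2) z * (D * Mg z) ^ r :=
        Finset.sum_le_sum h1
    _ = ∫⁻ z, D ^ r * (S z * Mg z ^ r) := by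
        rw [← lintegral_finsetSum]
        · refine lintegral_congr fun z => ?_
          rw [← Finset.sum_mul, mul_pow]
          ring
        · intro j _
          exact (SF.cm_avg s j _).measurable.mul ((hMgm.const_mul D).pow_const r)
    _ = D ^ r * ∫⁻ z, S z * Mg z ^ r := lintegral_const_mul' _ _ (ENNReal.pow_ne_top hDtop)
    _ ≤ D ^ r * ((∫⁻ z, S z ^ k) ^ (1 / (k:ℝ)) * (∫⁻ z, Mg z ^ (2 * k)) ^ (1 - 1 / (k:ℝ))) := by
        gcongr
        have hconj : (k : ℝ).HolderConjugate ((k : ℝ) / (k - 1)) :=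
          Real.HolderConjugate.conjExponent hkr
        have := ENNReal.lintegral_mul_le_Lp_mul_Lq volume hconj hSm.aemeasurable
          (hMgm.pow_const r).aemeasurable
        refine this.trans (le_of_eq ?_)
        congr 2
        · refine lintegral_congr fun z => ?_
          rw [ENNReal.rpow_natCast]
        · refine lintegral_congr fun z => ?_
          rw [← ENNReal.rpow_natCast, ← ENNReal.rpow_mul, ← ENNReal.rpow_natCast]
          congr 1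
          rw [hr, Nat.cast_sub (by omega)]
          push_cast
          field_simp
        · field_simp
    _ ≤ D ^ r * ((CS * nrm (2 * k) f) ^ (1 / (k:ℝ)) *
          (CM' * nrm (2 * k) g) ^ (1 - 1 / (k:ℝ))) := by
        gcongr
        · exact hM A ρ (fun i => by positivity) h hhm
    _ = _ := by
        rw [ENNReal.mul_rpow_of_nonneg _ _ (by positivity),
          ENNReal.mul_rpow_of_nonneg _ _ (by linarith)]
        ring

end FL

open FL in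
theorem far_lag (k : ℕ) (hk : 2 ≤ k) : ∃ C : ℝ, 0 < C ∧ ∀ n : ℕ, 1 ≤ n → ∀ m0 : ℕ,
    n ≤ 2 ^ m0 → (2:ℝ) ^ m0 ≤ 2 * n → ∀ A : Finset ℤ, ∀ f : ℂ → ℂ, Nice f →
    ∑ j ∈ A, ∫⁻ z, ‖gW n (A.filter (fun i => i < j - m0)) f z‖ₑ ^ (2 * k - 2) * ‖gj n j f z‖ₑ ^ 2
      ≤ ENNReal.ofReal C * (nrm (2 * k) (gW n A f)) ^ (1 - 1 / k : ℝ) * (nrm (2 * k) f) ^ (1 / k : ℝ)
        + ENNReal.ofReal (C * (n:ℝ) ^ (2 * k - 2) * (2:ℝ) ^ (-(2 * m0 * (1 - 1 / k) : ℝ))) * nrm (2 * k) f := by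
  obtain ⟨C0, hC0, hb⟩ := kap_bound
  obtain ⟨CM', hM⟩ := maximal (2 * k) (by omega)
  obtain ⟨CS, hS⟩ := square_fun k hk
  obtain ⟨CN, hCN, hN⟩ := near_lag' k hk
  set r := 2 * k - 2 with hr
  set E : ℝ≥0∞ := 3 ^ r * ((ENNReal.ofReal C0 * 25) ^ r * ((CM' : ℝ≥0∞) ^ (1 - 1 / k : ℝ) *
        (CS : ℝ≥0∞) ^ (1 / k : ℝ))) with hE
  have hkr : (1:ℝ) < k := by exact_mod_cast (show 1 < k by omega)
  have h1k : 1 / (k:ℝ) ≤ 1 := by rw [div_le_one (by linarith)]; exact hkr.le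
  have hEtop : E ≠ ∞ := by
    refine ENNReal.mul_ne_top (ENNReal.pow_ne_top (by norm_num)) (ENNReal.mul_ne_top
      (ENNReal.pow_ne_top (ENNReal.mul_ne_top ENNReal.ofReal_ne_top (by norm_num)))
      (ENNReal.mul_ne_top ?_ ?_))
    · exact ENNReal.rpow_ne_top_of_nonneg (by linarith) ENNReal.coe_ne_top
    · exact ENNReal.rpow_ne_top_of_nonneg (by positivity) ENNReal.coe_ne_top
  refine ⟨E.toReal + 3 ^ r * (CN + CN), by positivity, ?_⟩
  intro n hn m0 hnm hmn A f hf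
  have hg := nice_gW n A hf
  have hmain := main_term hC0 hb k hk CM' CS hM n m0 A f hf (hS n hn m0 hnm A f hf) _ hg
  have hN0 := hN n hn m0 hmn A 0 (Or.inl rfl) f hf
  have hN1 := hN n hn m0 hmn A 1 (Or.inr rfl) f hf
  have hpt : ∀ j ∈ A, ∫⁻ z, ‖gW n (A.filter (fun i => i < j - m0)) f z‖ₑ ^ r *
      ‖gj n j f z‖ₑ ^ 2 ≤ 3 ^ r * ((∫⁻ z, ‖cv (kap (j - m0)) (gW n A f) z‖ₑ ^ r *
        ‖gj n j f z‖ₑ ^ 2) +
        (∫⁻ z, ‖cv (kap (j - m0)) (gj n (j - m0 + 0) f) z‖ₑ ^ r * ‖gj n j f z‖ₑ ^ 2) +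
        (∫⁻ z, ‖cv (kap (j - m0)) (gj n (j - m0 + 1) f) z‖ₑ ^ r * ‖gj n j f z‖ₑ ^ 2)) := by
    intro j _
    have mj : Measurable fun z => ‖gj n j f z‖ₑ ^ 2 := (nice_gj n j hf).meas.enorm.pow_const 2
    have ma : ∀ g : ℂ → ℂ, Nice g → Measurable fun z =>
        ‖cv (kap (j - m0)) g z‖ₑ ^ r * ‖gj n j f z‖ₑ ^ 2 := fun g hg =>
      ((nice_cv (ker_kap _) hg).meas.enorm.pow_const r).mul mj
    have n0 := nice_gj n (j - m0 + 0) hf
    have mab : Measurable fun z => ‖cv (kap (j - m0)) (gW n A f) z‖ₑ ^ r * ‖gj n j f z‖ₑ ^ 2 +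
        ‖cv (kap (j - m0)) (gj n (j - m0 + 0) f) z‖ₑ ^ r * ‖gj n j f z‖ₑ ^ 2 :=
      (ma _ hg).add (ma _ n0)
    rw [← lintegral_add_left (ma _ hg), ← lintegral_add_left mab,
      ← lintegral_const_mul' _ _ (ENNReal.pow_ne_top (by norm_num))]
    refine lintegral_mono fun z => ?_
    rw [← add_mul, ← add_mul, ← mul_assoc]
    gcongr
    refine le_trans ?_ (pow_three _ _ _ r)
    gcongr
    rw [low_eq n A (j - m0) hf z, add_zero]
    refine (enorm_sub_le).trans ?_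
    gcongr
    · refine (enorm_sub_le).trans ?_
      gcongr
      split_ifs
      · exact le_rfl
      · simp
    · split_ifs
      · exact le_rfl
      · simp
  have hX : ENNReal.ofReal (E.toReal + 3 ^ r * (CN + CN)) ≥ E := by
    rw [ge_iff_le, ← ENNReal.ofReal_toReal hEtop]
    refine ENNReal.ofReal_le_ofReal ?_
    rw [ENNReal.toReal_ofReal ENNReal.toReal_nonneg]
    have : 0 ≤ 3 ^ r * (CN + CN) := by positivity
    linarith
  have hY : 3 ^ r * (ENNReal.ofReal (CN * (n:ℝ) ^ r * (2:ℝ) ^ (-(2 * m0 * (1 - 1 / k) : ℝ))) +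
      ENNReal.ofReal (CN * (n:ℝ) ^ r * (2:ℝ) ^ (-(2 * m0 * (1 - 1 / k) : ℝ)))) ≤
      ENNReal.ofReal ((E.toReal + 3 ^ r * (CN + CN)) * (n:ℝ) ^ r *
        (2:ℝ) ^ (-(2 * m0 * (1 - 1 / k) : ℝ))) := by
    have h3 : (3:ℝ≥0∞) ^ r = ENNReal.ofReal (3 ^ r) := by
      rw [ENNReal.ofReal_pow (by norm_num)]; norm_num
    rw [h3, ← ENNReal.ofReal_add (by positivity) (by positivity),
      ← ENNReal.ofReal_mul (by positivity)]
    refine ENNReal.ofReal_le_ofReal ?_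
    have : 0 ≤ E.toReal * ((n:ℝ) ^ r * (2:ℝ) ^ (-(2 * m0 * (1 - 1 / k) : ℝ))) := by positivity
    nlinarith
  calc ∑ j ∈ A, ∫⁻ z, ‖gW n (A.filter (fun i => i < j - m0)) f z‖ₑ ^ r * ‖gj n j f z‖ₑ ^ 2
      ≤ ∑ j ∈ A, 3 ^ r * ((∫⁻ z, ‖cv (kap (j - m0)) (gW n A f) z‖ₑ ^ r *
        ‖gj n j f z‖ₑ ^ 2) +
        (∫⁻ z, ‖cv (kap (j - m0)) (gj n (j - m0 + 0) f) z‖ₑ ^ r * ‖gj n j f z‖ₑ ^ 2) +
        (∫⁻ z, ‖cv (kap (j - m0)) (gj n (j - m0 + 1) f) z‖ₑ ^ r * ‖gj n j f z‖ₑ ^ 2)) :=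
        Finset.sum_le_sum hpt
    _ = 3 ^ r * ((∑ j ∈ A, ∫⁻ z, ‖cv (kap (j - m0)) (gW n A f) z‖ₑ ^ r *
        ‖gj n j f z‖ₑ ^ 2) +
        (∑ j ∈ A, ∫⁻ z, ‖cv (kap (j - m0)) (gj n (j - m0 + 0) f) z‖ₑ ^ r * ‖gj n j f z‖ₑ ^ 2) +
        (∑ j ∈ A, ∫⁻ z, ‖cv (kap (j - m0)) (gj n (j - m0 + 1) f) z‖ₑ ^ r *
          ‖gj n j f z‖ₑ ^ 2)) := by
        rw [← Finset.mul_sum, Finset.sum_add_distrib, Finset.sum_add_distrib]
    _ ≤ 3 ^ r * ((ENNReal.ofReal C0 * 25) ^ r * ((CM' : ℝ≥0∞) ^ (1 - 1 / k : ℝ) *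
        (CS : ℝ≥0∞) ^ (1 / k : ℝ)) *
        ((nrm (2 * k) (gW n A f)) ^ (1 - 1 / k : ℝ) * (nrm (2 * k) f) ^ (1 / k : ℝ)) +
        ENNReal.ofReal (CN * (n:ℝ) ^ r * (2:ℝ) ^ (-(2 * m0 * (1 - 1 / k) : ℝ))) * nrm (2 * k) f +
        ENNReal.ofReal (CN * (n:ℝ) ^ r * (2:ℝ) ^ (-(2 * m0 * (1 - 1 / k) : ℝ))) *
          nrm (2 * k) f) := by
        gcongr
    _ = E * ((nrm (2 * k) (gW n A f)) ^ (1 - 1 / k : ℝ) * (nrm (2 * k) f) ^ (1 / k : ℝ)) +
        3 ^ r * (ENNReal.ofReal (CN * (n:ℝ) ^ r * (2:ℝ) ^ (-(2 * m0 * (1 - 1 / k) : ℝ))) +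
          ENNReal.ofReal (CN * (n:ℝ) ^ r * (2:ℝ) ^ (-(2 * m0 * (1 - 1 / k) : ℝ)))) *
          nrm (2 * k) f := by
        rw [hE]; ring
    _ ≤ ENNReal.ofReal (E.toReal + 3 ^ r * (CN + CN)) *
          ((nrm (2 * k) (gW n A f)) ^ (1 - 1 / k : ℝ) * (nrm (2 * k) f) ^ (1 / k : ℝ)) +
        ENNReal.ofReal ((E.toReal + 3 ^ r * (CN + CN)) * (n:ℝ) ^ r *
          (2:ℝ) ^ (-(2 * m0 * (1 - 1 / k) : ℝ))) * nrm (2 * k) f := by
        gcongr
    _ = _ := by rw [← mul_assoc]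

end Helper72.BA.P


namespace Helper72.BA
alias far_lag := P.far_lag
end Helper72.BA
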