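import Pool.Agent.Helper72.BA.Defs
import Pool.Agent.Helper72.BAM.FB1
import Pool.Agent.Helper72.BAM.FB2
import Pool.Agent.Helper72.BAM.KE1

/-! Module SP of MP_3dd6d4_an: vanishing of integrals by disjoint spectra. -/

set_option autoImplicit false

open MeasureTheory Complex FourierTransform Filter Topology
open scoped ENNReal NNReal ComplexConjugate

noncomputable section

namespace Helper72.BA.P
open Helper72.BA

/-- the spectrum of `a` is contained in the closed ball of radius `r` -/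
def SpecIn (r : ℝ) (a : ℂ → ℂ) : Prop := ∀ ξ, r < ‖ξ‖ → 𝓕 a ξ = 0

theorem nice_mul' {a b : ℂ → ℂ} (ha : Nice a) (hb : Nice b) : Nice (fun z => a z * b z) := by
  obtain ⟨A, hA⟩ := ha.bdd
  obtain ⟨B, hB⟩ := hb.bdd
  refine ⟨ha.meas.mul hb.meas, ?_, A * B, fun z => ?_⟩
  · exact hb.int.bdd_mul ha.meas.aestronglyMeasurable (ae_of_all _ hA)
  · rw [norm_mul]
    exact mul_le_mul (hA z) (hB z) (norm_nonneg _) ((norm_nonneg _).trans (hA z))

theorem nice_conj {a : ℂ → ℂ} (ha : Nice a) : Nice (fun z => conj (a z)) := by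
  obtain ⟨A, hA⟩ := ha.bdd
  refine ⟨continuous_conj.measurable.comp ha.meas, ?_, A, fun z => by
    simpa using hA z⟩
  refine ha.int.mono (continuous_conj.measurable.comp ha.meas).aestronglyMeasurable
    (ae_of_all _ fun z => ?_)
  simp

theorem specIn_mul {a b : ℂ → ℂ} {r s : ℝ} (ha : Nice a) (hb : Nice b) (hbc : Continuous b)
    (hbi : Integrable (𝓕 b)) (hra : SpecIn r a) (hsb : SpecIn s b) :
    SpecIn (r + s) (fun z => a z * b z) := by
  intro ξ hξ
  rw [fourier_mul ha hb hbc hbi ξ]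
  have : ∀ η, 𝓕 b η * 𝓕 a (ξ - η) = 0 := by
    intro η
    by_cases h : s < ‖η‖
    · rw [hsb η h, zero_mul]
    · have : r < ‖ξ - η‖ := by
        have h1 := norm_sub_norm_le ξ η
        push Not at h
        linarith
      rw [hra _ this, mul_zero]
  simp [this]

theorem nice_specIn_mul_pow {c a : ℂ → ℂ} {r s : ℝ} (hc : Nice c) (ha : Nice a)
    (hac : Continuous a) (hai : Integrable (𝓕 a)) (hs : SpecIn s c) (hr : SpecIn r a) (m : ℕ) :
    Nice (fun z => c z * a z ^ m) ∧ SpecIn (s + m * r) (fun z => c z * a z ^ m) := by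
  induction m with
  | zero => simpa using ⟨hc, hs⟩
  | succ m ih =>
    have h1 : (fun z => c z * a z ^ (m + 1)) = fun z => (c z * a z ^ m) * a z := by
      funext z; ring
    rw [h1]
    refine ⟨nice_mul' ih.1 ha, ?_⟩
    have h2 : s + ((m + 1 : ℕ) : ℝ) * r = s + m * r + r := by push_cast; ring
    rw [h2]
    exact specIn_mul ih.1 ha hac hai ih.2 hr

theorem fourier_conj' (a : ℂ → ℂ) (ξ : ℂ) :
    𝓕 (fun z => conj (a z)) ξ = conj (𝓕 a (-ξ)) := by
  rw [Real.fourier_eq, Real.fourier_eq, ← integral_conj]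
  apply integral_congr_ae (ae_of_all _ fun z => ?_)
  show 𝐞 (-inner ℝ z ξ) • conj (a z) = conj (𝐞 (-inner ℝ z (-ξ)) • a z)
  rw [Circle.smul_def, Circle.smul_def, smul_eq_mul, smul_eq_mul, map_mul, ← Circle.coe_inv_eq_conj,
    ← AddChar.map_neg_eq_inv]
  simp

theorem continuous_neg_fourier {a : ℂ → ℂ} (ha : Integrable a) :
    Continuous fun ξ => 𝓕 a (-ξ) :=
  (VectorFourier.fourierIntegral_continuous Real.continuous_fourierChar continuous_inner
    ha).comp continuous_neg

theorem fourier_finset_sum {ι : Type*} (s : Finset ι) (g : ι → ℂ → ℂ)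
    (hg : ∀ i ∈ s, Integrable (g i)) (ξ : ℂ) :
    𝓕 (fun z => ∑ i ∈ s, g i z) ξ = ∑ i ∈ s, 𝓕 (g i) ξ := by
  rw [Real.fourier_eq]
  simp_rw [Finset.smul_sum]
  rw [integral_finsetSum]
  · rfl
  · intro i hi
    exact (Real.fourierIntegral_convergent_iff ξ).2 (hg i hi)

theorem sp_nice_sum {ι : Type*} (s : Finset ι) (g : ι → ℂ → ℂ)
    (hg : ∀ i ∈ s, Nice (g i)) : Nice (fun z => ∑ i ∈ s, g i z) := by
  classical
  refine ⟨Finset.measurable_fun_sum s fun i hi => (hg i hi).meas,
    integrable_finsetSum s fun i hi => (hg i hi).int, ?_⟩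
  choose! C hC using fun i (hi : i ∈ s) => (hg i hi).bdd
  exact ⟨∑ i ∈ s, C i, fun z => (norm_sum_le _ _).trans (Finset.sum_le_sum fun i hi => hC i hi z)⟩

theorem nice_gW' (n : ℕ) (W : Finset ℤ) {f : ℂ → ℂ} (hf : Nice f) : Nice (gW n W f) :=
  sp_nice_sum W _ fun _ _ => nice_cv (ker_KK n _) hf

theorem continuous_gW' (n : ℕ) (W : Finset ℤ) {f : ℂ → ℂ} (hf : Nice f) :
    Continuous (gW n W f) :=
  continuous_finsetSum W fun _ _ => continuous_cv (ker_KK n _) hf

theorem fourier_gW' (n : ℕ) (W : Finset ℤ) {f : ℂ → ℂ} (hf : Nice f) (ξ : ℂ) :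
    𝓕 (gW n W f) ξ = ∑ j ∈ W, mult n ξ * (chi j ξ : ℂ) * 𝓕 f ξ := by
  have : 𝓕 (gW n W f) ξ = ∑ j ∈ W, 𝓕 (gj n j f) ξ :=
    fourier_finset_sum W (fun j => gj n j f) (fun j _ => (nice_cv (ker_KK n j) hf).int) ξ
  rw [this]
  apply Finset.sum_congr rfl
  intro j _
  rw [show gj n j f = cv (KK n j) f from rfl, fourier_cv (ker_KK n j) hf, fourier_KK]

theorem integrable_fourier_gW' (n : ℕ) (W : Finset ℤ) {f : ℂ → ℂ} (hf : Nice f) :
    Integrable (𝓕 (gW n W f)) := by
  have : 𝓕 (gW n W f) = fun ξ => ∑ j ∈ W, 𝓕 (gj n j f) ξ := by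
    funext ξ
    exact fourier_finset_sum W _ (fun j _ => (nice_cv (ker_KK n j) hf).int) ξ
  rw [this]
  exact integrable_finsetSum W fun j _ => integrable_fourier_cv (ker_KK n j) hf

theorem integral_spec_zero (n k : ℕ) (hk : 1 ≤ k) (U W : Finset ℤ)
    (hUW : ∀ i ∈ U, ∀ j ∈ W, (2 * k - 1 : ℝ) * (2:ℝ) ^ (i + 1) ≤ (2:ℝ) ^ (j - 1)) (f : ℂ → ℂ) (hf : Nice f) :
    ∫ z, ‖gW n U f z‖ ^ (2 * k - 2) * (conj (gW n U f z) * gW n W f z).re = 0 := by
  classical
  have hk1 : (0:ℝ) < 2 * k - 1 := by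
    have : (1:ℝ) ≤ k := by exact_mod_cast hk
    linarith
  rcases W.eq_empty_or_nonempty with rfl | hW
  · simp [gW]
  rcases U.eq_empty_or_nonempty with rfl | hU
  · simp [gW]
  set a := gW n U f with ha
  set x := gW n W f with hx
  set r : ℝ := (2:ℝ) ^ (U.max' hU + 1) with hr
  have haN : Nice a := nice_gW' n U hf
  have haC : Continuous a := continuous_gW' n U hf
  have haI : Integrable (𝓕 a) := integrable_fourier_gW' n U hf
  have haS : SpecIn r a := by
    intro ξ hξ
    rw [ha, fourier_gW' n U hf]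
    apply Finset.sum_eq_zero
    intro j hj
    have : chi j ξ = 0 := by
      apply chi_eq_zero_right
      refine le_trans ?_ hξ.le
      exact zpow_le_zpow_right₀ (by norm_num) (by have := U.le_max' j hj; omega)
    rw [this]
    simp
  set a' : ℂ → ℂ := fun z => conj (a z) with ha'
  have ha'N : Nice a' := nice_conj haN
  have ha'C : Continuous a' := continuous_conj.comp haC
  have ha'F : 𝓕 a' = fun ξ => conj (𝓕 a (-ξ)) := by
    funext ξ; exact fourier_conj' a ξ
  have ha'I : Integrable (𝓕 a') := by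
    rw [ha'F]
    have h1 : Integrable (fun ξ => 𝓕 a (-ξ)) := haI.comp_neg
    refine h1.mono ((continuous_conj.comp (continuous_neg_fourier haN.int)).aestronglyMeasurable)
      (ae_of_all _ fun z => ?_)
    simp
  have ha'S : SpecIn r a' := by
    intro ξ hξ
    rw [ha'F]
    simp only
    rw [haS (-ξ) (by simpa using hξ), map_zero]
  obtain ⟨m, rfl⟩ : ∃ m, k = m + 1 := ⟨k - 1, by omega⟩
  have hm : 2 * (m + 1) - 2 = 2 * m := by omega
  rw [hm]
  obtain ⟨hb1, hb2⟩ := nice_specIn_mul_pow ha'N ha'N ha'C ha'I ha'S ha'S m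
  obtain ⟨hc1, hc2⟩ := nice_specIn_mul_pow hb1 haN haC haI hb2 haS m
  set b : ℂ → ℂ := fun z => a' z * a' z ^ m * a z ^ m with hb
  have hid : ∀ z, ‖a z‖ ^ (2 * m) * (conj (a z) * x z).re = (b z * x z).re := by
    intro z
    have h1 : b z = ((‖a z‖ ^ (2 * m) : ℝ) : ℂ) * conj (a z) := by
      simp only [hb, ha']
      have h2 : conj (a z) * a z = ((‖a z‖ ^ 2 : ℝ) : ℂ) := by
        rw [mul_comm, Complex.mul_conj, Complex.normSq_eq_norm_sq]
      calc conj (a z) * conj (a z) ^ m * a z ^ m = (conj (a z) * a z) ^ m * conj (a z) := by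
            rw [mul_pow]; ring
        _ = _ := by rw [h2]; push_cast; ring
    rw [h1, mul_assoc, Complex.re_ofReal_mul]
  have hxN : Nice x := nice_gW' n W hf
  have hxC : Continuous x := continuous_gW' n W hf
  have hxI : Integrable (𝓕 x) := integrable_fourier_gW' n W hf
  have hbx : Integrable (fun z => b z * x z) := (nice_mul' hc1 hxN).int
  have h0 : ∫ z, b z * x z = 0 := by
    have h1 : ∫ z, b z * x z = 𝓕 (fun z => b z * x z) 0 := by
      rw [Real.fourier_eq]
      simp
    rw [h1, fourier_mul hc1 hxN hxC hxI]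
    have h2 : ∀ η, 𝓕 x η * 𝓕 b (0 - η) = 0 := by
      intro η
      by_cases h : ‖η‖ ≤ (2:ℝ) ^ (W.min' hW - 1)
      · have : 𝓕 x η = 0 := by
          rw [hx, fourier_gW' n W hf]
          apply Finset.sum_eq_zero
          intro j hj
          have : chi j η = 0 := by
            apply chi_eq_zero_left
            refine h.trans ?_
            exact zpow_le_zpow_right₀ (by norm_num) (by have := W.min'_le j hj; omega)
          rw [this]
          simp
        rw [this, zero_mul]
      · have : 𝓕 b (0 - η) = 0 := by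
          apply hc2
          push Not at h
          have h3 := hUW _ (U.max'_mem hU) _ (W.min'_mem hW)
          rw [zero_sub, norm_neg]
          refine lt_of_le_of_lt ?_ h
          refine le_trans (le_of_eq ?_) h3
          rw [hr]; push_cast; ring
        rw [this, mul_zero]
    rw [integral_congr_ae (ae_of_all _ h2)]
    simp
  calc ∫ z, ‖a z‖ ^ (2 * m) * (conj (a z) * x z).re = ∫ z, (b z * x z).re := by
        simp_rw [hid]
    _ = (∫ z, b z * x z).re := integral_re hbx
    _ = 0 := by rw [h0]; simp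

end Helper72.BA.P


namespace Helper72.BA
alias integral_spec_zero := P.integral_spec_zero
end Helper72.BA
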