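import Pool.Agent.Helper72.BA.Defs

/-!
# MP_3dd6d4_an : module PI (pointwise inequality)
-/

set_option autoImplicit false

open MeasureTheory Complex FourierTransform Filter Topology
open scoped ENNReal NNReal ComplexConjugate

noncomputable section

namespace Helper72.BA.P

theorem young_mix {A X : ℝ} (hA : 0 ≤ A) (hX : 0 ≤ X) (i j : ℕ) :
    A ^ (i + 1) * X ^ (j + 2) ≤ A ^ (i + j + 1) * X ^ 2 + A * X ^ (i + j + 2) := by
  rcases le_total A X with h | h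
  · have h1 : A ^ i ≤ X ^ i := pow_le_pow_left₀ hA h i
    have h2 : A ^ (i + 1) * X ^ (j + 2) ≤ A * X ^ (i + j + 2) := by
      calc A ^ (i + 1) * X ^ (j + 2) = A * X ^ (j + 2) * A ^ i := by ring
        _ ≤ A * X ^ (j + 2) * X ^ i := mul_le_mul_of_nonneg_left h1 (by positivity)
        _ = A * X ^ (i + j + 2) := by ring
    have h3 : 0 ≤ A ^ (i + j + 1) * X ^ 2 := by positivity
    linarith
  · have h1 : X ^ j ≤ A ^ j := pow_le_pow_left₀ hX h j
    have h2 : A ^ (i + 1) * X ^ (j + 2) ≤ A ^ (i + j + 1) * X ^ 2 := by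
      calc A ^ (i + 1) * X ^ (j + 2) = A ^ (i + 1) * X ^ 2 * X ^ j := by ring
        _ ≤ A ^ (i + 1) * X ^ 2 * A ^ j := mul_le_mul_of_nonneg_left h1 (by positivity)
        _ = A ^ (i + j + 1) * X ^ 2 := by ring
    have h3 : 0 ≤ A * X ^ (i + j + 2) := by positivity
    linarith

theorem expand_bound (m : ℕ) : ∃ C : ℝ, 0 ≤ C ∧ ∀ A X q : ℝ, 0 ≤ A → 0 ≤ X → |q| ≤ 2 * (A * X) →
    |(A ^ 2 + q + X ^ 2) ^ (m + 2) - (A ^ (2 * m + 4) + (m + 2) * (A ^ (2 * m + 2) * q) +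
      X ^ (2 * m + 4))| ≤ C * (A ^ (2 * m + 2) * X ^ 2 + A * X ^ (2 * m + 3)) := by
  induction m with
  | zero =>
    refine ⟨6, by norm_num, fun A X q hA hX hq => ?_⟩
    have h1 : (A ^ 2 + q + X ^ 2) ^ (0 + 2) - (A ^ (2 * 0 + 4) + ((0 : ℕ) + 2) * (A ^ (2 * 0 + 2) * q) +
      X ^ (2 * 0 + 4)) = q ^ 2 + 2 * (A ^ 2 * X ^ 2) + 2 * (q * X ^ 2) := by
      push_cast
      ring
    rw [h1]
    have h2 : q ^ 2 ≤ 4 * (A ^ 2 * X ^ 2) := by
      have := sq_le_sq' (abs_le.1 hq).1 (abs_le.1 hq).2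
      nlinarith [this]
    have h3 : |q * X ^ 2| ≤ 2 * (A * X ^ 3) := by
      rw [abs_mul, abs_of_nonneg (by positivity : (0:ℝ) ≤ X ^ 2)]
      have := mul_le_mul_of_nonneg_right hq (by positivity : (0:ℝ) ≤ X ^ 2)
      linarith
    have h4 := abs_le.1 h3
    have h5 : 0 ≤ A ^ 2 * X ^ 2 := by positivity
    have h6 : 0 ≤ A * X ^ 3 := by positivity
    rw [abs_le]
    constructor
    · norm_num
      nlinarith [sq_nonneg q]
    · norm_num
      nlinarith [sq_nonneg q]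
  | succ m ih =>
    obtain ⟨C, hC, h⟩ := ih
    refine ⟨1 + 4 * (m + 2) + 2 + 1 + 2 * (m + 2) + 8 * C, by positivity,
      fun A X q hA hX hq => ?_⟩
    have hE := h A X q hA hX hq
    set E := (A ^ 2 + q + X ^ 2) ^ (m + 2) - (A ^ (2 * m + 4) + (m + 2) * (A ^ (2 * m + 2) * q) +
      X ^ (2 * m + 4)) with hEdef
    set T := A ^ (2 * (m + 1) + 2) * X ^ 2 + A * X ^ (2 * (m + 1) + 3) with hT
    have hT0 : 0 ≤ T := by
      rw [hT]
      positivity
    have e : (A ^ 2 + q + X ^ 2) ^ (m + 1 + 2) - (A ^ (2 * (m + 1) + 4) +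
        (((m + 1 : ℕ) : ℝ) + 2) * (A ^ (2 * (m + 1) + 2) * q) + X ^ (2 * (m + 1) + 4)) =
        A ^ 2 * X ^ (2 * m + 4) + (m + 2) * (A ^ (2 * m + 2) * q ^ 2) + q * X ^ (2 * m + 4) +
        A ^ (2 * m + 4) * X ^ 2 + (m + 2) * (A ^ (2 * m + 2) * q * X ^ 2) +
        (A ^ 2 + q + X ^ 2) * E := by
      rw [hEdef]
      push_cast
      ring
    rw [e]
    have b1 : |A ^ 2 * X ^ (2 * m + 4)| ≤ T := by
      rw [abs_of_nonneg (by positivity)]
      have := young_mix hA hX 1 (2 * m + 2)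
      rw [hT]
      convert this using 2 <;> ring
    have b2 : |(m + 2) * (A ^ (2 * m + 2) * q ^ 2)| ≤ 4 * (m + 2) * T := by
      rw [abs_of_nonneg (by positivity)]
      have h2 : q ^ 2 ≤ 4 * (A ^ 2 * X ^ 2) := by
        have := sq_le_sq' (abs_le.1 hq).1 (abs_le.1 hq).2
        nlinarith [this]
      have h3 : A ^ (2 * m + 2) * q ^ 2 ≤ A ^ (2 * m + 2) * (4 * (A ^ 2 * X ^ 2)) :=
        mul_le_mul_of_nonneg_left h2 (by positivity)
      have h4 : A ^ (2 * m + 2) * (4 * (A ^ 2 * X ^ 2)) ≤ 4 * T := by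
        have h5 : 0 ≤ A * X ^ (2 * (m + 1) + 3) := by positivity
        have h6 : A ^ (2 * m + 2) * (4 * (A ^ 2 * X ^ 2)) = 4 * (A ^ (2 * (m + 1) + 2) * X ^ 2) := by
          ring
        rw [hT]
        linarith
      calc ((m : ℝ) + 2) * (A ^ (2 * m + 2) * q ^ 2) ≤ (m + 2) * (4 * T) :=
            mul_le_mul_of_nonneg_left (h3.trans h4) (by positivity)
        _ = 4 * (m + 2) * T := by ring
    have b3 : |q * X ^ (2 * m + 4)| ≤ 2 * T := by
      rw [abs_mul, abs_of_nonneg (by positivity : (0:ℝ) ≤ X ^ (2 * m + 4))]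
      have h2 := mul_le_mul_of_nonneg_right hq (by positivity : (0:ℝ) ≤ X ^ (2 * m + 4))
      have h5 : 0 ≤ A ^ (2 * (m + 1) + 2) * X ^ 2 := by positivity
      have h6 : 2 * (A * X) * X ^ (2 * m + 4) = 2 * (A * X ^ (2 * (m + 1) + 3)) := by ring
      rw [hT]
      linarith
    have b4 : |A ^ (2 * m + 4) * X ^ 2| ≤ T := by
      rw [abs_of_nonneg (by positivity)]
      have h5 : 0 ≤ A * X ^ (2 * (m + 1) + 3) := by positivity
      rw [hT]
      have h6 : A ^ (2 * m + 4) * X ^ 2 = A ^ (2 * (m + 1) + 2) * X ^ 2 := by ring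
      linarith
    have b5 : |(m + 2) * (A ^ (2 * m + 2) * q * X ^ 2)| ≤ 2 * (m + 2) * T := by
      rw [abs_mul, abs_of_nonneg (by positivity : (0:ℝ) ≤ (m:ℝ) + 2), abs_mul, abs_mul,
        abs_of_nonneg (by positivity : (0:ℝ) ≤ A ^ (2 * m + 2)),
        abs_of_nonneg (by positivity : (0:ℝ) ≤ X ^ 2)]
      have h2 : A ^ (2 * m + 2) * |q| * X ^ 2 ≤ A ^ (2 * m + 2) * (2 * (A * X)) * X ^ 2 := by
        gcongr
      have h3 := young_mix hA hX (2 * m + 2) 1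
      have h4 : A ^ (2 * m + 2) * (2 * (A * X)) * X ^ 2 = 2 * (A ^ (2 * m + 2 + 1) * X ^ (1 + 2)) := by
        ring
      have h5 : A ^ (2 * m + 2 + 1 + 1) * X ^ 2 + A * X ^ (2 * m + 2 + 1 + 2) = T := by
        rw [hT]
        ring
      rw [h5] at h3
      calc ((m : ℝ) + 2) * (A ^ (2 * m + 2) * |q| * X ^ 2)
          ≤ (m + 2) * (2 * T) := mul_le_mul_of_nonneg_left (by linarith) (by positivity)
        _ = 2 * (m + 2) * T := by ring
    have b6 : |(A ^ 2 + q + X ^ 2) * E| ≤ 8 * C * T := by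
      rw [abs_mul]
      have h1 : |A ^ 2 + q + X ^ 2| ≤ 2 * (A ^ 2 + X ^ 2) := by
        have := abs_le.1 hq
        rw [abs_le]
        constructor <;> nlinarith [sq_nonneg (A - X), sq_nonneg (A + X), this.1, this.2]
      have h2 : |A ^ 2 + q + X ^ 2| * |E| ≤ 2 * (A ^ 2 + X ^ 2) *
          (C * (A ^ (2 * m + 2) * X ^ 2 + A * X ^ (2 * m + 3))) :=
        mul_le_mul h1 hE (abs_nonneg _) (by positivity)
      have y1 := young_mix hA hX 2 (2 * m + 1)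
      have y2 := young_mix hA hX (2 * m + 1) 2
      have z1 : A ^ (2 + (2 * m + 1) + 1) * X ^ 2 + A * X ^ (2 + (2 * m + 1) + 2) = T := by
        rw [hT]
        ring
      have z2 : A ^ (2 * m + 1 + 2 + 1) * X ^ 2 + A * X ^ (2 * m + 1 + 2 + 2) = T := by
        rw [hT]
        ring
      rw [z1] at y1
      rw [z2] at y2
      have z3 : (A ^ 2 + X ^ 2) * (A ^ (2 * m + 2) * X ^ 2 + A * X ^ (2 * m + 3)) =
          T + A ^ (2 + 1) * X ^ (2 * m + 1 + 2) + A ^ (2 * m + 1 + 1) * X ^ (2 + 2) := by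
        rw [hT]
        ring
      calc |A ^ 2 + q + X ^ 2| * |E| ≤ 2 * (A ^ 2 + X ^ 2) *
          (C * (A ^ (2 * m + 2) * X ^ 2 + A * X ^ (2 * m + 3))) := h2
        _ = 2 * C * ((A ^ 2 + X ^ 2) * (A ^ (2 * m + 2) * X ^ 2 + A * X ^ (2 * m + 3))) := by ring
        _ ≤ 2 * C * (4 * T) := by
          rw [z3]
          exact mul_le_mul_of_nonneg_left (by linarith) (by positivity)
        _ = 8 * C * T := by ring
    calc _ ≤ |A ^ 2 * X ^ (2 * m + 4)| + |(m + 2) * (A ^ (2 * m + 2) * q ^ 2)| +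
          |q * X ^ (2 * m + 4)| + |A ^ (2 * m + 4) * X ^ 2| +
          |(m + 2) * (A ^ (2 * m + 2) * q * X ^ 2)| + |(A ^ 2 + q + X ^ 2) * E| := by
          refine (abs_add_le _ _).trans (add_le_add_left ?_ _)
          refine (abs_add_le _ _).trans (add_le_add_left ?_ _)
          refine (abs_add_le _ _).trans (add_le_add_left ?_ _)
          refine (abs_add_le _ _).trans (add_le_add_left ?_ _)
          exact abs_add_le _ _
      _ ≤ T + 4 * (m + 2) * T + 2 * T + T + 2 * (m + 2) * T + 8 * C * T := by linarith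
      _ = _ := by ring

theorem pointwise_ineq (k : ℕ) (hk : 1 ≤ k) (ε : ℝ) (hε : 0 < ε) : ∃ C : ℝ, 0 < C ∧ ∀ a x : ℂ,
    ‖a + x‖ ^ (2 * k) ≤ ‖a‖ ^ (2 * k) + 2 * k * (‖a‖ ^ (2 * k - 2) * (conj a * x).re)
      + (1 + ε) * ‖x‖ ^ (2 * k) + C * (‖a‖ ^ (2 * k - 2) * ‖x‖ ^ 2) := by
  have hsq : ∀ a x : ℂ, ‖a + x‖ ^ 2 = ‖a‖ ^ 2 + 2 * (conj a * x).re + ‖x‖ ^ 2 := by
    intro a x
    rw [← Complex.normSq_eq_norm_sq, ← Complex.normSq_eq_norm_sq, ← Complex.normSq_eq_norm_sq]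
    simp only [Complex.normSq_apply, Complex.add_re, Complex.add_im, Complex.mul_re,
      Complex.conj_re, Complex.conj_im]
    ring
  rcases Nat.lt_or_ge k 2 with h2 | h2
  · have hk1 : k = 1 := by omega
    subst hk1
    refine ⟨1, one_pos, fun a x => ?_⟩
    have h1 := hsq a x
    have h2 := mul_nonneg hε.le (sq_nonneg ‖x‖)
    rw [show 2 * 1 - 2 = 0 by rfl, show 2 * 1 = 2 by rfl, pow_zero]
    push_cast
    nlinarith [sq_nonneg ‖x‖]
  · obtain ⟨m, rfl⟩ : ∃ m, k = m + 2 := ⟨k - 2, by omega⟩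
    obtain ⟨C, hC, h⟩ := expand_bound m
    -- eta
    set η : ℝ := min 1 (ε / (C + 1)) with hη
    have hη0 : 0 < η := lt_min one_pos (by positivity)
    have hη1 : C * η ≤ ε := by
      have h3 : η ≤ ε / (C + 1) := min_le_right _ _
      calc C * η ≤ C * (ε / (C + 1)) := mul_le_mul_of_nonneg_left h3 hC
        _ = ε * (C / (C + 1)) := by ring
        _ ≤ ε * 1 := by
          refine mul_le_mul_of_nonneg_left ?_ hε.le
          rw [div_le_one (by positivity)]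
          linarith
        _ = ε := mul_one _
    refine ⟨C * (1 + (η ^ (2 * m + 1))⁻¹) + 1, by positivity, fun a x => ?_⟩
    have hq : |2 * (conj a * x).re| ≤ 2 * (‖a‖ * ‖x‖) := by
      rw [abs_mul, abs_two]
      refine mul_le_mul_of_nonneg_left ?_ zero_le_two
      refine (Complex.abs_re_le_norm _).trans ?_
      rw [norm_mul, RCLike.norm_conj]
    have hA := norm_nonneg a
    have hX := norm_nonneg x
    have h1 := (abs_le.1 (h ‖a‖ ‖x‖ _ hA hX hq)).2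
    have h3 : ‖a + x‖ ^ (2 * (m + 2)) = (‖a‖ ^ 2 + 2 * (conj a * x).re + ‖x‖ ^ 2) ^ (m + 2) := by
      rw [pow_mul, hsq]
    have e1 : 2 * (m + 2) - 2 = 2 * m + 2 := by omega
    have e2 : 2 * (m + 2) = 2 * m + 4 := by ring
    rw [h3, e1, e2]
    have h4 : ‖a‖ * ‖x‖ ^ (2 * m + 3) ≤ η * ‖x‖ ^ (2 * m + 4) +
        (η ^ (2 * m + 1))⁻¹ * (‖a‖ ^ (2 * m + 2) * ‖x‖ ^ 2) := by
      rcases le_total ‖a‖ (η * ‖x‖) with h5 | h5
      · have h6 := mul_le_mul_of_nonneg_right h5 (by positivity : 0 ≤ ‖x‖ ^ (2 * m + 3))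
        have h7 : 0 ≤ (η ^ (2 * m + 1))⁻¹ * (‖a‖ ^ (2 * m + 2) * ‖x‖ ^ 2) := by positivity
        have h8 : η * ‖x‖ * ‖x‖ ^ (2 * m + 3) = η * ‖x‖ ^ (2 * m + 4) := by ring
        linarith
      · have h6 : (η * ‖x‖) ^ (2 * m + 1) ≤ ‖a‖ ^ (2 * m + 1) :=
          pow_le_pow_left₀ (by positivity) h5 _
        rw [mul_pow] at h6
        have hp : 0 < η ^ (2 * m + 1) := by positivity
        have h7 : ‖x‖ ^ (2 * m + 1) ≤ (η ^ (2 * m + 1))⁻¹ * ‖a‖ ^ (2 * m + 1) := by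
          rw [inv_mul_eq_div, le_div_iff₀ hp]
          linarith
        have h8 := mul_le_mul_of_nonneg_left h7 (by positivity : 0 ≤ ‖a‖ * ‖x‖ ^ 2)
        have h9 : 0 ≤ η * ‖x‖ ^ (2 * m + 4) := by positivity
        have h10 : ‖a‖ * ‖x‖ ^ 2 * ‖x‖ ^ (2 * m + 1) = ‖a‖ * ‖x‖ ^ (2 * m + 3) := by ring
        have h11 : ‖a‖ * ‖x‖ ^ 2 * ((η ^ (2 * m + 1))⁻¹ * ‖a‖ ^ (2 * m + 1)) =
            (η ^ (2 * m + 1))⁻¹ * (‖a‖ ^ (2 * m + 2) * ‖x‖ ^ 2) := by ring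
        linarith
    have h5 := mul_le_mul_of_nonneg_left h4 hC
    have h6 : C * η * ‖x‖ ^ (2 * m + 4) ≤ ε * ‖x‖ ^ (2 * m + 4) :=
      mul_le_mul_of_nonneg_right hη1 (by positivity)
    have h7 : 0 ≤ ‖a‖ ^ (2 * m + 2) * ‖x‖ ^ 2 := by positivity
    push_cast at h1 ⊢
    linarith

end Helper72.BA.P


namespace Helper72.BA
alias pointwise_ineq := P.pointwise_ineq
end Helper72.BA
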