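import Pool.Agent.Helper72.BA.Defs
import Pool.Agent.Helper72.BAM.PI

set_option autoImplicit false

open MeasureTheory Complex FourierTransform Filter Topology
open scoped ENNReal NNReal ComplexConjugate

noncomputable section

namespace Helper72.BA.P

open Helper72.BA

lemma te_nice_zero : Nice (fun _ => (0 : ℂ)) :=
  ⟨measurable_const, integrable_zero _ _ _, 0, fun _ => by simp⟩

lemma te_nice_sum (x : ℕ → ℂ → ℂ) (M : ℕ) (hx : ∀ l < M, Nice (x l)) (l : ℕ) (hl : l ≤ M) :
    Nice (fun z => ∑ i ∈ Finset.range l, x i z) := by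
  induction l with
  | zero => simpa using te_nice_zero
  | succ l ih =>
    have h1 := ih (by omega)
    have h2 := hx l (by omega)
    obtain ⟨C1, hC1⟩ := h1.bdd
    obtain ⟨C2, hC2⟩ := h2.bdd
    simp only [Finset.sum_range_succ]
    exact ⟨h1.meas.add h2.meas, h1.int.add h2.int, C1 + C2, fun z =>
      (norm_add_le _ _).trans (add_le_add (hC1 z) (hC2 z))⟩

/-- products `‖a‖^p ‖x‖^q` with `q ≥ 1` are integrable -/
lemma te_int (a x : ℂ → ℂ) (ha : Nice a) (hx : Nice x) (p q : ℕ) (hq : 1 ≤ q) :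
    Integrable (fun z => ‖a z‖ ^ p * ‖x z‖ ^ q) := by
  obtain ⟨C1, hC1⟩ := ha.bdd
  obtain ⟨C2, hC2⟩ := hx.bdd
  have hC1' : 0 ≤ C1 := (norm_nonneg _).trans (hC1 0)
  have hC2' : 0 ≤ C2 := (norm_nonneg _).trans (hC2 0)
  refine (hx.int.norm.const_mul (C1 ^ p * C2 ^ (q - 1))).mono'
    ((ha.meas.norm.pow_const p).mul (hx.meas.norm.pow_const q)).aestronglyMeasurable
    (Filter.Eventually.of_forall fun z => ?_)
  rw [Real.norm_of_nonneg (by positivity)]
  calc ‖a z‖ ^ p * ‖x z‖ ^ q = ‖a z‖ ^ p * ‖x z‖ ^ (q - 1) * ‖x z‖ := by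
        rw [mul_assoc, ← pow_succ, Nat.sub_add_cancel hq]
    _ ≤ C1 ^ p * C2 ^ (q - 1) * ‖x z‖ := by
        gcongr
        · exact hC1 z
        · exact hC2 z

lemma te_int' (x : ℂ → ℂ) (hx : Nice x) (q : ℕ) (hq : 1 ≤ q) :
    Integrable (fun z => ‖x z‖ ^ q) := by
  have := te_int x x hx hx 0 q hq
  simpa using this

lemma te_nrm (x : ℂ → ℂ) (hx : Nice x) (q : ℕ) (hq : 1 ≤ q) :
    nrm q x = ENNReal.ofReal (∫ z, ‖x z‖ ^ q) := by
  rw [ofReal_integral_eq_lintegral_ofReal (te_int' x hx q hq)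
    (Filter.Eventually.of_forall fun z => by positivity)]
  unfold nrm
  refine lintegral_congr fun z => ?_
  rw [ENNReal.ofReal_pow (norm_nonneg _), ofReal_norm]

lemma te_mix (a x : ℂ → ℂ) (ha : Nice a) (hx : Nice x) (p q : ℕ) (hq : 1 ≤ q) :
    ∫⁻ z, ‖a z‖ₑ ^ p * ‖x z‖ₑ ^ q = ENNReal.ofReal (∫ z, ‖a z‖ ^ p * ‖x z‖ ^ q) := by
  rw [ofReal_integral_eq_lintegral_ofReal (te_int a x ha hx p q hq)
    (Filter.Eventually.of_forall fun z => by positivity)]
  refine lintegral_congr fun z => ?_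
  rw [ENNReal.ofReal_mul (by positivity), ENNReal.ofReal_pow (norm_nonneg _),
    ENNReal.ofReal_pow (norm_nonneg _), ofReal_norm, ofReal_norm]

theorem telescoping (k : ℕ) (hk : 1 ≤ k) (ε : ℝ) (hε : 0 < ε) : ∃ C : ℝ, 0 < C ∧
    ∀ (M : ℕ) (x : ℕ → ℂ → ℂ) (_ : ∀ l < M, Nice (x l))
      (_ : ∀ l < M, ∫ z, ‖∑ i ∈ Finset.range l, x i z‖ ^ (2 * k - 2) *
          (conj (∑ i ∈ Finset.range l, x i z) * x l z).re = 0),
      nrm (2 * k) (fun z => ∑ i ∈ Finset.range M, x i z) ≤
        ENNReal.ofReal (1 + ε) * ∑ l ∈ Finset.range M, nrm (2 * k) (x l)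
        + ENNReal.ofReal C * ∑ l ∈ Finset.range M,
            ∫⁻ z, ‖∑ i ∈ Finset.range l, x i z‖ₑ ^ (2 * k - 2) * ‖x l z‖ₑ ^ 2 := by
  obtain ⟨C, hC, hpi⟩ := pointwise_ineq k hk ε hε
  refine ⟨C, hC, fun M => ?_⟩
  induction M with
  | zero =>
    intro x _ _
    have : nrm (2 * k) (fun z => ∑ i ∈ Finset.range 0, x i z) = 0 := by
      unfold nrm
      have h0 : (2 * k) ≠ 0 := by omega
      simp [h0]
    rw [this]
    exact zero_le
  | succ M ih =>
    intro x hx hz
    have ih' := ih x (fun l hl => hx l (by omega)) (fun l hl => hz l (by omega))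
    set a : ℂ → ℂ := fun z => ∑ i ∈ Finset.range M, x i z with ha
    have haN : Nice a := te_nice_sum x (M + 1) hx M (by omega)
    have hxN : Nice (x M) := hx M (by omega)
    have hsN : Nice (fun z => ∑ i ∈ Finset.range (M + 1), x i z) :=
      te_nice_sum x (M + 1) hx (M + 1) le_rfl
    have hz' := hz M (by omega)
    have hint3 : Integrable (fun z => ‖a z‖ ^ (2 * k - 2) * (conj (a z) * x M z).re) := by
      refine (te_int a (x M) haN hxN (2 * k - 1) 1 le_rfl).mono'
        ((haN.meas.norm.pow_const _).mul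
          (measurable_re.comp ((continuous_conj.measurable.comp haN.meas).mul hxN.meas))).aestronglyMeasurable
        (Filter.Eventually.of_forall fun z => ?_)
      rw [norm_mul, norm_pow, norm_norm]
      calc ‖a z‖ ^ (2 * k - 2) * ‖(conj (a z) * x M z).re‖
          ≤ ‖a z‖ ^ (2 * k - 2) * (‖a z‖ * ‖x M z‖) := by
            gcongr
            refine (Complex.abs_re_le_norm _).trans ?_
            rw [norm_mul, RCLike.norm_conj]
        _ = ‖a z‖ ^ (2 * k - 1) * ‖x M z‖ ^ 1 := by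
            rw [pow_one, ← mul_assoc, ← pow_succ]
            congr 2
            omega
    have hmain : ∫ z, ‖∑ i ∈ Finset.range (M + 1), x i z‖ ^ (2 * k)
        ≤ (∫ z, ‖a z‖ ^ (2 * k)) + (1 + ε) * (∫ z, ‖x M z‖ ^ (2 * k))
          + C * ∫ z, ‖a z‖ ^ (2 * k - 2) * ‖x M z‖ ^ 2 := by
      have h1 : ∫ z, (‖a z‖ ^ (2 * k) + 2 * k * (‖a z‖ ^ (2 * k - 2) * (conj (a z) * x M z).re)
          + (1 + ε) * ‖x M z‖ ^ (2 * k) + C * (‖a z‖ ^ (2 * k - 2) * ‖x M z‖ ^ 2))
          = (∫ z, ‖a z‖ ^ (2 * k)) + 2 * k * (∫ z, ‖a z‖ ^ (2 * k - 2) * (conj (a z) * x M z).re)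
            + (1 + ε) * (∫ z, ‖x M z‖ ^ (2 * k))
            + C * ∫ z, ‖a z‖ ^ (2 * k - 2) * ‖x M z‖ ^ 2 := by
        rw [integral_add, integral_add, integral_add, integral_const_mul, integral_const_mul,
          integral_const_mul]
        · exact te_int' a haN _ (by omega)
        · exact hint3.const_mul _
        · exact (te_int' a haN _ (by omega)).add (hint3.const_mul _)
        · exact (te_int' (x M) hxN _ (by omega)).const_mul _
        · exact ((te_int' a haN _ (by omega)).add (hint3.const_mul _)).add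
            ((te_int' (x M) hxN _ (by omega)).const_mul _)
        · exact (te_int a (x M) haN hxN _ 2 (by omega)).const_mul _
      rw [hz', mul_zero, add_zero] at h1
      rw [← h1]
      refine integral_mono (te_int' _ hsN _ (by omega)) ?_ fun z => ?_
      · exact (((te_int' a haN _ (by omega)).add (hint3.const_mul _)).add
            ((te_int' (x M) hxN _ (by omega)).const_mul _)).add
            ((te_int a (x M) haN hxN _ 2 (by omega)).const_mul _)
      · have := hpi (a z) (x M z)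
        rw [Finset.sum_range_succ]
        exact this
    have hstep : nrm (2 * k) (fun z => ∑ i ∈ Finset.range (M + 1), x i z)
        ≤ nrm (2 * k) a + ENNReal.ofReal (1 + ε) * nrm (2 * k) (x M)
          + ENNReal.ofReal C * ∫⁻ z, ‖a z‖ₑ ^ (2 * k - 2) * ‖x M z‖ₑ ^ 2 := by
      rw [te_nrm _ hsN _ (by omega), te_nrm a haN _ (by omega), te_nrm (x M) hxN _ (by omega),
        te_mix a (x M) haN hxN _ 2 (by omega), ← ENNReal.ofReal_mul (by positivity),
        ← ENNReal.ofReal_mul hC.le, ← ENNReal.ofReal_add (by positivity) (by positivity),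
        ← ENNReal.ofReal_add (by positivity) (by positivity)]
      exact ENNReal.ofReal_le_ofReal hmain
    refine hstep.trans ?_
    rw [Finset.sum_range_succ, Finset.sum_range_succ, mul_add, mul_add]
    calc nrm (2 * k) a + ENNReal.ofReal (1 + ε) * nrm (2 * k) (x M)
          + ENNReal.ofReal C * ∫⁻ z, ‖a z‖ₑ ^ (2 * k - 2) * ‖x M z‖ₑ ^ 2
        ≤ (ENNReal.ofReal (1 + ε) * ∑ l ∈ Finset.range M, nrm (2 * k) (x l)
          + ENNReal.ofReal C * ∑ l ∈ Finset.range M,
            ∫⁻ z, ‖∑ i ∈ Finset.range l, x i z‖ₑ ^ (2 * k - 2) * ‖x l z‖ₑ ^ 2)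
          + ENNReal.ofReal (1 + ε) * nrm (2 * k) (x M)
          + ENNReal.ofReal C * ∫⁻ z, ‖a z‖ₑ ^ (2 * k - 2) * ‖x M z‖ₑ ^ 2 := by gcongr
      _ = _ := by ring

end Helper72.BA.P


namespace Helper72.BA
alias telescoping := P.telescoping
end Helper72.BA
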