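import Pool.Agent.Helper72.BAM.All

set_option autoImplicit false

open MeasureTheory Complex FourierTransform Filter Topology
open scoped ENNReal NNReal ComplexConjugate

noncomputable section

namespace Helper72.BA.P

open Helper72.BA

lemma Ak_one : Ak 1 = 1 := by
  unfold Ak
  have e : (1 - 1 / (2 * ((1:ℕ):ℝ))) = 1 / (2 * ((1:ℕ):ℝ)) := by norm_num
  rw [e]
  have : Real.Gamma (1 / (2 * ((1:ℕ):ℝ))) ≠ 0 := by
    apply (Real.Gamma_pos_of_pos (by norm_num)).ne'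
  exact div_self this

/-- even exponents, `p = 2` included -/
lemma eb (k : ℕ) (hk : 1 ≤ k) (ε : ℝ) (hε : 0 < ε) : ∃ n0 : ℕ, ∀ n : ℕ, n0 ≤ n →
    ∀ (M : ℕ) (f : ℂ → ℂ), Nice f →
    nrm (2 * k) (gW n (Finset.Ico (-M : ℤ) M) f) ≤
      ENNReal.ofReal ((1 + ε) * Ak k ^ (2 * k) * (n:ℝ) ^ (2 * k - 2)) * nrm (2 * k) f := by
  rcases Nat.lt_or_ge 1 k with h | h
  · exact even_bound k h ε hε
  · have h1 : k = 1 := by omega
    subst h1
    refine ⟨0, fun n _ M f hf => ?_⟩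
    have h2 := sum_nrm_two_windows n ({0} : Finset ℕ) (fun _ => Finset.Ico (-M : ℤ) M)
      (by
        intro i hi j hj hij
        rw [Finset.mem_singleton] at hi hj
        exact absurd (hi.trans hj.symm) hij) f hf
    rw [Finset.sum_singleton] at h2
    refine h2.trans ?_
    rw [Ak_one]
    simp only [mul_one, one_pow, Nat.sub_self, pow_zero]
    calc nrm 2 f = 1 * nrm 2 f := (one_mul _).symm
      _ ≤ ENNReal.ofReal (1 + ε) * nrm 2 f := by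
        gcongr
        rw [← ENNReal.ofReal_one]
        exact ENNReal.ofReal_le_ofReal (by linarith)

lemma nrm_eq_rpow (k : ℕ) (f : ℂ → ℂ) : nrm (2 * k) f = ∫⁻ z, ‖f z‖ₑ ^ (2 * k : ℝ) := by
  unfold nrm
  refine lintegral_congr fun z => ?_
  have e2 : (2 * k : ℝ) = ((2 * k : ℕ) : ℝ) := by push_cast; ring
  rw [e2, ENNReal.rpow_natCast]

/-- the even bound in the form needed for interpolation -/
lemma eb' (k : ℕ) (hk : 1 ≤ k) (δ : ℝ) (hδ : 0 < δ) : ∃ n0 : ℕ, ∀ n : ℕ, n0 ≤ n → 1 ≤ n →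
    ∀ (M : ℕ) (f : ℂ → ℂ), Nice f →
    ∫⁻ z, ‖gW n (Finset.Ico (-M : ℤ) M) f z‖ₑ ^ (2 * k : ℝ) ≤
      ENNReal.ofReal (((1 + δ) * Ak k * (n:ℝ) ^ (1 - 2 / (2 * k : ℝ))) ^ (2 * k : ℝ)) *
        ∫⁻ z, ‖f z‖ₑ ^ (2 * k : ℝ) := by
  obtain ⟨n0, h⟩ := eb k hk δ hδ
  refine ⟨n0, fun n hn hn1 M f hf => ?_⟩
  rw [← nrm_eq_rpow, ← nrm_eq_rpow]
  refine (h n hn M f hf).trans ?_
  gcongr ENNReal.ofReal ?_ * _
  have hA : 0 < Ak k := Ak_pos k hk
  have hn' : (0:ℝ) < n := by exact_mod_cast hn1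
  have hk' : (0:ℝ) < k := by exact_mod_cast hk
  have e1 : ((1 + δ) * Ak k * (n:ℝ) ^ (1 - 2 / (2 * k : ℝ))) ^ (2 * k : ℝ)
      = (1 + δ) ^ (2 * k) * Ak k ^ (2 * k) * (n:ℝ) ^ (2 * k - 2) := by
    have e2 : (2 * k : ℝ) = ((2 * k : ℕ) : ℝ) := by push_cast; ring
    rw [Real.mul_rpow (by positivity) (by positivity), Real.mul_rpow (by positivity) hA.le,
      ← Real.rpow_mul hn'.le]
    have e3 : (1 - 2 / (2 * k : ℝ)) * (2 * k : ℝ) = ((2 * k - 2 : ℕ) : ℝ) := by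
      rw [Nat.cast_sub (by omega)]
      push_cast
      field_simp
    rw [e3, e2, Real.rpow_natCast, Real.rpow_natCast, Real.rpow_natCast]
  rw [e1]
  gcongr
  exact le_self_pow₀ (by linarith) (by omega)

/-- the interpolation parameter -/
def th (k : ℕ) (p : ℝ) : ℝ := (1 / (2 * k) - 1 / p) * (2 * k * (k + 1))

lemma th_eq (k : ℕ) (hk : 1 ≤ k) (p : ℝ) :
    1 / p = (1 - th k p) / (2 * k) + th k p / (2 * k + 2) := by
  have hk' : (0:ℝ) < k := by exact_mod_cast hk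
  unfold th
  set q : ℝ := 1 / p
  field_simp
  ring

lemma th_nonneg (k : ℕ) (hk : 1 ≤ k) (p : ℝ) (h1 : 2 * k ≤ p) : 0 ≤ th k p := by
  have hk' : (0:ℝ) < k := by exact_mod_cast hk
  unfold th
  have : 1 / p ≤ 1 / (2 * k : ℝ) := one_div_le_one_div_of_le (by positivity) h1
  have h3 : (0:ℝ) ≤ 1 / (2 * k : ℝ) - 1 / p := by linarith
  positivity

lemma th_le_one (k : ℕ) (hk : 1 ≤ k) (p : ℝ) (h1 : 2 * k ≤ p) (h2 : p ≤ 2 * k + 2) : th k p ≤ 1 := by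
  have hk' : (0:ℝ) < k := by exact_mod_cast hk
  have hp : 0 < p := by linarith
  have h3 : 1 / (2 * k + 2 : ℝ) ≤ 1 / p := one_div_le_one_div_of_le hp h2
  have h4 := th_eq k hk p
  have h5 : (1 - th k p) / (2 * k) + th k p / (2 * k + 2)
      = 1 / (2 * k) - th k p * (1 / (2 * k) - 1 / (2 * k + 2 : ℝ)) := by ring
  rw [h5] at h4
  have h6 : (0:ℝ) < 1 / (2 * k) - 1 / (2 * k + 2 : ℝ) := by
    have : 1 / (2 * k + 2 : ℝ) < 1 / (2 * k : ℝ) := one_div_lt_one_div_of_lt (by positivity) (by linarith)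
    linarith
  have h7 : th k p * (1 / (2 * k) - 1 / (2 * k + 2 : ℝ)) ≤ 1 * (1 / (2 * k) - 1 / (2 * k + 2 : ℝ)) := by
    linarith
  exact le_of_mul_le_mul_right h7 h6

/-- bound for one exponent -/
lemma interp (k : ℕ) (hk : 1 ≤ k) (δ : ℝ) (hδ : 0 < δ) : ∃ n0 : ℕ, ∀ n : ℕ, n0 ≤ n → 1 ≤ n →
    ∀ p : ℝ, 2 * k ≤ p → p ≤ 2 * k + 2 → ∀ (M : ℕ) (f : ℂ → ℂ), Nice f →
    ∫⁻ z, ‖gW n (Finset.Ico (-M : ℤ) M) f z‖ₑ ^ p ≤
      ENNReal.ofReal (((1 + δ) * (Ak k ^ (1 - th k p) * Ak (k + 1) ^ (th k p)) *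
        (n:ℝ) ^ (1 - 2 / p)) ^ p) * ∫⁻ z, ‖f z‖ₑ ^ p := by
  obtain ⟨n0, h0⟩ := eb' k hk δ hδ
  obtain ⟨n1, h1⟩ := eb' (k + 1) (by omega) δ hδ
  refine ⟨max n0 n1, fun n hn hn1 p hp1 hp2 M f hf => ?_⟩
  have hA : 0 < Ak k := Ak_pos k hk
  have hA' : 0 < Ak (k + 1) := Ak_pos (k + 1) (by omega)
  have hn' : (0:ℝ) < n := by exact_mod_cast hn1
  have hk' : (0:ℝ) < k := by exact_mod_cast hk
  have hp : 0 < p := by linarith
  have e0 : ((2 * (k + 1 : ℕ) : ℝ)) = 2 * k + 2 := by push_cast; ring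
  have key := RTS (gW n (Finset.Ico (-M : ℤ) M)) (fun f hf => (nice_gW n _ hf).meas)
    (fun f g hf hg => gW_add n _ hf hg) (fun c f _ => gW_smul n _ f c)
    (2 * k) (2 * k + 2) (by
      have : (1:ℝ) ≤ k := by exact_mod_cast hk
      linarith) (by linarith)
    ((1 + δ) * Ak k * (n:ℝ) ^ (1 - 2 / (2 * k : ℝ)))
    ((1 + δ) * Ak (k + 1) * (n:ℝ) ^ (1 - 2 / (2 * k + 2 : ℝ))) (by positivity) (by positivity)
    (fun f hf => h0 n ((le_max_left _ _).trans hn) hn1 M f hf)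
    (fun f hf => by
      have h2 := h1 n ((le_max_right _ _).trans hn) hn1 M f hf
      rw [e0] at h2
      exact h2)
    (th k p) p (th_nonneg k hk p hp1) (th_le_one k hk p hp1 hp2) (th_eq k hk p) f hf
  refine key.trans (le_of_eq ?_)
  congr 3
  set t := th k p with ht
  have e1 := th_eq k hk p
  rw [← ht] at e1
  rw [Real.mul_rpow (by positivity) (by positivity), Real.mul_rpow (by positivity) hA.le,
    Real.mul_rpow (by positivity) (by positivity), Real.mul_rpow (by positivity) hA'.le,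
    ← Real.rpow_mul hn'.le, ← Real.rpow_mul hn'.le]
  have e2 : (1 + δ) ^ (1 - t) * (1 + δ) ^ t = 1 + δ := by
    rw [← Real.rpow_add (by linarith)]
    simp
  have e3 : (n:ℝ) ^ ((1 - 2 / (2 * k : ℝ)) * (1 - t)) * (n:ℝ) ^ ((1 - 2 / (2 * k + 2 : ℝ)) * t)
      = (n:ℝ) ^ (1 - 2 / p) := by
    rw [← Real.rpow_add hn']
    congr 1
    have e4 : 2 / p = 2 * (1 / p) := by ring
    rw [e4, e1]
    ring
  calc (1 + δ) ^ (1 - t) * Ak k ^ (1 - t) * (n:ℝ) ^ ((1 - 2 / (2 * k : ℝ)) * (1 - t)) *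
        ((1 + δ) ^ t * Ak (k + 1) ^ t * (n:ℝ) ^ ((1 - 2 / (2 * k + 2 : ℝ)) * t))
      = ((1 + δ) ^ (1 - t) * (1 + δ) ^ t) * (Ak k ^ (1 - t) * Ak (k + 1) ^ t) *
        ((n:ℝ) ^ ((1 - 2 / (2 * k : ℝ)) * (1 - t)) * (n:ℝ) ^ ((1 - 2 / (2 * k + 2 : ℝ)) * t)) := by ring
    _ = _ := by rw [e2, e3]

/-- from `∫⁻` to `eLpNorm` -/
lemma to_eLpNorm (g f : ℂ → ℂ) (p K : ℝ) (hp : 0 < p) (hK : 0 ≤ K)
    (h : ∫⁻ z, ‖g z‖ₑ ^ p ≤ ENNReal.ofReal (K ^ p) * ∫⁻ z, ‖f z‖ₑ ^ p) :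
    eLpNorm g (ENNReal.ofReal p) volume ≤ ENNReal.ofReal K * eLpNorm f (ENNReal.ofReal p) volume := by
  have h0 : ENNReal.ofReal p ≠ 0 := by simpa using hp
  rw [eLpNorm_eq_lintegral_rpow_enorm_toReal h0 ENNReal.ofReal_ne_top,
    eLpNorm_eq_lintegral_rpow_enorm_toReal h0 ENNReal.ofReal_ne_top, ENNReal.toReal_ofReal hp.le]
  calc (∫⁻ z, ‖g z‖ₑ ^ p) ^ (1 / p) ≤ (ENNReal.ofReal (K ^ p) * ∫⁻ z, ‖f z‖ₑ ^ p) ^ (1 / p) := by
        gcongr
    _ = ENNReal.ofReal K * (∫⁻ z, ‖f z‖ₑ ^ p) ^ (1 / p) := by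
        rw [ENNReal.mul_rpow_of_nonneg _ _ (by positivity),
          ENNReal.ofReal_rpow_of_nonneg (by positivity) (by positivity), one_div,
          Real.rpow_rpow_inv hK hp.ne']

/-- the general interpolated bound, for Schwartz functions -/
theorem general (k : ℕ) (hk : 1 ≤ k) (δ : ℝ) (hδ : 0 < δ) : ∃ n0 : ℕ, ∀ n : ℕ, n0 ≤ n →
    ∀ p : ℝ, 2 * k ≤ p → p ≤ 2 * k + 2 → ∀ f : SchwartzMap ℂ ℂ,
    eLpNorm (fun z => Tn n f z) (ENNReal.ofReal p) volume ≤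
      ENNReal.ofReal ((1 + δ) * (Ak k ^ (1 - th k p) * Ak (k + 1) ^ (th k p)) * (n:ℝ) ^ (1 - 2 / p)) *
        eLpNorm (fun z => f z) (ENNReal.ofReal p) volume := by
  obtain ⟨n0, h0⟩ := interp k hk δ hδ
  refine ⟨max n0 1, fun n hn p hp1 hp2 f => ?_⟩
  have hn1 : 1 ≤ n := (le_max_right _ _).trans hn
  have hk' : (1:ℝ) ≤ k := by exact_mod_cast hk
  have hp : 0 < p := by linarith
  have hA : 0 < Ak k := Ak_pos k hk
  have hA' : 0 < Ak (k + 1) := Ak_pos (k + 1) (by omega)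
  have h1 := limit_schwartz n p (by linarith) _ (fun N f hf =>
    h0 n ((le_max_left _ _).trans hn) hn1 p hp1 hp2 N f hf) f
  exact to_eLpNorm _ _ p _ hp (by positivity) h1

/-- uniform version on a closed interval -/
theorem interval_bound (k : ℕ) (hk : 1 ≤ k) (a b c : ℝ) (ha : 2 * k ≤ a) (hb : b ≤ 2 * k + 2)
    (h : ∀ p θ : ℝ, 1 / p = (1 - θ) / (2 * k) + θ / (2 * k + 2) → a ≤ p → p ≤ b →
      Ak k ^ (1 - θ) * Ak (k + 1) ^ θ < c * (p - 1)) :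
    ∃ N : ℕ, ∀ n : ℕ, N ≤ n → ∀ p : ℝ, a ≤ p → p ≤ b → ∀ f : SchwartzMap ℂ ℂ,
    eLpNorm (fun z => Tn n f z) (ENNReal.ofReal p) volume ≤
      ENNReal.ofReal (c * ((n:ℝ) ^ (1 - 2 / p) * (p - 1))) *
        eLpNorm (fun z => f z) (ENNReal.ofReal p) volume := by
  have hk' : (1:ℝ) ≤ k := by exact_mod_cast hk
  have hA : 0 < Ak k := Ak_pos k hk
  have hA' : 0 < Ak (k + 1) := Ak_pos (k + 1) (by omega)
  rcases lt_or_ge b a with hab | hab
  · exact ⟨0, fun n _ p h1 h2 => absurd (h1.trans h2) (not_le.2 hab)⟩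
  set F : ℝ → ℝ := fun p => c * (p - 1) / (Ak k ^ (1 - th k p) * Ak (k + 1) ^ (th k p)) with hF
  have hth : ContinuousOn (fun p => th k p) (Set.Icc a b) := by
    unfold th
    apply ContinuousOn.mul _ continuousOn_const
    apply ContinuousOn.sub continuousOn_const
    apply ContinuousOn.div continuousOn_const continuousOn_id
    intro x hx
    have : 0 < x := by
      have := hx.1
      linarith
    exact this.ne'
  have hcont : ContinuousOn F (Set.Icc a b) := by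
    apply ContinuousOn.div
    · fun_prop
    · apply ContinuousOn.mul
      · exact continuousOn_const.rpow (continuousOn_const.sub hth) (fun x _ => Or.inl hA.ne')
      · exact continuousOn_const.rpow hth (fun x _ => Or.inl hA'.ne')
    · intro x _
      positivity
  obtain ⟨x, hx, hmin⟩ := isCompact_Icc.exists_isMinOn ⟨a, Set.left_mem_Icc.2 hab⟩ hcont
  have hFx : 1 < F x := by
    rw [hF]
    simp only
    rw [one_lt_div (by positivity)]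
    exact h x (th k x) (th_eq k hk x) hx.1 hx.2
  obtain ⟨N, hN⟩ := general k hk (F x - 1) (by linarith)
  refine ⟨N, fun n hn p hp1 hp2 f => (hN n hn p (ha.trans hp1) (hp2.trans hb) f).trans ?_⟩
  gcongr ENNReal.ofReal ?_ * _
  have h3 : F x ≤ F p := hmin ⟨hp1, hp2⟩
  have h4 : F x * (Ak k ^ (1 - th k p) * Ak (k + 1) ^ (th k p)) ≤ c * (p - 1) := by
    rw [hF] at h3
    simp only at h3
    rwa [le_div_iff₀ (by positivity)] at h3
  have hn0 : (0:ℝ) ≤ (n:ℝ) ^ (1 - 2 / p) := by positivity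
  calc (1 + (F x - 1)) * (Ak k ^ (1 - th k p) * Ak (k + 1) ^ (th k p)) * (n:ℝ) ^ (1 - 2 / p)
      = (F x * (Ak k ^ (1 - th k p) * Ak (k + 1) ^ (th k p))) * (n:ℝ) ^ (1 - 2 / p) := by ring
    _ ≤ (c * (p - 1)) * (n:ℝ) ^ (1 - 2 / p) := by gcongr
    _ = _ := by ring

end Helper72.BA.P
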