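import Pool.Agent.Helper72.BAM.Fin

set_option autoImplicit false

open MeasureTheory Complex FourierTransform Filter Topology
open scoped ENNReal NNReal ComplexConjugate

noncomputable section

namespace Helper72.BA.P

open Helper72.BA

/-- `(1-s)_n / (s)_n ~ Γ(s)/Γ(1-s) n^(1-2s)` -/
lemma poch_asymp (s : ℝ) (hs0 : 0 < s) (hs1 : s < 1) :
    Tendsto (fun n : ℕ => (∏ j ∈ Finset.range n, ((1 - s + j) / (s + j))) / (n:ℝ) ^ (1 - 2 * s))
      atTop (𝓝 (Real.Gamma s / Real.Gamma (1 - s))) := by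
  have h1 := Real.GammaSeq_tendsto_Gamma s
  have h2 := Real.GammaSeq_tendsto_Gamma (1 - s)
  have hG : Real.Gamma (1 - s) ≠ 0 := (Real.Gamma_pos_of_pos (by linarith)).ne'
  have h3 := h1.div h2 hG
  have h4 : Tendsto (fun n : ℕ => ((s + n) / (1 - s + n))) atTop (𝓝 1) := by
    have h5 : Tendsto (fun n : ℕ => ((n:ℝ) + s) / ((n:ℝ) + (1 - s))) atTop (𝓝 1) := by
      have h6 : Tendsto (fun n : ℕ => 1 + (2 * s - 1) / ((n:ℝ) + (1 - s))) atTop (𝓝 (1 + 0)) := by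
        apply tendsto_const_nhds.add
        apply Tendsto.div_atTop tendsto_const_nhds
        exact tendsto_atTop_add_const_right _ _ tendsto_natCast_atTop_atTop
      rw [add_zero] at h6
      refine h6.congr fun n => ?_
      have : (n:ℝ) + (1 - s) ≠ 0 := by
        have : (0:ℝ) ≤ n := Nat.cast_nonneg n
        linarith
      field_simp
      ring
    refine h5.congr fun n => ?_
    rw [add_comm (n:ℝ) s, add_comm (n:ℝ) (1 - s)]
  have h7 := h3.mul h4
  rw [mul_one] at h7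
  refine h7.congr' ?_
  filter_upwards [eventually_ge_atTop 1] with n hn
  have hn' : (0:ℝ) < n := by exact_mod_cast hn
  have hp1 : ∀ m : ℕ, 0 < ∏ j ∈ Finset.range m, (s + j) := fun m =>
    Finset.prod_pos fun j _ => by positivity
  have hp2 : ∀ m : ℕ, 0 < ∏ j ∈ Finset.range m, (1 - s + j) := fun m =>
    Finset.prod_pos fun j _ => by
      have : (0:ℝ) ≤ j := Nat.cast_nonneg j
      linarith
  simp only [Pi.div_apply, Real.GammaSeq]
  rw [Finset.prod_range_succ, Finset.prod_range_succ, Finset.prod_div_distrib]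
  have e1 : (n:ℝ) ^ (1 - 2 * s) = (n:ℝ) ^ (1 - s) / (n:ℝ) ^ s := by
    rw [← Real.rpow_sub hn']
    congr 1
    ring
  rw [e1]
  have q1 := (hp1 n).ne'
  have q2 := (hp2 n).ne'
  have q3 : s + (n:ℝ) ≠ 0 := by positivity
  have q4 : 1 - s + (n:ℝ) ≠ 0 := by
    have : (0:ℝ) ≤ n := hn'.le
    linarith
  have q5 : (n:ℝ) ^ s ≠ 0 := by positivity
  have q6 : (n:ℝ) ^ (1 - s) ≠ 0 := by positivity
  have q7 : ((Nat.factorial n : ℕ) : ℝ) ≠ 0 := by positivity
  field_simp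

/-- even exponents, with the conjectured constant -/
theorem even_poch (k : ℕ) (hk : 1 ≤ k) (ε : ℝ) (hε : 0 < ε) : ∃ N : ℕ, ∀ n : ℕ, N ≤ n →
    ∀ f : SchwartzMap ℂ ℂ,
    eLpNorm (fun z => Tn n f z) (ENNReal.ofReal (2 * k)) volume ≤
      ENNReal.ofReal ((1 + ε) * ∏ j ∈ Finset.range n,
        ((1 - 1 / (2 * k : ℝ) + j) / (1 / (2 * k : ℝ) + j))) *
        eLpNorm (fun z => f z) (ENNReal.ofReal (2 * k)) volume := by
  have hk' : (1:ℝ) ≤ k := by exact_mod_cast hk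
  have hA : 0 < Ak k := Ak_pos k hk
  set δ : ℝ := min ε 1 / 3 with hδ
  have hm : 0 < min ε 1 := lt_min hε one_pos
  have hδ0 : 0 < δ := by positivity
  have hδ1 : (1 + δ) * (1 + δ) ≤ 1 + ε := by
    have h1 : min ε 1 ≤ 1 := min_le_right _ _
    have h2 : min ε 1 ≤ ε := min_le_left _ _
    have h3 : δ ≤ 1 := by rw [hδ]; linarith
    have h4 : 3 * δ ≤ ε := by rw [hδ]; linarith
    nlinarith
  obtain ⟨N0, h0⟩ := general k hk δ hδ0
  have hs1 : (1:ℝ) / (2 * k) < 1 := by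
    rw [div_lt_one (by linarith)]
    linarith
  have h1 := poch_asymp (1 / (2 * k)) (by positivity) hs1
  have h2 : Real.Gamma (1 / (2 * k)) / Real.Gamma (1 - 1 / (2 * k)) = Ak k := rfl
  rw [h2] at h1
  have h3 : Ak k / (1 + δ) < Ak k := by
    rw [div_lt_iff₀ (by linarith)]
    nlinarith
  have h4 := h1.eventually (lt_mem_nhds h3)
  obtain ⟨N1, h5⟩ := eventually_atTop.1 h4
  refine ⟨max (max N0 N1) 1, fun n hn f => ?_⟩
  have e0 : N0 ≤ n := le_trans (by simp) hn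
  have e1 : N1 ≤ n := le_trans (by simp) hn
  have e2 : 1 ≤ n := le_trans (by simp) hn
  have hn' : (0:ℝ) < n := by exact_mod_cast e2
  have h6 := h0 n e0 (2 * k) le_rfl (by linarith) f
  refine h6.trans ?_
  gcongr ENNReal.ofReal ?_ * _
  have e3 : th k (2 * k) = 0 := by unfold th; simp
  rw [e3, sub_zero, Real.rpow_one, Real.rpow_zero, mul_one]
  have h7 := h5 n e1
  have e4 : (1 - 2 / (2 * k) : ℝ) = 1 - 2 * (1 / (2 * k)) := by ring
  rw [e4]
  have hnp : 0 < (n:ℝ) ^ (1 - 2 * (1 / (2 * k : ℝ))) := by positivity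
  rw [lt_div_iff₀ hnp, div_mul_eq_mul_div, div_lt_iff₀ (by linarith)] at h7
  set Q := ∏ j ∈ Finset.range n, ((1 - 1 / (2 * k : ℝ) + j) / (1 / (2 * k : ℝ) + j)) with hQ
  have hQ0 : 0 ≤ Q := Finset.prod_nonneg fun j _ => by
    have : (0:ℝ) ≤ j := Nat.cast_nonneg j
    have : (0:ℝ) < 1 - 1 / (2 * k : ℝ) + j := by linarith
    positivity
  calc (1 + δ) * Ak k * (n:ℝ) ^ (1 - 2 * (1 / (2 * k : ℝ)))
      = (1 + δ) * (Ak k * (n:ℝ) ^ (1 - 2 * (1 / (2 * k : ℝ)))) := by ring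
    _ ≤ (1 + δ) * (Q * (1 + δ)) := by gcongr
    _ = ((1 + δ) * (1 + δ)) * Q := by ring
    _ ≤ (1 + ε) * Q := by gcongr

end Helper72.BA.P
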